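import Pool.Agent.Lib_MP_af4de1_ti.Defs

/-!
# The tip: closed form bounds for the two saddle integrals

`relL h δ` (relative error of `jL`), `bL h δ` (bound of `|mean of v|`), the same for the right saddle.
`h = a - i s` (left), `h = a + i s` (right), `m = ‖1 - h‖`, `xl = s/‖h‖ = sin (arg h)`, `qp = (√3/4)(a-1) + s/4`,
`tf` is an upper bound of `exp(-4 qp x²/δ)`, `x = arg h`.
All functions increase in `δ` (as long as `relL, relR < 1`).
-/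

set_option autoImplicit false

namespace SokalTI

noncomputable def relL (h : ℂ) (δ : ℝ) : ℝ := 599 / 1000 * ‖h‖ * √(‖1 - h‖ * δ) / h.im ^ 2

noncomputable def bL (h : ℂ) (δ : ℝ) : ℝ :=
  ‖h‖ / √‖1 - h‖ * (δ / (2 * (-h.im * √(-h.im))) + 399 / 1000 * (δ * √δ) / h.im ^ 2) / (1 - relL h δ)

noncomputable def qp (h : ℂ) : ℝ := √3 / 4 * (h.re - 1) + h.im / 4

noncomputable def xl (h : ℂ) : ℝ := h.im / ‖h‖

/-- upper bound of `exp(-4 qp x²/δ)` -/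
noncomputable def tf (h : ℂ) (δ : ℝ) : ℝ := 47 / 10 * (δ / (4 * qp h * xl h ^ 2)) ^ 4

noncomputable def relR (h : ℂ) (δ : ℝ) : ℝ :=
  399 / 1000 * ‖h‖ * √(‖1 - h‖ * δ) *
      (100 / (243 * h.im ^ 2) + (1 + 27 / 100 * √(δ / qp h)) / (12 * qp h ^ 2)) +
    tf h δ * √‖1 - h‖ * (3 / 5 / √(xl h) + 1 / 10 * √δ / (qp h * xl h))

noncomputable def bR (h : ℂ) (δ : ℝ) : ℝ :=
  (‖h‖ / √‖1 - h‖ * (59 / 200 * δ / (h.im * √h.im) +
      177 / 2000 * δ * (1 + 3 / 10 * √(δ / qp h)) / (qp h * √(qp h))) +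
    tf h δ * (2 / 5 * √δ / √‖1 - h‖ + 27 / 20 * √‖1 - h‖ * √(xl h) +
      11 / 20 * √‖1 - h‖ * √δ / xl h)) / (1 - relR h δ)

end SokalTI
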