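import Pool.Agent.Lib_MP_af4de1_ti.Link
import Pool.Agent.Lib_MP_af4de1_ti.Bounds
import Pool.Agent.Lib_MP_af4de1_fu.UReg

/-!
# The tip: the numerical conditions

The closed forms `relL, bL, relR, bR` of Lemma L and Lemma R are in `Bounds.lean`.  Conditions on the region
`D = {0 < v ≤ 19/5, 2v/5 ≤ u ≤ Uf v}`, `P_δ = {p ∈ D : Re B ≤ -πδ, |w| ≤ 1}`.
-/

set_option autoImplicit false

namespace SokalTI

open Complex SokalFU

/-! ### The region -/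

/-- the region `D` (helper19's `Dtip`) -/
noncomputable abbrev DT : Set ℂ := Dtip

/-- the window `P_δ` (helper19's `Ptip`) -/
noncomputable abbrev PT (δ : ℝ) : Set ℂ := Ptip δ

/-! ### The conditions -/

/-- (G1), (G2) -/
def CondG (p : ℂ) : Prop := 0 < (Gp p).re ∧ p.re * (Gp p).re < -(Gp p).im * p.im

/-- pointwise conditions, (W1) -/
structure PtCond (p : ℂ) (δ : ℝ) : Prop where
  lamL : 24 / 5 * δ ≤ -(hL p).im
  xs : arg (hR p) ≤ (hR p).im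
  x54 : arg (hR p) ≤ 5 / 4
  s5a : (hR p).im ≤ 5 * (hR p).re
  a97 : 97 / 100 ≤ (hR p).re
  qpos : 0 < qp (hR p)
  relL1 : relL (hL p) δ < 1
  relR1 : relR (hR p) δ < 1
  sum : bL (hL p) δ + bR (hR p) δ < p.re

/-- the left side: `|L| < |R|` -/
def CondL (p : ℂ) (δ : ℝ) : Prop :=
  Real.exp ((Bp p).im / δ) * (1 + relL (hL p) δ) * √‖1 - hR p‖ < (1 - relR (hR p) δ) * √‖1 - hL p‖

/-- the right side: `|R| < |L|` -/
def CondR (p : ℂ) (δ : ℝ) : Prop :=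
  Real.exp (-((Bp p).im / δ)) * (1 + relR (hR p) δ) * √‖1 - hL p‖ < (1 - relL (hL p) δ) * √‖1 - hR p‖

/-- the inner end, with the direction `1 + 3i` -/
def CondI (p : ℂ) (δ : ℝ) : Prop :=
  3 / 5 * (1 - (hL p).re) - 4 / 5 * (-(hL p).im) < (1 - 2 * relL (hL p) δ ^ 2) * ‖1 - hL p‖ ∧
    4 / 5 * (hR p).im - 3 / 5 * ((hR p).re - 1) < (1 - 2 * relR (hR p) δ ^ 2) * ‖1 - hR p‖

/-- all conditions at a point of the window -/
structure CondP (p : ℂ) (δ : ℝ) : Prop where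
  pt : PtCond p δ
  left : p.re = 2 / 5 * p.im → CondL p δ
  right : p.re = Uf p.im → CondR p δ
  inner : (Bp p).re = -(Real.pi * δ) → CondI p δ

/-- The numerical facts of the tip. -/
structure TipNum : Prop where
  G12 : ∀ p ∈ DT, CondG p
  /-- (G3) on the upper right side -/
  G3 : ∀ p ∈ DT, 8 / 5 ≤ p.im → p.re = 32 / 25 + 11 / 50 * (p.im - 8 / 5) →
    0 < (Gp p * (11 / 50 + I) / p).re
  /-- (G4) -/
  G4 : ∀ p ∈ DT, p.im = 19 / 5 → 1 < ‖wmap p‖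
  P : ∀ δ : ℝ, 0 < δ → δ ≤ 2 / 25 → ∀ p ∈ PT δ, CondP p δ
  /-- (W3): the left point of `|w| = 1` -/
  W3 : ∀ p ∈ DT, p.re = 2 / 5 * p.im → ‖wmap p‖ = 1 →
    (Bp p).re ≤ -(Real.pi * (2 / 25)) ∧ 3 / 4 < psiP p
  /-- (W3): the right point of `|w| = 1` -/
  W3' : ∀ p ∈ DT, p.re = Uf p.im → ‖wmap p‖ = 1 → psiP p < 3 / 4 + 2 * Real.pi

end SokalTI
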