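import Pool.Agent.Lib_MP_af4de1_ti.Box3
import Pool.Agent.Lib_MP_af4de1_ti.Cond

/-!
# Covering: the lists cover
-/

set_option autoImplicit false

namespace SokalTI

open SokalFU Complex

theorem segs_cover {t : ℤ → ℤ → Bool} {a : ℤ} {l : List ℤ} (h : segs t a l = true) (hl : l ≠ []) {x : ℝ}
    (h1 : (a : ℝ) / 1024 ≤ x) (h2 : x ≤ (lastI a l : ℝ) / 1024) :
    ∃ b c : ℤ, t b c = true ∧ (b : ℝ) / 1024 ≤ x ∧ x ≤ (c : ℝ) / 1024 := by
  induction l generalizing a with
  | nil => exact absurd rfl hl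
  | cons b l ih =>
    simp only [segs, Bool.and_eq_true] at h
    by_cases hx : x ≤ (b : ℝ) / 1024
    · exact ⟨a, b, h.1, h1, hx⟩
    · push Not at hx
      have h2' : x ≤ (lastI b l : ℝ) / 1024 := h2
      by_cases hl' : l = []
      · subst hl'
        have : lastI b [] = b := rfl
        rw [this] at h2'
        exact absurd h2' (not_le.mpr hx)
      · exact ih h.2 hl' hx.le h2'

theorem strips_cover {v : ℤ} {L : List (ℤ × ℤ × List ℤ)} (h : strips v L = true) (hL : L ≠ []) {p : ℂ} (hp : p ∈ DT)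
    (h1 : (v : ℝ) / 1024 ≤ p.im) (h2 : p.im ≤ (lastS v L : ℝ) / 1024) :
    ∃ u1 u2 v1 v2 : ℤ, cell u1 u2 v1 v2 = true ∧ (u1 : ℝ) / 1024 ≤ p.re ∧ p.re ≤ (u2 : ℝ) / 1024 ∧
      (v1 : ℝ) / 1024 ≤ p.im ∧ p.im ≤ (v2 : ℝ) / 1024 := by
  induction L generalizing v with
  | nil => exact absurd rfl hL
  | cons c L ih =>
    obtain ⟨v', u0, us⟩ := c
    simp only [strips, Bool.and_eq_true] at h
    by_cases hx : p.im ≤ (v' : ℝ) / 1024
    · obtain ⟨hs, -⟩ := h
      simp only [strip, Bool.and_eq_true, Bool.or_eq_true, decide_eq_true_eq] at hs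
      obtain ⟨⟨hs1, hs2⟩, hs3⟩ := hs
      obtain ⟨p1, p2, p3, p4⟩ := hp
      have hs1R : (5 : ℝ) * u0 ≤ 2 * v := by exact_mod_cast hs1
      have hU1 : p.re ≤ 4 / 5 * p.im := p4.trans (min_le_left _ _)
      have hU2 : p.re ≤ 32 / 25 + 11 / 50 * (p.im - 8 / 5) := p4.trans (min_le_right _ _)
      have hvv : (v : ℝ) ≤ v' := by linarith
      have hv' : (0 : ℝ) < v' := by linarith
      have hus : us ≠ [] := by
        intro hu
        subst hu
        have e : lastI u0 [] = u0 := rfl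
        rw [e] at hs2
        rcases hs2 with h5 | h5
        · have h5R : (4 : ℝ) * v' ≤ 5 * u0 := by exact_mod_cast h5
          linarith
        · have h5R : (22 : ℝ) * v' + 95028 ≤ 100 * u0 := by exact_mod_cast h5
          have h6 : (v : ℝ) ≤ 1024 * (19 / 5) := by linarith
          linarith
      have hlo : (u0 : ℝ) / 1024 ≤ p.re := by linarith
      have hhi : p.re ≤ (lastI u0 us : ℝ) / 1024 := by
        rcases hs2 with h5 | h5
        · have h5R : (4 : ℝ) * v' ≤ 5 * (lastI u0 us : ℝ) := by exact_mod_cast h5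
          linarith
        · have h5R : (22 : ℝ) * v' + 95028 ≤ 100 * (lastI u0 us : ℝ) := by exact_mod_cast h5
          linarith
      obtain ⟨b, c, hbc, hb, hc⟩ := segs_cover hs3 hus hlo hhi
      exact ⟨b, c, v, v', hbc, hb, hc, h1, hx⟩
    · push Not at hx
      have h2' : p.im ≤ (lastS v' L : ℝ) / 1024 := h2
      by_cases hl' : L = []
      · subst hl'
        have : lastS v' [] = v' := rfl
        rw [this] at h2'
        exact absurd h2' (not_le.mpr hx)
      · exact ih h.2 hl' hx.le h2'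

end SokalTI
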