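import Pool.Agent.Lib_MP_af4de1_ti.Box5a
import Pool.Agent.Lib_MP_af4de1_ti.Box5b

/-!
# Covering: `Box5a` (the discs contain the rectangles and the segments), `Box5b` (the lists cover)
-/
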