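import Pool.Agent.Lib_MP_af4de1_ti.Box3

/-!
# Tip certificate: strips, part 0
-/

set_option autoImplicit false

namespace SokalTI

/-- strips from `204 / 1024` to `476 / 1024` -/
def sd0 : List (ℤ × ℤ × List ℤ) := [
  (220, 81, [98, 118, 140, 165, 176]),
  (244, 88, [101, 116, 132, 151, 171, 194, 196]),
  (268, 97, [113, 131, 151, 174, 200, 215]),
  (292, 107, [127, 149, 175, 202, 234]),
  (316, 116, [140, 166, 195, 227, 253]),
  (348, 126, [146, 168, 193, 219, 249, 279]),
  (380, 139, [163, 190, 221, 255, 290, 304]),
  (412, 152, [180, 212, 247, 284, 326, 330]),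
  (444, 164, [195, 230, 268, 310, 356]),
  (476, 177, [212, 250, 293, 339, 381])]

theorem sd0_ok : strips 204 sd0 = true := by decide +kernel

theorem sd0_last : lastS 204 sd0 = 476 := by decide +kernel

end SokalTI
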