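import Pool.Agent.Lib_MP_af4de1_ti.Box3

/-!
# Tip certificate: strips, part 1
-/

set_option autoImplicit false

namespace SokalTI

/-- strips from `476 / 1024` to `892 / 1024` -/
def sd1 : List (ℤ × ℤ × List ℤ) := [
  (508, 190, [228, 268, 313, 362, 407]),
  (556, 203, [229, 258, 290, 327, 368, 412, 445]),
  (604, 222, [252, 287, 325, 366, 411, 460, 484]),
  (652, 241, [274, 312, 352, 397, 446, 501, 522]),
  (700, 260, [299, 341, 386, 435, 488, 549, 560]),
  (748, 280, [322, 368, 417, 470, 528, 589, 599]),
  (796, 299, [341, 387, 440, 497, 556, 620, 637]),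
  (844, 318, [360, 410, 464, 521, 582, 645, 676]),
  (892, 337, [383, 433, 487, 544, 606, 673, 714])]

theorem sd1_ok : strips 476 sd1 = true := by decide +kernel

theorem sd1_last : lastS 476 sd1 = 892 := by decide +kernel

end SokalTI
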