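import Pool.Agent.Lib_MP_af4de1_ti.Box3

/-!
# Tip certificate: strips, part 2
-/

set_option autoImplicit false

namespace SokalTI

/-- strips from `892 / 1024` to `1228 / 1024` -/
def sd2 : List (ℤ × ℤ × List ℤ) := [
  (940, 356, [402, 452, 506, 563, 626, 693, 752]),
  (988, 376, [422, 472, 526, 585, 645, 712, 779, 791]),
  (1036, 395, [441, 491, 545, 599, 661, 727, 795, 829]),
  (1084, 414, [456, 502, 552, 606, 665, 728, 792, 862, 868]),
  (1132, 433, [475, 521, 571, 625, 679, 736, 798, 860, 906]),
  (1180, 452, [491, 533, 579, 629, 679, 733, 790, 851, 913, 944]),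
  (1228, 472, [508, 547, 589, 635, 681, 731, 784, 846, 932, 983])]

theorem sd2_ok : strips 892 sd2 = true := by decide +kernel

theorem sd2_last : lastS 892 sd2 = 1228 := by decide +kernel

end SokalTI
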