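import Pool.Agent.Lib_MP_af4de1_ti.Box3

/-!
# Tip certificate: strips, part 3
-/

set_option autoImplicit false

namespace SokalTI

/-- strips from `1228 / 1024` to `2300 / 1024` -/
def sd3 : List (ℤ × ℤ × List ℤ) := [
  (1276, 491, [521, 554, 590, 629, 671, 717, 786, 887, 1011, 1021]),
  (1324, 510, [535, 562, 592, 625, 671, 752, 872, 1021, 1060]),
  (1372, 529, [546, 565, 588, 642, 737, 877, 1053, 1098]),
  (1436, 548, [578, 642, 762, 938, 1149]),
  (1532, 574, [662, 813, 1018, 1211, 1226]),
  (1660, 612, [763, 984, 1222, 1316]),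
  (1788, 664, [885, 1141, 1344]),
  (1916, 715, [971, 1227, 1372]),
  (2044, 766, [1022, 1278, 1400]),
  (2172, 817, [1073, 1329, 1429]),
  (2300, 868, [1124, 1380, 1457])]

theorem sd3_ok : strips 1228 sd3 = true := by decide +kernel

theorem sd3_last : lastS 1228 sd3 = 2300 := by decide +kernel

end SokalTI
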