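import Pool.Agent.Lib_MP_af4de1_ti.Box3

/-!
# Tip certificate: strips, part 4
-/

set_option autoImplicit false

namespace SokalTI

/-- strips from `2300 / 1024` to `3288 / 1024` -/
def sd4 : List (ℤ × ℤ × List ℤ) := [
  (2428, 920, [1176, 1432, 1485]),
  (2556, 971, [1227, 1483, 1513]),
  (2652, 1022, [1278, 1534]),
  (2780, 1060, [1211, 1467, 1562]),
  (2844, 1112, [1333, 1576]),
  (2940, 1137, [1225, 1481, 1598]),
  (3004, 1176, [1306, 1562, 1612]),
  (3052, 1201, [1331, 1587, 1622]),
  (3100, 1220, [1301, 1557, 1633]),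
  (3132, 1240, [1335, 1591, 1640]),
  (3164, 1252, [1302, 1540, 1647]),
  (3188, 1265, [1315, 1553, 1652]),
  (3204, 1275, [1329, 1567, 1656]),
  (3220, 1281, [1308, 1471, 1659]),
  (3232, 1288, [1321, 1497, 1662]),
  (3240, 1292, [1317, 1468, 1664]),
  (3248, 1296, [1317, 1457, 1665]),
  (3264, 1299, [1305, 1335, 1511, 1669]),
  (3288, 1305, [1322, 1391, 1647, 1674])]

theorem sd4_ok : strips 2300 sd4 = true := by decide +kernel

theorem sd4_last : lastS 2300 sd4 = 3288 := by decide +kernel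

end SokalTI
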