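import Pool.Agent.Lib_MP_af4de1_ti.Box3

/-!
# Tip certificate: strips, part 5
-/

set_option autoImplicit false

namespace SokalTI

/-- strips from `3288 / 1024` to `3892 / 1024` -/
def sd5 : List (ℤ × ℤ × List ℤ) := [
  (3320, 1315, [1345, 1456, 1681]),
  (3368, 1328, [1374, 1504, 1692]),
  (3432, 1347, [1416, 1579, 1706]),
  (3528, 1372, [1467, 1578, 1727]),
  (3624, 1411, [1551, 1650, 1748]),
  (3672, 1449, [1612, 1759]),
  (3736, 1468, [1644, 1746, 1773]),
  (3760, 1494, [1684, 1758, 1778]),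
  (3768, 1504, [1694, 1767, 1780]),
  (3784, 1507, [1712, 1773, 1783]),
  (3816, 1513, [1718, 1784, 1790]),
  (3880, 1526, [1747, 1804]),
  (3892, 1552, [1772, 1807])]

theorem sd5_ok : strips 3288 sd5 = true := by decide +kernel

theorem sd5_last : lastS 3288 sd5 = 3892 := by decide +kernel

end SokalTI
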