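import Pool.Agent.Lib_MP_af4de1_ti.Box3

/-!
# Tip certificate: the sides
-/

set_option autoImplicit false

namespace SokalTI

def sgL : List ℤ := [224, 246, 270, 297, 326, 358, 392, 429, 469, 512, 559, 609, 662, 718, 777, 839, 904, 971, 1040, 1111, 1182, 1254, 1325, 1395, 1502, 1655, 1859, 2114, 2414, 2748, 2978, 3206, 3345, 3455, 3638, 3892]

theorem sgL_ok : segs segL 204 sgL = true := by decide +kernel

theorem sgL_last : lastI 204 sgL = 3892 := by decide +kernel

def sgR : List ℤ := [218, 233, 250, 268, 287, 307, 329, 352, 377, 404, 433, 464, 497, 532, 569, 609, 651, 696, 743, 793, 846, 902, 960, 1021, 1084, 1149, 1195, 1274, 1402, 1583, 1639]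

theorem sgR_ok : segs segR 204 sgR = true := by decide +kernel

theorem sgR_last : lastI 204 sgR = 1639 := by decide +kernel

def sgU : List ℤ := [1969, 2280, 2546, 2765, 2944, 3091, 3215, 3321, 3413, 3494, 3565, 3628, 3682, 3727, 3761, 3771, 3792, 3834, 3892]

theorem sgU_ok : segs segU 1638 sgU = true := by decide +kernel

theorem sgU_last : lastI 1638 sgU = 3892 := by decide +kernel

def sgT : List ℤ := [1786, 1807]

theorem sgT_ok : segs segT 1556 sgT = true := by decide +kernel

theorem sgT_last : lastI 1556 sgT = 1807 := by decide +kernel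

end SokalTI
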