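import Pool.Agent.Lib_MP_af4de1_ti.Exp
import Pool.Agent.Lib_MP_af4de1_ti.Cond

/-!
# The tip: the conditions for `v ≤ 1/5`
-/

set_option autoImplicit false

namespace SokalTI

open Complex SokalFU

/-- `p` small, `πδ ≤ -Re B` -/
structure SmD (p : ℂ) (δ : ℝ) : Prop where
  sm : Sm p
  pos : 0 < δ
  le : Real.pi * δ ≤ -(Bp p).re

namespace SmD

variable {p : ℂ} {δ : ℝ}

theorem d1 (h : SmD p δ) : δ ≤ 757 / 10000 * (p.re * p.im ^ 2) := by
  have h1 := h.sm.B1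
  have h2 := h.le
  have h3 := Real.pi_gt_d4
  have h4 := h.pos
  have h5 : 31415 / 10000 * δ ≤ Real.pi * δ := mul_le_mul_of_nonneg_right (by linarith) h4.le
  have h6 : 0 < p.re * p.im ^ 2 := mul_pos h.sm.re_pos (pow_pos h.sm.v0 2)
  linarith

theorem d2 (h : SmD p δ) : δ ≤ 503 / 10000 * p.im ^ 3 := by
  have h1 := h.sm.B1'
  have h2 := h.le
  have h3 := Real.pi_gt_d4
  have h4 := h.pos
  have h5 : 31415 / 10000 * δ ≤ Real.pi * δ := mul_le_mul_of_nonneg_right (by linarith) h4.le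
  have h6 : 0 < p.im ^ 3 := pow_pos h.sm.v0 3
  linarith

theorem d3 (h : SmD p δ) (hk : p.re = 2 / 5 * p.im) : δ ≤ 303 / 10000 * p.im ^ 3 := by
  have h1 := (h.sm.BL hk).1
  have h2 := h.le
  have h3 := Real.pi_gt_d4
  have h4 := h.pos
  have h5 : 31415 / 10000 * δ ≤ Real.pi * δ := mul_le_mul_of_nonneg_right (by linarith) h4.le
  have h6 : 0 < p.im ^ 3 := pow_pos h.sm.v0 3
  linarith

/-- `r = √v` -/
noncomputable def r (p : ℂ) : ℝ := √p.im

theorem r_pos (h : SmD p δ) : 0 < r p := Real.sqrt_pos.2 h.sm.v0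

theorem r_sq (h : SmD p δ) : r p ^ 2 = p.im := Real.sq_sqrt h.sm.v0.le

theorem v_eq (h : SmD p δ) : p.im = r p ^ 2 := h.r_sq.symm

theorem r2 (h : SmD p δ) : r p ^ 2 ≤ 1 / 5 := by rw [h.r_sq]; exact h.sm.v1

/-- `√x ≤ c r^n` -/
theorem sqrt_le' {x y : ℝ} (hy : 0 ≤ y) (h : x ≤ y ^ 2) : √x ≤ y := Real.sqrt_le_iff.2 ⟨hy, h⟩

theorem le_sqrt'' {x y : ℝ} (h : y ^ 2 ≤ x) : y ≤ √x := Real.le_sqrt_of_sq_le h

theorem sd (h : SmD p δ) : √δ ≤ 2243 / 10000 * r p ^ 3 := by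
  have hr := h.r_pos
  refine sqrt_le' (by positivity) ?_
  have h1 := h.d2
  rw [h.v_eq] at h1
  have h2 : 0 < r p ^ 6 := by positivity
  have e : (r p ^ 2) ^ 3 = r p ^ 6 := by ring
  rw [e] at h1
  have e2 : (2243 / 10000 * r p ^ 3) ^ 2 = (2243 / 10000) ^ 2 * r p ^ 6 := by ring
  rw [e2]
  nlinarith

theorem smLd (h : SmD p δ) : √(‖1 - hL p‖ * δ) ≤ 181 / 1000 * r p ^ 4 := by
  have hr := h.r_pos
  refine sqrt_le' (by positivity) ?_
  have h1 := h.d2
  have h2 := h.sm.mL1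
  have h3 : ‖1 - hL p‖ * δ ≤ (13 / 20 * p.im) * (503 / 10000 * p.im ^ 3) :=
    mul_le_mul h2 h1 h.pos.le (by have := h.sm.v0; positivity)
  rw [h.v_eq] at h3
  have h4 : 0 < r p ^ 8 := by positivity
  have e1 : (13 / 20 * r p ^ 2) * (503 / 10000 * (r p ^ 2) ^ 3) = 6539 / 200000 * r p ^ 8 := by ring
  have e2 : (181 / 1000 * r p ^ 4) ^ 2 = (181 / 1000) ^ 2 * r p ^ 8 := by ring
  rw [e1] at h3
  rw [e2]
  nlinarith

theorem smRd (h : SmD p δ) : √(‖1 - hR p‖ * δ) ≤ 1836 / 10000 * r p ^ 4 := by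
  have hr := h.r_pos
  refine sqrt_le' (by positivity) ?_
  have h1 := h.d2
  have h2 := h.sm.mR1
  have h3 : ‖1 - hR p‖ * δ ≤ (67 / 100 * p.im) * (503 / 10000 * p.im ^ 3) :=
    mul_le_mul h2 h1 h.pos.le (by have := h.sm.v0; positivity)
  rw [h.v_eq] at h3
  have h4 : 0 < r p ^ 8 := by positivity
  have e1 : (67 / 100 * r p ^ 2) * (503 / 10000 * (r p ^ 2) ^ 3) = 33701 / 1000000 * r p ^ 8 := by ring
  have e2 : (1836 / 10000 * r p ^ 4) ^ 2 = (1836 / 10000) ^ 2 * r p ^ 8 := by ring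
  rw [e1] at h3
  rw [e2]
  nlinarith

/-- `relL ≤ .485` -/
theorem relL_le (h : SmD p δ) : relL (hL p) δ ≤ 485 / 1000 := by
  have hr := h.r_pos
  unfold relL
  have hs := h.sm.sL0
  rw [h.v_eq] at hs
  have hs2 : (473 / 1000 * r p ^ 2) ^ 2 ≤ (hL p).im ^ 2 := by
    rw [show (hL p).im ^ 2 = (-(hL p).im) ^ 2 by ring]
    exact pow_le_pow_left₀ (by positivity) hs 2
  have hs0 : 0 < (hL p).im ^ 2 := lt_of_lt_of_le (by positivity) hs2
  rw [div_le_iff₀ hs0]
  have h1 : 599 / 1000 * ‖hL p‖ * √(‖1 - hL p‖ * δ) ≤ 599 / 1000 * 1 * (181 / 1000 * r p ^ 4) := by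
    have := h.sm.hLn
    have := h.smLd
    gcongr
  have h4 : 0 < r p ^ 4 := by positivity
  nlinarith

theorem relL_nonneg (_h : SmD p δ) : 0 ≤ relL (hL p) δ := by
  unfold relL
  positivity

/-- `bL ≤ .334 u` -/
theorem bL_le (h : SmD p δ) : bL (hL p) δ ≤ 334 / 1000 * p.re := by
  have hr := h.r_pos
  have hu := h.sm.re_pos
  unfold bL
  have hs := h.sm.sL0
  rw [h.v_eq] at hs
  have hs0 : 0 < -(hL p).im := lt_of_lt_of_le (by positivity) hs
  have hs2 : (473 / 1000 * r p ^ 2) ^ 2 ≤ (hL p).im ^ 2 := by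
    rw [show (hL p).im ^ 2 = (-(hL p).im) ^ 2 by ring]
    exact pow_le_pow_left₀ (by positivity) hs 2
  have hs20 : 0 < (hL p).im ^ 2 := lt_of_lt_of_le (by positivity) hs2
  have hss : 6877 / 10000 * r p ≤ √(-(hL p).im) := by
    refine le_sqrt'' ?_
    nlinarith [sq_nonneg (r p)]
  have hsss : 3252 / 10000 * r p ^ 3 ≤ -(hL p).im * √(-(hL p).im) := by
    have h1 : (473 / 1000 * r p ^ 2) * (6877 / 10000 * r p) ≤ -(hL p).im * √(-(hL p).im) :=
      mul_le_mul hs hss (by positivity) hs0.le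
    have h3 : 0 < r p ^ 3 := by positivity
    nlinarith
  have hm : 714 / 1000 * r p ≤ √‖1 - hL p‖ := by
    refine le_sqrt'' ?_
    have := h.sm.mL0
    rw [h.v_eq] at this
    nlinarith [sq_nonneg (r p)]
  -- first term
  have t1 : δ / (2 * (-(hL p).im * √(-(hL p).im))) ≤ 1538 / 1000 * (δ / r p ^ 3) := by
    rw [div_le_iff₀ (by positivity)]
    have h1 : 1538 / 1000 * (δ / r p ^ 3) * (2 * (3252 / 10000 * r p ^ 3)) ≤
        1538 / 1000 * (δ / r p ^ 3) * (2 * (-(hL p).im * √(-(hL p).im))) := by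
      have := h.pos
      gcongr
    have h2 : 1538 / 1000 * (δ / r p ^ 3) * (2 * (3252 / 10000 * r p ^ 3)) = 1538 / 1000 * 2 * (3252 / 10000) * δ := by
      field_simp
    rw [h2] at h1
    have := h.pos
    linarith
  have t2 : 399 / 1000 * (δ * √δ) / (hL p).im ^ 2 ≤ 81 / 1000 * (δ / r p ^ 3) := by
    rw [div_le_iff₀ hs20]
    have h1 : 81 / 1000 * (δ / r p ^ 3) * (473 / 1000 * r p ^ 2) ^ 2 ≤
        81 / 1000 * (δ / r p ^ 3) * (hL p).im ^ 2 := by
      have := h.pos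
      gcongr
    have h2 : 81 / 1000 * (δ / r p ^ 3) * (473 / 1000 * r p ^ 2) ^ 2 = 81 / 1000 * (473 / 1000) ^ 2 * (δ * r p) := by
      field_simp
    rw [h2] at h1
    have h3 : δ * √δ ≤ δ * (2243 / 10000 * r p ^ 3) := by
      have := h.sd
      have := h.pos
      gcongr
    have h4 : δ * (2243 / 10000 * r p ^ 3) ≤ 2243 / 50000 * (δ * r p) := by
      have h5 : r p ^ 3 ≤ 1 / 5 * r p := by
        have : r p ^ 3 = r p ^ 2 * r p := by ring
        rw [this]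
        have := h.r2
        gcongr
      have := h.pos
      nlinarith
    have h6 : 0 < δ * r p := mul_pos h.pos hr
    linarith
  have t3 : δ / r p ^ 3 ≤ 757 / 10000 * (p.re * r p) := by
    rw [div_le_iff₀ (by positivity)]
    have h1 := h.d1
    rw [h.v_eq] at h1
    calc δ ≤ 757 / 10000 * (p.re * (r p ^ 2) ^ 2) := h1
      _ = 757 / 10000 * (p.re * r p) * r p ^ 3 := by ring
  have hsum : δ / (2 * (-(hL p).im * √(-(hL p).im))) + 399 / 1000 * (δ * √δ) / (hL p).im ^ 2 ≤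
      1226 / 10000 * (p.re * r p) := by
    have h6 : 0 < p.re * r p := mul_pos hu hr
    linarith
  have hq : ‖hL p‖ / √‖1 - hL p‖ ≤ 1 / (714 / 1000 * r p) := by
    have := h.sm.hLn
    gcongr
  have hsum0 : 0 ≤ δ / (2 * (-(hL p).im * √(-(hL p).im))) + 399 / 1000 * (δ * √δ) / (hL p).im ^ 2 := by
    have := h.pos
    positivity
  have hprod : ‖hL p‖ / √‖1 - hL p‖ * (δ / (2 * (-(hL p).im * √(-(hL p).im))) + 399 / 1000 * (δ * √δ) / (hL p).im ^ 2) ≤
      1 / (714 / 1000 * r p) * (1226 / 10000 * (p.re * r p)) :=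
    mul_le_mul hq hsum hsum0 (by positivity)
  have hprod2 : 1 / (714 / 1000 * r p) * (1226 / 10000 * (p.re * r p)) = 1226 / 7140 * p.re := by
    field_simp
    ring
  rw [hprod2] at hprod
  have h9 := h.relL_le
  rw [div_le_iff₀ (by linarith)]
  have h10 : 334 / 1000 * p.re * (515 / 1000) ≤ 334 / 1000 * p.re * (1 - relL (hL p) δ) := by
    have : 515 / 1000 ≤ 1 - relL (hL p) δ := by linarith
    gcongr
  linarith

/-! ### Right saddle -/

theorem q0 (h : SmD p δ) : 2054 / 10000 * r p ^ 2 ≤ qp (hR p) := by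
  unfold qp
  have h1 := h.sm.aR0
  have h2 := h.sm.sR0
  have h3 := h.sm.u0
  have h0 := h.sm.v0
  rw [← h.v_eq]
  have h4 : (1732 : ℝ) / 1000 ≤ √3 := by
    refine le_sqrt'' ?_
    norm_num
  have h5 : 1857 / 10000 * p.im ≤ (hR p).re - 1 := by linarith
  have h6 : 1732 / 1000 / 4 * (1857 / 10000 * p.im) ≤ √3 / 4 * ((hR p).re - 1) := by
    have : (1732 : ℝ) / 1000 / 4 ≤ √3 / 4 := by linarith
    exact mul_le_mul this h5 (by positivity) (by positivity)
  linarith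

theorem q_pos (h : SmD p δ) : 0 < qp (hR p) :=
  lt_of_lt_of_le (by have := h.r_pos; positivity) h.q0

theorem xl0 (h : SmD p δ) : 4587 / 10000 * r p ^ 2 ≤ xl (hR p) := by
  unfold xl
  have h1 := h.sm.sR0
  have h2 := h.sm.hRn
  have h3 := h.sm.hRn0
  rw [le_div_iff₀ (by linarith)]
  rw [h.v_eq] at h1
  have hr := h.r_pos
  have : 4587 / 10000 * r p ^ 2 * ‖hR p‖ ≤ 4587 / 10000 * r p ^ 2 * (109 / 100) := by gcongr
  have h4 : 0 < r p ^ 2 := by positivity
  linarith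

theorem xl1 (h : SmD p δ) : xl (hR p) ≤ 527 / 1000 * r p ^ 2 := by
  unfold xl
  have h1 := h.sm.sR1
  have h3 := h.sm.hRn0
  rw [div_le_iff₀ (by linarith)]
  rw [h.v_eq] at h1
  have hr := h.r_pos
  have h4 : 0 < r p ^ 2 := by positivity
  have : 527 / 1000 * r p ^ 2 * 1 ≤ 527 / 1000 * r p ^ 2 * ‖hR p‖ := by gcongr
  linarith

theorem xl_pos (h : SmD p δ) : 0 < xl (hR p) :=
  lt_of_lt_of_le (by have := h.r_pos; positivity) h.xl0

theorem sdq (h : SmD p δ) : √(δ / qp (hR p)) ≤ 1 / 10 := by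
  refine sqrt_le' (by norm_num) ?_
  rw [div_le_iff₀ h.q_pos]
  have h1 := h.d2
  rw [h.v_eq] at h1
  have h2 := h.q0
  have hr := h.r_pos
  have h3 : (r p ^ 2) ^ 3 ≤ 1 / 25 * r p ^ 2 := by
    have h4 := h.r2
    have : (r p ^ 2) ^ 3 = (r p ^ 2) ^ 2 * r p ^ 2 := by ring
    rw [this]
    have : (r p ^ 2) ^ 2 ≤ (1 / 5) ^ 2 := pow_le_pow_left₀ (by positivity) h4 2
    have : (r p ^ 2) ^ 2 ≤ 1 / 25 := by linarith
    gcongr
  have h5 : 0 < r p ^ 2 := by positivity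
  linarith

theorem tf_le (h : SmD p δ) : tf (hR p) δ ≤ 34 / 1000 := by
  unfold tf
  have hr := h.r_pos
  have h1 : δ / (4 * qp (hR p) * xl (hR p) ^ 2) ≤ 291 / 1000 := by
    have hq := h.q_pos
    have hx := h.xl_pos
    rw [div_le_iff₀ (by positivity)]
    have h2 : (4587 / 10000 * r p ^ 2) ^ 2 ≤ xl (hR p) ^ 2 := pow_le_pow_left₀ (by positivity) h.xl0 2
    have h3 : (2054 / 10000 * r p ^ 2) * (4587 / 10000 * r p ^ 2) ^ 2 ≤ qp (hR p) * xl (hR p) ^ 2 :=
      mul_le_mul h.q0 h2 (by positivity) hq.le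
    have h4 := h.d2
    rw [h.v_eq] at h4
    have e1 : (2054 / 10000 * r p ^ 2) * (4587 / 10000 * r p ^ 2) ^ 2 = 2054 / 10000 * (4587 / 10000) ^ 2 * r p ^ 6 := by
      ring
    have e2 : (r p ^ 2) ^ 3 = r p ^ 6 := by ring
    rw [e1] at h3
    rw [e2] at h4
    have h5 : 0 < r p ^ 6 := by positivity
    nlinarith
  have h0 : 0 ≤ δ / (4 * qp (hR p) * xl (hR p) ^ 2) := by
    have := h.q_pos
    have := h.xl_pos
    have := h.pos
    positivity
  have h2 := pow_le_pow_left₀ h0 h1 4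
  nlinarith

theorem tf_nonneg (h : SmD p δ) : 0 ≤ tf (hR p) δ := by
  unfold tf
  have := h.q_pos
  have := h.xl_pos
  have := h.pos
  positivity

theorem smR1 (h : SmD p δ) : √‖1 - hR p‖ ≤ 8186 / 10000 * r p := by
  have hr := h.r_pos
  refine sqrt_le' (by positivity) ?_
  have := h.sm.mR1
  rw [h.v_eq] at this
  nlinarith [sq_nonneg (r p)]

theorem smR0 (h : SmD p δ) : 728 / 1000 * r p ≤ √‖1 - hR p‖ := by
  refine le_sqrt'' ?_
  have := h.sm.mR0
  rw [h.v_eq] at this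
  nlinarith [sq_nonneg (r p)]

theorem smL1 (h : SmD p δ) : √‖1 - hL p‖ ≤ 8063 / 10000 * r p := by
  have hr := h.r_pos
  refine sqrt_le' (by positivity) ?_
  have := h.sm.mL1
  rw [h.v_eq] at this
  nlinarith [sq_nonneg (r p)]

theorem smL0 (h : SmD p δ) : 714 / 1000 * r p ≤ √‖1 - hL p‖ := by
  refine le_sqrt'' ?_
  have := h.sm.mL0
  rw [h.v_eq] at this
  nlinarith [sq_nonneg (r p)]

theorem sxl0 (h : SmD p δ) : 677 / 1000 * r p ≤ √(xl (hR p)) := by
  refine le_sqrt'' ?_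
  have := h.xl0
  nlinarith [sq_nonneg (r p)]

theorem sxl1 (h : SmD p δ) : √(xl (hR p)) ≤ 726 / 1000 * r p := by
  have hr := h.r_pos
  refine sqrt_le' (by positivity) ?_
  have := h.xl1
  nlinarith [sq_nonneg (r p)]

/-- `relR ≤ .33` -/
theorem relR_le (h : SmD p δ) : relR (hR p) δ ≤ 33 / 100 := by
  have hr := h.r_pos
  have hq := h.q_pos
  have hx := h.xl_pos
  have hsd := h.pos
  unfold relR
  -- first part
  have a1 : 100 / (243 * (hR p).im ^ 2) ≤ 16461 / 10000 / r p ^ 4 := by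
    have h1 := h.sm.sR0
    rw [h.v_eq] at h1
    have h2 : (1 / 2 * r p ^ 2) ^ 2 ≤ (hR p).im ^ 2 := pow_le_pow_left₀ (by positivity) h1 2
    have h3 : 0 < (hR p).im ^ 2 := lt_of_lt_of_le (by positivity) h2
    rw [div_le_div_iff₀ (by positivity) (by positivity)]
    have e : (1 / 2 * r p ^ 2) ^ 2 = 1 / 4 * r p ^ 4 := by ring
    rw [e] at h2
    nlinarith
  have a2 : (1 + 27 / 100 * √(δ / qp (hR p))) / (12 * qp (hR p) ^ 2) ≤ 2029 / 1000 / r p ^ 4 := by
    have h1 := h.q0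
    have h2 : (2054 / 10000 * r p ^ 2) ^ 2 ≤ qp (hR p) ^ 2 := pow_le_pow_left₀ (by positivity) h1 2
    rw [div_le_div_iff₀ (by positivity) (by positivity)]
    have e : (2054 / 10000 * r p ^ 2) ^ 2 = (2054 / 10000) ^ 2 * r p ^ 4 := by ring
    rw [e] at h2
    have h3 := h.sdq
    have h4 : 0 < r p ^ 4 := by positivity
    have h5 : (1 + 27 / 100 * √(δ / qp (hR p))) * r p ^ 4 ≤ (1027 / 1000) * r p ^ 4 := by
      have : 1 + 27 / 100 * √(δ / qp (hR p)) ≤ 1027 / 1000 := by linarith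
      gcongr
    nlinarith
  have a3 : 399 / 1000 * ‖hR p‖ * √(‖1 - hR p‖ * δ) ≤ 399 / 1000 * (109 / 100) * (1836 / 10000 * r p ^ 4) := by
    have := h.sm.hRn
    have := h.smRd
    gcongr
  have a4 : 399 / 1000 * ‖hR p‖ * √(‖1 - hR p‖ * δ) *
      (100 / (243 * (hR p).im ^ 2) + (1 + 27 / 100 * √(δ / qp (hR p))) / (12 * qp (hR p) ^ 2)) ≤
      399 / 1000 * (109 / 100) * (1836 / 10000 * r p ^ 4) * (36751 / 10000 / r p ^ 4) := by
    refine mul_le_mul a3 ?_ (by positivity) (by positivity)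
    refine (add_le_add a1 a2).trans (le_of_eq ?_)
    ring
  have a5 : 399 / 1000 * (109 / 100) * (1836 / 10000 * r p ^ 4) * (36751 / 10000 / r p ^ 4) =
      399 / 1000 * (109 / 100) * (1836 / 10000) * (36751 / 10000) := by
    field_simp
  rw [a5] at a4
  -- second part
  have b1 : 3 / 5 / √(xl (hR p)) ≤ 3 / 5 / (677 / 1000 * r p) := by
    have := h.sxl0
    gcongr
  have b2 : 1 / 10 * √δ / (qp (hR p) * xl (hR p)) ≤
      1 / 10 * (2243 / 10000 * r p ^ 3) / ((2054 / 10000 * r p ^ 2) * (4587 / 10000 * r p ^ 2)) := by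
    have := h.sd
    have := h.q0
    have := h.xl0
    gcongr
  have b3 : tf (hR p) δ * √‖1 - hR p‖ ≤ 34 / 1000 * (8186 / 10000 * r p) := by
    have := h.tf_le
    have := h.smR1
    have := h.tf_nonneg
    gcongr
  have b4 : tf (hR p) δ * √‖1 - hR p‖ * (3 / 5 / √(xl (hR p)) + 1 / 10 * √δ / (qp (hR p) * xl (hR p))) ≤
      34 / 1000 * (8186 / 10000 * r p) * (3 / 5 / (677 / 1000 * r p) +
        1 / 10 * (2243 / 10000 * r p ^ 3) / ((2054 / 10000 * r p ^ 2) * (4587 / 10000 * r p ^ 2))) :=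
    mul_le_mul b3 (add_le_add b1 b2) (by positivity) (by positivity)
  have b5 : 34 / 1000 * (8186 / 10000 * r p) * (3 / 5 / (677 / 1000 * r p) +
        1 / 10 * (2243 / 10000 * r p ^ 3) / ((2054 / 10000 * r p ^ 2) * (4587 / 10000 * r p ^ 2))) =
      34 / 1000 * (8186 / 10000) * (600 / 677 + 1 / 10 * (2243 / 10000) / (2054 / 10000 * (4587 / 10000))) := by
    field_simp
    norm_num
  rw [b5] at b4
  refine (add_le_add a4 b4).trans ?_
  norm_num

theorem relR_nonneg (h : SmD p δ) : 0 ≤ relR (hR p) δ := by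
  have hq := h.q_pos
  have hx := h.xl_pos
  have ht := h.tf_nonneg
  unfold relR
  positivity

/-- `bR ≤ .46 u` -/
theorem bR_le (h : SmD p δ) : bR (hR p) δ ≤ 46 / 100 * p.re := by
  have hr := h.r_pos
  have hq := h.q_pos
  have hx := h.xl_pos
  have hd := h.pos
  have hu := h.sm.re_pos
  have ht := h.tf_nonneg
  unfold bR
  have hs := h.sm.sR0
  rw [h.v_eq] at hs
  have hs0 : 0 < (hR p).im := lt_of_lt_of_le (by positivity) hs
  have hss : 7071 / 10000 * r p ≤ √(hR p).im := by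
    refine le_sqrt'' ?_
    nlinarith [sq_nonneg (r p)]
  have hsss : 35355 / 100000 * r p ^ 3 ≤ (hR p).im * √(hR p).im := by
    have h1 : (1 / 2 * r p ^ 2) * (7071 / 10000 * r p) ≤ (hR p).im * √(hR p).im :=
      mul_le_mul hs hss (by positivity) hs0.le
    have h3 : 0 < r p ^ 3 := by positivity
    nlinarith
  have hqs : 4532 / 10000 * r p ≤ √(qp (hR p)) := by
    refine le_sqrt'' ?_
    have := h.q0
    nlinarith [sq_nonneg (r p)]
  have hqss : 93 / 1000 * r p ^ 3 ≤ qp (hR p) * √(qp (hR p)) := by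
    have h1 : (2054 / 10000 * r p ^ 2) * (4532 / 10000 * r p) ≤ qp (hR p) * √(qp (hR p)) :=
      mul_le_mul h.q0 hqs (by positivity) hq.le
    have h3 : 0 < r p ^ 3 := by positivity
    nlinarith
  have t1 : 59 / 200 * δ / ((hR p).im * √(hR p).im) ≤ 8345 / 10000 * (δ / r p ^ 3) := by
    rw [div_le_iff₀ (by positivity)]
    have h1 : 8345 / 10000 * (δ / r p ^ 3) * (35355 / 100000 * r p ^ 3) ≤
        8345 / 10000 * (δ / r p ^ 3) * ((hR p).im * √(hR p).im) := by gcongr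
    have h2 : 8345 / 10000 * (δ / r p ^ 3) * (35355 / 100000 * r p ^ 3) = 8345 / 10000 * (35355 / 100000) * δ := by
      field_simp
    rw [h2] at h1
    linarith
  have t2 : 177 / 2000 * δ * (1 + 3 / 10 * √(δ / qp (hR p))) / (qp (hR p) * √(qp (hR p))) ≤
      981 / 1000 * (δ / r p ^ 3) := by
    rw [div_le_iff₀ (by positivity)]
    have h1 : 981 / 1000 * (δ / r p ^ 3) * (93 / 1000 * r p ^ 3) ≤
        981 / 1000 * (δ / r p ^ 3) * (qp (hR p) * √(qp (hR p))) := by gcongr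
    have h2 : 981 / 1000 * (δ / r p ^ 3) * (93 / 1000 * r p ^ 3) = 981 / 1000 * (93 / 1000) * δ := by
      field_simp
    rw [h2] at h1
    have h3 : 177 / 2000 * δ * (1 + 3 / 10 * √(δ / qp (hR p))) ≤ 177 / 2000 * δ * (103 / 100) := by
      have := h.sdq
      have : 1 + 3 / 10 * √(δ / qp (hR p)) ≤ 103 / 100 := by linarith
      gcongr
    linarith
  have t3 : δ / r p ^ 3 ≤ 757 / 10000 * (p.re * r p) := by
    rw [div_le_iff₀ (by positivity)]
    have h1 := h.d1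
    rw [h.v_eq] at h1
    calc δ ≤ 757 / 10000 * (p.re * (r p ^ 2) ^ 2) := h1
      _ = 757 / 10000 * (p.re * r p) * r p ^ 3 := by ring
  have hq1 : ‖hR p‖ / √‖1 - hR p‖ ≤ (109 / 100) / (728 / 1000 * r p) := by
    have := h.sm.hRn
    have := h.smR0
    gcongr
  have A : ‖hR p‖ / √‖1 - hR p‖ * (59 / 200 * δ / ((hR p).im * √(hR p).im) +
      177 / 2000 * δ * (1 + 3 / 10 * √(δ / qp (hR p))) / (qp (hR p) * √(qp (hR p)))) ≤
      (109 / 100) / (728 / 1000 * r p) * (13744 / 100000 * (p.re * r p)) := by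
    refine mul_le_mul hq1 ?_ (by positivity) (by positivity)
    have h6 : 0 < p.re * r p := mul_pos hu hr
    linarith
  have A2 : (109 / 100) / (728 / 1000 * r p) * (13744 / 100000 * (p.re * r p)) =
      (109 / 100) / (728 / 1000) * (13744 / 100000) * p.re := by
    field_simp
  rw [A2] at A
  have c1 : 2 / 5 * √δ / √‖1 - hR p‖ ≤ 2 / 5 * (2243 / 10000 * r p ^ 3) / (728 / 1000 * r p) := by
    have := h.sd
    have := h.smR0
    gcongr
  have c2 : 27 / 20 * √‖1 - hR p‖ * √(xl (hR p)) ≤ 27 / 20 * (8186 / 10000 * r p) * (726 / 1000 * r p) := by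
    have := h.smR1
    have := h.sxl1
    gcongr
  have c3 : 11 / 20 * √‖1 - hR p‖ * √δ / xl (hR p) ≤
      11 / 20 * (8186 / 10000 * r p) * (2243 / 10000 * r p ^ 3) / (4587 / 10000 * r p ^ 2) := by
    have := h.smR1
    have := h.sd
    have := h.xl0
    gcongr
  have e1 : 2 / 5 * (2243 / 10000 * r p ^ 3) / (728 / 1000 * r p) = 2 / 5 * (2243 / 10000) / (728 / 1000) * r p ^ 2 := by
    field_simp
  have e3 : 11 / 20 * (8186 / 10000 * r p) * (2243 / 10000 * r p ^ 3) / (4587 / 10000 * r p ^ 2) =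
      11 / 20 * (8186 / 10000) * (2243 / 10000) / (4587 / 10000) * r p ^ 2 := by
    field_simp
  rw [e1] at c1
  rw [e3] at c3
  have hr2 : 0 < r p ^ 2 := by positivity
  have C : 2 / 5 * √δ / √‖1 - hR p‖ + 27 / 20 * √‖1 - hR p‖ * √(xl (hR p)) +
      11 / 20 * √‖1 - hR p‖ * √δ / xl (hR p) ≤ 1146 / 1000 * r p ^ 2 := by
    nlinarith
  have T : tf (hR p) δ * (2 / 5 * √δ / √‖1 - hR p‖ + 27 / 20 * √‖1 - hR p‖ * √(xl (hR p)) +
      11 / 20 * √‖1 - hR p‖ * √δ / xl (hR p)) ≤ 34 / 1000 * (1146 / 1000 * r p ^ 2) :=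
    mul_le_mul h.tf_le C (by positivity) (by norm_num)
  have hv : r p ^ 2 ≤ 5 / 2 * p.re := by
    rw [h.r_sq]
    have := h.sm.u0
    linarith
  have h9 := h.relR_le
  rw [div_le_iff₀ (by linarith)]
  have h10 : 46 / 100 * p.re * (67 / 100) ≤ 46 / 100 * p.re * (1 - relR (hR p) δ) := by
    have : 67 / 100 ≤ 1 - relR (hR p) δ := by linarith
    gcongr
  nlinarith

/-! ### The conditions -/

theorem hR_re_pos (h : SmD p δ) : 0 < (hR p).re := by
  have := h.sm.aR0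
  have := h.sm.u0
  have := h.sm.v0
  linarith

theorem arg_le (h : SmD p δ) : arg (hR p) ≤ (hR p).im := by
  have hre := h.hR_re_pos
  have him : 0 < (hR p).im := lt_of_lt_of_le (by have := h.sm.v0; positivity) h.sm.sR0
  have h1 : |arg (hR p)| < Real.pi / 2 := Complex.abs_arg_lt_pi_div_two_iff.2 (Or.inl hre)
  have h2 : 0 ≤ arg (hR p) := Complex.arg_nonneg_iff.2 him.le
  rw [abs_of_nonneg h2] at h1
  have h3 := Real.le_tan h2 h1
  rw [Complex.tan_arg] at h3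
  refine h3.trans ?_
  rw [div_le_iff₀ hre]
  have : 1 ≤ (hR p).re := by
    have := h.sm.aR0
    have := h.sm.u0
    have := h.sm.v0
    linarith
  nlinarith

theorem pt (h : SmD p δ) : PtCond p δ := by
  have hv0 := h.sm.v0
  have hv1 := h.sm.v1
  have a1 := h.sm.aR0
  have a2 := h.sm.aR1
  have a3 := h.sm.u0
  have s1 := h.sm.sR1
  have s0 := h.sm.sR0
  have sL := h.sm.sL0
  have hd := h.d2
  have h3 : p.im ^ 3 ≤ 1 / 25 * p.im := by
    have : p.im ^ 3 = p.im ^ 2 * p.im := by ring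
    rw [this]
    have : p.im ^ 2 ≤ 1 / 25 := by nlinarith
    gcongr
  refine ⟨?_, h.arg_le, ?_, ?_, ?_, h.q_pos, ?_, ?_, ?_⟩
  · linarith
  · exact h.arg_le.trans (by linarith)
  · linarith
  · linarith
  · linarith [h.relL_le]
  · linarith [h.relR_le]
  · have b1 := h.bL_le
    have b2 := h.bR_le
    have := h.sm.re_pos
    linarith

/-- `e^(-X) ≤ 1/(1 + X + X²/2)` -/
theorem exp_neg_le {X : ℝ} (hX : 0 ≤ X) : Real.exp (-X) ≤ 1 / (1 + X + X ^ 2 / 2) := by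
  rw [Real.exp_neg, inv_eq_one_div]
  have := Real.quadratic_le_exp_of_nonneg hX
  gcongr

theorem condL (h : SmD p δ) (hk : p.re = 2 / 5 * p.im) : CondL p δ := by
  unfold CondL
  have hr := h.r_pos
  have hd := h.pos
  have h1 := (h.sm.BL hk).2
  have h2 := h.d3 hk
  have h3 : 0 < p.im ^ 3 := pow_pos h.sm.v0 3
  have hX : (Bp p).im / δ ≤ -(141 / 100) := by
    rw [div_le_iff₀ hd]
    linarith
  have h4 : Real.exp ((Bp p).im / δ) ≤ 2945 / 10000 := by
    refine (Real.exp_le_exp.2 hX).trans ((exp_neg_le (by norm_num)).trans ?_)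
    norm_num
  have h5 := h.relL_le
  have h5' := h.relL_nonneg
  have h6 := h.relR_le
  have h7 : Real.exp ((Bp p).im / δ) * (1 + relL (hL p) δ) * √‖1 - hR p‖ ≤
      2945 / 10000 * (1 + 485 / 1000) * (8186 / 10000 * r p) := by
    have := h.smR1
    gcongr
  have h8 : (1 - 33 / 100) * (714 / 1000 * r p) ≤ (1 - relR (hR p) δ) * √‖1 - hL p‖ := by
    have := h.smL0
    have : 0 ≤ 1 - relR (hR p) δ := by linarith
    gcongr
  refine lt_of_le_of_lt h7 (lt_of_lt_of_le ?_ h8)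
  nlinarith

theorem condR (h : SmD p δ) (hk : p.re = 4 / 5 * p.im) : CondR p δ := by
  unfold CondR
  have hr := h.r_pos
  have hd := h.pos
  have h1 := h.sm.BR hk
  have h2 := h.d2
  have h3 : 0 < p.im ^ 3 := pow_pos h.sm.v0 3
  have hX : 151 / 100 ≤ (Bp p).im / δ := by
    rw [le_div_iff₀ hd]
    linarith
  have h4 : Real.exp (-((Bp p).im / δ)) ≤ 2742 / 10000 := by
    refine (Real.exp_le_exp.2 (neg_le_neg hX)).trans ((exp_neg_le (by norm_num)).trans ?_)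
    norm_num
  have h5 := h.relL_le
  have h5' := h.relR_nonneg
  have h6 := h.relR_le
  have h7 : Real.exp (-((Bp p).im / δ)) * (1 + relR (hR p) δ) * √‖1 - hL p‖ ≤
      2742 / 10000 * (1 + 33 / 100) * (8063 / 10000 * r p) := by
    have := h.smL1
    gcongr
  have h8 : (1 - 485 / 1000) * (728 / 1000 * r p) ≤ (1 - relL (hL p) δ) * √‖1 - hR p‖ := by
    have := h.smR0
    have : 0 ≤ 1 - relL (hL p) δ := by linarith
    gcongr
  refine lt_of_le_of_lt h7 (lt_of_lt_of_le ?_ h8)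
  nlinarith

theorem condI (h : SmD p δ) : CondI p δ := by
  have hv0 := h.sm.v0
  have h5 := h.relL_le
  have h5' := h.relL_nonneg
  have h6 := h.relR_le
  have h6' := h.relR_nonneg
  constructor
  · have a1 := h.sm.aL1
    have a2 := h.sm.sL0
    have a3 := h.sm.u1
    have h7 : 0 ≤ (1 - 2 * relL (hL p) δ ^ 2) * ‖1 - hL p‖ := by
      refine mul_nonneg ?_ (norm_nonneg _)
      nlinarith
    linarith
  · have a1 := h.sm.aR0
    have a2 := h.sm.sR1
    have a3 := h.sm.u0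
    have a4 := h.sm.mR0
    have h7 : (7 / 10) * (53 / 100 * p.im) ≤ (1 - 2 * relR (hR p) δ ^ 2) * ‖1 - hR p‖ := by
      refine mul_le_mul ?_ a4 (by positivity) ?_
      · nlinarith
      · nlinarith
    linarith

end SmD

theorem sm_of_mem {p : ℂ} (hp : p ∈ DT) (hv : p.im ≤ 1 / 5) : Sm p :=
  ⟨hp.1, hv, hp.2.2.1, hp.2.2.2.trans (Uf_le _)⟩

/-- (G1), (G2) for `v ≤ 1/5` -/
theorem small_G12 : ∀ p ∈ DT, p.im ≤ 1 / 5 → CondG p := fun _ hp hv =>
  ⟨(sm_of_mem hp hv).G1, (sm_of_mem hp hv).G2⟩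

/-- all conditions for `v ≤ 1/5` -/
theorem small_P : ∀ δ : ℝ, 0 < δ → δ ≤ 2 / 25 → ∀ p ∈ PT δ, p.im ≤ 1 / 5 → CondP p δ := by
  intro δ hδ _ p hp hv
  have h : SmD p δ := ⟨sm_of_mem hp.1 hv, hδ, by have := hp.2.1; linarith⟩
  refine ⟨h.pt, h.condL, fun hk => h.condR ?_, fun _ => h.condI⟩
  rw [hk, Uf_low (by linarith)]

/-- `|w| < 1` for `v ≤ 1/5` -/
theorem small_w : ∀ p ∈ DT, p.im ≤ 1 / 5 → ‖wmap p‖ < 1 := by
  intro p hp hv
  have h := sm_of_mem hp hv
  unfold wmap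
  rw [norm_mul, Complex.norm_exp, Complex.neg_re]
  have h1 := h.hLn
  have h2 := h.aL1
  have h3 := h.u1
  have h0 := h.v0
  have h4 : 0 < (hL p).re := by linarith
  have h5 : Real.exp (-(hL p).re) < 1 := by
    have := Real.exp_lt_exp.2 (show -(hL p).re < 0 by linarith)
    rwa [Real.exp_zero] at this
  have h6 := Real.exp_pos (-(hL p).re)
  nlinarith [norm_nonneg (hL p)]

end SokalTI
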