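import Pool.Agent.Lib_MP_af4de1_ti.Box4
import Pool.Agent.Lib_MP_af4de1_ti.Box5
import Pool.Agent.Lib_MP_af4de1_ti.Small
import Pool.Agent.Lib_MP_af4de1_ti.CertD0
import Pool.Agent.Lib_MP_af4de1_ti.CertD1
import Pool.Agent.Lib_MP_af4de1_ti.CertD2
import Pool.Agent.Lib_MP_af4de1_ti.CertD3
import Pool.Agent.Lib_MP_af4de1_ti.CertD4
import Pool.Agent.Lib_MP_af4de1_ti.CertD5
import Pool.Agent.Lib_MP_af4de1_ti.CertS

/-!
# The numerical facts of the tip: `tipNum : TipNum`
-/

set_option autoImplicit false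

namespace SokalTI

open SokalFU Complex

/-- some cell contains the point -/
theorem exists_cell {p : ℂ} (hp : p ∈ DT) (hv : 1 / 5 ≤ p.im) :
    ∃ u1 u2 v1 v2 : ℤ, cell u1 u2 v1 v2 = true ∧ (u1 : ℝ) / 1024 ≤ p.re ∧ p.re ≤ (u2 : ℝ) / 1024 ∧
      (v1 : ℝ) / 1024 ≤ p.im ∧ p.im ≤ (v2 : ℝ) / 1024 := by
  have hV : p.im ≤ 19 / 5 := hp.2.1
  rcases le_total p.im (476 / 1024) with h1 | h1
  · exact strips_cover sd0_ok (by simp [sd0]) hp (by push_cast; linarith) (by rw [sd0_last]; push_cast; linarith)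
  rcases le_total p.im (892 / 1024) with h2 | h2
  · exact strips_cover sd1_ok (by simp [sd1]) hp (by push_cast; linarith) (by rw [sd1_last]; push_cast; linarith)
  rcases le_total p.im (1228 / 1024) with h3 | h3
  · exact strips_cover sd2_ok (by simp [sd2]) hp (by push_cast; linarith) (by rw [sd2_last]; push_cast; linarith)
  rcases le_total p.im (2300 / 1024) with h4 | h4
  · exact strips_cover sd3_ok (by simp [sd3]) hp (by push_cast; linarith) (by rw [sd3_last]; push_cast; linarith)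
  rcases le_total p.im (3288 / 1024) with h5 | h5
  · exact strips_cover sd4_ok (by simp [sd4]) hp (by push_cast; linarith) (by rw [sd4_last]; push_cast; linarith)
  · exact strips_cover sd5_ok (by simp [sd5]) hp (by push_cast; linarith) (by rw [sd5_last]; push_cast; linarith)

/-- the cell and its consequences -/
theorem cell_at {p : ℂ} (hp : p ∈ DT) (hv : 1 / 5 ≤ p.im) :
    CondG p ∧ (‖wmap p‖ ≤ 1 → ∀ δ : ℝ, 0 < δ → δ ≤ 2 / 25 → (Bp p).re ≤ -(Real.pi * δ) →
      PtCond p δ ∧ ((Bp p).re = -(Real.pi * δ) → CondI p δ)) := by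
  obtain ⟨u1, u2, v1, v2, h, a1, a2, a3, a4⟩ := exists_cell hp hv
  exact cell_sound h hp.1.le a1 a2 a3 (rect_mem a1 a2 a3 a4)

/-- the left side -/
theorem segL_at {p : ℂ} (hp : p ∈ DT) (hv : 1 / 5 ≤ p.im) (hl : p.re = 2 / 5 * p.im) :
    (‖wmap p‖ ≤ 1 → ∀ δ : ℝ, 0 < δ → δ ≤ 2 / 25 → (Bp p).re ≤ -(Real.pi * δ) → CondL p δ) ∧
    (‖wmap p‖ = 1 → (Bp p).re ≤ -(Real.pi * (2 / 25)) ∧ 3 / 4 < psiP p) := by
  have hV : p.im ≤ 19 / 5 := hp.2.1
  obtain ⟨b, c, h, h1, h2⟩ := segs_cover sgL_ok (by simp [sgL]) (x := p.im) (by push_cast; linarith)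
    (by rw [sgL_last]; push_cast; linarith)
  exact segL_sound h (segL_mem hl h1 h2)

/-- the right side -/
theorem segR_at {p : ℂ} (hp : p ∈ DT) (hv : 1 / 5 ≤ p.im) (hr : p.re = Uf p.im) :
    ‖wmap p‖ ≤ 1 → ∀ δ : ℝ, 0 < δ → δ ≤ 2 / 25 → (Bp p).re ≤ -(Real.pi * δ) → CondR p δ := by
  have hV : p.im ≤ 19 / 5 := hp.2.1
  rcases le_total p.im (8 / 5) with h8 | h8
  · obtain ⟨b, c, h, h1, h2⟩ := segs_cover sgR_ok (by simp [sgR]) (x := p.im) (by push_cast; linarith)
      (by rw [sgR_last]; push_cast; linarith)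
    exact segR_sound h (segR_mem (by rw [hr, Uf_low h8]) h1 h2)
  · obtain ⟨b, c, h, h1, h2⟩ := segs_cover sgU_ok (by simp [sgU]) (x := p.im) (by push_cast; linarith)
      (by rw [sgU_last]; push_cast; linarith)
    exact segU_sound h (segU_mem (by rw [hr, Uf_high h8]) h1 h2)

/-- (G4) -/
theorem top_at {p : ℂ} (hp : p ∈ DT) (hv : p.im = 19 / 5) : 1 < ‖wmap p‖ := by
  have h1 : 2 / 5 * p.im ≤ p.re := hp.2.2.1
  have h2 : p.re ≤ Uf p.im := hp.2.2.2
  rw [hv, Uf_high (by norm_num)] at h2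
  rw [hv] at h1
  obtain ⟨b, c, h, h3, h4⟩ := segs_cover sgT_ok (by simp [sgT]) (x := p.re) (by push_cast; linarith)
    (by rw [sgT_last]; push_cast; linarith)
  refine segT_sound h (rect_mem h3 h4 ?_ ?_)
  · rw [hv]; push_cast; norm_num
  · rw [hv]; push_cast; norm_num

theorem condG_at {p : ℂ} (hp : p ∈ DT) : CondG p := by
  rcases le_total p.im (1 / 5) with h | h
  · exact small_G12 p hp h
  · exact (cell_at hp h).1

/-- **The numerical facts of the tip.** -/
theorem tipNum : TipNum := by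
  refine ⟨fun p hp => condG_at hp, ?_, fun p hp hv => top_at hp hv, ?_, ?_, ?_⟩
  · intro p hp hv hr
    obtain ⟨g1, g2⟩ := condG_at hp
    have hv0 : 0 < p.im := hp.1
    have hu : 2 / 5 * p.im ≤ p.re := hp.2.2.1
    have hu0 : 0 < p.re := by linarith
    have hgy : 0 < -(Gp p).im := by
      have h1 : 0 < p.re * (Gp p).re := mul_pos hu0 g1
      have h2 : 0 < -(Gp p).im * p.im := h1.trans g2
      exact (mul_pos_iff_of_pos_right hv0).1 h2
    have hn : 0 < normSq p := by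
      rw [normSq_pos]
      intro h0
      rw [h0] at hv0
      simp at hv0
    have e : (Gp p * (11 / 50 + I) / p).re =
        ((Gp p).re * (11 / 50 * p.re + p.im) + (-(Gp p).im) * (p.re - 11 / 50 * p.im)) / normSq p := by
      rw [div_re]
      have e1 : (Gp p * (11 / 50 + I)).re = (Gp p).re * (11 / 50) - (Gp p).im := by
        rw [mul_re, add_re, add_im, I_re, I_im]
        norm_num
      have e2 : (Gp p * (11 / 50 + I)).im = (Gp p).re + (Gp p).im * (11 / 50) := by
        rw [mul_im, add_re, add_im, I_re, I_im]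
        norm_num
      rw [e1, e2]
      field_simp
      ring
    rw [e]
    refine div_pos (add_pos (mul_pos g1 (by linarith)) (mul_pos hgy ?_)) hn
    linarith
  · intro δ δ0 δ1 p hp
    rcases le_total p.im (1 / 5) with h | h
    · exact small_P δ δ0 δ1 p hp h
    · obtain ⟨hD, hB, hw⟩ := hp
      have hc := (cell_at hD h).2 hw δ δ0 δ1 hB
      exact ⟨hc.1, fun hl => (segL_at hD h hl).1 hw δ δ0 δ1 hB, fun hr => segR_at hD h hr hw δ δ0 δ1 hB, hc.2⟩
  · intro p hp hl hw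
    rcases le_total p.im (1 / 5) with h | h
    · exact absurd (small_w p hp h) (by rw [hw]; exact lt_irrefl _)
    · exact (segL_at hp h hl).2 hw
  · intro p hp _ _
    exact psi_lt_Dtip hp

end SokalTI
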