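import Pool.Agent.Lib_MP_af4de1_ti.Common

/-!
# Right saddle, the vertical leg `v = i y` [TI-R2]

`ht h (iy) = s (1 - cos y) + a (y - sin y)`.
`vert_height` (`y ≤ 3/2`): `1 - cos y ≥ y²/2 - y⁴/24`, `y - sin y ≥ y³/6 - y⁵/120`; with `s ≤ 3a`:
`s (1/20 - y²/24) + a (y/6 - y³/120) ≥ 0` (if the first bracket is negative use `s ≤ 3a`: at `y = 3/2`: `3(.05-.09375)+.25-.0281 > 0`).
`vert_far` (`y ≥ 3/2`): difference `s(-1/80 - cos y) + a(y/2 - sin y + 11/20)`; if `cos y ≤ -1/80` it is `≥ a(3/4 - 1 + 11/20) > 0`; otherwise `s ≤ 3a` gives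
`≥ a(y/2 + 41/80 - 3 cos y - sin y)`: `y ∈ [3/2, π]`: `cos y ≤ cos(3/2) ≤ .0708`, `sin y ≤ 1`; `y ∈ [π, 3π/2]`: `cos, sin ≤ 0`;
`y ∈ [3π/2, 5]`: `sin y ≤ 0`, `cos y = sin(y - 3π/2) ≤ y - 3π/2 ≤ .29`; `y ∈ [5, 2π]`: `sin y ≤ 0`, `3 cos y ≤ 3 ≤ y/2 + 41/80`; `y ≥ 2π`: `3 cos y + sin y ≤ √10 < 3.17 < y/2 + 41/80`.
`vert_gg`: `|gg(iy)| ≤ y²/2`, `vert_g3`: `|gg(iy) + y²/2| ≤ y³/6` (`Complex.norm_exp_I..`, Taylor with remainder; mean value inequality).
-/

set_option autoImplicit false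

namespace SokalTI

open Complex

private theorem r2_gg (y : ℝ) : gg (I * y) =
    ((Real.cos y - 1 : ℝ) : ℂ) + ((Real.sin y - y : ℝ) : ℂ) * I := by
  unfold gg
  rw [mul_comm I (y : ℂ), Complex.exp_mul_I]
  push_cast
  ring

theorem vert_ht (h : ℂ) (y : ℝ) :
    ht h (I * y) = h.im * (1 - Real.cos y) + h.re * (y - Real.sin y) := by
  unfold ht
  rw [r2_gg]
  have e : (I * (y : ℂ)) ^ 2 / 2 = ((-(y ^ 2 / 2) : ℝ) : ℂ) := by
    rw [mul_pow, I_sq]
    push_cast
    ring
  rw [e, sub_im, ofReal_im, mul_im, add_re, add_im, ofReal_re, ofReal_im, mul_re, mul_im,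
    ofReal_re, ofReal_im, I_re, I_im]
  ring

theorem vert_quad (h : ℂ) (y : ℝ) : ((1 - h) * ((I * y) ^ 2 / 2)).im = h.im * y ^ 2 / 2 := by
  have e : (I * (y : ℂ)) ^ 2 / 2 = ((-(y ^ 2 / 2) : ℝ) : ℂ) := by
    rw [mul_pow, I_sq]
    push_cast
    ring
  rw [e, mul_im, ofReal_re, ofReal_im, sub_im, one_im]
  ring

private theorem r2_nonneg {f f' : ℝ → ℝ} (hf : ∀ x, HasDerivAt f (f' x) x) (h0 : f 0 = 0)
    (hp : ∀ x, 0 ≤ x → 0 ≤ f' x) {y : ℝ} (hy : 0 ≤ y) : 0 ≤ f y := by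
  have hm : MonotoneOn f (Set.Ici 0) := by
    refine monotoneOn_of_deriv_nonneg (convex_Ici 0)
      (fun x _ => (hf x).continuousAt.continuousWithinAt)
      (fun x _ => (hf x).differentiableAt.differentiableWithinAt) (fun x hx => ?_)
    rw [(hf x).deriv]
    exact hp x (interior_subset hx)
  have := hm (Set.mem_Ici.2 le_rfl) (Set.mem_Ici.2 hy) hy
  rwa [h0] at this

private theorem r2_c2 {y : ℝ} (hy : 0 ≤ y) : 0 ≤ Real.cos y - 1 + y ^ 2 / 2 := by
  refine r2_nonneg (f := fun y => Real.cos y - 1 + y ^ 2 / 2) (f' := fun y => -Real.sin y + y)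
    (fun x => ?_) (by simp) (fun x hx => ?_) hy
  · have h1 := ((Real.hasDerivAt_cos x).sub_const 1).add (((hasDerivAt_id x).pow 2).div_const 2)
    refine h1.congr_deriv ?_
    norm_num
  · have := Real.sin_le hx
    show 0 ≤ -Real.sin x + x
    linarith

private theorem r2_s3 {y : ℝ} (hy : 0 ≤ y) : 0 ≤ Real.sin y - y + y ^ 3 / 6 := by
  refine r2_nonneg (f := fun y => Real.sin y - y + y ^ 3 / 6)
    (f' := fun y => Real.cos y - 1 + y ^ 2 / 2) (fun x => ?_) (by simp) (fun x hx => r2_c2 hx) hy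
  have h1 := ((Real.hasDerivAt_sin x).sub (hasDerivAt_id x)).add
    (((hasDerivAt_id x).pow 3).div_const 6)
  refine h1.congr_deriv ?_
  norm_num
  ring

private theorem r2_c4 {y : ℝ} (hy : 0 ≤ y) : 0 ≤ 1 - y ^ 2 / 2 + y ^ 4 / 24 - Real.cos y := by
  refine r2_nonneg (f := fun y => 1 - y ^ 2 / 2 + y ^ 4 / 24 - Real.cos y)
    (f' := fun y => Real.sin y - y + y ^ 3 / 6) (fun x => ?_) (by simp) (fun x hx => r2_s3 hx) hy
  have h1 := (((((hasDerivAt_id x).pow 2).div_const 2).const_sub 1).add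
    (((hasDerivAt_id x).pow 4).div_const 24)).sub (Real.hasDerivAt_cos x)
  refine h1.congr_deriv ?_
  norm_num
  ring

private theorem r2_s5 {y : ℝ} (hy : 0 ≤ y) :
    0 ≤ y - y ^ 3 / 6 + y ^ 5 / 120 - Real.sin y := by
  refine r2_nonneg (f := fun y => y - y ^ 3 / 6 + y ^ 5 / 120 - Real.sin y)
    (f' := fun y => 1 - y ^ 2 / 2 + y ^ 4 / 24 - Real.cos y) (fun x => ?_) (by simp)
    (fun x hx => r2_c4 hx) hy
  have h1 := (((hasDerivAt_id x).sub (((hasDerivAt_id x).pow 3).div_const 6)).add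
    (((hasDerivAt_id x).pow 5).div_const 120)).sub (Real.hasDerivAt_sin x)
  refine h1.congr_deriv ?_
  norm_num
  ring

theorem vert_height {h : ℂ} {y : ℝ} (h0 : 0 ≤ y) (h1 : y ≤ 3 / 2) (ha : 0 < h.re) (hs : 0 < h.im)
    (hs3 : h.im ≤ 78 / 25 * h.re) : 9 / 20 * h.im * y ^ 2 ≤ ht h (I * y) := by
  rw [vert_ht]
  have hc := r2_c4 h0
  have hsn := r2_s5 h0
  have k1 : h.im * (y ^ 2 / 2 - y ^ 4 / 24) ≤ h.im * (1 - Real.cos y) :=
    mul_le_mul_of_nonneg_left (by linarith) hs.le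
  have k2 : h.re * (y ^ 3 / 6 - y ^ 5 / 120) ≤ h.re * (y - Real.sin y) :=
    mul_le_mul_of_nonneg_left (by linarith) ha.le
  have hy2 : y ^ 2 ≤ 9 / 4 := by nlinarith
  have k3 : 0 ≤ h.im * (1 / 20 - y ^ 2 / 24) + h.re * (y / 6 - y ^ 3 / 120) := by
    have k4 : 0 ≤ y / 6 - y ^ 3 / 120 := by
      have : y ^ 3 = y * y ^ 2 := by ring
      rw [this]
      nlinarith
    rcases le_total 0 (1 / 20 - y ^ 2 / 24) with h5 | h5
    · positivity
    · have h6 : 78 / 25 * h.re * (1 / 20 - y ^ 2 / 24) ≤ h.im * (1 / 20 - y ^ 2 / 24) :=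
        mul_le_mul_of_nonpos_right hs3 h5
      have h7 : 0 ≤ 78 / 25 * (1 / 20) + y / 6 - 78 / 25 * (y ^ 2 / 24) - y ^ 3 / 120 := by
        have e1 : y ^ 2 ≤ 3 / 2 * y := by nlinarith
        have e2 : y ^ 3 ≤ 9 / 4 * y := by
          have : y ^ 3 = y * y ^ 2 := by ring
          rw [this]
          nlinarith
        linarith
      have h8 := mul_nonneg ha.le h7
      nlinarith
  have k5 := mul_nonneg (sq_nonneg y) k3
  nlinarith

theorem vert_far {h : ℂ} {y : ℝ} (h1 : 3 / 2 ≤ y) (ha : 0 < h.re) (hs : 0 < h.im)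
    (hs3 : h.im ≤ 78 / 25 * h.re) :
    81 / 80 * h.im + h.re / 5 + h.re / 2 * (y - 3 / 2) ≤ ht h (I * y) := by
  rw [vert_ht]
  have hsin := Real.sin_le_one y
  have hcos := Real.cos_le_one y
  rcases le_total (Real.cos y) (-1 / 80) with hc | hc
  · have k1 : 0 ≤ h.im * (-1 / 80 - Real.cos y) := mul_nonneg hs.le (by linarith)
    have k2 : 0 ≤ h.re * (y / 2 - Real.sin y + 11 / 20) := mul_nonneg ha.le (by linarith)
    nlinarith
  · have k1 : 78 / 25 * h.re * (-1 / 80 - Real.cos y) ≤ h.im * (-1 / 80 - Real.cos y) :=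
      mul_le_mul_of_nonpos_right hs3 (by linarith)
    have key : 78 / 25 * Real.cos y + Real.sin y ≤ y / 2 + 511 / 1000 := by
      have hpi1 := Real.pi_gt_d6
      have hpi2 := Real.pi_lt_d6
      rcases le_total y Real.pi with h2 | h2
      · have e1 : Real.cos y ≤ Real.cos (3 / 2) :=
          Real.cos_le_cos_of_nonneg_of_le_pi (by norm_num) h2 h1
        have e2 : Real.cos (3 / 2) ≤ Real.pi / 2 - 3 / 2 := by
          rw [← Real.sin_pi_div_two_sub]
          exact Real.sin_le (by linarith)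
        linarith
      · rcases le_total y (2 * Real.pi) with h3 | h3
        · have e3 : Real.sin y ≤ 0 := by
            have e4 := Real.sin_nonpos_of_nonpos_of_neg_pi_le (x := y - 2 * Real.pi)
              (by linarith) (by linarith)
            rwa [Real.sin_sub_two_pi] at e4
          rcases le_total y (53 / 10) with h4 | h4
          · rcases le_total y (Real.pi + Real.pi / 2) with h5 | h5
            · have e5 := Real.cos_nonpos_of_pi_div_two_le_of_le (x := y) (by linarith) h5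
              linarith
            · have e6 : Real.cos y ≤ y - 3 * Real.pi / 2 := by
                have e7 : Real.cos y = Real.sin (y - 3 * Real.pi / 2) := by
                  rw [← Real.cos_two_pi_sub, ← Real.sin_pi_div_two_sub]
                  congr 1
                  ring
                rw [e7]
                exact Real.sin_le (by linarith)
              linarith
          · linarith
        · have e8 : (78 / 25 * Real.cos y + Real.sin y) ^ 2 ≤ (78 / 25) ^ 2 + 1 := by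
            nlinarith [Real.sin_sq_add_cos_sq y, sq_nonneg (Real.cos y - 78 / 25 * Real.sin y)]
          have e9 : 78 / 25 * Real.cos y + Real.sin y ≤ 328 / 100 := by
            nlinarith
          linarith
    have k2 := mul_le_mul_of_nonneg_left key ha.le
    nlinarith

private theorem r2_d (y : ℝ) : HasDerivAt (fun y : ℝ => gg (I * y)) (I * (cexp (I * y) - 1)) y := by
  have h1 : HasDerivAt (fun z : ℂ => I * z) I (y : ℂ) := by
    simpa using (hasDerivAt_id (y : ℂ)).const_mul I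
  have h2 := ((hasDerivAt_gg (I * y)).comp (y : ℂ) h1).comp_ofReal
  rw [mul_comm] at h2
  exact h2

private theorem r2_one {y : ℝ} (h0 : 0 ≤ y) : ‖cexp (I * y) - 1‖ ≤ y := by
  have := Real.norm_exp_I_mul_ofReal_sub_one_le (x := y)
  rwa [Real.norm_of_nonneg h0] at this

theorem vert_gg {y : ℝ} (h0 : 0 ≤ y) : ‖gg (I * y)‖ ≤ y ^ 2 / 2 := by
  refine image_norm_le_of_norm_deriv_right_le_deriv_boundary (a := 0) (b := y)
    (f := fun y : ℝ => gg (I * y)) (f' := fun y : ℝ => I * (cexp (I * y) - 1))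
    (B := fun y => y ^ 2 / 2) (B' := fun y => y)
    (fun x _ => (r2_d x).continuousAt.continuousWithinAt)
    (fun x _ => (r2_d x).hasDerivWithinAt) ?_ (fun x => ?_) (fun x hx => ?_)
    (Set.right_mem_Icc.2 h0)
  · simp [gg]
  · have h1 := ((hasDerivAt_id x).pow 2).div_const 2
    refine h1.congr_deriv ?_
    norm_num
  · rw [norm_mul, norm_I, one_mul]
    exact r2_one hx.1

theorem vert_g3 {y : ℝ} (h0 : 0 ≤ y) : ‖gg (I * y) - (I * y) ^ 2 / 2‖ ≤ y ^ 3 / 6 := by
  have hd : ∀ x : ℝ, HasDerivAt (fun y : ℝ => gg (I * y) - (I * y) ^ 2 / 2) (I * gg (I * x)) x := by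
    intro x
    have h1 : HasDerivAt (fun z : ℂ => (I * z) ^ 2 / 2) (-(x : ℂ)) (x : ℂ) := by
      have h2 : HasDerivAt (fun z : ℂ => I * z) I (x : ℂ) := by
        simpa using (hasDerivAt_id (x : ℂ)).const_mul I
      have h3 := (h2.pow 2).div_const 2
      refine h3.congr_deriv ?_
      norm_num
      have : (2 * (I * (x : ℂ)) * I / 2) = (I * I) * x := by ring
      rw [this, I_mul_I]
      ring
    have h4 := (r2_d x).sub h1.comp_ofReal
    refine h4.congr_deriv ?_
    unfold gg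
    have : I * (cexp (I * x) - 1 - I * x) = I * (cexp (I * x) - 1) - (I * I) * x := by ring
    rw [this, I_mul_I]
    ring
  refine image_norm_le_of_norm_deriv_right_le_deriv_boundary (a := 0) (b := y)
    (f := fun y : ℝ => gg (I * y) - (I * y) ^ 2 / 2) (f' := fun y : ℝ => I * gg (I * y))
    (B := fun y => y ^ 3 / 6) (B' := fun y => y ^ 2 / 2)
    (fun x _ => (hd x).continuousAt.continuousWithinAt)
    (fun x _ => (hd x).hasDerivWithinAt) ?_ (fun x => ?_) (fun x hx => ?_)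
    (Set.right_mem_Icc.2 h0)
  · simp [gg]
  · have h1 := ((hasDerivAt_id x).pow 3).div_const 6
    refine h1.congr_deriv ?_
    norm_num
    ring
  · rw [norm_mul, norm_I, one_mul]
    exact vert_gg hx.1

end SokalTI
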