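import Pool.Agent.Lib_MP_af4de1_ti.R1
import Pool.Agent.Lib_MP_af4de1_ti.R2

/-!
# Right saddle: the Gauss integral over the bent line, and the identity by parts [TI-R4]

`gauss_R`: `β = I(1-h)/(2δ)·(1)`: `I (1 - h) = s + i(1-a)`, real part `s > 0`.  `Ev2 δ h (I y) = -β y²`, `β = I(1-h)/(2δ)`: `∫_0^∞ e^{-β y²} dy = (π/β)^{1/2}/2` (half of
`integral_gaussian_complex`, `integral_gaussian_complex_Ioi`).  `Ev2 δ h (t et) = -b t²`, `b = β e^{iπ/3}` (`et² = e^{-2πi/3} = -e^{iπ/3}`), `Re b = qp h/δ > 0`: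
`∫_0^∞ e^{-b t²} = (π/b)^{1/2}/2`.  `arg β ∈ (-π/2, π/2)`, `arg b = arg β + π/3 ∈ (-π/2, π/2)` (both real parts are positive and the sum of the arguments is in `(-π/2 , 5π/6)`, so it must be
`arg b`), hence `(π/b)^{1/2} = (π/β)^{1/2} e^{-iπ/6}` and `I (π/β)^{1/2}/2 - et (π/b)^{1/2}/2 = (π/β)^{1/2}(I - e^{-iπ/3} e^{-iπ/6})/2 = I (π/β)^{1/2}`.
`jR = I (2πδ/(I(1-h)))^{1/2} = I (π/β)^{1/2}`.  `norm_jRr`, `norm_jLr`: `|z^{1/2}| = |z|^{1/2}` (`Complex.norm_cpow_..`; exponent real).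
`by_parts`: `Ev' = (I/δ)((1-h) v - h gg v)` (`hasDerivAt_Ev`); `∫_0^∞ d/dy e^{Ev(Iy)} dy = -1` (`integral_Ioi_of_hasDerivAt_of_tendsto`; `e^{Ev} → 0` by `vert_far`),
`∫_0^T d/dt e^{Ev(t et)} dt = e^{Ev(T et)} - 1`.
-/

set_option autoImplicit false

namespace SokalTI

open Complex MeasureTheory Set

private theorem R4_norm_sqrt {z : ℂ} (hz : z ≠ 0) : ‖z ^ (1 / 2 : ℂ)‖ = √‖z‖ := by
  rw [Complex.norm_cpow_of_ne_zero hz, Real.sqrt_eq_rpow]
  have h1 : (1 / 2 : ℂ).im = 0 := by norm_num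
  have h2 : (1 / 2 : ℂ).re = 1 / 2 := by norm_num
  rw [h1, h2, mul_zero, Real.exp_zero, div_one]

private theorem R4_num_ne {δ : ℝ} (hδ : 0 < δ) : (2 * Real.pi * δ : ℂ) ≠ 0 := by
  have h1 : (δ : ℂ) ≠ 0 := by exact_mod_cast hδ.ne'
  have h2 : (Real.pi : ℂ) ≠ 0 := by exact_mod_cast Real.pi_ne_zero
  exact mul_ne_zero (mul_ne_zero two_ne_zero h2) h1

private theorem R4_num_norm {δ : ℝ} (hδ : 0 < δ) : ‖(2 * Real.pi * δ : ℂ)‖ = 2 * Real.pi * δ := by
  have h1 : (2 * Real.pi * δ : ℂ) = ((2 * Real.pi * δ : ℝ) : ℂ) := by push_cast; ring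
  rw [h1, Complex.norm_real, Real.norm_eq_abs, abs_of_pos (by positivity)]

theorem norm_jRr {δ : ℝ} (hδ : 0 < δ) {h : ℂ} (h1 : h ≠ 1) : ‖jR δ h‖ = √(2 * Real.pi * δ / ‖1 - h‖) := by
  have h2 : (1 : ℂ) - h ≠ 0 := sub_ne_zero.mpr (Ne.symm h1)
  unfold jR
  rw [norm_mul, Complex.norm_I, one_mul, R4_norm_sqrt (div_ne_zero (R4_num_ne hδ) (mul_ne_zero I_ne_zero h2)),
    norm_div, R4_num_norm hδ, norm_mul, Complex.norm_I, one_mul]

theorem norm_jLr {δ : ℝ} (hδ : 0 < δ) {h : ℂ} (h1 : h ≠ 1) : ‖jL δ h‖ = √(2 * Real.pi * δ / ‖1 - h‖) := by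
  have h2 : (1 : ℂ) - h ≠ 0 := sub_ne_zero.mpr (Ne.symm h1)
  unfold jL
  rw [R4_norm_sqrt (div_ne_zero (R4_num_ne hδ) (neg_ne_zero.mpr (mul_ne_zero I_ne_zero h2))),
    norm_div, R4_num_norm hδ, norm_neg, norm_mul, Complex.norm_I, one_mul]

/-- a square root with the argument in an interval -/
private theorem R4_re_pos {z : ℂ} (hz : 0 < z.re) {θ : ℝ} (h1 : -(Real.pi / 4) ≤ θ) (h2 : θ ≤ Real.pi / 4) :
    0 < (z ^ (1 / 2 : ℂ) * cexp (θ * I)).re := by
  have hz0 : z ≠ 0 := by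
    rintro rfl
    simp at hz
  have harg : |arg z| < Real.pi / 2 := abs_arg_lt_pi_div_two_iff.mpr (Or.inl hz)
  have h3 := abs_lt.mp harg
  have h4 : z ^ (1 / 2 : ℂ) * cexp (θ * I) = cexp ((Real.log ‖z‖ / 2 : ℝ) + (arg z / 2 + θ : ℝ) * I) := by
    rw [cpow_def_of_ne_zero hz0, ← Complex.exp_add]
    congr 1
    have h5 : Complex.log z = (Real.log ‖z‖ : ℝ) + (arg z : ℝ) * I := by
      rw [Complex.log]
    rw [h5]
    push_cast
    ring
  rw [h4, Complex.exp_re]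
  have h5 : ((Real.log ‖z‖ / 2 : ℝ) + (arg z / 2 + θ : ℝ) * I : ℂ).im = arg z / 2 + θ := by simp
  rw [h5]
  refine mul_pos (Real.exp_pos _) (Real.cos_pos_of_mem_Ioo ⟨?_, ?_⟩)
  · linarith [h3.1]
  · linarith [h3.2]

private theorem R4_et_mul : et * cexp (-(Real.pi / 6 : ℝ) * I) = -I := by
  unfold et
  rw [← Complex.exp_add]
  have h1 : -((Real.pi / 3 : ℝ) * I) + -(Real.pi / 6 : ℝ) * I = -(Real.pi / 2 * I) := by
    push_cast
    ring
  rw [h1, Complex.exp_neg, Complex.exp_pi_div_two_mul_I, Complex.inv_I]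

private theorem R4_exp_sq : cexp (-(Real.pi / 6 : ℝ) * I) ^ 2 * (-et ^ 2) = 1 := by
  have h1 : (et * cexp (-(Real.pi / 6 : ℝ) * I)) ^ 2 = -1 := by
    rw [R4_et_mul, neg_sq, I_sq]
  have h2 : cexp (-(Real.pi / 6 : ℝ) * I) ^ 2 * (-et ^ 2) = -(et * cexp (-(Real.pi / 6 : ℝ) * I)) ^ 2 := by ring
  rw [h2, h1, neg_neg]

theorem gauss_R {h : ℂ} {δ : ℝ} (hδ : 0 < δ) (hs : 0 < h.im) (hq : 0 < qp h) :
    I * (∫ y in Ioi (0 : ℝ), cexp (Ev2 δ h (I * y))) -
      et * (∫ t in Ioi (0 : ℝ), cexp (Ev2 δ h (t * et))) = jR δ h := by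
  have hδc : (δ : ℂ) ≠ 0 := by exact_mod_cast hδ.ne'
  obtain ⟨β, hβ⟩ : ∃ β : ℂ, β = I * (1 - h) / (2 * δ) := ⟨_, rfl⟩
  obtain ⟨b, hb⟩ : ∃ b : ℂ, b = β * (-et ^ 2) := ⟨_, rfl⟩
  have hβre : β.re = h.im / (2 * δ) := by
    have h1 : β = ((1 / (2 * δ) : ℝ) : ℂ) * (I * (1 - h)) := by
      rw [hβ]
      push_cast
      field_simp
    rw [h1, Complex.re_ofReal_mul, Complex.mul_re, Complex.I_re, Complex.I_im]
    simp
    ring
  have hβp : 0 < β.re := by
    rw [hβre]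
    positivity
  have hbre : b.re = qp h / δ := by
    have h1 := slope_quad h 1
    have h2 : b = ((1 / δ : ℝ) : ℂ) * (-(I * ((1 - h) * (((1 : ℝ) * et) ^ 2 / 2)))) := by
      rw [hb, hβ]
      push_cast
      field_simp
    rw [h2, Complex.re_ofReal_mul, Complex.neg_re, Complex.mul_re, Complex.I_re, Complex.I_im, h1]
    ring
  have hbp : 0 < b.re := by
    rw [hbre]
    positivity
  have hβ0 : β ≠ 0 := by
    rintro h0
    rw [h0] at hβp
    simp at hβp
  have hb0 : b ≠ 0 := by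
    rintro h0
    rw [h0] at hbp
    simp at hbp
  have e1 : ∫ y in Ioi (0 : ℝ), cexp (Ev2 δ h (I * y)) = (Real.pi / β) ^ (1 / 2 : ℂ) / 2 := by
    rw [← integral_gaussian_complex_Ioi hβp]
    refine setIntegral_congr_fun measurableSet_Ioi fun y _ => ?_
    show cexp (Ev2 δ h (I * y)) = cexp (-β * (y : ℂ) ^ 2)
    congr 1
    unfold Ev2
    rw [hβ, mul_pow, I_sq]
    field_simp
  have e2 : ∫ t in Ioi (0 : ℝ), cexp (Ev2 δ h (t * et)) = (Real.pi / b) ^ (1 / 2 : ℂ) / 2 := by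
    rw [← integral_gaussian_complex_Ioi hbp]
    refine setIntegral_congr_fun measurableSet_Ioi fun y _ => ?_
    show cexp (Ev2 δ h (y * et)) = cexp (-b * (y : ℂ) ^ 2)
    congr 1
    unfold Ev2
    rw [hb, hβ]
    field_simp
  have hpi : (Real.pi : ℂ) ≠ 0 := by exact_mod_cast Real.pi_ne_zero
  have hre1 : 0 < (Real.pi / β : ℂ).re := by
    rw [div_eq_mul_inv, Complex.re_ofReal_mul, Complex.inv_re]
    have := Real.pi_pos
    have := Complex.normSq_pos.mpr hβ0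
    positivity
  have hre2 : 0 < (Real.pi / b : ℂ).re := by
    rw [div_eq_mul_inv, Complex.re_ofReal_mul, Complex.inv_re]
    have := Real.pi_pos
    have := Complex.normSq_pos.mpr hb0
    positivity
  have hsq1 : ((Real.pi / β : ℂ) ^ (1 / 2 : ℂ)) ^ 2 = Real.pi / β := by
    rw [← Complex.cpow_nat_mul]
    norm_num
  have hsq2 : ((Real.pi / b : ℂ) ^ (1 / 2 : ℂ)) ^ 2 = Real.pi / b := by
    rw [← Complex.cpow_nat_mul]
    norm_num
  have e3 : (Real.pi / b : ℂ) ^ (1 / 2 : ℂ) = (Real.pi / β : ℂ) ^ (1 / 2 : ℂ) * cexp (-(Real.pi / 6 : ℝ) * I) := by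
    have h1 : ((Real.pi / b : ℂ) ^ (1 / 2 : ℂ)) ^ 2 =
        ((Real.pi / β : ℂ) ^ (1 / 2 : ℂ) * cexp (-(Real.pi / 6 : ℝ) * I)) ^ 2 := by
      rw [mul_pow, hsq1, hsq2, hb]
      have h2 := R4_exp_sq
      have h3 : (-et ^ 2 : ℂ) ≠ 0 := by
        intro h0
        rw [h0, mul_zero] at h2
        exact zero_ne_one h2
      rw [← div_div, div_eq_iff h3, mul_assoc, h2, mul_one]
    rcases sq_eq_sq_iff_eq_or_eq_neg.mp h1 with h2 | h2
    · exact h2
    · exfalso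
      have p1 := R4_re_pos hre2 (θ := 0) (by linarith [Real.pi_pos]) (by linarith [Real.pi_pos])
      have p2 := R4_re_pos hre1 (θ := -(Real.pi / 6)) (by linarith [Real.pi_pos]) (by linarith [Real.pi_pos])
      rw [Complex.ofReal_zero, zero_mul, Complex.exp_zero, mul_one, h2, Complex.neg_re] at p1
      rw [Complex.ofReal_neg] at p2
      linarith
  have e4 : (2 * Real.pi * δ / (I * (1 - h)) : ℂ) = Real.pi / β := by
    have h2 : I * (1 - h) ≠ 0 := by
      intro h0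
      apply hβ0
      rw [hβ, h0, zero_div]
    rw [hβ]
    field_simp
  rw [e1, e2, e3]
  unfold jR
  rw [e4]
  have h5 : I * ((Real.pi / β : ℂ) ^ (1 / 2 : ℂ) / 2) -
      et * ((Real.pi / β : ℂ) ^ (1 / 2 : ℂ) * cexp (-(Real.pi / 6 : ℝ) * I) / 2) =
      (Real.pi / β : ℂ) ^ (1 / 2 : ℂ) / 2 * (I - et * cexp (-(Real.pi / 6 : ℝ) * I)) := by ring
  rw [h5, R4_et_mul]
  ring

private theorem R4_gg_zero : gg 0 = 0 := by
  unfold gg
  simp

private theorem R4_Ev_zero (δ : ℝ) (h : ℂ) : Ev δ h 0 = 0 := by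
  unfold Ev
  rw [R4_gg_zero]
  simp

theorem by_parts {h : ℂ} {δ T : ℝ} (hδ : 0 < δ) (ha : 97 / 100 ≤ h.re) (hs : 0 < h.im)
    (hs3 : h.im ≤ 78 / 25 * h.re)
    (hi1 : IntegrableOn (fun y : ℝ => (I * y) * cexp (Ev δ h (I * y))) (Ioi 0))
    (hi2 : IntegrableOn (fun y : ℝ => gg (I * y) * cexp (Ev δ h (I * y))) (Ioi 0)) :
    (1 - h) * (I * (∫ y in Ioi (0 : ℝ), (I * y) * cexp (Ev δ h (I * y))) -
        et * (∫ t in (0 : ℝ)..T, (t * et) * cexp (Ev δ h (t * et)))) =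
      h * (I * (∫ y in Ioi (0 : ℝ), gg (I * y) * cexp (Ev δ h (I * y))) -
        et * (∫ t in (0 : ℝ)..T, gg (t * et) * cexp (Ev δ h (t * et)))) +
      I * δ * cexp (Ev δ h (T * et)) := by
  have hδc : (δ : ℂ) ≠ 0 := by exact_mod_cast hδ.ne'
  have hgc := continuous_gg
  have hEc := continuous_Ev δ h
  -- the derivative along a line
  have hder : ∀ (w : ℂ) (y : ℝ), HasDerivAt (fun y : ℝ => cexp (Ev δ h (y * w)))
      (cexp (Ev δ h (y * w)) * (I / δ * ((1 - h) * (y * w) - h * gg (y * w)) * w)) y := by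
    intro w y
    have h1 : HasDerivAt (fun y : ℝ => (y : ℂ) * w) w y := by
      have h2 := (Complex.ofRealCLM.hasDerivAt (x := y)).mul_const w
      simpa using h2
    exact ((hasDerivAt_Ev δ h (y * w)).comp y h1).cexp
  -- the vertical leg
  have hv : ∫ y in Ioi (0 : ℝ), cexp (Ev δ h (y * I)) * (I / δ * ((1 - h) * (y * I) - h * gg (y * I)) * I) = -1 := by
    have hf : Filter.Tendsto (fun y : ℝ => cexp (Ev δ h (y * I))) Filter.atTop (nhds 0) := by
      rw [tendsto_zero_iff_norm_tendsto_zero]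
      have h1 : Filter.Tendsto (fun y : ℝ => Real.exp (-((h.re / 2 * (y - 3 / 2)) / δ))) Filter.atTop (nhds 0) := by
        refine Real.tendsto_exp_neg_atTop_nhds_zero.comp ?_
        refine Filter.Tendsto.atTop_div_const hδ ?_
        refine Filter.Tendsto.const_mul_atTop (by linarith) ?_
        exact Filter.tendsto_atTop_add_const_right _ _ Filter.tendsto_id
      refine squeeze_zero' (Filter.Eventually.of_forall fun y => norm_nonneg _) ?_ h1
      filter_upwards [Filter.eventually_ge_atTop (3 / 2 : ℝ)] with y hy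
      rw [norm_exp_Ev hδ]
      apply Real.exp_le_exp.mpr
      have h2 := vert_far hy (by linarith : 0 < h.re) hs hs3
      rw [mul_comm (y : ℂ) I]
      have h3 : h.re / 2 * (y - 3 / 2) ≤ ht h (I * y) := by
        have h4 : 0 ≤ h.re := by linarith
        linarith
      have h4 : h.re / 2 * (y - 3 / 2) / δ ≤ ht h (I * y) / δ := by gcongr
      linarith
    have hint : IntegrableOn (fun y : ℝ => cexp (Ev δ h (y * I)) *
        (I / δ * ((1 - h) * (y * I) - h * gg (y * I)) * I)) (Ioi 0) := by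
      have h1 : IntegrableOn (fun y : ℝ => I / δ * (1 - h) * I * ((I * y) * cexp (Ev δ h (I * y))) -
          I / δ * h * I * (gg (I * y) * cexp (Ev δ h (I * y)))) (Ioi 0) :=
        Integrable.sub (hi1.const_mul (I / δ * (1 - h) * I)) (hi2.const_mul (I / δ * h * I))
      refine h1.congr_fun (fun y _ => ?_) measurableSet_Ioi
      show I / δ * (1 - h) * I * ((I * y) * cexp (Ev δ h (I * y))) -
          I / δ * h * I * (gg (I * y) * cexp (Ev δ h (I * y))) =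
        cexp (Ev δ h (y * I)) * (I / δ * ((1 - h) * (y * I) - h * gg (y * I)) * I)
      rw [mul_comm (y : ℂ) I]
      ring
    have hcont : ContinuousWithinAt (fun y : ℝ => cexp (Ev δ h (y * I))) (Ici 0) 0 :=
      (hder I 0).continuousAt.continuousWithinAt
    have h1 := integral_Ioi_of_hasDerivAt_of_tendsto hcont (fun y _ => hder I y) hint hf
    rw [h1, Complex.ofReal_zero, zero_mul, R4_Ev_zero, Complex.exp_zero, zero_sub]
  have hv2 : I / δ * I * ((1 - h) * (∫ y in Ioi (0 : ℝ), (I * y) * cexp (Ev δ h (I * y))) -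
      h * ∫ y in Ioi (0 : ℝ), gg (I * y) * cexp (Ev δ h (I * y))) = -1 := by
    rw [← hv, ← integral_const_mul, ← integral_const_mul, ← integral_sub (hi1.const_mul _) (hi2.const_mul _),
      ← integral_const_mul]
    refine setIntegral_congr_fun measurableSet_Ioi fun y _ => ?_
    show I / δ * I * ((1 - h) * ((I * y) * cexp (Ev δ h (I * y))) - h * (gg (I * y) * cexp (Ev δ h (I * y)))) =
      cexp (Ev δ h (y * I)) * (I / δ * ((1 - h) * (y * I) - h * gg (y * I)) * I)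
    rw [mul_comm (y : ℂ) I]
    ring
  -- the slope
  have hcy : Continuous fun t : ℝ => (t : ℂ) * et := by fun_prop
  have hc1 : Continuous fun t : ℝ => (t * et) * cexp (Ev δ h (t * et)) :=
    hcy.mul (Complex.continuous_exp.comp (hEc.comp hcy))
  have hc2 : Continuous fun t : ℝ => gg (t * et) * cexp (Ev δ h (t * et)) :=
    (hgc.comp hcy).mul (Complex.continuous_exp.comp (hEc.comp hcy))
  have hs1 : ∫ t in (0 : ℝ)..T, cexp (Ev δ h (t * et)) * (I / δ * ((1 - h) * (t * et) - h * gg (t * et)) * et) =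
      cexp (Ev δ h (T * et)) - 1 := by
    have h1 := intervalIntegral.integral_eq_sub_of_hasDerivAt (a := 0) (b := T) (fun t _ => hder et t) (by
      refine Continuous.intervalIntegrable ?_ _ _
      exact (Complex.continuous_exp.comp (hEc.comp hcy)).mul
        ((continuous_const.mul ((continuous_const.mul hcy).sub (continuous_const.mul (hgc.comp hcy)))).mul
          continuous_const))
    rw [h1, Complex.ofReal_zero, zero_mul, R4_Ev_zero, Complex.exp_zero]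
  have hs2 : I / δ * et * ((1 - h) * (∫ t in (0 : ℝ)..T, (t * et) * cexp (Ev δ h (t * et))) -
      h * ∫ t in (0 : ℝ)..T, gg (t * et) * cexp (Ev δ h (t * et))) = cexp (Ev δ h (T * et)) - 1 := by
    have i1 : IntervalIntegrable (fun t : ℝ => (1 - h) * ((t * et) * cexp (Ev δ h (t * et)))) volume 0 T :=
      (continuous_const.mul hc1).intervalIntegrable _ _
    have i2 : IntervalIntegrable (fun t : ℝ => h * (gg (t * et) * cexp (Ev δ h (t * et)))) volume 0 T :=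
      (continuous_const.mul hc2).intervalIntegrable _ _
    rw [← hs1, ← intervalIntegral.integral_const_mul, ← intervalIntegral.integral_const_mul,
      ← intervalIntegral.integral_sub i1 i2, ← intervalIntegral.integral_const_mul]
    refine intervalIntegral.integral_congr fun t _ => ?_
    ring
  -- conclusion
  obtain ⟨A1, hA1⟩ : ∃ A1, A1 = ∫ y in Ioi (0 : ℝ), (I * y) * cexp (Ev δ h (I * y)) := ⟨_, rfl⟩
  obtain ⟨A2, hA2⟩ : ∃ A2, A2 = ∫ y in Ioi (0 : ℝ), gg (I * y) * cexp (Ev δ h (I * y)) := ⟨_, rfl⟩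
  obtain ⟨B1, hB1⟩ : ∃ B1, B1 = ∫ t in (0 : ℝ)..T, (t * et) * cexp (Ev δ h (t * et)) := ⟨_, rfl⟩
  obtain ⟨B2, hB2⟩ : ∃ B2, B2 = ∫ t in (0 : ℝ)..T, gg (t * et) * cexp (Ev δ h (t * et)) := ⟨_, rfl⟩
  rw [← hA1, ← hA2] at hv2
  rw [← hB1, ← hB2] at hs2
  rw [← hA1, ← hA2, ← hB1, ← hB2]
  have h1 : I * ((1 - h) * A1 - h * A2) = I * δ := by
    have h2 : I / δ * I * ((1 - h) * A1 - h * A2) * (δ * I) = -1 * (δ * I) := by rw [hv2]
    have h3 : I / δ * I * ((1 - h) * A1 - h * A2) * (δ * I) = (I * I) * (I * ((1 - h) * A1 - h * A2)) := by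
      field_simp
    rw [h3, I_mul_I] at h2
    linear_combination -h2
  have h4 : et * ((1 - h) * B1 - h * B2) = -(I * δ) * (cexp (Ev δ h (T * et)) - 1) := by
    have h2 : I / δ * et * ((1 - h) * B1 - h * B2) * (δ * I) = (cexp (Ev δ h (T * et)) - 1) * (δ * I) := by rw [hs2]
    have h3 : I / δ * et * ((1 - h) * B1 - h * B2) * (δ * I) = (I * I) * (et * ((1 - h) * B1 - h * B2)) := by
      field_simp
    rw [h3, I_mul_I] at h2
    linear_combination -h2
  linear_combination h1 - h4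

end SokalTI
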