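import Pool.Agent.Lib_MP_af4de1_ti.R1

/-!
# Right saddle, the integrals over the slope [TI-RS]

`k = qp h/δ`, `T = 2x ≤ 5/2`.  `slope_J`: on `[0, T]` `‖e^Ev - e^Ev2‖ ≤ (‖h‖/δ)(t³/6)(1 + t/5) e^{-k t²}` (`norm_exp_sub_exp_le`, `norm_Ev_sub_Ev2`, `slope_g3`, `slope_height`,
`slope_quad`); `∫_0^∞ t³ e^{-k t²} = 1/(2k²)`, `∫_0^∞ t⁴ e^{-kt²} = (3√π/8) k^{-5/2}`: `≤ (‖h‖/δ)(1/(12 k²))(1 + (27/100) k^{-1/2})`; and
`∫_T^∞ ‖e^Ev2‖ = ∫_T^∞ e^{-k t²} ≤ e^{-kT²}/(2kT)`.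
`slope_K`: `‖gg‖ ‖e^Ev‖ ≤ (t²/2)(1 + t/4) e^{-kt²}`; `∫ t² e^{-kt²} = (√π/4) k^{-3/2}`: `≤ (2216/10000) k^{-3/2} (1 + (3/10) k^{-1/2})`.
-/

set_option autoImplicit false

namespace SokalTI

open Complex MeasureTheory Set

private theorem rs_int (n : ℕ) {κ : ℝ} (hκ : 0 < κ) :
    IntegrableOn (fun t : ℝ => t ^ n * Real.exp (-(t ^ 2 / κ))) (Ioi 0) := by
  have h0 : (0 : ℝ) ≤ n := Nat.cast_nonneg n
  have h := integrableOn_rpow_mul_exp_neg_mul_sq (b := κ⁻¹) (inv_pos.2 hκ) (s := (n : ℝ)) (by linarith)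
  refine h.congr_fun (fun t _ => ?_) measurableSet_Ioi
  simp only [Real.rpow_natCast]
  congr 2
  field_simp

private theorem rs_val (n : ℕ) {κ : ℝ} (hκ : 0 < κ) :
    ∫ t in Ioi (0 : ℝ), t ^ n * Real.exp (-(t ^ 2 / κ)) =
      κ ^ (((n : ℝ) + 1) / 2) * (1 / 2) * Real.Gamma (((n : ℝ) + 1) / 2) := by
  have h0 : (0 : ℝ) ≤ n := Nat.cast_nonneg n
  have h := integral_rpow_mul_exp_neg_mul_rpow (p := 2) (q := (n : ℝ)) (b := κ⁻¹) two_pos (by linarith)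
    (inv_pos.2 hκ)
  have e : (κ⁻¹ : ℝ) ^ (-((n : ℝ) + 1) / 2) = κ ^ (((n : ℝ) + 1) / 2) := by
    rw [neg_div, Real.inv_rpow hκ.le, Real.rpow_neg hκ.le, inv_inv]
  rw [e] at h
  rw [← h]
  refine setIntegral_congr_fun measurableSet_Ioi (fun t _ => ?_)
  simp only [Real.rpow_natCast, Real.rpow_two]
  congr 2
  field_simp

private theorem rs_m2 {κ : ℝ} (hκ : 0 < κ) :
    ∫ t in Ioi (0 : ℝ), t ^ 2 * Real.exp (-(t ^ 2 / κ)) = √Real.pi / 4 * (κ * √κ) := by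
  rw [rs_val 2 hκ]
  have e1 : (((2 : ℕ) : ℝ) + 1) / 2 = 1 / 2 + 1 := by norm_num
  rw [e1, Real.Gamma_add_one (by norm_num), Real.Gamma_one_half_eq, Real.rpow_add hκ, Real.rpow_one,
    Real.sqrt_eq_rpow κ]
  ring

private theorem rs_m3 {κ : ℝ} (hκ : 0 < κ) :
    ∫ t in Ioi (0 : ℝ), t ^ 3 * Real.exp (-(t ^ 2 / κ)) = κ ^ 2 / 2 := by
  rw [rs_val 3 hκ]
  have e1 : (((3 : ℕ) : ℝ) + 1) / 2 = 2 := by norm_num
  rw [e1, Real.Gamma_two, Real.rpow_two]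
  ring

private theorem rs_m4 {κ : ℝ} (hκ : 0 < κ) :
    ∫ t in Ioi (0 : ℝ), t ^ 4 * Real.exp (-(t ^ 2 / κ)) = 3 * √Real.pi / 8 * (κ ^ 2 * √κ) := by
  rw [rs_val 4 hκ]
  have e1 : (((4 : ℕ) : ℝ) + 1) / 2 = (1 / 2 + 1) + 1 := by norm_num
  rw [e1, Real.Gamma_add_one (by norm_num), Real.Gamma_add_one (by norm_num), Real.Gamma_one_half_eq,
    Real.rpow_add hκ, Real.rpow_add hκ, Real.rpow_one, Real.sqrt_eq_rpow κ]
  ring

private theorem rs_tail {κ T : ℝ} (hκ : 0 < κ) (hT : 0 < T) :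
    ∫ t in Ioi T, Real.exp (-(t ^ 2 / κ)) ≤ Real.exp (-(T ^ 2 / κ)) * (κ / (2 * T)) := by
  have hd : ∀ t : ℝ, HasDerivAt (fun t : ℝ => -(κ / (2 * T)) * Real.exp (-(t ^ 2 / κ)))
      (t / T * Real.exp (-(t ^ 2 / κ))) t := by
    intro t
    have h1 : HasDerivAt (fun t : ℝ => -(t ^ 2 / κ)) (-(2 * t / κ)) t := by
      have h0 := ((hasDerivAt_pow 2 t).div_const κ).fun_neg
      simpa using h0
    have h2 := (h1.exp).const_mul (-(κ / (2 * T)))
    have e : t / T * Real.exp (-(t ^ 2 / κ)) =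
        -(κ / (2 * T)) * (Real.exp (-(t ^ 2 / κ)) * -(2 * t / κ)) := by
      field_simp
    rw [e]
    exact h2
  have hlim : Filter.Tendsto (fun t : ℝ => -(κ / (2 * T)) * Real.exp (-(t ^ 2 / κ))) Filter.atTop
      (nhds (-(κ / (2 * T)) * 0)) := by
    refine Filter.Tendsto.const_mul _ ?_
    refine Real.tendsto_exp_neg_atTop_nhds_zero.comp ?_
    exact (Filter.tendsto_pow_atTop two_ne_zero).atTop_div_const hκ
  have hnn : ∀ t ∈ Ioi T, 0 ≤ t / T * Real.exp (-(t ^ 2 / κ)) := by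
    intro t ht
    have : (0 : ℝ) < t := hT.trans ht
    positivity
  have hint := integrableOn_Ioi_deriv_of_nonneg' (fun t _ => hd t) hnn hlim
  have hval := integral_Ioi_of_hasDerivAt_of_nonneg' (fun t _ => hd t) hnn hlim
  have hle : ∫ t in Ioi T, Real.exp (-(t ^ 2 / κ)) ≤ ∫ t in Ioi T, t / T * Real.exp (-(t ^ 2 / κ)) := by
    refine integral_mono_of_nonneg (Filter.Eventually.of_forall fun t => (Real.exp_pos _).le) hint ?_
    refine (ae_restrict_iff' measurableSet_Ioi).2 (Filter.Eventually.of_forall fun t ht => ?_)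
    have h1 : 1 ≤ t / T := by
      rw [le_div_iff₀ hT, one_mul]
      exact (Set.mem_Ioi.1 ht).le
    calc Real.exp (-(t ^ 2 / κ)) = 1 * Real.exp (-(t ^ 2 / κ)) := (one_mul _).symm
      _ ≤ t / T * Real.exp (-(t ^ 2 / κ)) := mul_le_mul_of_nonneg_right h1 (Real.exp_pos _).le
  refine hle.trans (le_of_eq ?_)
  rw [hval]
  ring

private theorem rs_sqrt_pi : √Real.pi ≤ 17725 / 10000 := by
  rw [Real.sqrt_le_left (by norm_num)]
  have := Real.pi_lt_d6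
  norm_num at this ⊢
  linarith

/-- the exponentials on the slope -/
private theorem rs_exp {h : ℂ} {δ T t : ℝ} (hδ : 0 < δ) (hT2 : T ≤ 5 / 2) (ha : 0 ≤ h.re)
    (hs : h.re * T / 2 ≤ h.im) (hq : 0 < qp h) (h0 : 0 ≤ t) (h1 : t ≤ T) :
    ‖cexp (Ev δ h (t * et))‖ ≤ Real.exp (-(t ^ 2 / (δ / qp h))) := by
  rw [norm_exp_Ev hδ]
  apply Real.exp_le_exp.2
  have h2 : h.re * t / 2 ≤ h.im := by
    have : h.re * t ≤ h.re * T := mul_le_mul_of_nonneg_left h1 ha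
    linarith
  have h3 := slope_height h0 (h1.trans hT2) ha h2
  have e : t ^ 2 / (δ / qp h) = qp h * t ^ 2 / δ := by
    field_simp
  rw [e]
  exact neg_le_neg (div_le_div_of_nonneg_right h3 hδ.le)

private theorem rs_exp2 {h : ℂ} {δ : ℝ} (hδ : 0 < δ) (hq : 0 < qp h) (t : ℝ) :
    ‖cexp (Ev2 δ h (t * et))‖ = Real.exp (-(t ^ 2 / (δ / qp h))) := by
  rw [norm_exp_Ev2 hδ, slope_quad]
  congr 2
  field_simp

private theorem rs_le {T : ℝ} (hT : 0 < T) {f : ℝ → ℂ} {g : ℝ → ℝ} (hg : IntegrableOn g (Ioi 0))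
    (hg0 : ∀ t : ℝ, 0 < t → 0 ≤ g t) (hfg : ∀ t : ℝ, 0 < t → t ≤ T → ‖f t‖ ≤ g t) :
    ‖∫ t in (0 : ℝ)..T, f t‖ ≤ ∫ t in Ioi (0 : ℝ), g t := by
  have hsub : Ioc (0 : ℝ) T ⊆ Ioi 0 := fun t ht => ht.1
  rw [intervalIntegral.integral_of_le hT.le]
  calc ‖∫ t in Ioc (0 : ℝ) T, f t‖ ≤ ∫ t in Ioc (0 : ℝ) T, g t := by
        refine norm_integral_le_of_norm_le (hg.mono_set hsub) ?_
        exact (ae_restrict_iff' measurableSet_Ioc).2 (Filter.Eventually.of_forall fun t ht => hfg t ht.1 ht.2)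
    _ ≤ ∫ t in Ioi (0 : ℝ), g t := by
        refine setIntegral_mono_set hg ?_ (Filter.Eventually.of_forall hsub)
        exact (ae_restrict_iff' measurableSet_Ioi).2 (Filter.Eventually.of_forall fun t ht => hg0 t ht)

theorem slope_J {h : ℂ} {δ T : ℝ} (hδ : 0 < δ) (hT : 0 < T) (hT2 : T ≤ 5 / 2) (ha : 0 ≤ h.re)
    (hs : h.re * T / 2 ≤ h.im) (hq : 0 < qp h) :
    ‖(∫ t in (0 : ℝ)..T, cexp (Ev δ h (t * et))) - ∫ t in Ioi (0 : ℝ), cexp (Ev2 δ h (t * et))‖ ≤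
      ‖h‖ * δ * ((1 + 27 / 100 * √(δ / qp h)) / (12 * qp h ^ 2)) +
        Real.exp (-(qp h * T ^ 2 / δ)) * (δ / (2 * qp h * T)) := by
  have hκ : 0 < δ / qp h := div_pos hδ hq
  set κ : ℝ := δ / qp h with hκd
  have hc2 : Continuous fun t : ℝ => cexp (Ev2 δ h (t * et)) := by
    have := continuous_Ev2 δ h
    fun_prop
  have hc1 : Continuous fun t : ℝ => cexp (Ev δ h (t * et)) := by
    have := continuous_Ev δ h
    fun_prop
  have hi2 : IntegrableOn (fun t : ℝ => cexp (Ev2 δ h (t * et))) (Ioi 0) := by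
    refine Integrable.mono' (rs_int 0 hκ) hc2.aestronglyMeasurable ?_
    exact Filter.Eventually.of_forall fun t => le_of_eq (by rw [rs_exp2 hδ hq, ← hκd, pow_zero, one_mul])
  have hi2T : IntegrableOn (fun t : ℝ => cexp (Ev2 δ h (t * et))) (Ioi T) :=
    hi2.mono_set (Ioi_subset_Ioi hT.le)
  have hsplit := intervalIntegral.integral_interval_add_Ioi hi2 hi2T
  rw [← hsplit, ← sub_sub, ← intervalIntegral.integral_sub (hc1.intervalIntegrable _ _)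
    (hc2.intervalIntegrable _ _)]
  refine (norm_sub_le _ _).trans (add_le_add ?_ ?_)
  · -- the difference on the slope
    have hg : IntegrableOn (fun t : ℝ => ‖h‖ / δ * (1 / 6 * (t ^ 3 * Real.exp (-(t ^ 2 / κ))) +
        1 / 30 * (t ^ 4 * Real.exp (-(t ^ 2 / κ))))) (Ioi 0) :=
      (((rs_int 3 hκ).const_mul (1 / 6)).add ((rs_int 4 hκ).const_mul (1 / 30))).const_mul _
    have h1 := rs_le hT (f := fun t : ℝ => cexp (Ev δ h (t * et)) - cexp (Ev2 δ h (t * et))) hg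
      (fun t ht => by positivity) (fun t ht htT => by
        have h2 := norm_exp_sub_exp_le (Ev δ h (t * et)) (Ev2 δ h (t * et))
          (rs_exp hδ hT2 ha hs hq ht.le htT) (rs_exp2 hδ hq t).le
        rw [norm_Ev_sub_Ev2 hδ] at h2
        have h3 := slope_g3 ht.le (htT.trans hT2)
        refine h2.trans ?_
        have h4 : ‖h‖ / δ * ‖gg (t * et) - (t * et) ^ 2 / 2‖ ≤ ‖h‖ / δ * (t ^ 3 / 6 * (1 + t / 5)) :=
          mul_le_mul_of_nonneg_left h3 (by positivity)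
        refine (mul_le_mul_of_nonneg_right h4 (Real.exp_pos _).le).trans (le_of_eq ?_)
        rw [← hκd]
        ring)
    refine h1.trans ?_
    rw [integral_const_mul, integral_add ((rs_int 3 hκ).const_mul (1 / 6)) ((rs_int 4 hκ).const_mul (1 / 30)),
      integral_const_mul, integral_const_mul, rs_m3 hκ, rs_m4 hκ]
    have hπ := rs_sqrt_pi
    have hr : 0 ≤ √κ := Real.sqrt_nonneg _
    have e1 : ‖h‖ * δ * ((1 + 27 / 100 * √κ) / (12 * qp h ^ 2)) =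
        ‖h‖ / δ * (κ ^ 2 / 12 * (1 + 27 / 100 * √κ)) := by
      rw [hκd]
      field_simp
    rw [e1]
    refine mul_le_mul_of_nonneg_left ?_ (by positivity)
    have h5 : √Real.pi * (κ ^ 2 * √κ) ≤ 17725 / 10000 * (κ ^ 2 * √κ) :=
      mul_le_mul_of_nonneg_right hπ (by positivity)
    have h6 : 0 ≤ κ ^ 2 * √κ := by positivity
    nlinarith [h5, h6]
  · -- the tail of the Gauss integral
    refine (norm_integral_le_integral_norm _).trans ?_
    have e1 : (fun t : ℝ => ‖cexp (Ev2 δ h (t * et))‖) = fun t : ℝ => Real.exp (-(t ^ 2 / κ)) := by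
      funext t
      exact rs_exp2 hδ hq t
    rw [e1]
    refine (rs_tail hκ hT).trans (le_of_eq ?_)
    rw [hκd]
    have e2 : T ^ 2 / (δ / qp h) = qp h * T ^ 2 / δ := by
      field_simp
    rw [e2]
    congr 1
    field_simp

theorem slope_K {h : ℂ} {δ T : ℝ} (hδ : 0 < δ) (hT : 0 < T) (hT2 : T ≤ 5 / 2) (ha : 0 ≤ h.re)
    (hs : h.re * T / 2 ≤ h.im) (hq : 0 < qp h) :
    ‖∫ t in (0 : ℝ)..T, gg (t * et) * cexp (Ev δ h (t * et))‖ ≤
      2216 / 10000 * (δ / qp h * √(δ / qp h)) * (1 + 3 / 10 * √(δ / qp h)) := by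
  have hκ : 0 < δ / qp h := div_pos hδ hq
  set κ : ℝ := δ / qp h with hκd
  have hg : IntegrableOn (fun t : ℝ => 1 / 2 * (t ^ 2 * Real.exp (-(t ^ 2 / κ))) +
      1 / 8 * (t ^ 3 * Real.exp (-(t ^ 2 / κ)))) (Ioi 0) :=
    ((rs_int 2 hκ).const_mul (1 / 2)).add ((rs_int 3 hκ).const_mul (1 / 8))
  have h1 := rs_le hT (f := fun t : ℝ => gg (t * et) * cexp (Ev δ h (t * et))) hg
    (fun t ht => by positivity) (fun t ht htT => by
      rw [norm_mul]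
      have h2 := rs_exp hδ hT2 ha hs hq ht.le htT
      have h3 := slope_gg ht.le (htT.trans hT2)
      refine (mul_le_mul h3 h2 (norm_nonneg _) (by positivity)).trans (le_of_eq ?_)
      rw [← hκd]
      ring)
  refine h1.trans ?_
  rw [integral_add ((rs_int 2 hκ).const_mul (1 / 2)) ((rs_int 3 hκ).const_mul (1 / 8)),
    integral_const_mul, integral_const_mul, rs_m2 hκ, rs_m3 hκ]
  have hπ := rs_sqrt_pi
  have hr : 0 ≤ √κ := Real.sqrt_nonneg _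
  have hr2 : √κ * √κ = κ := Real.mul_self_sqrt hκ.le
  have h5 : √Real.pi * (κ * √κ) ≤ 17725 / 10000 * (κ * √κ) :=
    mul_le_mul_of_nonneg_right hπ (by positivity)
  have h6 : 0 ≤ κ * √κ := by positivity
  have e2 : κ * √κ * √κ = κ ^ 2 := by
    rw [mul_assoc, hr2]
    ring
  nlinarith [h5, h6, e2, sq_nonneg κ]

end SokalTI
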