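import Pool.Agent.Lib_MP_af4de1_ti.R3

/-!
# Right saddle, the integrals over the horizontal tail [TI-RT]

`κ = Aa h/δ > 0`.  `e^u - 1 - u ≥ u²/2` for `u ≥ 0`, so `‖e^Ev‖ ≤ e^{-4 qp x²/δ} e^{-κ u²/2}` (`tail_height`); `∫_0^∞ e^{-κu²/2} = √(π/(2κ))`,
`∫_0^∞ u e^{-κ u²/2} = 1/κ`; `‖2x et + u‖ ≤ 2x + u`.
-/

set_option autoImplicit false

namespace SokalTI

open Complex MeasureTheory Set

private theorem rt_arg_pos {h : ℂ} (hs : 0 < h.im) : 0 < arg h := by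
  rcases lt_or_eq_of_le (Complex.arg_nonneg_iff.2 hs.le) with h1 | h1
  · exact h1
  · exact absurd (Complex.arg_eq_zero_iff.1 h1.symm).2 hs.ne'

private theorem rt_Aa_pos {h : ℂ} (ha : 0 < h.re) (hs : 0 < h.im) (hx : arg h ≤ h.im) : 0 < Aa h := by
  have h1 := rt_arg_pos hs
  have h2 := Real.exp_pos (arg h)
  exact lt_of_lt_of_le (by positivity) (Aa_ge ha hs hx)

private theorem rt_bound {h : ℂ} {δ : ℝ} (hδ : 0 < δ) (ha : 0 < h.re) (hs : 0 < h.im)
    (hx : arg h ≤ h.im) (hx2 : arg h ≤ 5 / 4) {u : ℝ} (hu : 0 ≤ u) :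
    ‖cexp (Ev δ h (2 * arg h * et + u))‖ ≤
      Real.exp (-(4 * qp h * arg h ^ 2 / δ)) * Real.exp (-(Aa h / (2 * δ)) * u ^ 2) := by
  have hA := rt_Aa_pos ha hs hx
  rw [norm_exp_Ev hδ, ← Real.exp_add]
  apply Real.exp_le_exp.2
  have h1 := tail_height hu ha hs hx hx2
  have h2 : u ^ 2 / 2 ≤ Real.exp u - 1 - u := by
    have := Real.quadratic_le_exp_of_nonneg hu
    linarith
  have h3 : 4 * qp h * arg h ^ 2 + Aa h * (u ^ 2 / 2) ≤ ht h (2 * arg h * et + u) :=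
    le_trans (by gcongr) h1
  have h4 : (4 * qp h * arg h ^ 2 + Aa h * (u ^ 2 / 2)) / δ ≤ ht h (2 * arg h * et + u) / δ := by
    gcongr
  have h5 : -(4 * qp h * arg h ^ 2 / δ) + -(Aa h / (2 * δ)) * u ^ 2 =
      -((4 * qp h * arg h ^ 2 + Aa h * (u ^ 2 / 2)) / δ) := by
    field_simp
    ring
  rw [h5]
  linarith

private theorem rt_cont {h : ℂ} {δ : ℝ} {w : ℂ → ℂ} (hw : Continuous w) :
    Continuous (fun u : ℝ => w (2 * arg h * et + u) * cexp (Ev δ h (2 * arg h * et + u))) := by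
  have := continuous_Ev δ h
  fun_prop

theorem tail_integrable {h : ℂ} {δ : ℝ} (hδ : 0 < δ) (ha : 0 < h.re) (hs : 0 < h.im)
    (hx : arg h ≤ h.im) (hx2 : arg h ≤ 5 / 4) {w : ℂ → ℂ} (hw : Continuous w) {C : ℝ}
    (hC : ∀ u : ℝ, 0 ≤ u → ‖w (2 * arg h * et + u)‖ ≤ C * Real.exp u) :
    IntegrableOn (fun u : ℝ => w (2 * arg h * et + u) * cexp (Ev δ h (2 * arg h * et + u))) (Ioi 0) := by
  have hA := rt_Aa_pos ha hs hx
  have hC0 : 0 ≤ C := by
    have h1 := hC 0 le_rfl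
    rw [Real.exp_zero, mul_one] at h1
    exact (norm_nonneg _).trans h1
  have hκ : 0 < Aa h / (4 * δ) := by positivity
  have hg : IntegrableOn (fun u : ℝ => C * Real.exp (-(4 * qp h * arg h ^ 2 / δ)) *
      Real.exp (δ / Aa h) * Real.exp (-(Aa h / (4 * δ)) * u ^ 2)) (Ioi 0) :=
    ((integrable_exp_neg_mul_sq hκ).const_mul _).integrableOn
  refine Integrable.mono' hg (rt_cont hw).aestronglyMeasurable ?_
  refine (ae_restrict_iff' measurableSet_Ioi).2 (Filter.Eventually.of_forall fun u hu => ?_)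
  have hu0 : 0 ≤ u := le_of_lt hu
  rw [norm_mul]
  have h1 := hC u hu0
  have h2 := rt_bound hδ ha hs hx hx2 hu0
  have h3 : Real.exp u * Real.exp (-(Aa h / (2 * δ)) * u ^ 2) ≤
      Real.exp (δ / Aa h) * Real.exp (-(Aa h / (4 * δ)) * u ^ 2) := by
    rw [← Real.exp_add, ← Real.exp_add]
    apply Real.exp_le_exp.2
    have h4 : δ / Aa h + -(Aa h / (4 * δ)) * u ^ 2 - (u + -(Aa h / (2 * δ)) * u ^ 2) =
        (Aa h * u - 2 * δ) ^ 2 / (4 * δ * Aa h) := by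
      field_simp
      ring
    have h5 : 0 ≤ (Aa h * u - 2 * δ) ^ 2 / (4 * δ * Aa h) := by positivity
    linarith
  calc ‖w (2 * arg h * et + u)‖ * ‖cexp (Ev δ h (2 * arg h * et + u))‖
      ≤ (C * Real.exp u) * (Real.exp (-(4 * qp h * arg h ^ 2 / δ)) *
          Real.exp (-(Aa h / (2 * δ)) * u ^ 2)) := by
        apply mul_le_mul h1 h2 (norm_nonneg _)
        have := Real.exp_pos u
        positivity
    _ = C * Real.exp (-(4 * qp h * arg h ^ 2 / δ)) *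
          (Real.exp u * Real.exp (-(Aa h / (2 * δ)) * u ^ 2)) := by ring
    _ ≤ C * Real.exp (-(4 * qp h * arg h ^ 2 / δ)) *
          (Real.exp (δ / Aa h) * Real.exp (-(Aa h / (4 * δ)) * u ^ 2)) := by
        apply mul_le_mul_of_nonneg_left h3
        have := Real.exp_pos (-(4 * qp h * arg h ^ 2 / δ))
        positivity
    _ = _ := by ring

private theorem rt_gauss {h : ℂ} {δ : ℝ} (hδ : 0 < δ) (hA : 0 < Aa h) :
    ∫ u in Ioi (0 : ℝ), Real.exp (-(Aa h / (2 * δ)) * u ^ 2) = √(Real.pi * δ / (2 * Aa h)) := by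
  rw [integral_gaussian_Ioi]
  have h1 : Real.pi / (Aa h / (2 * δ)) = (Real.pi * δ / (2 * Aa h)) * 2 ^ 2 := by
    field_simp
  rw [h1, Real.sqrt_mul (by positivity), Real.sqrt_sq (by norm_num)]
  ring

theorem tail_J {h : ℂ} {δ : ℝ} (hδ : 0 < δ) (ha : 0 < h.re) (hs : 0 < h.im)
    (hx : arg h ≤ h.im) (hx2 : arg h ≤ 5 / 4) :
    ‖∫ u in Ioi (0 : ℝ), cexp (Ev δ h (2 * arg h * et + u))‖ ≤
      Real.exp (-(4 * qp h * arg h ^ 2 / δ)) * √(Real.pi * δ / (2 * Aa h)) := by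
  have hA := rt_Aa_pos ha hs hx
  have hκ : 0 < Aa h / (2 * δ) := by positivity
  have hg : IntegrableOn (fun u : ℝ => Real.exp (-(4 * qp h * arg h ^ 2 / δ)) *
      Real.exp (-(Aa h / (2 * δ)) * u ^ 2)) (Ioi 0) :=
    ((integrable_exp_neg_mul_sq hκ).const_mul _).integrableOn
  refine (norm_integral_le_of_norm_le hg ?_).trans (le_of_eq ?_)
  · exact (ae_restrict_iff' measurableSet_Ioi).2 (Filter.Eventually.of_forall fun u hu =>
      rt_bound hδ ha hs hx hx2 (le_of_lt hu))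
  · rw [integral_const_mul, rt_gauss hδ hA]

private theorem rt_int1 {b : ℝ} (hb : 0 < b) :
    ∫ u in Ioi (0 : ℝ), u * Real.exp (-b * u ^ 2) = (2 * b)⁻¹ := by
  have h := integral_mul_cexp_neg_mul_sq (b := (b : ℂ)) (by simpa using hb)
  have h2 : (∫ r in Ioi (0 : ℝ), (r : ℂ) * cexp (-(b : ℂ) * (r : ℂ) ^ 2)) =
      ((∫ r in Ioi (0 : ℝ), r * Real.exp (-b * r ^ 2) : ℝ) : ℂ) := by
    rw [← integral_complex_ofReal]
    refine integral_congr_ae (Filter.Eventually.of_forall fun r => ?_)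
    simp only
    push_cast
    rfl
  rw [h2] at h
  exact_mod_cast h

theorem tail_K {h : ℂ} {δ : ℝ} (hδ : 0 < δ) (ha : 0 < h.re) (hs : 0 < h.im)
    (hx : arg h ≤ h.im) (hx2 : arg h ≤ 5 / 4) :
    ‖∫ u in Ioi (0 : ℝ), (2 * arg h * et + u) * cexp (Ev δ h (2 * arg h * et + u))‖ ≤
      Real.exp (-(4 * qp h * arg h ^ 2 / δ)) *
        (2 * arg h * √(Real.pi * δ / (2 * Aa h)) + δ / Aa h) := by
  have hA := rt_Aa_pos ha hs hx
  have hx0 := rt_arg_pos hs
  have hκ : 0 < Aa h / (2 * δ) := by positivity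
  have hg1 : IntegrableOn (fun u : ℝ => 2 * arg h * Real.exp (-(Aa h / (2 * δ)) * u ^ 2)) (Ioi 0) :=
    ((integrable_exp_neg_mul_sq hκ).const_mul _).integrableOn
  have hg2 : IntegrableOn (fun u : ℝ => u * Real.exp (-(Aa h / (2 * δ)) * u ^ 2)) (Ioi 0) :=
    (integrable_mul_exp_neg_mul_sq hκ).integrableOn
  have hg : IntegrableOn (fun u : ℝ => Real.exp (-(4 * qp h * arg h ^ 2 / δ)) *
      (2 * arg h * Real.exp (-(Aa h / (2 * δ)) * u ^ 2) +
        u * Real.exp (-(Aa h / (2 * δ)) * u ^ 2))) (Ioi 0) :=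
    (hg1.add hg2).const_mul _
  refine (norm_integral_le_of_norm_le hg ?_).trans (le_of_eq ?_)
  · refine (ae_restrict_iff' measurableSet_Ioi).2 (Filter.Eventually.of_forall fun u hu => ?_)
    have hu0 : 0 ≤ u := le_of_lt hu
    have h1 := rt_bound hδ ha hs hx hx2 hu0
    have h2 : ‖(2 * arg h * et + u : ℂ)‖ ≤ 2 * arg h + u := by
      refine (norm_add_le _ _).trans ?_
      rw [norm_mul, norm_mul, norm_et, Complex.norm_real, Complex.norm_real, Real.norm_eq_abs,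
        Real.norm_eq_abs, abs_of_pos hx0, abs_of_nonneg hu0, Complex.norm_ofNat, mul_one]
    rw [norm_mul]
    calc ‖(2 * arg h * et + u : ℂ)‖ * ‖cexp (Ev δ h (2 * arg h * et + u))‖
        ≤ (2 * arg h + u) * (Real.exp (-(4 * qp h * arg h ^ 2 / δ)) *
            Real.exp (-(Aa h / (2 * δ)) * u ^ 2)) :=
          mul_le_mul h2 h1 (norm_nonneg _) (by positivity)
      _ = _ := by ring
  · rw [integral_const_mul, integral_add hg1 hg2, integral_const_mul, rt_gauss hδ hA, rt_int1 hκ]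
    congr 2
    field_simp

end SokalTI
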