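import Pool.Agent.Lib_MP_af4de1_ti.RV
import Pool.Agent.Lib_MP_af4de1_ti.RS
import Pool.Agent.Lib_MP_af4de1_ti.RT
import Pool.Agent.Lib_MP_af4de1_ti.R4

/-!
# The right saddle integral: assembly (helper69)
-/

set_option autoImplicit false

namespace SokalTI

open Complex MeasureTheory Set

private theorem lr_exp {y : ℝ} (hy : 0 < y) : Real.exp (-y) ≤ 47 / 10 / y ^ 4 := by
  have h1 : Real.exp 1 * (y / 4) ≤ Real.exp (y / 4) := by
    have h2 := Real.add_one_le_exp (y / 4 - 1)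
    have h3 : Real.exp (y / 4) = Real.exp 1 * Real.exp (y / 4 - 1) := by
      rw [← Real.exp_add]; congr 1; ring
    rw [h3]
    apply mul_le_mul_of_nonneg_left _ (Real.exp_pos _).le
    linarith
  have h4 : (Real.exp 1 * (y / 4)) ^ 4 ≤ Real.exp y := by
    have := pow_le_pow_left₀ (by positivity) h1 4
    rw [← Real.exp_nat_mul] at this
    calc _ ≤ _ := this
      _ = _ := by congr 1; push_cast; ring
  have h5 : (2.7182 : ℝ) ^ 4 ≤ Real.exp 1 ^ 4 :=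
    pow_le_pow_left₀ (by norm_num) (by linarith [Real.exp_one_gt_d9]) 4
  have h6 : 10 / 47 * y ^ 4 ≤ Real.exp y := by
    refine le_trans ?_ h4
    rw [mul_pow, div_pow]
    have h7 : 0 < y ^ 4 := by positivity
    have h8 : (10 / 47 * 256 : ℝ) ≤ Real.exp 1 ^ 4 := le_trans (by norm_num) h5
    calc 10 / 47 * y ^ 4 = (10 / 47 * 256) * (y ^ 4 / 4 ^ 4) := by ring
      _ ≤ _ := mul_le_mul_of_nonneg_right h8 (by positivity)
  rw [Real.exp_neg, inv_le_comm₀ (Real.exp_pos _) (by positivity)]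
  calc (47 / 10 / y ^ 4)⁻¹ = 10 / 47 * y ^ 4 := by
        field_simp
    _ ≤ _ := h6

private theorem lr_arg_pos {h : ℂ} (hs : 0 < h.im) : 0 < arg h := by
  rcases lt_or_eq_of_le (Complex.arg_nonneg_iff.2 hs.le) with h1 | h1
  · exact h1
  · exact absurd (Complex.arg_eq_zero_iff.1 h1.symm).2 hs.ne'

private theorem lr_xl_pos {h : ℂ} (hs : 0 < h.im) : 0 < xl h := by
  have : h ≠ 0 := by rintro rfl; simp at hs
  exact div_pos hs (norm_pos_iff.2 this)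

private theorem lr_xl {h : ℂ} : xl h = Real.sin (arg h) := (Complex.sin_arg h).symm

private theorem lr_xl_le {h : ℂ} (hs : 0 < h.im) : xl h ≤ arg h := by
  rw [lr_xl]
  exact Real.sin_le (lr_arg_pos hs).le

private theorem lr_tf {h : ℂ} {δ : ℝ} (hδ : 0 < δ) (hs : 0 < h.im) (hq : 0 < qp h) :
    Real.exp (-(4 * qp h * arg h ^ 2 / δ)) ≤ tf h δ := by
  have h1 := lr_xl_pos hs
  have h2 := lr_xl_le hs
  have h3 : 4 * qp h * xl h ^ 2 / δ ≤ 4 * qp h * arg h ^ 2 / δ := by gcongr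
  have h4 : 0 < 4 * qp h * xl h ^ 2 / δ := by positivity
  calc Real.exp (-(4 * qp h * arg h ^ 2 / δ)) ≤ Real.exp (-(4 * qp h * xl h ^ 2 / δ)) :=
        Real.exp_le_exp.2 (by linarith)
    _ ≤ 47 / 10 / (4 * qp h * xl h ^ 2 / δ) ^ 4 := lr_exp h4
    _ = tf h δ := by
      unfold tf
      field_simp

private theorem lr_im_le {h : ℂ} (ha : 0 < h.re) (hs : 0 < h.im) (hx2 : arg h ≤ 5 / 4) :
    h.im ≤ 78 / 25 * h.re := by
  have h0 := lr_arg_pos hs
  have hn : 0 < ‖h‖ := norm_pos_iff.2 (by rintro rfl; simp at hs)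
  have e1 : h.re = ‖h‖ * Real.cos (arg h) := (Complex.norm_mul_cos_arg h).symm
  have e2 : h.im = ‖h‖ * Real.sin (arg h) := (Complex.norm_mul_sin_arg h).symm
  have hpi := Real.pi_gt_d4
  have hpi2 := Real.pi_lt_d4
  set φ : ℝ := Real.pi / 2 - arg h with hφ
  have h1 : 32 / 100 < φ := by rw [hφ]; linarith
  have h2 : φ < Real.pi / 2 := by rw [hφ]; linarith
  have h3 := Real.lt_tan (by linarith : 0 < φ) h2
  have hc : 0 < Real.cos φ := Real.cos_pos_of_mem_Ioo ⟨by linarith, h2⟩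
  rw [Real.tan_eq_sin_div_cos, lt_div_iff₀ hc] at h3
  have h4 : Real.cos φ = Real.sin (arg h) := by rw [hφ, Real.cos_pi_div_two_sub]
  have h5 : Real.sin φ = Real.cos (arg h) := by rw [hφ, Real.sin_pi_div_two_sub]
  rw [h4, h5] at h3
  rw [h4] at hc
  have h6 : φ * Real.sin (arg h) < Real.cos (arg h) := h3
  have h7 : (3205 / 10000 : ℝ) ≤ φ := by rw [hφ]; linarith
  have h7' : (3207 / 10000 : ℝ) ≤ φ := by rw [hφ]; linarith
  have h8 := mul_le_mul_of_nonneg_right h7' hc.le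
  have h9 : Real.sin (arg h) ≤ 78 / 25 * Real.cos (arg h) := by linarith only [h8, h6, hc]
  have h10 := mul_le_mul_of_nonneg_left h9 hn.le
  rw [e1, e2]
  linarith only [h10]

private theorem lr_pi : (25066 / 10000 : ℝ) ≤ √(2 * Real.pi) := by
  apply Real.le_sqrt_of_sq_le
  have := Real.pi_gt_d6
  norm_num at this ⊢
  linarith

/-- the sum of the three errors -/
private theorem lr_J {h : ℂ} {δ : ℝ} (hδ : 0 < δ) (hδ2 : δ ≤ 2 / 25) (ha : 97 / 100 ≤ h.re) (hs : 0 < h.im)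
    (hs3 : h.im ≤ 78 / 25 * h.re) (hx : arg h ≤ h.im) (hx2 : arg h ≤ 5 / 4) (hq : 0 < qp h) :
    ‖JR δ h - jR δ h‖ ≤ ‖h‖ * δ * (100 / (243 * h.im ^ 2)) +
      (‖h‖ * δ * ((1 + 27 / 100 * √(δ / qp h)) / (12 * qp h ^ 2)) +
      Real.exp (-(4 * qp h * arg h ^ 2 / δ)) * (δ / (4 * qp h * arg h))) +
      Real.exp (-(4 * qp h * arg h ^ 2 / δ)) * √(Real.pi * δ / (2 * Aa h)) := by
  have hx0 := lr_arg_pos hs
  have ha0 : 0 < h.re := by linarith
  have h1 := vert_J hδ hδ2 ha hs hs3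
  have h2 := slope_J (T := 2 * arg h) hδ (by linarith) (by linarith) ha0.le
    (by have := re_mul_arg_le ha0 hs
        linarith) hq
  have h3 := tail_J hδ ha0 hs hx hx2
  have e1 : qp h * (2 * arg h) ^ 2 / δ = 4 * qp h * arg h ^ 2 / δ := by ring
  have e2 : 2 * qp h * (2 * arg h) = 4 * qp h * arg h := by ring
  rw [e1, e2] at h2
  rw [← gauss_R hδ hs hq]
  unfold JR JRw
  simp only [one_mul]
  set A1 := ∫ y in Ioi (0 : ℝ), cexp (Ev δ h (I * y))
  set A2 := ∫ y in Ioi (0 : ℝ), cexp (Ev2 δ h (I * y))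
  set B1 := ∫ t in (0 : ℝ)..(2 * arg h), cexp (Ev δ h (t * et))
  set B2 := ∫ t in Ioi (0 : ℝ), cexp (Ev2 δ h (t * et))
  set C1 := ∫ u in Ioi (0 : ℝ), cexp (Ev δ h (2 * arg h * et + u))
  have e3 : I * A1 - et * B1 - C1 - (I * A2 - et * B2) = I * (A1 - A2) - et * (B1 - B2) - C1 := by
    ring
  rw [e3]
  calc ‖I * (A1 - A2) - et * (B1 - B2) - C1‖ ≤ ‖I * (A1 - A2)‖ + ‖et * (B1 - B2)‖ + ‖C1‖ :=
        (norm_sub_le _ _).trans (add_le_add_left (norm_sub_le _ _) _)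
    _ = ‖A1 - A2‖ + ‖B1 - B2‖ + ‖C1‖ := by
        rw [norm_mul, norm_mul, Complex.norm_I, norm_et, one_mul, one_mul]
    _ ≤ _ := add_le_add (add_le_add h1 h2) h3

private theorem lr_m_ne {h : ℂ} (hs : 0 < h.im) : h ≠ 1 := by
  rintro rfl
  simp at hs

theorem JR_bound {h : ℂ} {δ : ℝ} (hδ : 0 < δ) (hδ2 : δ ≤ 2 / 25) (ha : 97 / 100 ≤ h.re) (hs : 0 < h.im)
    (hx : arg h ≤ h.im) (hx2 : arg h ≤ 5 / 4) (hq : 0 < qp h) :
    ‖JR δ h - jR δ h‖ ≤ relR h δ * ‖jR δ h‖ := by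
  have hs3 := lr_im_le (by linarith) hs hx2
  have h0 := lr_J hδ hδ2 ha hs hs3 hx hx2 hq
  refine h0.trans ?_
  have hx0 := lr_arg_pos hs
  have hl0 := lr_xl_pos hs
  have hlx := lr_xl_le hs
  have htf := lr_tf hδ hs hq
  have hA := Aa_ge (by linarith) hs hx
  have hm : 0 < ‖1 - h‖ := norm_pos_iff.2 (sub_ne_zero.2 (lr_m_ne hs).symm)
  rw [norm_jRr hδ (lr_m_ne hs)]
  have hpi := lr_pi
  have hA1 : 183 / 250 * arg h ≤ Aa h := by
    have h1 : 1 ≤ Real.exp (arg h) := Real.one_le_exp hx0.le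
    have h2 : 183 / 250 * arg h * 1 ≤ 183 / 250 * arg h * Real.exp (arg h) :=
      mul_le_mul_of_nonneg_left h1 (by positivity)
    linarith
  have hA0 : 0 < Aa h := lt_of_lt_of_le (by positivity) hA1
  have e1 : √(‖1 - h‖ * δ) * √(2 * Real.pi * δ / ‖1 - h‖) = √(2 * Real.pi) * δ := by
    rw [← Real.sqrt_mul (by positivity)]
    rw [show ‖1 - h‖ * δ * (2 * Real.pi * δ / ‖1 - h‖) = 2 * Real.pi * δ ^ 2 by field_simp]
    rw [Real.sqrt_mul (by positivity), Real.sqrt_sq hδ.le]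
  have e2 : √‖1 - h‖ * √(2 * Real.pi * δ / ‖1 - h‖) = √(2 * Real.pi) * √δ := by
    rw [← Real.sqrt_mul (by positivity)]
    rw [show ‖1 - h‖ * (2 * Real.pi * δ / ‖1 - h‖) = 2 * Real.pi * δ by field_simp]
    rw [Real.sqrt_mul (by positivity)]
  have e3 : relR h δ * √(2 * Real.pi * δ / ‖1 - h‖) =
      399 / 1000 * √(2 * Real.pi) * (‖h‖ * δ * (100 / (243 * h.im ^ 2) +
        (1 + 27 / 100 * √(δ / qp h)) / (12 * qp h ^ 2))) +
      tf h δ * (√(2 * Real.pi) * (3 / 5 * √δ / √(xl h) + 1 / 10 * (√δ * √δ) / (qp h * xl h))) := by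
    unfold relR
    calc _ = 399 / 1000 * ‖h‖ * (√(‖1 - h‖ * δ) * √(2 * Real.pi * δ / ‖1 - h‖)) *
        (100 / (243 * h.im ^ 2) + (1 + 27 / 100 * √(δ / qp h)) / (12 * qp h ^ 2)) +
        tf h δ * (√‖1 - h‖ * √(2 * Real.pi * δ / ‖1 - h‖)) *
        (3 / 5 / √(xl h) + 1 / 10 * √δ / (qp h * xl h)) := by ring
      _ = _ := by rw [e1, e2]; ring
  rw [e3, Real.mul_self_sqrt hδ.le]
  -- the main part
  have f1 : ‖h‖ * δ * (100 / (243 * h.im ^ 2)) +
      ‖h‖ * δ * ((1 + 27 / 100 * √(δ / qp h)) / (12 * qp h ^ 2)) ≤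
      399 / 1000 * √(2 * Real.pi) * (‖h‖ * δ * (100 / (243 * h.im ^ 2) +
        (1 + 27 / 100 * √(δ / qp h)) / (12 * qp h ^ 2))) := by
    have g1 : (1 : ℝ) ≤ 399 / 1000 * √(2 * Real.pi) := by linarith only [hpi]
    have g2 : 0 ≤ ‖h‖ * δ * (100 / (243 * h.im ^ 2) +
        (1 + 27 / 100 * √(δ / qp h)) / (12 * qp h ^ 2)) := by positivity
    calc _ = 1 * (‖h‖ * δ * (100 / (243 * h.im ^ 2) +
        (1 + 27 / 100 * √(δ / qp h)) / (12 * qp h ^ 2))) := by ring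
      _ ≤ _ := mul_le_mul_of_nonneg_right g1 g2
  -- the corner
  have f2 : δ / (4 * qp h * arg h) ≤ √(2 * Real.pi) * (1 / 10 * δ / (qp h * xl h)) := by
    have g1 : δ / (4 * qp h * arg h) ≤ δ / (4 * qp h * xl h) := by gcongr
    refine g1.trans ?_
    have g2 : δ / (4 * qp h * xl h) = 1 / 4 * (δ / (qp h * xl h)) := by field_simp
    have g3 : √(2 * Real.pi) * (1 / 10 * δ / (qp h * xl h)) =
      (√(2 * Real.pi) / 10) * (δ / (qp h * xl h)) := by ring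
    rw [g2, g3]
    apply mul_le_mul_of_nonneg_right _ (by positivity)
    linarith only [hpi]
  have f3 : √(Real.pi * δ / (2 * Aa h)) ≤ √(2 * Real.pi) * (3 / 5 * √δ / √(xl h)) := by
    have g0 : √((3 / 5) ^ 2 * δ / xl h) = 3 / 5 * √δ / √(xl h) := by
      rw [Real.sqrt_div (by positivity) (xl h), Real.sqrt_mul (by positivity) δ,
        Real.sqrt_sq (by norm_num)]
    have g1 : √(2 * Real.pi) * (3 / 5 * √δ / √(xl h)) = √(2 * Real.pi * ((3 / 5) ^ 2 * δ / xl h)) := by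
      rw [← g0]
      exact (Real.sqrt_mul (x := 2 * Real.pi) (by positivity) _).symm
    rw [g1]
    apply Real.sqrt_le_sqrt
    rw [← mul_div_assoc, div_le_div_iff₀ (by positivity) hl0]
    have g2 : xl h ≤ 36 / 25 * Aa h := by linarith only [hlx, hA1, hx0]
    have g3 : 0 < Real.pi * δ := by positivity
    have g4 := mul_le_mul_of_nonneg_left g2 g3.le
    linarith only [g4]
  have htf0 : 0 ≤ tf h δ := (Real.exp_pos _).le.trans htf
  have f4 : Real.exp (-(4 * qp h * arg h ^ 2 / δ)) * (δ / (4 * qp h * arg h)) ≤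
      tf h δ * (√(2 * Real.pi) * (1 / 10 * δ / (qp h * xl h))) :=
    mul_le_mul htf f2 (by positivity) htf0
  have f5 : Real.exp (-(4 * qp h * arg h ^ 2 / δ)) * √(Real.pi * δ / (2 * Aa h)) ≤
      tf h δ * (√(2 * Real.pi) * (3 / 5 * √δ / √(xl h))) :=
    mul_le_mul htf f3 (Real.sqrt_nonneg _) htf0
  have e4 : tf h δ * (√(2 * Real.pi) * (3 / 5 * √δ / √(xl h) + 1 / 10 * δ / (qp h * xl h))) =
      tf h δ * (√(2 * Real.pi) * (3 / 5 * √δ / √(xl h))) +
      tf h δ * (√(2 * Real.pi) * (1 / 10 * δ / (qp h * xl h))) := by ring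
  rw [e4]
  linarith only [f1, f4, f5]

private theorem lr_K {h : ℂ} {δ : ℝ} (hδ : 0 < δ) (hδ2 : δ ≤ 2 / 25) (ha : 97 / 100 ≤ h.re) (hs : 0 < h.im)
    (hs3 : h.im ≤ 78 / 25 * h.re) (hx : arg h ≤ h.im) (hx2 : arg h ≤ 5 / 4) (hq : 0 < qp h) :
    ‖JR1 δ h‖ ≤ (‖h‖ * (7394 / 10000 * (δ / h.im * √(δ / h.im)) +
        2216 / 10000 * (δ / qp h * √(δ / qp h)) * (1 + 3 / 10 * √(δ / qp h))) +
        δ * Real.exp (-(4 * qp h * arg h ^ 2 / δ))) / ‖1 - h‖ +
      Real.exp (-(4 * qp h * arg h ^ 2 / δ)) *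
        (2 * arg h * √(Real.pi * δ / (2 * Aa h)) + δ / Aa h) := by
  have hx0 := lr_arg_pos hs
  have ha0 : 0 < h.re := by linarith
  have hm : 0 < ‖1 - h‖ := norm_pos_iff.2 (sub_ne_zero.2 (lr_m_ne hs).symm)
  have h1 := vert_K hδ hδ2 ha hs hs3
  have h2 := slope_K (T := 2 * arg h) hδ (by linarith) (by linarith) ha0.le
    (by have := re_mul_arg_le ha0 hs
        linarith) hq
  have h3 := tail_K hδ ha0 hs hx hx2
  have hi1 : IntegrableOn (fun y : ℝ => (I * y) * cexp (Ev δ h (I * y))) (Ioi 0) := by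
    refine vert_integrable hδ ha hs hs3 (w := fun v => v) continuous_id (C := 1) (fun y => ?_)
    simp only [norm_mul, Complex.norm_I, Complex.norm_real, Real.norm_eq_abs, one_mul]
    linarith only [sq_abs y, sq_nonneg (|y| - 1), abs_nonneg y, sq_nonneg y]
  have hi2 : IntegrableOn (fun y : ℝ => gg (I * y) * cexp (Ev δ h (I * y))) (Ioi 0) := by
    refine vert_integrable hδ ha hs hs3 (w := gg) continuous_gg (C := 3) (fun y => ?_)
    unfold gg
    have e1 : ‖cexp (I * (y : ℂ))‖ = 1 := by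
      rw [mul_comm]
      exact Complex.norm_exp_ofReal_mul_I y
    have e2 : ‖I * (y : ℂ)‖ = |y| := by
      rw [norm_mul, Complex.norm_I, one_mul, Complex.norm_real, Real.norm_eq_abs]
    calc ‖cexp (I * (y : ℂ)) - 1 - I * y‖ ≤ ‖cexp (I * (y : ℂ))‖ + ‖(1 : ℂ)‖ + ‖I * (y : ℂ)‖ :=
          (norm_sub_le _ _).trans (add_le_add_left (norm_sub_le _ _) _)
      _ = 2 + |y| := by rw [e1, e2, norm_one]; norm_num
      _ ≤ _ := by linarith only [sq_abs y, sq_nonneg (|y| - 1), abs_nonneg y, sq_nonneg y]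
  have hp := by_parts (T := 2 * arg h) hδ ha hs hs3 hi1 hi2
  have hc : ‖cexp (Ev δ h (((2 * arg h : ℝ) : ℂ) * et))‖ ≤
      Real.exp (-(4 * qp h * arg h ^ 2 / δ)) := by
    rw [norm_exp_Ev hδ]
    apply Real.exp_le_exp.2
    have := corner_height ha0 hs hx2
    have e1 : (((2 * arg h : ℝ) : ℂ)) * et = 2 * arg h * et := by push_cast; ring
    rw [e1]
    have h5 : 4 * qp h * arg h ^ 2 / δ ≤ ht h (2 * arg h * et) / δ :=
      div_le_div_of_nonneg_right this hδ.le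
    linarith
  unfold JR1 JRw
  simp only [id]
  set A1 := ∫ y in Ioi (0 : ℝ), I * (y : ℂ) * cexp (Ev δ h (I * y))
  set A2 := ∫ y in Ioi (0 : ℝ), gg (I * y) * cexp (Ev δ h (I * y))
  set B1 := ∫ t in (0 : ℝ)..(2 * arg h), (t : ℂ) * et * cexp (Ev δ h (t * et))
  set B2 := ∫ t in (0 : ℝ)..(2 * arg h), gg (t * et) * cexp (Ev δ h (t * et))
  set C1 := ∫ u in Ioi (0 : ℝ), (2 * (arg h : ℂ) * et + u) * cexp (Ev δ h (2 * arg h * et + u))
  have hp2 : ‖1 - h‖ * ‖I * A1 - et * B1‖ ≤ ‖h‖ * (7394 / 10000 * (δ / h.im * √(δ / h.im)) +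
        2216 / 10000 * (δ / qp h * √(δ / qp h)) * (1 + 3 / 10 * √(δ / qp h))) +
        δ * Real.exp (-(4 * qp h * arg h ^ 2 / δ)) := by
    rw [← norm_mul, hp]
    refine (norm_add_le _ _).trans (add_le_add ?_ ?_)
    · rw [norm_mul]
      apply mul_le_mul_of_nonneg_left _ (norm_nonneg _)
      refine (norm_sub_le _ _).trans ?_
      rw [norm_mul, norm_mul, Complex.norm_I, norm_et, one_mul, one_mul]
      exact add_le_add h1 h2
    · rw [norm_mul, norm_mul, Complex.norm_I, one_mul, Complex.norm_real, Real.norm_eq_abs,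
        abs_of_pos hδ]
      exact mul_le_mul_of_nonneg_left hc hδ.le
  have hp3 : ‖I * A1 - et * B1‖ ≤ (‖h‖ * (7394 / 10000 * (δ / h.im * √(δ / h.im)) +
        2216 / 10000 * (δ / qp h * √(δ / qp h)) * (1 + 3 / 10 * √(δ / qp h))) +
        δ * Real.exp (-(4 * qp h * arg h ^ 2 / δ))) / ‖1 - h‖ := by
    rw [le_div_iff₀ hm, mul_comm]
    exact hp2
  exact (norm_sub_le _ _).trans (add_le_add hp3 h3)

private theorem lr_sin_exp {x : ℝ} (h0 : 0 < x) (h1 : x ≤ 5 / 4) : x ≤ Real.sin x * Real.exp x := by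
  have h2 : x - x ^ 3 / 6 ≤ Real.sin x := (Real.sin_gt_sub_cube h0).le
  have h3 := Real.add_one_le_exp x
  have h4 : 0 ≤ x - x ^ 3 / 6 := by nlinarith [mul_pos h0 h0]
  have h5 : (x - x ^ 3 / 6) * (x + 1) ≤ Real.sin x * Real.exp x :=
    mul_le_mul h2 h3 (by linarith) (h4.trans h2)
  have h6 : x ≤ (x - x ^ 3 / 6) * (x + 1) := by
    have h7 : 0 ≤ x ^ 2 * (1 - x / 6 - x ^ 2 / 6) := by
      apply mul_nonneg (sq_nonneg x)
      nlinarith
    nlinarith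
  linarith

theorem JR1_bound {h : ℂ} {δ : ℝ} (hδ : 0 < δ) (hδ2 : δ ≤ 2 / 25) (ha : 97 / 100 ≤ h.re) (hs : 0 < h.im)
    (hx : arg h ≤ h.im) (hx2 : arg h ≤ 5 / 4) (hq : 0 < qp h)
    (h1 : relR h δ < 1) : ‖JR1 δ h‖ ≤ bR h δ * ‖JR δ h‖ := by
  have hs3 := lr_im_le (by linarith) hs hx2
  have h0 := lr_K hδ hδ2 ha hs hs3 hx hx2 hq
  have hx0 := lr_arg_pos hs
  have hl0 := lr_xl_pos hs
  have hlx := lr_xl_le hs
  have htf := lr_tf hδ hs hq
  have hA := Aa_ge (by linarith) hs hx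
  have hm : 0 < ‖1 - h‖ := norm_pos_iff.2 (sub_ne_zero.2 (lr_m_ne hs).symm)
  have hpi := lr_pi
  have hA1 : 183 / 250 * arg h ≤ Aa h := by
    have h1 : 1 ≤ Real.exp (arg h) := Real.one_le_exp hx0.le
    have h2 : 183 / 250 * arg h * 1 ≤ 183 / 250 * arg h * Real.exp (arg h) :=
      mul_le_mul_of_nonneg_left h1 (by positivity)
    linarith
  have hA0 : 0 < Aa h := lt_of_lt_of_le (by positivity) hA1
  have hr0 : 0 < 1 - relR h δ := by linarith
  have h3 : (1 - relR h δ) * ‖jR δ h‖ ≤ ‖JR δ h‖ := by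
    have h4 := JR_bound hδ hδ2 ha hs hx hx2 hq
    have h5 := norm_sub_norm_le (jR δ h) (JR δ h)
    rw [norm_sub_rev] at h5
    linarith
  have htf0 : 0 ≤ tf h δ := (Real.exp_pos _).le.trans htf
  set B : ℝ := ‖h‖ / √‖1 - h‖ * (59 / 200 * δ / (h.im * √h.im) +
      177 / 2000 * δ * (1 + 3 / 10 * √(δ / qp h)) / (qp h * √(qp h))) +
    tf h δ * (2 / 5 * √δ / √‖1 - h‖ + 27 / 20 * √‖1 - h‖ * √(xl h) +
      11 / 20 * √‖1 - h‖ * √δ / xl h) with hB
  have hB0 : 0 ≤ B := by positivity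
  have hbR : bR h δ = B / (1 - relR h δ) := rfl
  have h6 : B * ‖jR δ h‖ ≤ bR h δ * ‖JR δ h‖ := by
    rw [hbR, div_mul_eq_mul_div, le_div_iff₀ hr0]
    have := mul_le_mul_of_nonneg_left h3 hB0
    linarith
  refine le_trans ?_ h6
  refine h0.trans ?_
  rw [norm_jRr hδ (lr_m_ne hs)]
  have hsm : 0 < √‖1 - h‖ := Real.sqrt_pos.2 hm
  have hss : 0 < √h.im := Real.sqrt_pos.2 hs
  have hsq : 0 < √(qp h) := Real.sqrt_pos.2 hq
  have hsd : 0 < √δ := Real.sqrt_pos.2 hδ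
  have q1 : √‖1 - h‖ ^ 2 = ‖1 - h‖ := Real.sq_sqrt hm.le
  have q3 : √δ ^ 2 = δ := Real.sq_sqrt hδ.le
  have e1 : √(2 * Real.pi * δ / ‖1 - h‖) = √(2 * Real.pi) * √δ / √‖1 - h‖ := by
    rw [Real.sqrt_div (by positivity), Real.sqrt_mul (by positivity)]
  have e2 : δ / h.im * √(δ / h.im) = δ * √δ / (h.im * √h.im) := by
    rw [Real.sqrt_div hδ.le]
    field_simp
  have e3 : δ / qp h * √(δ / qp h) = δ * √δ / (qp h * √(qp h)) := by
    rw [Real.sqrt_div hδ.le]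
    field_simp
  have e4 : B * (√(2 * Real.pi) * √δ / √‖1 - h‖) =
      ‖h‖ / ‖1 - h‖ * (59 / 200 * √(2 * Real.pi) * (δ * √δ / (h.im * √h.im)) +
        177 / 2000 * √(2 * Real.pi) * (δ * √δ / (qp h * √(qp h)) * (1 + 3 / 10 * √(δ / qp h)))) +
      tf h δ * (2 / 5 * √(2 * Real.pi) * (δ / ‖1 - h‖) +
        √(2 * Real.pi) * (27 / 20 * √δ * √(xl h)) + 11 / 20 * √(2 * Real.pi) * (δ / xl h)) := by
    have g1 : ‖h‖ / √‖1 - h‖ * (59 / 200 * δ / (h.im * √h.im) +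
        177 / 2000 * δ * (1 + 3 / 10 * √(δ / qp h)) / (qp h * √(qp h))) *
        (√(2 * Real.pi) * √δ / √‖1 - h‖) = ‖h‖ / √‖1 - h‖ ^ 2 *
        (59 / 200 * √(2 * Real.pi) * (δ * √δ / (h.im * √h.im)) +
        177 / 2000 * √(2 * Real.pi) * (δ * √δ / (qp h * √(qp h)) * (1 + 3 / 10 * √(δ / qp h)))) := by
      field_simp
    have g2 : tf h δ * (2 / 5 * √δ / √‖1 - h‖ + 27 / 20 * √‖1 - h‖ * √(xl h) +
        11 / 20 * √‖1 - h‖ * √δ / xl h) * (√(2 * Real.pi) * √δ / √‖1 - h‖) =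
        tf h δ * (2 / 5 * √(2 * Real.pi) * (√δ ^ 2 / √‖1 - h‖ ^ 2) +
        √(2 * Real.pi) * (27 / 20 * √δ * √(xl h)) + 11 / 20 * √(2 * Real.pi) * (√δ ^ 2 / xl h)) := by
      field_simp
    rw [q1] at g1
    rw [q1, q3] at g2
    rw [hB, add_mul, g1, g2]
  rw [e1, e4, e2, e3]
  -- the main part
  have f1 : ‖h‖ * (7394 / 10000 * (δ * √δ / (h.im * √h.im)) +
        2216 / 10000 * (δ * √δ / (qp h * √(qp h))) * (1 + 3 / 10 * √(δ / qp h))) / ‖1 - h‖ ≤
      ‖h‖ / ‖1 - h‖ * (59 / 200 * √(2 * Real.pi) * (δ * √δ / (h.im * √h.im)) +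
        177 / 2000 * √(2 * Real.pi) * (δ * √δ / (qp h * √(qp h)) * (1 + 3 / 10 * √(δ / qp h)))) := by
    rw [mul_div_right_comm]
    apply mul_le_mul_of_nonneg_left _ (by positivity)
    have g1 : 7394 / 10000 * (δ * √δ / (h.im * √h.im)) ≤
        59 / 200 * √(2 * Real.pi) * (δ * √δ / (h.im * √h.im)) :=
      mul_le_mul_of_nonneg_right (by linarith only [hpi]) (by positivity)
    have g2 : 2216 / 10000 * (δ * √δ / (qp h * √(qp h)) * (1 + 3 / 10 * √(δ / qp h))) ≤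
        177 / 2000 * √(2 * Real.pi) * (δ * √δ / (qp h * √(qp h)) * (1 + 3 / 10 * √(δ / qp h))) :=
      mul_le_mul_of_nonneg_right (by linarith only [hpi]) (by positivity)
    linarith only [g1, g2]
  have f2 : δ * Real.exp (-(4 * qp h * arg h ^ 2 / δ)) / ‖1 - h‖ ≤
      tf h δ * (2 / 5 * √(2 * Real.pi) * (δ / ‖1 - h‖)) := by
    have g1 : δ * Real.exp (-(4 * qp h * arg h ^ 2 / δ)) / ‖1 - h‖ =
        Real.exp (-(4 * qp h * arg h ^ 2 / δ)) * (δ / ‖1 - h‖) := by ring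
    rw [g1]
    apply mul_le_mul htf _ (by positivity) htf0
    have g2 : 1 * (δ / ‖1 - h‖) ≤ 2 / 5 * √(2 * Real.pi) * (δ / ‖1 - h‖) :=
      mul_le_mul_of_nonneg_right (by linarith only [hpi]) (by positivity)
    linarith only [g2]
  have f3 : 2 * arg h * √(Real.pi * δ / (2 * Aa h)) ≤
      √(2 * Real.pi) * (27 / 20 * √δ * √(xl h)) := by
    have g0 : √((27 / 20) ^ 2 * δ * xl h) = 27 / 20 * √δ * √(xl h) := by
      rw [Real.sqrt_mul (by positivity) (xl h), Real.sqrt_mul (by positivity) δ,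
        Real.sqrt_sq (by norm_num)]
    have g1 : √(2 * Real.pi) * (27 / 20 * √δ * √(xl h)) =
        √(2 * Real.pi * ((27 / 20) ^ 2 * δ * xl h)) := by
      rw [← g0]
      exact (Real.sqrt_mul (x := 2 * Real.pi) (by positivity) _).symm
    have g2 : 2 * arg h * √(Real.pi * δ / (2 * Aa h)) =
        √((2 * arg h) ^ 2 * (Real.pi * δ / (2 * Aa h))) := by
      rw [Real.sqrt_mul (by positivity), Real.sqrt_sq (by positivity)]
    rw [g1, g2]
    apply Real.sqrt_le_sqrt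
    have g3 : (2 * arg h) ^ 2 * (Real.pi * δ / (2 * Aa h)) =
        2 * Real.pi * δ * arg h ^ 2 / Aa h := by
      field_simp
    rw [g3, div_le_iff₀ hA0]
    have g4 : arg h ^ 2 ≤ (27 / 20) ^ 2 * (xl h * Aa h) := by
      have k1 := lr_sin_exp hx0 hx2
      rw [← lr_xl] at k1
      have k2 : xl h * (183 / 250 * arg h * Real.exp (arg h)) ≤ xl h * Aa h :=
        mul_le_mul_of_nonneg_left hA hl0.le
      have k3 : arg h * arg h ≤ arg h * (xl h * Real.exp (arg h)) :=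
        mul_le_mul_of_nonneg_left k1 hx0.le
      have k4 : 0 ≤ xl h * Aa h := mul_nonneg hl0.le hA0.le
      linarith only [k2, k3, k4]
    have g5 := mul_le_mul_of_nonneg_left g4 (show 0 ≤ 2 * Real.pi * δ by positivity)
    calc 2 * Real.pi * δ * arg h ^ 2 ≤ _ := g5
      _ = _ := by ring
  have f4 : δ / Aa h ≤ 11 / 20 * √(2 * Real.pi) * (δ / xl h) := by
    rw [div_le_iff₀ hA0]
    have g1 : 1 ≤ 11 / 20 * √(2 * Real.pi) * (Aa h / xl h) := by
      have k1 : 183 / 250 ≤ Aa h / xl h := by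
        rw [le_div_iff₀ hl0]
        linarith only [hlx, hA1]
      have k2 : (11 / 20 * (25066 / 10000) : ℝ) ≤ 11 / 20 * √(2 * Real.pi) := by linarith only [hpi]
      calc (1 : ℝ) ≤ (11 / 20 * (25066 / 10000)) * (183 / 250) := by norm_num
        _ ≤ _ := mul_le_mul k2 k1 (by norm_num) (by positivity)
    have g2 := mul_le_mul_of_nonneg_left g1 hδ.le
    calc δ = δ * 1 := by ring
      _ ≤ _ := g2
      _ = _ := by ring
  have f5 : Real.exp (-(4 * qp h * arg h ^ 2 / δ)) *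
        (2 * arg h * √(Real.pi * δ / (2 * Aa h)) + δ / Aa h) ≤
      tf h δ * (√(2 * Real.pi) * (27 / 20 * √δ * √(xl h)) +
        11 / 20 * √(2 * Real.pi) * (δ / xl h)) :=
    mul_le_mul htf (add_le_add f3 f4) (by positivity) htf0
  rw [add_div]
  linarith only [f1, f2, f5]

end SokalTI
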