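import Pool.Agent.Lib_MP_af4de1_fu.TipTop

/-!
# The geometry of the tip: `hL`, `hR`, `wmap`, `Bp` in the sector `p = v (k + i)`
-/

set_option autoImplicit false

namespace SokalTI

open SokalFU Complex

variable {p : ℂ}

/-! ### Algebra -/

theorem ne_zero_of_re (hp : p.re ≠ 0) : p ≠ 0 := by
  rintro rfl
  exact hp rfl

theorem hR_eq_mul (hp : p.re ≠ 0) : hR p = p * cexp p / (cexp p - 1) := by
  have h1 : cexp p - 1 ≠ 0 := exp_ne_one hp
  have h2 : 1 - cexp (-p) = (cexp p - 1) / cexp p := by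
    rw [exp_neg, sub_div, div_self (exp_ne_zero p), one_div]
  unfold hR
  rw [h2, div_div_eq_mul_div]

theorem hL_mul (hp : p.re ≠ 0) : hL p * (cexp p - 1) = p := by
  unfold hL
  exact div_mul_cancel₀ _ (exp_ne_one hp)

theorem hR_sub_hL (hp : p.re ≠ 0) : hR p - hL p = p := by
  have h1 : cexp p - 1 ≠ 0 := exp_ne_one hp
  rw [hR_eq_mul hp]
  unfold hL
  rw [← sub_div, div_eq_iff h1]
  ring

theorem hL_mul_exp (hp : p.re ≠ 0) : hL p * cexp p = hR p := by
  rw [hR_eq_mul hp]
  unfold hL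
  ring

theorem wmap_eq_hR (hp : p.re ≠ 0) : wmap p = hR p * cexp (-hR p) := by
  have h1 : hR p = hL p + p := by linear_combination hR_sub_hL hp
  unfold wmap
  rw [← hL_mul_exp hp, mul_assoc, ← exp_add]
  congr 2
  rw [hL_mul_exp hp, h1]
  ring

theorem wmap_mul_exp_hL : wmap p * cexp (hL p) = hL p := by
  unfold wmap
  rw [mul_assoc, ← exp_add, neg_add_cancel, exp_zero, mul_one]

theorem wmap_mul_exp_hR (hp : p.re ≠ 0) : wmap p * cexp (hR p) = hR p := by
  rw [wmap_eq_hR hp, mul_assoc, ← exp_add, neg_add_cancel, exp_zero, mul_one]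

/-- `B = Φ(h_R) - Φ(h_L)`, `Φ(h) = h²/2 - h` at the saddle points -/
theorem Bp_eq (hp : p.re ≠ 0) : Bp p = (hR p ^ 2 / 2 - hR p) - (hL p ^ 2 / 2 - hL p) := by
  have h1 : hR p = hL p + p := by linear_combination hR_sub_hL hp
  unfold Bp
  rw [h1]
  ring

/-! ### Real and imaginary parts -/

/-- `cosh x - cos v` -/
noncomputable def Dd (p : ℂ) : ℝ := Real.cosh p.re - Real.cos p.im

theorem Dd_pos (hp : p.re ≠ 0) : 0 < Dd p := by
  have h1 : 1 < Real.cosh p.re := Real.one_lt_cosh.2 hp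
  have h2 := Real.cos_le_one p.im
  unfold Dd
  linarith

theorem hL_parts (hp : p.re ≠ 0) : hL p =
    (((p.re * (Real.cos p.im - Real.exp (-p.re)) + p.im * Real.sin p.im) / (2 * Dd p) : ℝ) : ℂ) +
    ((-((p.im * (Real.exp (-p.re) - Real.cos p.im) + p.re * Real.sin p.im) / (2 * Dd p)) : ℝ) : ℂ) *
      I := by
  have hD := Dd_pos hp
  have h1 : cexp p - 1 ≠ 0 := exp_ne_one hp
  have hE : Real.exp p.re * Real.exp (-p.re) = 1 := by
    rw [← Real.exp_add, add_neg_cancel, Real.exp_zero]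
  have hcosh : 2 * Dd p = Real.exp p.re + Real.exp (-p.re) - 2 * Real.cos p.im := by
    unfold Dd
    rw [Real.cosh_eq]
    ring
  have hsc := Real.sin_sq_add_cos_sq p.im
  unfold hL
  rw [div_eq_iff h1]
  apply Complex.ext
  · simp only [add_re, mul_re, add_im, mul_im, ofReal_re, ofReal_im, I_re, I_im, sub_re, sub_im,
      exp_re, exp_im, one_re, one_im]
    field_simp
    rw [hcosh]
    generalize Real.exp p.re = E at *
    generalize Real.exp (-p.re) = E' at *
    generalize Real.sin p.im = s at *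
    generalize Real.cos p.im = c at *
    linear_combination (-p.re * E) * hsc + p.re * hcosh + (p.re * c - p.im * s) * hE
  · simp only [add_re, mul_re, add_im, mul_im, ofReal_re, ofReal_im, I_re, I_im, sub_re, sub_im,
      exp_re, exp_im, one_re, one_im]
    field_simp
    rw [hcosh]
    generalize Real.exp p.re = E at *
    generalize Real.exp (-p.re) = E' at *
    generalize Real.sin p.im = s at *
    generalize Real.cos p.im = c at *
    linear_combination (-p.im * E) * hsc + p.im * hcosh + (p.im * c + p.re * s) * hE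

theorem hL_re (hp : p.re ≠ 0) : (hL p).re =
    (p.re * (Real.cos p.im - Real.exp (-p.re)) + p.im * Real.sin p.im) / (2 * Dd p) := by
  rw [hL_parts hp, add_re, ofReal_re, re_ofReal_mul, I_re, mul_zero, add_zero]

theorem hL_im (hp : p.re ≠ 0) : (hL p).im =
    -((p.im * (Real.exp (-p.re) - Real.cos p.im) + p.re * Real.sin p.im) / (2 * Dd p)) := by
  rw [hL_parts hp, add_im, ofReal_im, im_ofReal_mul, I_im, mul_one, zero_add]

theorem two_Dd : 2 * Dd p = Real.exp p.re + Real.exp (-p.re) - 2 * Real.cos p.im := by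
  unfold Dd
  rw [Real.cosh_eq]
  ring

theorem hR_re (hp : p.re ≠ 0) : (hR p).re =
    (p.re * (Real.exp p.re - Real.cos p.im) + p.im * Real.sin p.im) / (2 * Dd p) := by
  have h1 : hR p = hL p + p := by linear_combination hR_sub_hL hp
  have hD := Dd_pos hp
  rw [h1, add_re, hL_re hp, div_add' _ _ _ (by positivity), two_Dd]
  congr 1
  ring

theorem hR_im (hp : p.re ≠ 0) : (hR p).im =
    (p.im * (Real.exp p.re - Real.cos p.im) - p.re * Real.sin p.im) / (2 * Dd p) := by
  have h1 : hR p = hL p + p := by linear_combination hR_sub_hL hp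
  have hD := Dd_pos hp
  rw [h1, add_im, hL_im hp, neg_add_eq_sub, sub_div' (by positivity), two_Dd]
  congr 1
  ring

/-! ### Derivatives -/

theorem hasDerivAt_hL (hp : p.re ≠ 0) : HasDerivAt hL (hL p * (1 - hR p) / p) p := by
  have h1 : cexp p - 1 ≠ 0 := exp_ne_one hp
  have hp0 := ne_zero_of_re hp
  have h2 : HasDerivAt (fun z : ℂ => z / (cexp z - 1))
      ((1 * (cexp p - 1) - p * cexp p) / (cexp p - 1) ^ 2) p :=
    (hasDerivAt_id p).fun_div ((Complex.hasDerivAt_exp p).sub_const 1) h1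
  refine h2.congr_deriv ?_
  rw [hR_eq_mul hp]
  unfold hL
  field_simp

theorem hasDerivAt_hR (hp : p.re ≠ 0) : HasDerivAt hR (hR p * (1 - hL p) / p) p := by
  have hp0 := ne_zero_of_re hp
  have h3 : HasDerivAt (fun z : ℂ => hL z + z) (hL p * (1 - hR p) / p + 1) p :=
    (hasDerivAt_hL hp).add (hasDerivAt_id p)
  have h4 : (fun z : ℂ => hL z + z) =ᶠ[nhds p] hR := by
    have h5 : ∀ᶠ z in nhds p, z.re ≠ 0 :=
      Complex.continuous_re.continuousAt.eventually_ne hp
    filter_upwards [h5] with z hz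
    linear_combination -hR_sub_hL hz
  refine (h3.congr_of_eventuallyEq h4.symm).congr_deriv ?_
  have h1 : hR p = hL p + p := by linear_combination hR_sub_hL hp
  field_simp
  rw [h1]
  ring

theorem hasDerivAt_wmap (hp : p.re ≠ 0) :
    HasDerivAt wmap (wmap p * ((1 - hL p) * (1 - hR p)) / p) p := by
  have hp0 := ne_zero_of_re hp
  have h1 := hasDerivAt_hL hp
  have h2 : HasDerivAt (fun z => hL z * cexp (-hL z))
      (hL p * (1 - hR p) / p * cexp (-hL p) + hL p * (cexp (-hL p) * -(hL p * (1 - hR p) / p))) p :=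
    h1.mul h1.fun_neg.cexp
  refine h2.congr_deriv ?_
  unfold wmap
  field_simp
  ring

theorem hasDerivAt_Bp (hp : p.re ≠ 0) : HasDerivAt Bp (-((1 - hL p) * (1 - hR p))) p := by
  have hp0 := ne_zero_of_re hp
  have h2 : HasDerivAt (fun z => z * ((hL z + hR z) / 2 - 1))
      (1 * ((hL p + hR p) / 2 - 1) + p * ((hL p * (1 - hR p) / p + hR p * (1 - hL p) / p) / 2)) p :=
    (hasDerivAt_id p).mul ((((hasDerivAt_hL hp).add (hasDerivAt_hR hp)).div_const 2).sub_const 1)
  refine h2.congr_deriv ?_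
  field_simp
  ring

/-! ### Signs -/

/-- `e^(xs) (cos (vs) - (x/v) sin (vs)) < 1` -/
theorem phi_lt {x v : ℝ} (hv : 0 < v) (hvπ : v ≤ Real.pi) :
    v * Real.cos v - x * Real.sin v < v * Real.exp (-x) := by
  have hanti : StrictAntiOn (fun s : ℝ => Real.exp (x * s) * (v * Real.cos (v * s) -
      x * Real.sin (v * s))) (Set.Icc 0 1) := by
    refine strictAntiOn_of_deriv_neg (convex_Icc 0 1) (by fun_prop) fun s hs => ?_
    rw [interior_Icc] at hs
    have h1 : HasDerivAt (fun s : ℝ => Real.exp (x * s) * (v * Real.cos (v * s) -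
        x * Real.sin (v * s))) (Real.exp (x * s) * (x * 1) * (v * Real.cos (v * s) -
        x * Real.sin (v * s)) + Real.exp (x * s) * (v * (-Real.sin (v * s) * (v * 1)) -
        x * (Real.cos (v * s) * (v * 1)))) s := by
      have e1 : HasDerivAt (fun s : ℝ => x * s) (x * 1) s := (hasDerivAt_id s).const_mul x
      have e2 : HasDerivAt (fun s : ℝ => v * s) (v * 1) s := (hasDerivAt_id s).const_mul v
      exact e1.exp.mul ((e2.cos.const_mul v).sub (e2.sin.const_mul x))
    rw [h1.deriv]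
    have h2 : 0 < Real.sin (v * s) := by
      apply Real.sin_pos_of_pos_of_lt_pi (mul_pos hv hs.1)
      have : v * s < v * 1 := mul_lt_mul_of_pos_left hs.2 hv
      linarith
    have h3 : Real.exp (x * s) * (x * 1) * (v * Real.cos (v * s) - x * Real.sin (v * s)) +
        Real.exp (x * s) * (v * (-Real.sin (v * s) * (v * 1)) - x * (Real.cos (v * s) * (v * 1))) =
        -(Real.exp (x * s) * ((x ^ 2 + v ^ 2) * Real.sin (v * s))) := by ring
    rw [h3]
    have : 0 < Real.exp (x * s) * ((x ^ 2 + v ^ 2) * Real.sin (v * s)) := by positivity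
    linarith
  have h4 := hanti (Set.left_mem_Icc.2 zero_le_one) (Set.right_mem_Icc.2 zero_le_one) one_pos
  simp only [mul_one, mul_zero, Real.exp_zero, Real.cos_zero, Real.sin_zero, one_mul,
    sub_zero] at h4
  have h5 : Real.exp x * Real.exp (-x) = 1 := by
    rw [← Real.exp_add, add_neg_cancel, Real.exp_zero]
  have h6 : Real.exp (-x) * (Real.exp x * (v * Real.cos v - x * Real.sin v)) <
      Real.exp (-x) * v := mul_lt_mul_of_pos_left h4 (Real.exp_pos _)
  have h7 : Real.exp (-x) * (Real.exp x * (v * Real.cos v - x * Real.sin v)) =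
      (Real.exp x * Real.exp (-x)) * (v * Real.cos v - x * Real.sin v) := by ring
  rw [h7, h5, one_mul] at h6
  linarith

/-- the sector of the tip -/
def Sec : Set ℂ := Dk (2 / 5) (4 / 5) 4

theorem Sec.re_pos (hp : p ∈ Sec) : 0 < p.re := Dk_re_pos (by norm_num) hp

theorem Sec.re_ne (hp : p ∈ Sec) : p.re ≠ 0 := (Sec.re_pos hp).ne'

theorem Sec.im_pos (hp : p ∈ Sec) : 0 < p.im := hp.1

theorem Sec.im_le (hp : p ∈ Sec) : p.im ≤ 4 := hp.2.1

theorem Sec.lo (hp : p ∈ Sec) : 2 / 5 * p.im ≤ p.re := hp.2.2.1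

theorem Sec.hi (hp : p ∈ Sec) : p.re ≤ 4 / 5 * p.im := hp.2.2.2

/-- beyond `π`: `cos v < (4/5) sin v < 0` -/
theorem cos_lt_sin {v : ℝ} (h1 : Real.pi < v) (h2 : v ≤ 4) :
    Real.cos v < 4 / 5 * Real.sin v ∧ Real.sin v < 0 ∧ Real.cos v < -3 / 5 := by
  have hpi := Real.pi_gt_d2
  have hpi3 := Real.pi_gt_d4
  set u := v - Real.pi with hu
  have hu0 : 0 < u := by rw [hu]; linarith
  have hu1 : u < 43 / 50 := by rw [hu]; linarith
  have e1 : Real.cos v = -Real.cos u := by
    rw [hu, Real.cos_sub_pi]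
    ring
  have e2 : Real.sin v = -Real.sin u := by
    rw [hu, Real.sin_sub_pi]
    ring
  have e3 : 0 < Real.sin u := Real.sin_pos_of_pos_of_lt_pi hu0 (by linarith)
  have e4 := Real.one_sub_sq_div_two_le_cos (x := u)
  have e5 := Real.sin_bound (x := u) (by rw [abs_of_pos hu0]; linarith)
  rw [abs_of_pos hu0, abs_le] at e5
  rw [e1, e2]
  refine ⟨?_, by linarith, ?_⟩
  · have h5 : u - u ^ 3 / 6 + u ^ 5 / 100 ≤ 783 / 1000 := by
      have h7 : u ^ 5 ≤ 1 * u ^ 3 := by
        have : u ^ 5 = u ^ 2 * u ^ 3 := by ring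
        rw [this]
        have h8 : u ^ 2 ≤ 1 := by nlinarith
        exact mul_le_mul_of_nonneg_right h8 (by positivity)
      have h9 : 0 ≤ (43 / 50 - u) * (u ^ 2 + u * (43 / 50) + (43 / 50) ^ 2) := by
        have : 0 ≤ 43 / 50 - u := by linarith
        positivity
      nlinarith [mul_nonneg (sub_nonneg.2 hu1.le) (sq_nonneg u), mul_nonneg (sub_nonneg.2 hu1.le) hu0.le]
    have h6 : 1 - u ^ 2 / 2 > 6301 / 10000 := by nlinarith
    linarith [e5.2]
  · nlinarith

theorem hL_im_neg (hp : p ∈ Sec) : (hL p).im < 0 := by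
  have hv := Sec.im_pos hp
  have hx := Sec.re_pos hp
  have hD := Dd_pos (Sec.re_ne hp)
  rw [hL_im (Sec.re_ne hp), neg_lt_zero]
  refine div_pos ?_ (by positivity)
  rcases le_or_gt p.im Real.pi with h | h
  · have := phi_lt (x := p.re) hv h
    nlinarith
  · obtain ⟨h1, h2, h3⟩ := cos_lt_sin h (Sec.im_le hp)
    have h4 : 0 < p.im * Real.exp (-p.re) := mul_pos hv (Real.exp_pos _)
    have h5 : 4 / 5 * p.im * Real.sin p.im ≤ p.re * Real.sin p.im :=
      mul_le_mul_of_nonpos_right (Sec.hi hp) h2.le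
    have h6 : 0 < p.im * (4 / 5 * Real.sin p.im - Real.cos p.im) := mul_pos hv (by linarith)
    nlinarith

theorem hR_im_pos (hp : p ∈ Sec) : 0 < (hR p).im := by
  have hv := Sec.im_pos hp
  have hx := Sec.re_pos hp
  have hD := Dd_pos (Sec.re_ne hp)
  rw [hR_im (Sec.re_ne hp)]
  refine div_pos ?_ (by positivity)
  rcases le_or_gt p.im Real.pi with h | h
  · have := phi_lt (x := -p.re) hv h
    rw [neg_neg] at this
    nlinarith
  · obtain ⟨h1, h2, h3⟩ := cos_lt_sin h (Sec.im_le hp)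
    have h4 : 0 < p.im * (Real.exp p.re - Real.cos p.im) :=
      mul_pos hv (by have := Real.exp_pos p.re; linarith)
    have h5 : 0 < p.re * (-Real.sin p.im) := mul_pos hx (by linarith)
    nlinarith

theorem hR_re_pos (hp : p ∈ Sec) : 0 < (hR p).re := by
  have hv := Sec.im_pos hp
  have hx := Sec.re_pos hp
  have hD := Dd_pos (Sec.re_ne hp)
  rw [hR_re (Sec.re_ne hp)]
  refine div_pos ?_ (by positivity)
  have he : 1 < Real.exp p.re := by
    have := Real.add_one_lt_exp (Sec.re_ne hp)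
    linarith
  rcases le_or_gt p.im Real.pi with h | h
  · have h1 : 0 ≤ Real.sin p.im := Real.sin_nonneg_of_nonneg_of_le_pi hv.le h
    have h2 := Real.cos_le_one p.im
    have h3 : 0 < p.re * (Real.exp p.re - Real.cos p.im) := mul_pos hx (by linarith)
    have h4 : 0 ≤ p.im * Real.sin p.im := mul_nonneg hv.le h1
    linarith
  · obtain ⟨h1, h2, h3⟩ := cos_lt_sin h (Sec.im_le hp)
    have hpi := Real.pi_gt_d2
    have h4 : 5 / 2 ≤ Real.exp p.re := by
      have h5 := Real.quadratic_le_exp_of_nonneg hx.le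
      have h6 := Sec.lo hp
      have h7 : 1.25 ≤ p.re := by linarith
      nlinarith
    have h5 : -1 ≤ Real.sin p.im := Real.neg_one_le_sin _
    have h6 : p.im ≤ 5 / 2 * p.re := by have := Sec.lo hp; linarith
    have h7 : p.im * (-Real.sin p.im) ≤ 5 / 2 * p.re * 1 := by
      apply mul_le_mul h6 (by linarith) (by linarith) (by positivity)
    have h8 : p.re * (5 / 2) < p.re * (Real.exp p.re - Real.cos p.im) :=
      mul_lt_mul_of_pos_left (by linarith) hx
    linarith

theorem one_sub_hL_ne (hp : p ∈ Sec) : 1 - hL p ≠ 0 := by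
  intro h
  have h1 := hL_im_neg hp
  have h2 : hL p = 1 := by linear_combination -h
  rw [h2, one_im] at h1
  exact lt_irrefl _ h1

theorem one_sub_hR_ne (hp : p ∈ Sec) : 1 - hR p ≠ 0 := by
  intro h
  have h1 := hR_im_pos hp
  have h2 : hR p = 1 := by linear_combination -h
  rw [h2, one_im] at h1
  exact lt_irrefl _ h1

theorem hL_ne_zero (hp : p.re ≠ 0) : hL p ≠ 0 := by
  intro h
  have := hL_mul hp
  rw [h, zero_mul] at this
  exact ne_zero_of_re hp this.symm

theorem hR_ne_zero (hp : p.re ≠ 0) : hR p ≠ 0 := by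
  rw [← hL_mul_exp hp]
  exact mul_ne_zero (hL_ne_zero hp) (exp_ne_zero _)

theorem wmap_ne_zero (hp : p.re ≠ 0) : wmap p ≠ 0 :=
  mul_ne_zero (hL_ne_zero hp) (exp_ne_zero _)

end SokalTI
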