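import Pool.Agent.Lib_MP_af4de1_ti.Cond
import Pool.Agent.Lib_MP_af4de1_ti.Geo

/-!
# The tip: `Dist δ r` for `δ ≤ 2/25`, `δ r ≤ 1`

From the representation (`RepData`), Lemma L and Lemma R (`LineHyp`), the numerical facts (`TipNum`), the
monotonicity on `|w| = 1` and the zeros at `δ = 2/25`.
-/

set_option autoImplicit false

namespace SokalTI

open Complex SokalFU SokalF

/-- Lemma L and Lemma R -/
structure LineHyp : Prop where
  L : ∀ (δ : ℝ) (h : ℂ), 0 < δ → h.im < 0 → 24 / 5 * δ ≤ -h.im → ‖JL δ h - jL δ h‖ ≤ relL h δ * ‖jL δ h‖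
  L1 : ∀ (δ : ℝ) (h : ℂ), 0 < δ → h.im < 0 → 24 / 5 * δ ≤ -h.im → relL h δ < 1 →
    ‖JL1 δ h‖ ≤ bL h δ * ‖JL δ h‖
  R : ∀ (δ : ℝ) (h : ℂ), 0 < δ → δ ≤ 2 / 25 → 0 < h.im → arg h ≤ h.im → arg h ≤ 5 / 4 →
    h.im ≤ 5 * h.re → 97 / 100 ≤ h.re → 0 < qp h → ‖JR δ h - jR δ h‖ ≤ relR h δ * ‖jR δ h‖
  R1 : ∀ (δ : ℝ) (h : ℂ), 0 < δ → δ ≤ 2 / 25 → 0 < h.im → arg h ≤ h.im → arg h ≤ 5 / 4 →
    h.im ≤ 5 * h.re → 97 / 100 ≤ h.re → 0 < qp h → relR h δ < 1 → ‖JR1 δ h‖ ≤ bR h δ * ‖JR δ h‖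

/-! ### Geometry -/

theorem DT_sub {p : ℂ} (hp : p ∈ DT) : p ∈ Sec := by
  obtain ⟨h1, h2, h3, h4⟩ := hp
  exact ⟨h1, by linarith, h3, h4.trans (Uf_le _)⟩

theorem DT_re {p : ℂ} (hp : p ∈ DT) : p.re ≠ 0 := Sec.re_ne (DT_sub hp)

theorem hRL {p : ℂ} (hp : p.re ≠ 0) : hR p - hL p = p := SokalTI.hR_sub_hL hp

/-- the argument of the right saddle lies in `(0, π/2)` -/
theorem arg_pos_of {h : ℂ} (h1 : 0 < h.im) (h2 : 0 < h.re) : 0 < arg h ∧ arg h < Real.pi / 2 := by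
  refine ⟨?_, ?_⟩
  · rcases (Complex.arg_nonneg_iff.mpr h1.le).lt_or_eq with h3 | h3
    · exact h3
    · exfalso
      have h4 := Complex.arg_eq_zero_iff.mp h3.symm
      rw [h4.2] at h1
      exact lt_irrefl _ h1
  · exact Complex.arg_lt_pi_div_two_iff.mpr (Or.inl h2)

/-- `Im h_L - ψ ∈ (-π, 0)` -/
theorem left_angle {p : ℂ} (hp : p ∈ DT) (hx : arg (hR p) ≤ 5 / 4) :
    -Real.pi < (hL p).im - psiP p ∧ (hL p).im - psiP p < 0 := by
  have hS := DT_sub hp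
  have hre := DT_re hp
  have hLim := hL_im_neg hS
  have hRim := hR_im_pos hS
  have hRre := hR_re_pos hS
  obtain ⟨x0, x1⟩ := arg_pos_of hRim hRre
  have hpi := Real.pi_gt_three
  obtain ⟨h1, h2, -, -⟩ := hp
  have e1 : (hL p).im - psiP p = arg (hR p) - p.im := by
    unfold psiP
    have := congrArg Complex.im (hRL hre)
    rw [Complex.sub_im] at this
    linarith
  rw [e1]
  -- `Im h_L = |h_R| e^{-u} sin (arg h_R - v)`
  have e2 : (hL p).im = ‖hR p‖ * Real.exp (-p.re) * Real.sin (arg (hR p) - p.im) := by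
    have e3 : hL p = hR p * cexp (-p) := by
      rw [← hL_mul_exp hre, mul_assoc, ← Complex.exp_add, add_neg_cancel, Complex.exp_zero, mul_one]
    have e4 : hR p * cexp (-p) =
        ((‖hR p‖ * Real.exp (-p.re) : ℝ) : ℂ) * cexp (((arg (hR p) - p.im : ℝ) : ℂ) * I) := by
      conv_lhs => rw [← Complex.norm_mul_exp_arg_mul_I (hR p)]
      push_cast
      rw [mul_assoc, mul_assoc, ← Complex.exp_add, ← Complex.exp_add]
      congr 2
      have hpe : ((p.re : ℝ) : ℂ) + p.im * I = p := Complex.re_add_im p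
      linear_combination hpe
    rw [e3, e4, Complex.im_ofReal_mul, Complex.exp_ofReal_mul_I_im]
  have hn : 0 < ‖hR p‖ := norm_pos_iff.mpr (SokalTI.hR_ne_zero hre)
  have hsin : Real.sin (arg (hR p) - p.im) < 0 := by
    by_contra hcon
    push Not at hcon
    have := mul_nonneg (mul_nonneg hn.le (Real.exp_pos (-p.re)).le) hcon
    linarith
  constructor
  · by_contra hcon
    push Not at hcon
    have h5 : 0 ≤ Real.sin (-(arg (hR p) - p.im) - Real.pi) :=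
      Real.sin_nonneg_of_nonneg_of_le_pi (by linarith) (by linarith)
    rw [Real.sin_sub_pi, Real.sin_neg, neg_neg] at h5
    linarith
  · by_contra hcon
    push Not at hcon
    have h5 : 0 ≤ Real.sin (arg (hR p) - p.im) :=
      Real.sin_nonneg_of_nonneg_of_le_pi hcon (by linarith)
    linarith

/-- `ρ e^{-iψ}` -/
theorem w_eq {p : ℂ} (hp : p ∈ DT) : ((‖wmap p‖ : ℝ) : ℂ) * cexp (-(I * (psiP p : ℝ))) = wmap p :=
  (wmap_eq_psi (DT_re hp)).symm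

theorem rho_pos {p : ℂ} (hp : p ∈ DT) : 0 < ‖wmap p‖ :=
  norm_pos_iff.mpr (SokalTI.wmap_ne_zero (DT_re hp))

variable {L R L1 R1 : ℝ → ℝ → ℝ → ℂ}

/-- the two links at a point of the region -/
theorem links (hD : RepData L R L1 R1) {δ : ℝ} (hδ : 0 < δ) {p : ℂ} (hp : p ∈ DT)
    (hx : arg (hR p) ≤ 5 / 4) :
    (L δ ‖wmap p‖ (psiP p) = kS δ (psiP p) (hL p) * JL δ (hL p) ∧
      L1 δ ‖wmap p‖ (psiP p) = kS δ (psiP p) (hL p) *
        ((hL p - I * (psiP p : ℝ)) * JL δ (hL p) + JL1 δ (hL p))) ∧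
    (R δ ‖wmap p‖ (psiP p) = kS δ (psiP p) (hR p) * JR δ (hR p) ∧
      R1 δ ‖wmap p‖ (psiP p) = kS δ (psiP p) (hR p) *
        ((hR p - I * (psiP p : ℝ)) * JR δ (hR p) + JR1 δ (hR p))) := by
  have hS := DT_sub hp
  obtain ⟨h1, h2⟩ := left_angle hp hx
  refine ⟨hD.linkL δ _ _ (hL p) hδ (rho_pos hp) ?_ (hL_im_neg hS) h1 h2,
    hD.linkR δ _ _ (hR p) hδ (rho_pos hp) ?_ (hR_im_pos hS) (hR_re_pos hS) ?_⟩
  · rw [w_eq hp]; rfl
  · rw [w_eq hp, SokalTI.wmap_eq_hR (DT_re hp)]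
  · unfold psiP; ring

/-! ### The Gauss integrals -/

theorem cpow_half_sq (z : ℂ) : (z ^ (1 / 2 : ℂ)) ^ 2 = z := by
  have h : (1 / 2 : ℂ) = ((2 : ℕ) : ℂ)⁻¹ := by norm_num
  rw [h]
  exact Complex.cpow_nat_inv_pow z two_ne_zero

theorem cpow_half_re {z : ℂ} (hz : 0 < z.re) : 0 < (z ^ (1 / 2 : ℂ)).re := by
  have hz0 : z ≠ 0 := by rintro rfl; simp at hz
  rw [Complex.cpow_def_of_ne_zero hz0, Complex.exp_re]
  have h1 : (Complex.log z * (1 / 2)).im = arg z / 2 := by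
    have : Complex.log z * (1 / 2) = ((1 / 2 : ℝ) : ℂ) * Complex.log z := by push_cast; ring
    rw [this, Complex.im_ofReal_mul, Complex.log_im]
    ring
  rw [h1]
  have h2 := abs_lt.mp (Complex.abs_arg_lt_pi_div_two_iff.mpr (Or.inl hz))
  have hpi := Real.pi_pos
  exact mul_pos (Real.exp_pos _) (Real.cos_pos_of_mem_Ioo ⟨by linarith [h2.1], by linarith [h2.2]⟩)

/-- `|j|` -/
theorem norm_half {δ : ℝ} (hδ : 0 < δ) {β : ℂ} (hβ : 0 < β.re) :
    ‖(2 * Real.pi * δ / β) ^ (1 / 2 : ℂ)‖ = √(2 * Real.pi * δ) / √‖β‖ := by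
  have hβ0 : β ≠ 0 := by rintro rfl; simp at hβ
  have hn : 0 < ‖β‖ := norm_pos_iff.mpr hβ0
  have h1 : ‖(2 * Real.pi * δ / β) ^ (1 / 2 : ℂ)‖ ^ 2 = 2 * Real.pi * δ / ‖β‖ := by
    rw [← norm_pow, cpow_half_sq, norm_div]
    congr 1
    have : (2 * Real.pi * δ : ℂ) = ((2 * Real.pi * δ : ℝ) : ℂ) := by push_cast; ring
    rw [this, Complex.norm_real, Real.norm_of_nonneg (by have := Real.pi_pos; positivity)]
  have h2 : ‖(2 * Real.pi * δ / β) ^ (1 / 2 : ℂ)‖ = √(2 * Real.pi * δ / ‖β‖) := by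
    rw [← h1, Real.sqrt_sq (norm_nonneg _)]
  rw [h2, Real.sqrt_div (by have := Real.pi_pos; positivity)]

theorem norm_jL {δ : ℝ} (hδ : 0 < δ) {h : ℂ} (hh : h.im < 0) :
    ‖jL δ h‖ = √(2 * Real.pi * δ) / √‖1 - h‖ := by
  unfold jL
  rw [norm_half hδ (β := -(I * (1 - h))) (by simp; linarith)]
  congr 2
  rw [norm_neg, norm_mul, Complex.norm_I, one_mul]

theorem norm_jR {δ : ℝ} (hδ : 0 < δ) {h : ℂ} (hh : 0 < h.im) :
    ‖jR δ h‖ = √(2 * Real.pi * δ) / √‖1 - h‖ := by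
  unfold jR
  rw [norm_mul, Complex.norm_I, one_mul, norm_half hδ (β := I * (1 - h)) (by simp; linarith)]
  congr 2
  rw [norm_mul, Complex.norm_I, one_mul]

/-- the ratio of the prefactors -/
theorem kS_ratio {δ : ℝ} {p : ℂ} (hp : p.re ≠ 0) (ψ : ℝ) :
    kS δ ψ (hL p) = cexp (-(I / δ * Bp p)) * kS δ ψ (hR p) := by
  unfold kS
  rw [← Complex.exp_add, SokalTI.Bp_eq hp]
  congr 1
  ring

theorem norm_kS_ratio {δ : ℝ} (hδ : 0 < δ) {p : ℂ} (hp : p.re ≠ 0) (ψ : ℝ) :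
    ‖kS δ ψ (hL p)‖ = Real.exp ((Bp p).im / δ) * ‖kS δ ψ (hR p)‖ := by
  rw [kS_ratio hp, norm_mul, Complex.norm_exp]
  congr 2
  have h1 : -(I / δ * Bp p) = (((-δ⁻¹ : ℝ)) : ℂ) * (I * Bp p) := by push_cast; ring
  rw [h1, Complex.re_ofReal_mul, Complex.I_mul_re]
  ring


/-! ### The values on the sides -/

/-- all about the sizes at a point of the window -/
theorem sizes (hl : LineHyp) {δ : ℝ} (hδ : 0 < δ) (hδ2 : δ ≤ 2 / 25) {p : ℂ} (hp : p ∈ DT)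
    (hc : PtCond p δ) :
    ‖JL δ (hL p) - jL δ (hL p)‖ ≤ relL (hL p) δ * ‖jL δ (hL p)‖ ∧
    ‖JR δ (hR p) - jR δ (hR p)‖ ≤ relR (hR p) δ * ‖jR δ (hR p)‖ ∧
    0 < ‖jL δ (hL p)‖ ∧ 0 < ‖jR δ (hR p)‖ ∧ JL δ (hL p) ≠ 0 ∧ JR δ (hR p) ≠ 0 := by
  have hS := DT_sub hp
  have h1 := hl.L δ (hL p) hδ (hL_im_neg hS) hc.lamL
  have h2 := hl.R δ (hR p) hδ hδ2 (hR_im_pos hS) hc.xs hc.x54 hc.s5a hc.a97 hc.qpos
  have hpi := Real.pi_pos
  have m1 : 0 < ‖1 - hL p‖ := norm_pos_iff.mpr (one_sub_hL_ne hS)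
  have m2 : 0 < ‖1 - hR p‖ := norm_pos_iff.mpr (one_sub_hR_ne hS)
  have h3 : 0 < ‖jL δ (hL p)‖ := by rw [norm_jL hδ (hL_im_neg hS)]; positivity
  have h4 : 0 < ‖jR δ (hR p)‖ := by rw [norm_jR hδ (hR_im_pos hS)]; positivity
  refine ⟨h1, h2, h3, h4, ?_, ?_⟩
  · intro h
    rw [h, zero_sub, norm_neg] at h1
    have := mul_lt_mul_of_pos_right hc.relL1 h3
    linarith
  · intro h
    rw [h, zero_sub, norm_neg] at h2
    have := mul_lt_mul_of_pos_right hc.relR1 h4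
    linarith

theorem left_lt (hD : RepData L R L1 R1) (hl : LineHyp) {δ : ℝ} (hδ : 0 < δ) (hδ2 : δ ≤ 2 / 25) {p : ℂ}
    (hp : p ∈ DT) (hc : PtCond p δ) (hs : CondL p δ) :
    ‖L δ ‖wmap p‖ (psiP p)‖ < ‖R δ ‖wmap p‖ (psiP p)‖ := by
  obtain ⟨⟨e1, -⟩, e2, -⟩ := links hD hδ hp hc.x54
  obtain ⟨h1, h2, h3, h4, -, -⟩ := sizes hl hδ hδ2 hp hc
  have hS := DT_sub hp
  rw [e1, e2, norm_mul, norm_mul, norm_kS_ratio hδ (DT_re hp)]
  have hK : 0 < ‖kS δ (psiP p) (hR p)‖ := norm_pos_iff.mpr (kS_ne_zero _ _ _)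
  have n1 : ‖JL δ (hL p)‖ ≤ (1 + relL (hL p) δ) * ‖jL δ (hL p)‖ := by
    have := norm_le_norm_add_norm_sub (jL δ (hL p)) (JL δ (hL p))
    rw [norm_sub_rev] at this
    linarith
  have n2 : (1 - relR (hR p) δ) * ‖jR δ (hR p)‖ ≤ ‖JR δ (hR p)‖ := by
    have := norm_le_norm_add_norm_sub (JR δ (hR p)) (jR δ (hR p))
    linarith
  have hpi := Real.pi_pos
  have m1 : 0 < √‖1 - hL p‖ := Real.sqrt_pos.mpr (norm_pos_iff.mpr (one_sub_hL_ne hS))
  have m2 : 0 < √‖1 - hR p‖ := Real.sqrt_pos.mpr (norm_pos_iff.mpr (one_sub_hR_ne hS))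
  have hC : 0 < √(2 * Real.pi * δ) := by positivity
  have hE := Real.exp_pos ((Bp p).im / δ)
  have key : Real.exp ((Bp p).im / δ) * ‖JL δ (hL p)‖ < ‖JR δ (hR p)‖ := by
    refine lt_of_le_of_lt (mul_le_mul_of_nonneg_left n1 hE.le) (lt_of_lt_of_le ?_ n2)
    rw [norm_jL hδ (hL_im_neg hS), norm_jR hδ (hR_im_pos hS)]
    unfold CondL at hs
    have h5 : Real.exp ((Bp p).im / δ) * ((1 + relL (hL p) δ) * (√(2 * Real.pi * δ) / √‖1 - hL p‖)) =
        (Real.exp ((Bp p).im / δ) * (1 + relL (hL p) δ) * √‖1 - hR p‖) *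
          (√(2 * Real.pi * δ) / (√‖1 - hL p‖ * √‖1 - hR p‖)) := by
      field_simp
    have h6 : (1 - relR (hR p) δ) * (√(2 * Real.pi * δ) / √‖1 - hR p‖) =
        ((1 - relR (hR p) δ) * √‖1 - hL p‖) * (√(2 * Real.pi * δ) / (√‖1 - hL p‖ * √‖1 - hR p‖)) := by
      field_simp
    rw [h5, h6]
    exact mul_lt_mul_of_pos_right hs (by positivity)
  have := mul_lt_mul_of_pos_left key hK
  calc Real.exp ((Bp p).im / δ) * ‖kS δ (psiP p) (hR p)‖ * ‖JL δ (hL p)‖ =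
      ‖kS δ (psiP p) (hR p)‖ * (Real.exp ((Bp p).im / δ) * ‖JL δ (hL p)‖) := by ring
    _ < _ := this

theorem right_lt (hD : RepData L R L1 R1) (hl : LineHyp) {δ : ℝ} (hδ : 0 < δ) (hδ2 : δ ≤ 2 / 25) {p : ℂ}
    (hp : p ∈ DT) (hc : PtCond p δ) (hs : CondR p δ) :
    ‖R δ ‖wmap p‖ (psiP p)‖ < ‖L δ ‖wmap p‖ (psiP p)‖ := by
  obtain ⟨⟨e1, -⟩, e2, -⟩ := links hD hδ hp hc.x54
  obtain ⟨h1, h2, h3, h4, -, -⟩ := sizes hl hδ hδ2 hp hc
  have hS := DT_sub hp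
  rw [e1, e2, norm_mul, norm_mul, norm_kS_ratio hδ (DT_re hp)]
  have hK : 0 < ‖kS δ (psiP p) (hR p)‖ := norm_pos_iff.mpr (kS_ne_zero _ _ _)
  have n1 : ‖JR δ (hR p)‖ ≤ (1 + relR (hR p) δ) * ‖jR δ (hR p)‖ := by
    have := norm_le_norm_add_norm_sub (jR δ (hR p)) (JR δ (hR p))
    rw [norm_sub_rev] at this
    linarith
  have n2 : (1 - relL (hL p) δ) * ‖jL δ (hL p)‖ ≤ ‖JL δ (hL p)‖ := by
    have := norm_le_norm_add_norm_sub (JL δ (hL p)) (jL δ (hL p))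
    linarith
  have hpi := Real.pi_pos
  have m1 : 0 < √‖1 - hL p‖ := Real.sqrt_pos.mpr (norm_pos_iff.mpr (one_sub_hL_ne hS))
  have m2 : 0 < √‖1 - hR p‖ := Real.sqrt_pos.mpr (norm_pos_iff.mpr (one_sub_hR_ne hS))
  have hC : 0 < √(2 * Real.pi * δ) := by positivity
  have hE := Real.exp_pos ((Bp p).im / δ)
  have hEE : Real.exp ((Bp p).im / δ) * Real.exp (-((Bp p).im / δ)) = 1 := by
    rw [← Real.exp_add, add_neg_cancel, Real.exp_zero]
  have key : ‖JR δ (hR p)‖ < Real.exp ((Bp p).im / δ) * ‖JL δ (hL p)‖ := by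
    refine lt_of_le_of_lt n1 (lt_of_lt_of_le ?_ (mul_le_mul_of_nonneg_left n2 hE.le))
    rw [norm_jL hδ (hL_im_neg hS), norm_jR hδ (hR_im_pos hS)]
    unfold CondR at hs
    have h5 : (1 + relR (hR p) δ) * (√(2 * Real.pi * δ) / √‖1 - hR p‖) =
        (Real.exp (-((Bp p).im / δ)) * (1 + relR (hR p) δ) * √‖1 - hL p‖) *
          (Real.exp ((Bp p).im / δ) * √(2 * Real.pi * δ) / (√‖1 - hL p‖ * √‖1 - hR p‖)) := by
      field_simp
      linear_combination -(1 + relR (hR p) δ) * hEE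
    have h6 : Real.exp ((Bp p).im / δ) * ((1 - relL (hL p) δ) * (√(2 * Real.pi * δ) / √‖1 - hL p‖)) =
        ((1 - relL (hL p) δ) * √‖1 - hR p‖) *
          (Real.exp ((Bp p).im / δ) * √(2 * Real.pi * δ) / (√‖1 - hL p‖ * √‖1 - hR p‖)) := by
      field_simp
    rw [h5, h6]
    exact mul_lt_mul_of_pos_right hs (by positivity)
  have := mul_lt_mul_of_pos_left key hK
  calc ‖kS δ (psiP p) (hR p)‖ * ‖JR δ (hR p)‖ <
      ‖kS δ (psiP p) (hR p)‖ * (Real.exp ((Bp p).im / δ) * ‖JL δ (hL p)‖) := this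
    _ = _ := by ring


/-! ### The inner end -/

theorem sq_parts {J β : ℂ} {T : ℝ} (hT : 0 < T) (hβ : 0 < β.re) (hJ2 : J ^ 2 = T / β) :
    (J.re ^ 2 + J.im ^ 2) * ‖β‖ ^ 2 = T * ‖β‖ ∧ (J.re ^ 2 - J.im ^ 2) * ‖β‖ ^ 2 = T * β.re ∧
    2 * J.re * J.im * ‖β‖ ^ 2 = -(T * β.im) := by
  have hβ0 : β ≠ 0 := by rintro rfl; simp at hβ
  have hn : 0 < ‖β‖ := norm_pos_iff.mpr hβ0
  have e1 : J ^ 2 * ((‖β‖ ^ 2 : ℝ) : ℂ) = T * (starRingEnd ℂ) β := by
    rw [hJ2, ← Complex.normSq_eq_norm_sq, Complex.normSq_eq_conj_mul_self]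
    field_simp
  have hre := congrArg Complex.re e1
  have him := congrArg Complex.im e1
  rw [Complex.re_mul_ofReal, Complex.re_ofReal_mul, Complex.conj_re] at hre
  rw [Complex.im_mul_ofReal, Complex.im_ofReal_mul, Complex.conj_im] at him
  have a1 : (J ^ 2).re = J.re ^ 2 - J.im ^ 2 := by rw [pow_two, Complex.mul_re]; ring
  have a2 : (J ^ 2).im = 2 * J.re * J.im := by rw [pow_two, Complex.mul_im]; ring
  rw [a1] at hre
  rw [a2] at him
  refine ⟨?_, hre, by rw [him]; ring⟩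
  have h3 : ‖J‖ ^ 2 = T / ‖β‖ := by
    rw [← norm_pow, hJ2, norm_div, Complex.norm_real, Real.norm_of_nonneg hT.le]
  have h4 : ‖J‖ ^ 2 = J.re ^ 2 + J.im ^ 2 := by
    rw [← Complex.normSq_eq_norm_sq, Complex.normSq_apply]; ring
  rw [← h4, h3]
  field_simp

/-- the left cone -/
theorem coneL {δ : ℝ} (hδ : 0 < δ) {h : ℂ} (hh : h.im < 0) {r : ℝ}
    (hc : 3 / 5 * (1 - h.re) - 4 / 5 * (-h.im) < (1 - 2 * r ^ 2) * ‖1 - h‖) {J : ℂ}
    (hJ : ‖J - jL δ h‖ ≤ r * ‖jL δ h‖) : ((1 - 3 * I) * J).im < 0 := by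
  set β : ℂ := -(I * (1 - h)) with hβ
  have b1 : β.re = -h.im := by rw [hβ]; simp
  have b2 : β.im = -(1 - h.re) := by rw [hβ]; simp
  have b3 : ‖β‖ = ‖1 - h‖ := by rw [hβ, norm_neg, norm_mul, Complex.norm_I, one_mul]
  have hβ0 : 0 < β.re := by rw [b1]; linarith
  have hT : 0 < 2 * Real.pi * δ := by have := Real.pi_pos; positivity
  set K := jL δ h with hK
  have hK2 : K ^ 2 = ((2 * Real.pi * δ : ℝ) : ℂ) / β := by
    rw [hK]; unfold jL; rw [cpow_half_sq]; push_cast; rfl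
  have hKre : 0 < K.re := by
    rw [hK]; unfold jL
    refine cpow_half_re ?_
    have e : (2 * Real.pi * δ / (-(I * (1 - h))) : ℂ) = ((2 * Real.pi * δ : ℝ) : ℂ) * β⁻¹ := by
      rw [hβ]; push_cast; rw [div_eq_mul_inv]
    rw [e, Complex.re_ofReal_mul, Complex.inv_re]
    have hn : 0 < Complex.normSq β := Complex.normSq_pos.mpr (by rintro h0; rw [h0] at hβ0; simp at hβ0)
    positivity
  obtain ⟨q1, q2, q3⟩ := sq_parts hT hβ0 hK2
  have hβn : 0 < ‖β‖ := norm_pos_iff.mpr (by rintro h0; rw [h0] at hβ0; simp at hβ0)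
  rw [b1] at q2
  rw [b2] at q3
  have hs : 0 < -h.im := by linarith
  have hsq : K.im ^ 2 < K.re ^ 2 := by
    have h1 : 0 < (K.re ^ 2 - K.im ^ 2) * ‖β‖ ^ 2 := by rw [q2]; positivity
    have h2 := (pos_iff_pos_of_mul_pos h1).mpr (by positivity)
    linarith
  have habs : |K.im| < K.re := by
    rw [← abs_of_pos hKre]; exact sq_lt_sq.mp hsq
  have hpos : 0 < 3 * K.re - K.im := by linarith [(abs_lt.mp habs).2]
  have hnK : ‖K‖ ^ 2 = K.re ^ 2 + K.im ^ 2 := by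
    rw [← Complex.normSq_eq_norm_sq, Complex.normSq_apply]; ring
  -- the main inequality
  have main : 10 * r ^ 2 * ‖K‖ ^ 2 < (3 * K.re - K.im) ^ 2 := by
    have h1 : (3 * K.re - K.im) ^ 2 * ‖β‖ ^ 2 =
        (2 * Real.pi * δ) * (5 * ‖β‖ + 4 * (-h.im) - 3 * (1 - h.re)) := by
      linear_combination 5 * q1 + 4 * q2 - 3 * q3
    have h2 : 10 * r ^ 2 * ‖K‖ ^ 2 * ‖β‖ ^ 2 = (2 * Real.pi * δ) * (10 * r ^ 2 * ‖β‖) := by
      rw [hnK]; linear_combination 10 * r ^ 2 * q1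
    have h3 : 10 * r ^ 2 * ‖β‖ < 5 * ‖β‖ + 4 * (-h.im) - 3 * (1 - h.re) := by
      rw [b3]; nlinarith
    have h4 := mul_lt_mul_of_pos_left h3 hT
    rw [← h1, ← h2] at h4
    exact lt_of_mul_lt_mul_right h4 (by positivity)
  have hrK : (√10 * (r * ‖K‖)) ^ 2 < (3 * K.re - K.im) ^ 2 := by
    rw [mul_pow, Real.sq_sqrt (by norm_num)]
    linarith
  have hlt : √10 * (r * ‖K‖) < 3 * K.re - K.im := by
    have := (sq_lt_sq.mp hrK)
    rw [abs_of_pos hpos] at this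
    exact (le_abs_self _).trans_lt this
  have e1 : ((1 - 3 * I) * J).im = -(3 * K.re - K.im) + ((1 - 3 * I) * (J - K)).im := by
    have : (1 - 3 * I) * J = (1 - 3 * I) * K + (1 - 3 * I) * (J - K) := by ring
    rw [this, Complex.add_im]
    congr 1
    simp [Complex.mul_im]
    ring
  have e2 : |((1 - 3 * I) * (J - K)).im| ≤ √10 * (r * ‖K‖) := by
    refine (Complex.abs_im_le_norm _).trans ?_
    rw [norm_mul]
    have : ‖(1 - 3 * I : ℂ)‖ = √10 := by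
      rw [Complex.norm_def, Complex.normSq_apply]; norm_num
    rw [this]
    exact mul_le_mul_of_nonneg_left hJ (Real.sqrt_nonneg _)
  rw [e1]
  linarith [(abs_le.mp e2).2]

/-- the right cone -/
theorem coneR {δ : ℝ} (hδ : 0 < δ) {h : ℂ} (hh : 0 < h.im) (hq : 0 < qp h) {r : ℝ}
    (hc : 4 / 5 * h.im - 3 / 5 * (h.re - 1) < (1 - 2 * r ^ 2) * ‖1 - h‖) {J : ℂ}
    (hJ : ‖J - jR δ h‖ ≤ r * ‖jR δ h‖) : 0 < ((1 - 3 * I) * J).im := by
  set β : ℂ := I * (1 - h) with hβ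
  have b1 : β.re = h.im := by rw [hβ]; simp
  have b2 : β.im = 1 - h.re := by rw [hβ]; simp
  have b3 : ‖β‖ = ‖1 - h‖ := by rw [hβ, norm_mul, Complex.norm_I, one_mul]
  have hβ0 : 0 < β.re := by rw [b1]; linarith
  have hT : 0 < 2 * Real.pi * δ := by have := Real.pi_pos; positivity
  set K : ℂ := (2 * Real.pi * δ / (I * (1 - h))) ^ (1 / 2 : ℂ) with hK
  have hjK : jR δ h = I * K := rfl
  have hK2 : K ^ 2 = ((2 * Real.pi * δ : ℝ) : ℂ) / β := by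
    rw [hK, cpow_half_sq]; push_cast; rfl
  have hKre : 0 < K.re := by
    rw [hK]
    refine cpow_half_re ?_
    have e : (2 * Real.pi * δ / (I * (1 - h)) : ℂ) = ((2 * Real.pi * δ : ℝ) : ℂ) * β⁻¹ := by
      rw [hβ]; push_cast; rw [div_eq_mul_inv]
    rw [e, Complex.re_ofReal_mul, Complex.inv_re]
    have hn : 0 < Complex.normSq β := Complex.normSq_pos.mpr (by rintro h0; rw [h0] at hβ0; simp at hβ0)
    positivity
  obtain ⟨q1, q2, q3⟩ := sq_parts hT hβ0 hK2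
  have hβn : 0 < ‖β‖ := norm_pos_iff.mpr (by rintro h0; rw [h0] at hβ0; simp at hβ0)
  rw [b1] at q2
  rw [b2] at q3
  have hsq : K.im ^ 2 < K.re ^ 2 := by
    have h1 : 0 < (K.re ^ 2 - K.im ^ 2) * ‖β‖ ^ 2 := by rw [q2]; positivity
    have h2 := (pos_iff_pos_of_mul_pos h1).mpr (by positivity)
    linarith
  have hqq : √3 * (1 - h.re) < h.im := by
    unfold qp at hq
    linarith
  have hpos : 0 < K.re + 3 * K.im := by
    by_contra hcon
    push Not at hcon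
    have hy : K.im < 0 := by linarith
    have hs3 : 1.7 < √3 := by
      rw [show (1.7 : ℝ) = √(1.7 ^ 2) by rw [Real.sqrt_sq (by norm_num)]]
      exact Real.sqrt_lt_sqrt (by norm_num) (by norm_num)
    -- `(1 - a)(x² - y²) = -2xy s`
    have h1 : (1 - h.re) * (K.re ^ 2 - K.im ^ 2) = -(2 * K.re * K.im) * h.im := by
      have h2 : ((1 - h.re) * (K.re ^ 2 - K.im ^ 2)) * ‖β‖ ^ 2 = (-(2 * K.re * K.im) * h.im) * ‖β‖ ^ 2 := by
        linear_combination (1 - h.re) * q2 + h.im * q3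
      exact mul_right_cancel₀ (by positivity) h2
    have hD : 0 < K.re ^ 2 - K.im ^ 2 := by linarith
    have h3 : √3 * (1 - h.re) * (K.re ^ 2 - K.im ^ 2) < h.im * (K.re ^ 2 - K.im ^ 2) :=
      mul_lt_mul_of_pos_right hqq hD
    have h4 : √3 * (-(2 * K.re * K.im) * h.im) < h.im * (K.re ^ 2 - K.im ^ 2) := by
      rw [← h1]; linarith
    have h5 : √3 * (-(2 * K.re * K.im)) < K.re ^ 2 - K.im ^ 2 := by
      have : h.im * (√3 * (-(2 * K.re * K.im))) < h.im * (K.re ^ 2 - K.im ^ 2) := by linarith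
      exact lt_of_mul_lt_mul_left this hh.le
    have h6 : 2 / 3 * K.re ^ 2 ≤ -(2 * K.re * K.im) := by nlinarith
    have h7 : 1.7 * (2 / 3 * K.re ^ 2) ≤ √3 * (-(2 * K.re * K.im)) :=
      mul_le_mul hs3.le h6 (by positivity) (by positivity)
    nlinarith [sq_nonneg K.im, sq_pos_of_pos hKre]
  have hnK : ‖K‖ ^ 2 = K.re ^ 2 + K.im ^ 2 := by
    rw [← Complex.normSq_eq_norm_sq, Complex.normSq_apply]; ring
  have main : 10 * r ^ 2 * ‖K‖ ^ 2 < (K.re + 3 * K.im) ^ 2 := by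
    have h1 : (K.re + 3 * K.im) ^ 2 * ‖β‖ ^ 2 =
        (2 * Real.pi * δ) * (5 * ‖β‖ - 4 * h.im + 3 * (h.re - 1)) := by
      linear_combination 5 * q1 - 4 * q2 + 3 * q3
    have h2 : 10 * r ^ 2 * ‖K‖ ^ 2 * ‖β‖ ^ 2 = (2 * Real.pi * δ) * (10 * r ^ 2 * ‖β‖) := by
      rw [hnK]; linear_combination 10 * r ^ 2 * q1
    have h3 : 10 * r ^ 2 * ‖β‖ < 5 * ‖β‖ - 4 * h.im + 3 * (h.re - 1) := by
      rw [b3]; nlinarith
    have h4 := mul_lt_mul_of_pos_left h3 hT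
    rw [← h1, ← h2] at h4
    exact lt_of_mul_lt_mul_right h4 (by positivity)
  have hrK : (√10 * (r * ‖K‖)) ^ 2 < (K.re + 3 * K.im) ^ 2 := by
    rw [mul_pow, Real.sq_sqrt (by norm_num)]
    linarith
  have hlt : √10 * (r * ‖K‖) < K.re + 3 * K.im := by
    have := (sq_lt_sq.mp hrK)
    rw [abs_of_pos hpos] at this
    exact (le_abs_self _).trans_lt this
  rw [hjK] at hJ
  have e1 : ((1 - 3 * I) * J).im = (K.re + 3 * K.im) + ((1 - 3 * I) * (J - I * K)).im := by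
    have : (1 - 3 * I) * J = (1 - 3 * I) * (I * K) + (1 - 3 * I) * (J - I * K) := by ring
    rw [this, Complex.add_im]
    congr 1
    simp [Complex.mul_im, Complex.mul_re]
  have e2 : |((1 - 3 * I) * (J - I * K)).im| ≤ √10 * (r * ‖K‖) := by
    refine (Complex.abs_im_le_norm _).trans ?_
    rw [norm_mul]
    have h1 : ‖(1 - 3 * I : ℂ)‖ = √10 := by
      rw [Complex.norm_def, Complex.normSq_apply]; norm_num
    have h2 : ‖I * K‖ = ‖K‖ := by rw [norm_mul, Complex.norm_I, one_mul]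
    rw [h1]
    rw [h2] at hJ
    exact mul_le_mul_of_nonneg_left hJ (Real.sqrt_nonneg _)
  rw [e1]
  linarith [(abs_le.mp e2).1]

theorem inner_ne (hD : RepData L R L1 R1) (hl : LineHyp) {δ : ℝ} (hδ : 0 < δ) (hδ2 : δ ≤ 2 / 25) {p : ℂ}
    (hp : p ∈ DT) (hc : PtCond p δ) (hB : (Bp p).re = -(Real.pi * δ)) (hs : CondI p δ) :
    L δ ‖wmap p‖ (psiP p) + R δ ‖wmap p‖ (psiP p) ≠ 0 := by
  obtain ⟨⟨e1, -⟩, e2, -⟩ := links hD hδ hp hc.x54
  obtain ⟨h1, h2, -, -, -, -⟩ := sizes hl hδ hδ2 hp hc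
  have hS := DT_sub hp
  intro h0
  rw [e1, e2, kS_ratio (DT_re hp)] at h0
  have hK := kS_ne_zero δ (psiP p) (hR p)
  have hδC : (δ : ℂ) ≠ 0 := by exact_mod_cast hδ.ne'
  have hexp : cexp (-(I / δ * Bp p)) = -((Real.exp ((Bp p).im / δ) : ℝ) : ℂ) := by
    have h3 : -(I / δ * Bp p) = (((Bp p).im / δ : ℝ) : ℂ) + Real.pi * I := by
      have h4 : Bp p = ((-(Real.pi * δ) : ℝ) : ℂ) + (((Bp p).im : ℝ) : ℂ) * I := by
        conv_lhs => rw [← Complex.re_add_im (Bp p), hB]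
      conv_lhs => rw [h4]
      push_cast
      field_simp
      ring_nf
      rw [Complex.I_sq]
      ring
    rw [h3, Complex.exp_add, Complex.exp_pi_mul_I, Complex.ofReal_exp]
    ring
  rw [hexp] at h0
  set E : ℝ := Real.exp ((Bp p).im / δ) with hE
  have hE0 : 0 < E := Real.exp_pos _
  have h5 : JR δ (hR p) = (E : ℂ) * JL δ (hL p) := by
    have : kS δ (psiP p) (hR p) * (JR δ (hR p) - (E : ℂ) * JL δ (hL p)) = 0 := by
      linear_combination h0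
    rcases mul_eq_zero.mp this with h6 | h6
    · exact (hK h6).elim
    · linear_combination h6
  have c1 := coneL hδ (hL_im_neg hS) hs.1 h1
  have c2 := coneR hδ (hR_im_pos hS) hc.qpos hs.2 h2
  have h6 : ((1 - 3 * I) * JR δ (hR p)).im = E * ((1 - 3 * I) * JL δ (hL p)).im := by
    rw [h5]
    have : (1 - 3 * I) * ((E : ℂ) * JL δ (hL p)) = (E : ℂ) * ((1 - 3 * I) * JL δ (hL p)) := by ring
    rw [this, Complex.im_ofReal_mul]
  rw [h6] at c2
  have := mul_neg_of_pos_of_neg hE0 c1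
  linarith


/-! ### (W1) -/

theorem w1 (hD : RepData L R L1 R1) (hl : LineHyp) {δ : ℝ} (hδ : 0 < δ) (hδ2 : δ ≤ 2 / 25) {p : ℂ}
    (hp : p ∈ DT) (hc : PtCond p δ) :
    L δ ‖wmap p‖ (psiP p) ≠ 0 ∧ R δ ‖wmap p‖ (psiP p) ≠ 0 ∧
    0 < (R1 δ ‖wmap p‖ (psiP p) / R δ ‖wmap p‖ (psiP p)).re -
      (L1 δ ‖wmap p‖ (psiP p) / L δ ‖wmap p‖ (psiP p)).re := by
  obtain ⟨⟨e1, e2⟩, e3, e4⟩ := links hD hδ hp hc.x54
  obtain ⟨-, -, -, -, h1, h2⟩ := sizes hl hδ hδ2 hp hc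
  have hS := DT_sub hp
  have kL := kS_ne_zero δ (psiP p) (hL p)
  have kR := kS_ne_zero δ (psiP p) (hR p)
  refine ⟨by rw [e1]; exact mul_ne_zero kL h1, by rw [e3]; exact mul_ne_zero kR h2, ?_⟩
  refine deriv_pos e1 e2 e3 e4 h1 h2 (hl.L1 δ _ hδ (hL_im_neg hS) hc.lamL hc.relL1)
    (hl.R1 δ _ hδ hδ2 (hR_im_pos hS) hc.xs hc.x54 hc.s5a hc.a97 hc.qpos hc.relR1) ?_
  rw [hRL (DT_re hp)]
  exact hc.sum

/-- a zero at a point of the window -/
theorem zero_at (hD : RepData L R L1 R1) {δ : ℝ} (hδ : 0 < δ) {p : ℂ} (hp : p ∈ DT)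
    (h0 : F (qa δ) (zmap δ (wmap p)) = 0) : L δ ‖wmap p‖ (psiP p) + R δ ‖wmap p‖ (psiP p) = 0 := by
  refine (zero_iff hD hδ (rho_pos hp)).mp ?_
  rw [w_eq hp]
  exact h0

theorem Gf_zero {δ ρ ψ : ℝ} (h : L δ ρ ψ + R δ ρ ψ = 0) : Gf L R δ ρ ψ = 0 := by
  have h1 : L δ ρ ψ = -R δ ρ ψ := by linear_combination h
  unfold Gf
  rw [h1, norm_neg, sub_self]

/-- The level-curve hypotheses -/
theorem lvHyp (hN : TipNum) : LvHyp (2 / 5) (19 / 5) Uf := by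
  refine lvHyp_tip (fun p hp => (hN.G12 p hp).1) (fun p hp => ?_) (fun v h1 h2 => ?_)
    (fun p hp => hR_re_pos (DT_sub hp))
  · have := (hN.G12 p hp).2
    linarith
  · have hm := mem_Dtip (by linarith : 0 < v) h2
    have := hN.G3 _ hm h1 (Uf_high h1)
    have e : Gp ⟨Uf v, v⟩ / ⟨Uf v, v⟩ * (11 / 50 + Complex.I) =
        Gp ⟨Uf v, v⟩ * (11 / 50 + Complex.I) / ⟨Uf v, v⟩ := by ring
    rw [e]
    exact this

/-- the monotonicity of Part I on `|w| = 1` -/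
def OneHyp (L R L1 R1 : ℝ → ℝ → ℝ → ℂ) : Prop :=
  ∀ δ : ℝ, 0 < δ → δ ≤ 2 / 25 → ∀ ψ ∈ Set.Icc (5 / 8 : ℝ) (5 / 8 + 2 * Real.pi),
    L δ 1 ψ ≠ 0 ∧ R δ 1 ψ ≠ 0 ∧ (L1 δ 1 ψ / L δ 1 ψ).re < (R1 δ 1 ψ / R δ 1 ψ).re

theorem side_point {g : ℝ → ℂ} (hg : Continuous g) (him : ∀ v, (g v).im = v)
    (hm : ∀ v, 0 < v → v ≤ 19 / 5 → g v ∈ DT)
    (htop : 1 < ‖wmap (g (19 / 5))‖) (h0 : g 0 = 0) : ∃ v, 0 < v ∧ v ≤ 19 / 5 ∧ ‖wmap (g v)‖ = 1 := by
  -- near `0` the modulus is near `1/e`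
  have h1 : Filter.Tendsto (fun v : ℝ => wmap (g v)) (nhdsWithin 0 (Set.Ioi 0)) (nhds (1 * cexp (-1))) := by
    have h2 : Filter.Tendsto g (nhdsWithin 0 (Set.Ioi 0)) (nhdsWithin 0 {0}ᶜ) := by
      refine tendsto_nhdsWithin_iff.2 ⟨?_, ?_⟩
      · have := hg.tendsto 0
        rw [h0] at this
        exact this.mono_left nhdsWithin_le_nhds
      · filter_upwards [self_mem_nhdsWithin] with v hv h3
        have h4 : (g v).im = 0 := by
          have : g v = 0 := h3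
          rw [this]; simp
        rw [him] at h4
        exact (ne_of_gt (show 0 < v from hv)) h4
    have h3 := tendsto_hL_zero.comp h2
    have h4 : Filter.Tendsto (fun v : ℝ => cexp (-(hL (g v)))) (nhdsWithin 0 (Set.Ioi 0))
        (nhds (cexp (-1))) := (Complex.continuous_exp.tendsto _).comp h3.neg
    exact h3.mul h4
  have h2 := h1.norm
  rw [one_mul, Complex.norm_exp] at h2
  have h3 : Real.exp ((-1 : ℂ).re) < 1 := by
    rw [Real.exp_lt_one_iff]; simp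
  have h4 := h2.eventually (gt_mem_nhds h3)
  have h5 : ∀ᶠ u : ℝ in nhdsWithin 0 (Set.Ioi 0), u ∈ Set.Ioo (0 : ℝ) (19 / 5) :=
    Ioo_mem_nhdsGT (by norm_num)
  obtain ⟨u, hu1, hu2⟩ := (h4.and h5).exists
  have h6 : ContinuousOn (fun v : ℝ => ‖wmap (g v)‖) (Set.Icc u (19 / 5)) := by
    intro v hv
    have hv0 : 0 < v := hu2.1.trans_le hv.1
    have h7 := continuousAt_wmap (DT_re (hm v hv0 hv.2))
    exact ((h7.comp_of_eq hg.continuousAt rfl).norm).continuousWithinAt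
  obtain ⟨v, hv, hv2⟩ := intermediate_value_Ioo hu2.2.le h6 ⟨hu1, htop⟩
  exact ⟨v, hu2.1.trans hv.1, hv.2.le, hv2⟩

/-- (W3) -/
theorem w3 (hD : RepData L R L1 R1) (hl : LineHyp) (hN : TipNum) (h1 : OneHyp L R L1 R1)
    {δ : ℝ} (hδ : 0 < δ) (hδ2 : δ ≤ 2 / 25) {w : ℂ} (hz : Zr δ w) (hw : ‖w‖ = 1) :
    w ∈ wmap '' PT δ := by
  have hpi := Real.pi_pos
  have H := lvHyp hN
  -- the left point
  obtain ⟨vl, vl0, vl1, hvl⟩ := side_point (g := fun v : ℝ => ((2 / 5 * v : ℝ) : ℂ) + (v : ℂ) * I)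
    (by fun_prop) (fun v => by simp)
    (fun v h2 h3 => ⟨by simpa using h2, by simpa using h3, by simp, by simpa using Uf_ge h2 h3⟩)
    (hN.G4 _ ⟨by simp, by simp, by simp, by simpa using Uf_ge (by norm_num) le_rfl⟩ (by simp))
    (by simp)
  set pl : ℂ := ((2 / 5 * vl : ℝ) : ℂ) + (vl : ℂ) * I with hpl
  have plre : pl.re = 2 / 5 * vl := by rw [hpl]; simp
  have plim : pl.im = vl := by rw [hpl]; simp
  have plD : pl ∈ DT := ⟨by rw [plim]; exact vl0, by rw [plim]; exact vl1, by rw [plim, plre],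
    by rw [plim, plre]; exact Uf_ge vl0 vl1⟩
  obtain ⟨plB, plψ'⟩ := hN.W3 pl plD (by rw [plre, plim]) hvl
  have plψ : 5 / 8 < psiP pl := by linarith
  have plP : pl ∈ PT δ := by
    refine ⟨plD, plB.trans ?_, hvl.le⟩
    nlinarith
  -- the right point
  obtain ⟨vr, vr0, vr1, hvr⟩ := side_point (g := fun v : ℝ => ((Uf v : ℝ) : ℂ) + (v : ℂ) * I)
    (by have := Uf_cont; fun_prop) (fun v => by simp)
    (fun v h2 h3 => ⟨by simpa using h2, by simpa using h3, by simpa using Uf_ge h2 h3, by simp⟩)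
    (hN.G4 _ ⟨by simp, by simp, by simpa using Uf_ge (by norm_num) le_rfl, by simp⟩ (by simp))
    (by
      have h0 : Uf 0 = 0 := by rw [Uf_low (by norm_num)]; norm_num
      simp [h0])
  set pr : ℂ := ((Uf vr : ℝ) : ℂ) + (vr : ℂ) * I with hpr
  have prre : pr.re = Uf vr := by rw [hpr]; simp
  have prim : pr.im = vr := by rw [hpr]; simp
  have prD : pr ∈ DT := ⟨by rw [prim]; exact vr0, by rw [prim]; exact vr1,
    by rw [prim, prre]; exact Uf_ge vr0 vr1, by rw [prim, prre]⟩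
  have prψ : psiP pr < 5 / 8 + 2 * Real.pi := by
    have hS := DT_sub prD
    have a1 := (arg_pos_of (hR_im_pos hS) (hR_re_pos hS)).1
    have a2 := hL_im_neg hS
    have a3 := congrArg Complex.im (hRL (DT_re prD))
    rw [Complex.sub_im, prim] at a3
    have a4 := Real.pi_gt_three
    unfold psiP
    linarith
  -- order
  have hlw : lw pl = lw pr := by unfold lw; rw [hvl, hvr]
  have him : pl.im ≤ pr.im := by
    by_contra hcon
    push Not at hcon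
    rw [plim, prim] at hcon
    have h2 := H.lw_left vr0 hcon vl1
    have h3 : lw pr ≤ lw ⟨2 / 5 * vr, vr⟩ := by
      have hqD : (⟨2 / 5 * vr, vr⟩ : ℂ) ∈ DT := ⟨vr0, vr1, le_rfl, Uf_ge vr0 vr1⟩
      rcases (Uf_ge vr0 vr1).lt_or_eq with h4 | h4
      · exact (H.lw_horizontal hqD prD (by rw [prim]) (by rw [prre]; exact h4)).le
      · have : pr = ⟨2 / 5 * vr, vr⟩ := by
          apply Complex.ext
          · rw [prre, ← h4]
          · rw [prim]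
        rw [this]
    have h5 : (⟨2 / 5 * vl, vl⟩ : ℂ) = pl := by
      apply Complex.ext
      · rw [plre]
      · rw [plim]
    rw [h5, hlw] at h2
    exact lt_irrefl _ (h3.trans_lt h2)
  have hre : pl.re ≤ pr.re := (H.level plD prD hlw him).1
  have prP : pr ∈ PT δ := ⟨prD, (H.B_lt plD prD hre him).trans plP.2.1, hvr.le⟩
  -- the values
  have cl := hN.P δ hδ hδ2 pl plP
  have cr := hN.P δ hδ hδ2 pr prP
  have Ll := left_lt hD hl hδ hδ2 plD cl.pt (cl.left (by rw [plre, plim]))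
  have Lr := right_lt hD hl hδ hδ2 prD cr.pt (cr.right (by rw [prre, prim]))
  obtain ⟨nl1, nl2, -⟩ := w1 hD hl hδ hδ2 plD cl.pt
  obtain ⟨nr1, nr2, -⟩ := w1 hD hl hδ hδ2 prD cr.pt
  have el : ‖wmap pl‖ = 1 := hvl
  have er : ‖wmap pr‖ = 1 := hvr
  rw [el] at Ll nl1 nl2
  rw [er] at Lr nr1 nr2
  have Gl : Gf L R δ 1 (psiP pl) < 0 := by
    unfold Gf
    have := Real.log_lt_log (norm_pos_iff.mpr nl1) Ll
    linarith
  have Gr : 0 < Gf L R δ 1 (psiP pr) := by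
    unfold Gf
    have := Real.log_lt_log (norm_pos_iff.mpr nr2) Lr
    linarith
  -- monotonicity on the circle
  have hmono : StrictMonoOn (Gf L R δ 1) (Set.Icc (5 / 8 : ℝ) (5 / 8 + 2 * Real.pi)) := by
    have hd : ∀ ψ ∈ Set.Icc (5 / 8 : ℝ) (5 / 8 + 2 * Real.pi), ∃ D, 0 < D ∧
        HasDerivAt (Gf L R δ 1) D ψ := by
      intro ψ hψ
      obtain ⟨a1, a2, a3⟩ := h1 δ hδ hδ2 ψ hψ
      exact ⟨_, div_pos (sub_pos.mpr a3) hδ, hasDerivAt_Gf hD hδ one_pos a1 a2⟩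
    refine strictMonoOn_of_deriv_pos (convex_Icc _ _) (fun ψ hψ => ?_) (fun ψ hψ => ?_)
    · obtain ⟨D, -, hD'⟩ := hd ψ hψ
      exact hD'.continuousAt.continuousWithinAt
    · obtain ⟨D, hD0, hD'⟩ := hd ψ (interior_subset hψ)
      rw [hD'.deriv]; exact hD0
  -- the angle of `w`
  obtain ⟨ψ, hψ, hψw⟩ : ∃ ψ ∈ Set.Ico (5 / 8 : ℝ) (5 / 8 + 2 * Real.pi), w = cexp (-(I * (ψ : ℝ))) := by
    have hT : (0 : ℝ) < 2 * Real.pi := by positivity
    refine ⟨toIcoMod hT (5 / 8) (-arg w), ?_, ?_⟩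
    · exact toIcoMod_mem_Ico hT (5 / 8) (-arg w)
    · have e1 := toIcoMod_add_toIcoDiv_zsmul hT (5 / 8) (-arg w)
      set n := toIcoDiv hT (5 / 8) (-arg w)
      set ψ := toIcoMod hT (5 / 8) (-arg w)
      have e2 : (ψ : ℝ) = -arg w - n * (2 * Real.pi) := by
        rw [zsmul_eq_mul] at e1
        linarith
      have e3 : w = cexp (arg w * I) := by
        have := Complex.norm_mul_exp_arg_mul_I w
        rw [hw, Complex.ofReal_one, one_mul] at this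
        exact this.symm
      conv_lhs => rw [e3]
      rw [e2]
      have e4 : -(I * ((-arg w - n * (2 * Real.pi) : ℝ) : ℂ)) = arg w * I + n * (2 * Real.pi * I) := by
        push_cast; ring
      rw [e4, Complex.exp_add, Complex.exp_int_mul_two_pi_mul_I, mul_one]
  have hψI : ψ ∈ Set.Icc (5 / 8 : ℝ) (5 / 8 + 2 * Real.pi) := ⟨hψ.1, hψ.2.le⟩
  have hzero : Gf L R δ 1 ψ = 0 := by
    refine Gf_zero ((zero_iff hD hδ one_pos).mp ?_)
    rw [Complex.ofReal_one, one_mul, ← hψw]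
    exact hz.2.2
  -- position
  have hψl : psiP pl < ψ := by
    by_contra hcon
    push Not at hcon
    have hlI : psiP pl ∈ Set.Icc (5 / 8 : ℝ) (5 / 8 + 2 * Real.pi) := by
      refine ⟨plψ.le, ?_⟩
      have hS := DT_sub plD
      rcases him.lt_or_eq with h2 | h2
      · exact ((H.psi_lt plD prD hre h2).trans prψ).le
      · have h3 : pl = pr := by
          apply Complex.ext _ h2
          by_contra hne
          have h4 : pl.re < pr.re := lt_of_le_of_ne hre hne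
          have h5 := H.lw_horizontal plD prD h2 h4
          rw [hlw] at h5
          exact lt_irrefl _ h5
        rw [h3]; exact prψ.le
    have := hmono.monotoneOn hψI hlI hcon
    linarith
  have hψr : ψ < psiP pr := by
    by_contra hcon
    push Not at hcon
    have hrI : psiP pr ∈ Set.Icc (5 / 8 : ℝ) (5 / 8 + 2 * Real.pi) := by
      refine ⟨?_, prψ.le⟩
      rcases him.lt_or_eq with h2 | h2
      · exact (plψ.trans (H.psi_lt plD prD hre h2)).le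
      · have h3 : pl = pr := by
          apply Complex.ext _ h2
          by_contra hne
          have h4 : pl.re < pr.re := lt_of_le_of_ne hre hne
          have h5 := H.lw_horizontal plD prD h2 h4
          rw [hlw] at h5
          exact lt_irrefl _ h5
        rw [← h3]; exact plψ.le
    have := hmono.monotoneOn hrI hψI hcon
    linarith
  obtain ⟨p, hp, hpw, hpψ⟩ := H.level_window plP prD (by rw [el, er]) him ψ ⟨hψl.le, hψr.le⟩
  refine ⟨p, hp, ?_⟩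
  rw [← w_eq hp.1, hpw, el, hpψ, Complex.ofReal_one, one_mul]
  exact hψw.symm

/-- **The tip.** -/
theorem dist_tip_of (hD : RepData L R L1 R1) (hl : LineHyp) (hN : TipNum) (h1 : OneHyp L R L1 R1)
    (h4 : ∀ w, Zr (2 / 25) w → w ∈ wmap '' PT (2 / 25)) :
    ∀ α r : ℝ, 0 < α → α ≤ 2 / 25 → 0 < r → α * r ≤ 1 → SokalFU.Dist α r := by
  have hpi := Real.pi_pos
  have H := lvHyp hN
  have key := tip_top2 (k₁ := 2 / 5) (k₂ := 4 / 5) (V := 19 / 5) (δ₂ := 2 / 25) (U := Uf)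
    (by norm_num) (by norm_num) Uf_cont (fun v _ _ => Uf_le v) (fun p hp hV => hN.G4 p hp hV)
    (by norm_num)
    (fun δ hδ hδ2 p hp hz => by
      have hc := hN.P δ hδ hδ2 p hp
      have h0 := zero_at hD hδ hp.1 hz.2.2
      have hnorm : ‖L δ ‖wmap p‖ (psiP p)‖ = ‖R δ ‖wmap p‖ (psiP p)‖ := by
        have h1 : L δ ‖wmap p‖ (psiP p) = -R δ ‖wmap p‖ (psiP p) := by linear_combination h0
        rw [h1, norm_neg]
      refine ⟨lt_of_le_of_ne hp.1.2.2.1 fun h => ?_, lt_of_le_of_ne hp.1.2.2.2 fun h => ?_,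
        lt_of_le_of_ne hp.2.1 fun h => ?_⟩
      · exact (left_lt hD hl hδ hδ2 hp.1 hc.pt (hc.left h.symm)).ne hnorm
      · exact (right_lt hD hl hδ hδ2 hp.1 hc.pt (hc.right h)).ne hnorm.symm
      · exact inner_ne hD hl hδ hδ2 hp.1 hc.pt h (hc.inner h) h0)
    (fun δ hδ hδ2 w hz hw => w3 hD hl hN h1 hδ hδ2 hz hw) h4
  intro α r hα hα2 hr hαr
  have hwz : ∀ z : ℂ, ‖z‖ = r → ‖wz α z‖ = α * r := by
    intro z hz
    unfold wz
    have e1 : Complex.exp (-(I * α / 2)) = cexp (((-(α / 2) : ℝ) : ℂ) * I) := by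
      congr 1; push_cast; ring
    rw [e1, norm_mul, norm_mul, norm_mul, Complex.norm_exp_ofReal_mul_I, Complex.norm_I,
      Complex.norm_real, Real.norm_of_nonneg hα.le, hz]
    ring
  have hzr : ∀ z : ℂ, ‖z‖ = r → F (qa α) z = 0 → Zr α (wz α z) := by
    intro z hz h0
    refine ⟨by rw [hwz z hz]; positivity, by rw [hwz z hz]; exact hαr, ?_⟩
    rw [zmap_wz hα.ne']; exact h0
  intro z hz h0
  obtain ⟨p, hp, hpw⟩ := key α hα hα2 _ (hzr z hz h0)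
  have hc := hN.P α hα hα2 p hp
  have hL0 := zero_at hD hα hp.1 (by rw [hpw, zmap_wz hα.ne']; exact h0)
  obtain ⟨n1, n2, n3⟩ := w1 hD hl hα hα2 hp.1 hc.pt
  refine ⟨?_, fun z' hz' h0' => ?_⟩
  · have := simple_of hD hα (rho_pos hp.1) n1 hL0 n3.ne'
    rw [w_eq hp.1, hpw, zmap_wz hα.ne'] at this
    exact this
  · obtain ⟨p', hp', hpw'⟩ := key α hα hα2 _ (hzr z' hz' h0')
    have hL0' := zero_at hD hα hp'.1 (by rw [hpw', zmap_wz hα.ne']; exact h0')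
    have e : p' = p := by
      refine H.arc_inj (δ := α) (G := Gf L R α) (fun q hq => ?_) hp' hp ?_ (Gf_zero hL0') (Gf_zero hL0)
      · have hcq := hN.P α hα hα2 q hq
        obtain ⟨m1, m2, m3⟩ := w1 hD hl hα hα2 hq.1 hcq.pt
        exact ⟨_, div_pos m3 hα, hasDerivAt_Gf hD hα (rho_pos hq.1) m1 m2⟩
      · rw [hpw, hpw', hwz z hz, hwz z' hz']
    have e2 : wz α z' = wz α z := by rw [← hpw, ← hpw', e]
    have e3 := congrArg (zmap α) e2
    rwa [zmap_wz hα.ne', zmap_wz hα.ne'] at e3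

end SokalTI
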