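import Pool.Agent.Lib_MP_af4de1_ti.LineL
import Pool.Agent.Lib_MP_af4de1_ti.LineR
import Pool.Agent.Lib_MP_af4de1_ti.Top

/-!
# `LineHyp` (Lemma L and Lemma R)
-/

set_option autoImplicit false

namespace SokalTI

open Complex

theorem lineHyp : LineHyp where
  L := fun δ h hδ hs hl => JL_bound hδ hs (by rwa [le_div_iff₀ hδ])
  L1 := fun δ h hδ hs hl hr => JL1_bound hδ hs (by rwa [le_div_iff₀ hδ]) hr
  R := fun δ h hδ hδ2 hs hx hx2 _ ha hq => JR_bound hδ hδ2 ha hs hx hx2 hq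
  R1 := fun δ h hδ hδ2 hs hx hx2 _ ha hq hr => JR1_bound hδ hδ2 ha hs hx hx2 hq hr

end SokalTI
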