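import Pool.Agent.Lib_MP_af4de1_ti.Link
import Pool.Agent.Lib_MP_af4de1_fu.MRep
import Pool.Agent.Lib_MP_af4de1_fu.MDer
import Pool.Agent.Lib_MP_af4de1_fu.AdmK

/-!
# The representation data of the tip: `SL`, `SR` satisfy `RepData`
-/

set_option autoImplicit false

namespace SokalTI

open Complex SokalFU SokalF SokalFW MeasureTheory Set

theorem SL_eq_Lw {ρ δ : ℝ} (hρ : 0 < ρ) (hδ : 0 < δ) (ψ : ℝ) (j : ℕ) :
    SL ρ δ ψ j = Lw (kj ρ δ ψ j) := by
  obtain ⟨P, hP⟩ := exists_prim ρ δ ψ j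
  have hb : BDir ψ (1 - I) (1 + I) := by
    have := BDir_slope (ψ := ψ) one_pos (1 - I)
    simpa using this
  rw [(Adm_kj ρ δ ψ j).Lw_eq hδ hρ hP hb (g1 := 1 - I) (by simp; linarith [Real.pi_gt_three])
    (by simp)]
  unfold SL
  rw [ray_IV, ray_IB]
  ring

theorem SR_eq_Rw {ρ δ : ℝ} (hρ : 0 < ρ) (hδ : 0 < δ) (ψ : ℝ) (j : ℕ) :
    SR ρ δ ψ j = Rw (kj ρ δ ψ j) := by
  obtain ⟨P, hP⟩ := exists_prim ρ δ ψ j
  rw [(Adm_kj ρ δ ψ j).Rw_eq hδ hρ hP (g0 := 1 - I) (g1 := 1 - I) (by simp)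
    (by simp; linarith [Real.pi_gt_three]) (by simp)]
  unfold SR
  rw [ray_IV, ray_IT]
  ring

/-- `F = L + R` with one constant for each `δ`. -/
theorem rep_F_const {δ : ℝ} (hδ : 0 < δ) : ∃ C : ℂ, C ≠ 0 ∧ ∀ ρ ψ : ℝ, 0 < ρ →
    F (qa δ) (zp ρ δ ψ) * C =
      cexp (-(ψ ^ 2 / (2 * δ)) * I) * (SL ρ δ ψ 0 + SR ρ δ ψ 0) := by
  have hδ' : (δ : ℂ) ≠ 0 := by exact_mod_cast hδ.ne'
  have ht0 : (-(δ * I) : ℂ) ≠ 0 := neg_ne_zero.2 (mul_ne_zero hδ' I_ne_zero)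
  have htre : 0 ≤ (-(δ * I) : ℂ).re := by simp
  have htim : (-(δ * I) : ℂ).im ≤ 0 := by simp [hδ.le]
  refine ⟨(2 * Real.pi * (-(δ * I))) ^ (1 / 2 : ℂ) * I, mul_ne_zero ?_ I_ne_zero,
    fun ρ ψ hρ => ?_⟩
  · intro h
    rw [cpow_eq_zero_iff] at h
    have hpi : (Real.pi : ℂ) ≠ 0 := by exact_mod_cast Real.pi_ne_zero
    exact (mul_ne_zero (mul_ne_zero two_ne_zero hpi) ht0) h.1
  obtain ⟨P, hP⟩ := exists_prim ρ δ ψ 0
  have hkey : ∀ H : ℂ, cexp (SokalV.Ph (-(ρ * cexp (-(ψ * I)))) H / (-(δ * I))) =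
      cexp (-(ψ ^ 2 / (2 * δ)) * I) * kj ρ δ ψ 0 (H - ψ * I) := by
    intro H
    unfold kj kk SokalV.Ph
    rw [pow_zero, one_mul, ← Complex.exp_add]
    congr 1
    have h1 : cexp (-(ψ * I)) * cexp H = cexp (H - ψ * I) := by
      rw [← Complex.exp_add]; congr 1; ring
    have h2 : H ^ 2 / 2 + -(ρ * cexp (-(ψ * I))) * cexp H =
        H ^ 2 / 2 - ρ * cexp (H - ψ * I) := by
      rw [← h1]; ring
    rw [h2]
    have h3 : ∀ x : ℂ, x / (-(δ * I)) = I / δ * x := by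
      intro x
      field_simp
      rw [I_sq]
      ring
    rw [h3]
    field_simp
    ring_nf
    rw [I_pow_three, I_sq]
    ring
  have hP' : ∀ H, HasDerivAt (fun H => cexp (-(ψ ^ 2 / (2 * δ)) * I) * P (H - ψ * I))
      (cexp (SokalV.Ph (-(ρ * cexp (-(ψ * I)))) H / (-(δ * I)))) H := by
    intro H
    rw [hkey H]
    have h1 : HasDerivAt (fun H : ℂ => H - ψ * I) 1 H := (hasDerivAt_id H).sub_const _
    have h2 := (hP (H - ψ * I)).comp H h1
    rw [mul_one] at h2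
    exact h2.const_mul _
  have hrep := SokalV.rep_E ht0 htre htim 0 hP'
  have hz : (-(ρ * cexp (-(ψ * I)))) / (-(δ * I)) * cexp (-(-(δ * I)) / 2) = zp ρ δ ψ := by
    unfold zp
    have h1 : cexp ((δ / 2 - ψ) * I) = cexp (-(ψ * I)) * cexp (-(-(δ * I)) / 2) := by
      rw [← Complex.exp_add]; congr 1; ring
    rw [h1]
    field_simp
  have hE : SokalU.E (-(δ * I)) (zp ρ δ ψ) = F (qa δ) (zp ρ δ ψ) := by
    unfold SokalU.E qa
    rw [neg_neg]
  rw [hz, hE] at hrep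
  rw [← mul_assoc, hrep]
  have hup := end_up hρ hδ ψ 0 hP (p := 1 - ψ * I) (p' := 1 - I) (by simp) (by simp)
  have hve := end_vert hρ hδ ψ 0 hP (p := -1 - ψ * I) (by simp) (1 - I) (m := 1) one_pos
  have e1 : (∫ s in Ioi (0 : ℝ), cexp (SokalV.Ph (-(ρ * cexp (-(ψ * I)))) (1 + s * I) /
      (-(δ * I)))) * I = cexp (-(ψ ^ 2 / (2 * δ)) * I) * ray (kj ρ δ ψ 0) (1 - ψ * I) I := by
    unfold ray
    rw [← mul_assoc, ← integral_const_mul]
    congr 2
    funext s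
    rw [hkey]
    congr 2
    ring
  have e2 : (∫ s in Iio (-(0 : ℝ)), cexp (SokalV.Ph (-(ρ * cexp (-(ψ * I)))) (-1 + s * I) /
      (-(δ * I)))) * I = -(cexp (-(ψ ^ 2 / (2 * δ)) * I) *
        ray (kj ρ δ ψ 0) (-1 - ψ * I) (-I)) := by
    rw [← integral_Iic_eq_integral_Iio, ← integral_comp_neg_Ioi (0 : ℝ) (fun s : ℝ => cexp (SokalV.Ph (-(ρ * cexp (-(ψ * I))))
      (-1 + s * I) / (-(δ * I))))]
    unfold ray
    rw [← mul_assoc, ← integral_const_mul, mul_neg, neg_neg]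
    congr 2
    funext s
    rw [hkey]
    congr 2
    push_cast
    ring
  rw [e1, e2]
  rw [ofReal_one, one_mul] at hve
  have e3 : (1 : ℂ) + ((0 : ℝ) : ℂ) * I - ψ * I = 1 - ψ * I := by push_cast; ring
  have e4 : (-1 : ℂ) - ((0 : ℝ) : ℂ) * I - ψ * I = -1 - ψ * I := by push_cast; ring
  rw [e3, e4]
  unfold SL SR
  linear_combination cexp (-(ψ ^ 2 / (2 * δ)) * I) * (hup - hve)

theorem zmap_eq (ρ δ ψ : ℝ) : zmap δ (ρ * cexp (-(I * ψ))) = zp ρ δ ψ := by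
  unfold zmap zp
  have h1 : cexp ((δ / 2 - ψ) * I) = cexp (-(I * ψ)) * cexp (I * δ / 2) := by
    rw [← Complex.exp_add]; congr 1; ring
  rw [h1, div_mul_eq_mul_div, div_div]
  congr 1
  · ring
  · ring

/-- the value at the saddle point -/
theorem kk_kS {ρ δ ψ : ℝ} {h : ℂ} (h2 : ρ * cexp (h - ψ * I) = h) :
    kk ρ δ ψ (h - ψ * I) = kS δ ψ h := by
  unfold kk kS
  congr 1
  rw [h2]
  have hI : I * I = -1 := I_mul_I
  linear_combination (-(ψ * h / δ : ℂ) + ψ ^ 2 * I / (2 * δ)) * hI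

theorem saddle_eq {ρ ψ : ℝ} {h : ℂ} (hh : h * cexp (-h) = ρ * cexp (-(I * ψ))) :
    (ρ : ℂ) * cexp (h - ψ * I) = h := by
  have h1 : cexp (h - ψ * I) = cexp (-(I * ψ)) * cexp h := by
    rw [← Complex.exp_add]; congr 1; ring
  have h2 : cexp (-h) * cexp h = 1 := by rw [← Complex.exp_add]; simp
  rw [h1]
  linear_combination -(cexp h) * hh + h * h2

theorem kj0_saddle {ρ δ ψ : ℝ} {h : ℂ} (hh : h * cexp (-h) = ρ * cexp (-(I * ψ))) (v : ℂ) :
    kj ρ δ ψ 0 (h - ψ * I + v) = kS δ ψ h * cexp (Ev δ h v) := by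
  have h2 := saddle_eq hh
  have h3 := kk_saddle (δ := δ) (g := h - ψ * I) (h := h) (by ring) h2 v
  unfold kj
  rw [pow_zero, one_mul, h3, kk_kS h2]
  rfl

theorem kj1_saddle {ρ δ ψ : ℝ} {h : ℂ} (hh : h * cexp (-h) = ρ * cexp (-(I * ψ))) (v : ℂ) :
    kj ρ δ ψ 1 (h - ψ * I + v) = kS δ ψ h *
      ((h - I * ψ) * cexp (Ev δ h v) + v * cexp (Ev δ h v)) := by
  have h3 := kj0_saddle (δ := δ) hh v
  unfold kj at h3 ⊢
  rw [pow_zero, one_mul] at h3
  rw [pow_one, h3]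
  ring

theorem integrableOn_Iic_of_neg {f : ℝ → ℂ} (h : IntegrableOn (fun t => f (-t)) (Ioi 0)) :
    IntegrableOn f (Iic 0) := by
  rw [← Measure.map_neg_eq_self (volume : Measure ℝ)]
  let m : MeasurableEmbedding fun x : ℝ => -x := (Homeomorph.neg ℝ).measurableEmbedding
  rw [m.integrableOn_map_iff]
  simp_rw [Function.comp_def, neg_preimage, neg_Iic, neg_zero]
  exact Iff.mpr integrableOn_Ici_iff_integrableOn_Ioi h

/-- `L` along the horizontal line -/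
theorem Lw_line {δ ρ ψ : ℝ} {k : ℂ → ℂ} (hδ : 0 < δ) (hρ : 0 < ρ) (h : Adm δ ρ ψ k) {g : ℂ}
    (h1 : -Real.pi < g.im) (h2 : g.im < 0) (h3 : g.im + ψ < 0) :
    Integrable (fun u : ℝ => k (g + u)) ∧ Lw k = ∫ u : ℝ, k (g + u) := by
  obtain ⟨P, hP⟩ := h.prim
  have hb : BDir ψ g 1 := ⟨by simp, by simp, one_ne_zero, Or.inl (by simp), Or.inr h3⟩
  have i1 := h.iV hδ hρ h1 h2
  have i2 := h.iB hδ hρ hb
  have j1 : IntegrableOn (fun u : ℝ => k (g + u)) (Ioi 0) := by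
    simpa using i1
  have j2 : IntegrableOn (fun u : ℝ => k (g + u)) (Iic 0) := by
    apply integrableOn_Iic_of_neg
    have e : (fun t : ℝ => k (g + ((-t : ℝ) : ℂ))) = fun t : ℝ => k (g + t * (-1)) := by
      funext t
      congr 1
      push_cast
      ring
    rw [e]
    exact i2
  refine ⟨?_, ?_⟩
  · have := j2.union j1
    rwa [Iic_union_Ioi, integrableOn_univ] at this
  · rw [h.Lw_eq hδ hρ hP hb h1 h2, ← intervalIntegral.integral_Iic_add_Ioi j2 j1]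
    unfold IB IV
    have e1 : (∫ t in Ioi (0 : ℝ), k (g + t * (-1))) = ∫ t in Iic (0 : ℝ), k (g + t) := by
      have := integral_comp_neg_Ioi (0 : ℝ) (fun t : ℝ => k (g + t))
      rw [neg_zero] at this
      rw [← this]
      congr 1
      funext t
      congr 1
      push_cast
      ring
    rw [e1]
    simp

theorem et_reD : et.re = 1 / 2 := by
  unfold et
  rw [Complex.exp_re]
  simp

theorem et_imD : et.im = -(Real.sqrt 3 / 2) := by
  unfold et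
  rw [Complex.exp_im]
  simp

/-- `R` along the broken line of slope `-π/3` -/
theorem Rw_line {δ ρ ψ x : ℝ} {k : ℂ → ℂ} (hδ : 0 < δ) (hρ : 0 < ρ) (h : Adm δ ρ ψ k) {g : ℂ}
    (h0 : 0 < g.re) (h1 : g.im = x) (hx : 0 < x) (hx2 : x < Real.pi / 2) :
    IntegrableOn (fun y : ℝ => k (g + I * y)) (Ioi 0) ∧
    IntegrableOn (fun u : ℝ => k (g + (2 * x * et + u))) (Ioi 0) ∧
    Rw k = I * (∫ y in Ioi (0 : ℝ), k (g + I * y)) - et * (∫ t in (0 : ℝ)..(2 * x), k (g + t * et)) -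
      ∫ u in Ioi (0 : ℝ), k (g + (2 * x * et + u)) := by
  obtain ⟨P, hP⟩ := h.prim
  set g1 : ℂ := g + ((2 * x : ℝ) : ℂ) * et with hg1
  have him : g1.im = x - x * Real.sqrt 3 := by
    rw [hg1, add_im, im_ofReal_mul, et_imD, h1]
    ring
  have hs1 : 1 < Real.sqrt 3 := by
    rw [Real.lt_sqrt (by norm_num)]; norm_num
  have hs2 : Real.sqrt 3 < 2 := by
    rw [Real.sqrt_lt' (by norm_num)]; norm_num
  have h2 : -Real.pi < g1.im := by
    rw [him]; nlinarith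
  have h3 : g1.im < 0 := by
    rw [him]; nlinarith
  have i1 := h.iV hδ hρ h2 h3
  have i2 := h.iT hδ hρ h0
  have e2 : (fun y : ℝ => k (g + y * I)) = fun y : ℝ => k (g + I * y) := by
    funext y
    congr 1
    ring
  have e1 : (fun u : ℝ => k (g1 + u * 1)) = fun u : ℝ => k (g + (2 * x * et + u)) := by
    funext u
    congr 1
    rw [hg1]
    push_cast
    ring
  have hs := seg_int h.cont hP g et 0 (2 * x)
  rw [h.Rw_eq hδ hρ hP h0 h2 h3]
  unfold IT IV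
  rw [e1] at i1 ⊢
  rw [e2] at i2 ⊢
  refine ⟨i2, i1, ?_⟩
  rw [hs, ofReal_zero, zero_mul, add_zero, ← hg1]
  ring

theorem linkL {δ ρ ψ : ℝ} {h : ℂ} (hδ : 0 < δ) (hρ : 0 < ρ) (hh : h * cexp (-h) = ρ * cexp (-(I * ψ)))
    (h0 : h.im < 0) (h1 : -Real.pi < h.im - ψ) (h2 : h.im - ψ < 0) :
    SL ρ δ ψ 0 = kS δ ψ h * JL δ h ∧
    SL ρ δ ψ 1 = kS δ ψ h * ((h - I * ψ) * JL δ h + JL1 δ h) := by
  have him : (h - ψ * I : ℂ).im = h.im - ψ := by simp
  have a0 := Lw_line hδ hρ (Adm_kj ρ δ ψ 0) (g := h - ψ * I) (by rw [him]; exact h1)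
    (by rw [him]; exact h2) (by rw [him]; linarith)
  have a1 := Lw_line hδ hρ (Adm_kj ρ δ ψ 1) (g := h - ψ * I) (by rw [him]; exact h1)
    (by rw [him]; exact h2) (by rw [him]; linarith)
  have hk := kS_ne_zero δ ψ h
  have f0 : (fun u : ℝ => kj ρ δ ψ 0 (h - ψ * I + u)) = fun u : ℝ => kS δ ψ h * cexp (Ev δ h u) := by
    funext u
    exact kj0_saddle hh _
  have f1 : (fun u : ℝ => kj ρ δ ψ 1 (h - ψ * I + u)) = fun u : ℝ => kS δ ψ h *
      ((h - I * ψ) * cexp (Ev δ h u) + u * cexp (Ev δ h u)) := by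
    funext u
    exact kj1_saddle hh _
  rw [f0] at a0
  rw [f1] at a1
  have b0 : Integrable (fun u : ℝ => cexp (Ev δ h u)) := by
    have := a0.1.const_mul (kS δ ψ h)⁻¹
    simpa [← mul_assoc, inv_mul_cancel₀ hk] using this
  have b1 : Integrable (fun u : ℝ => (h - I * ψ) * cexp (Ev δ h u) + u * cexp (Ev δ h u)) := by
    have := a1.1.const_mul (kS δ ψ h)⁻¹
    have e : (fun u : ℝ => (kS δ ψ h)⁻¹ * (kS δ ψ h * ((h - I * ψ) * cexp (Ev δ h u) +
        u * cexp (Ev δ h u)))) = fun u : ℝ => (h - I * ψ) * cexp (Ev δ h u) + u * cexp (Ev δ h u) := by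
      funext u
      rw [← mul_assoc, inv_mul_cancel₀ hk, one_mul]
    rwa [e] at this
  have b2 : Integrable (fun u : ℝ => (u : ℂ) * cexp (Ev δ h u)) := by
    have := b1.sub (b0.const_mul (h - I * ψ))
    refine this.congr (Filter.Eventually.of_forall fun u => ?_)
    simp only [Pi.sub_apply]
    ring
  have hJ : JL δ h = ∫ u : ℝ, cexp (Ev δ h u) := by
    unfold JL JLw
    simp
  have hJ1 : JL1 δ h = ∫ u : ℝ, (u : ℂ) * cexp (Ev δ h u) := by
    unfold JL1 JLw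
    simp
  constructor
  · rw [SL_eq_Lw hρ hδ, a0.2, integral_const_mul, hJ]
  · rw [SL_eq_Lw hρ hδ, a1.2, integral_const_mul, integral_add (b0.const_mul _) b2,
      integral_const_mul, hJ, hJ1]

theorem linkR {δ ρ ψ : ℝ} {h : ℂ} (hδ : 0 < δ) (hρ : 0 < ρ) (hh : h * cexp (-h) = ρ * cexp (-(I * ψ)))
    (h0 : 0 < h.im) (h1 : 0 < h.re) (h2 : h.im - ψ = h.arg) :
    SR ρ δ ψ 0 = kS δ ψ h * JR δ h ∧
    SR ρ δ ψ 1 = kS δ ψ h * ((h - I * ψ) * JR δ h + JR1 δ h) := by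
  have him : (h - ψ * I : ℂ).im = h.arg := by rw [← h2]; simp
  have hre : (h - ψ * I : ℂ).re = h.re := by simp
  have hx : 0 < h.arg := by
    have h3 := Complex.arg_nonneg_iff.2 h0.le
    rcases h3.lt_or_eq with h4 | h4
    · exact h4
    · exfalso
      have := Complex.arg_eq_zero_iff.1 h4.symm
      linarith [this.2]
  have hx2 : h.arg < Real.pi / 2 := by
    have := Complex.abs_arg_lt_pi_div_two_iff.2 (Or.inl h1)
    exact (abs_lt.1 this).2
  set x := h.arg with hxd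
  have a0 := Rw_line hδ hρ (Adm_kj ρ δ ψ 0) (g := h - ψ * I) (by rw [hre]; exact h1) him hx hx2
  have a1 := Rw_line hδ hρ (Adm_kj ρ δ ψ 1) (g := h - ψ * I) (by rw [hre]; exact h1) him hx hx2
  have hk := kS_ne_zero δ ψ h
  simp only [kj0_saddle hh] at a0
  simp only [kj1_saddle hh] at a1
  obtain ⟨p1, p2, p3⟩ := a0
  obtain ⟨q1, q2, q3⟩ := a1
  have canc : ∀ {f : ℝ → ℂ} {s : Set ℝ}, IntegrableOn (fun u => kS δ ψ h * f u) s →
      IntegrableOn f s := by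
    intro f s hf
    have := hf.const_mul (kS δ ψ h)⁻¹
    refine IntegrableOn.congr_fun_ae this (Filter.Eventually.of_forall fun u => ?_)
    simp only
    rw [← mul_assoc, inv_mul_cancel₀ hk, one_mul]
  have sub1 : ∀ {f g : ℝ → ℂ} {s : Set ℝ}, IntegrableOn g s →
      IntegrableOn (fun u => (h - I * ψ) * g u + f u) s → IntegrableOn f s := by
    intro f g s hg hf
    have := hf.sub (hg.const_mul (h - I * ψ))
    refine IntegrableOn.congr_fun_ae this (Filter.Eventually.of_forall fun u => ?_)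
    simp only [Pi.sub_apply]
    ring
  have b1 := canc p1
  have b2 := canc p2
  have c1 := sub1 b1 (canc q1)
  have c2 := sub1 b2 (canc q2)
  have hE : Continuous (fun t : ℝ => cexp (Ev δ h (t * et))) := by
    unfold Ev gg
    fun_prop
  have b3 : IntervalIntegrable (fun t : ℝ => (h - I * ψ) * cexp (Ev δ h (t * et))) volume 0 (2 * x) :=
    (continuous_const.mul hE).intervalIntegrable _ _
  have c3 : IntervalIntegrable (fun t : ℝ => ((t : ℂ) * et) * cexp (Ev δ h (t * et))) volume 0 (2 * x) := by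
    apply Continuous.intervalIntegrable
    fun_prop
  have hJ : JR δ h = I * (∫ y in Ioi (0 : ℝ), cexp (Ev δ h (I * y))) -
      et * (∫ t in (0 : ℝ)..(2 * x), cexp (Ev δ h (t * et))) -
      ∫ u in Ioi (0 : ℝ), cexp (Ev δ h (2 * x * et + u)) := by
    unfold JR JRw
    simp only [one_mul, ← hxd]
  have hJ1 : JR1 δ h = I * (∫ y in Ioi (0 : ℝ), (I * y) * cexp (Ev δ h (I * y))) -
      et * (∫ t in (0 : ℝ)..(2 * x), (t * et) * cexp (Ev δ h (t * et))) -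
      ∫ u in Ioi (0 : ℝ), (2 * x * et + u) * cexp (Ev δ h (2 * x * et + u)) := by
    unfold JR1 JRw
    simp only [id, ← hxd]
  constructor
  · rw [SR_eq_Rw hρ hδ, p3, integral_const_mul, integral_const_mul,
      intervalIntegral.integral_const_mul, hJ]
    ring
  · rw [SR_eq_Rw hρ hδ, q3, integral_const_mul, integral_const_mul,
      intervalIntegral.integral_const_mul, integral_add (b1.const_mul _) c1,
      integral_add (b2.const_mul _) c2, intervalIntegral.integral_add b3 c3,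
      integral_const_mul, integral_const_mul, intervalIntegral.integral_const_mul, hJ, hJ1]
    ring

/-- The representation data. -/
theorem repData : RepData (fun δ ρ ψ => SL ρ δ ψ 0) (fun δ ρ ψ => SR ρ δ ψ 0)
    (fun δ ρ ψ => SL ρ δ ψ 1) (fun δ ρ ψ => SR ρ δ ψ 1) where
  rep := by
    intro δ ρ hδ hρ
    obtain ⟨C, hC, h⟩ := rep_F_const hδ
    refine ⟨C, hC, fun ψ => ?_⟩
    rw [zmap_eq]
    have h1 := h ρ ψ hρ
    have h2 : cexp (I * (ψ : ℂ) ^ 2 / (2 * δ)) * cexp (-(ψ ^ 2 / (2 * δ)) * I) = 1 := by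
      rw [← Complex.exp_add]
      convert Complex.exp_zero using 2
      ring
    linear_combination cexp (I * (ψ : ℂ) ^ 2 / (2 * δ)) * h1 + (SL ρ δ ψ 0 + SR ρ δ ψ 0) * h2
  dL := by
    intro δ ρ ψ hδ hρ
    have := hasDerivAt_SL hρ hδ ψ
    have e : -(1 / δ : ℂ) * SL ρ δ ψ 1 = -(SL ρ δ ψ 1) / δ := by ring
    rwa [e] at this
  dR := by
    intro δ ρ ψ hδ hρ
    have := hasDerivAt_SR hρ hδ ψ
    have e : -(1 / δ : ℂ) * SR ρ δ ψ 1 = -(SR ρ δ ψ 1) / δ := by ring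
    rwa [e] at this
  linkL := fun δ ρ ψ h hδ hρ hh h0 h1 h2 => linkL hδ hρ hh h0 h1 h2
  linkR := fun δ ρ ψ h hδ hρ hh h0 h1 h2 => linkR hδ hρ hh h0 h1 h2

end SokalTI
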