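import Pool.Agent.Lib_MP_af4de1_ti.Top
import Pool.Agent.Lib_MP_af4de1_ti.RepD
import Pool.Agent.Lib_MP_af4de1_ti.LineH
import Pool.Agent.Lib_MP_af4de1_ti.Box6
import Pool.Agent.Lib_MP_af4de1_fu.MFin

/-!
# The tip: final form
-/

set_option autoImplicit false

namespace SokalTI

open Complex SokalFU SokalF

/-- Part I on `|w| = 1` -/
theorem oneHyp : OneHyp (fun δ ρ ψ => SL ρ δ ψ 0) (fun δ ρ ψ => SR ρ δ ψ 0)
    (fun δ ρ ψ => SL ρ δ ψ 1) (fun δ ρ ψ => SR ρ δ ψ 1) := by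
  intro δ hδ hδ2 ψ hψ
  obtain ⟨h1, h2, h3⟩ := main_pt (ρ := 1) (δ := δ) (ψ := ψ) hδ (by linarith) le_rfl (by norm_num)
    (by linarith [hψ.1]) (by linarith [hψ.2])
  exact ⟨h1, h2, h3⟩

/-- The tip, from the zeros at `δ = 2/25` (W4). -/
theorem dist_tip (h4 : ∀ w, Zr (2 / 25) w → w ∈ wmap '' PT (2 / 25)) :
    ∀ α r : ℝ, 0 < α → α ≤ 2 / 25 → 0 < r → α * r ≤ 1 → SokalFU.Dist α r :=
  dist_tip_of repData lineHyp tipNum oneHyp h4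

end SokalTI
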