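import Pool.Agent.Lib_MP_af4de1_ti.W4a

/-!
# (W4) The data of the eleven discs
-/

set_option autoImplicit false

namespace SokalTI

open Complex SokalFU

/-- real part of the centre, times 10^4 -/
def W4X : ℕ → ℤ := fun k => [-13352, -28321, -42235, -55405, -67789, -79257, -89653, -98820, -106602, -112857, -117445].getD k 0

/-- imaginary part of the centre, times 10^4 -/
def W4Y : ℕ → ℤ := fun k => [-52910, -55054, -54015, -50504, -44839, -37230, -27853, -16877, -4472, 9187, 23918].getD k 0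

/-- radius of the disc, times 10^4 -/
def W4E : ℕ → ℤ := fun k => [410, 465, 515, 563, 610, 657, 705, 752, 801, 850, 899].getD k 0


theorem cE4a_0 : cEf (815397) (1490201) = (356708860924, 2366122891305) := by decide +kernel

theorem cE4b_0 : cEf (522077) (-584746) = (1534905888087, -957306527065) := by decide +kernel

theorem wR_0 : WR (815397 / 2 ^ 20) (1490201 / 2 ^ 20) (522077 / 2 ^ 20) (-584746 / 2 ^ 20 + 1 / 25) (356708860924 / 2 ^ 40) (2366122891305 / 2 ^ 40) (1534905888087 / 2 ^ 40) (-957306527065 / 2 ^ 40) (-13352 / 10 ^ 4) (-52910 / 10 ^ 4) (1 / 20) (3 / 12500000) (11941 / 500000) (20571 / 500000) (13 / 25000000) (118073 / 125000) (21 / 2500000) (718237 / 1000000) (359119 / 500000) (721167 / 1000000) (45073 / 62500) (944583 / 1000000) (118073 / 125000) (1620003 / 1000000) (405001 / 250000) (2255527 / 1000000) (1088147 / 500000) (1645249 / 1000000) (5456871 / 1000000) (88773 / 500000) (41 / 1000) := by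
  constructor <;> norm_num


theorem cE4a_1 : cEf (1068416) (1980156) = (-951267352822, 2893513860978) := by decide +kernel

theorem cE4b_1 : cEf (309319) (-667162) = (1187803323517, -877477073564) := by decide +kernel

theorem wR_1 : WR (1068416 / 2 ^ 20) (1980156 / 2 ^ 20) (309319 / 2 ^ 20) (-667162 / 2 ^ 20 + 1 / 25) (-951267352822 / 2 ^ 40) (2893513860978 / 2 ^ 40) (1187803323517 / 2 ^ 40) (-877477073564 / 2 ^ 40) (-28321 / 10 ^ 4) (-55054 / 10 ^ 4) (1 / 25) (7 / 25000000) (361 / 20000) (17663 / 500000) (11 / 12500000) (166219 / 125000) (3 / 500000) (166309 / 250000) (665237 / 1000000) (923341 / 1000000) (461671 / 500000) (1329751 / 1000000) (166219 / 125000) (2145773 / 1000000) (1072887 / 500000) (3225581 / 1000000) (692551 / 250000) (1343113 / 1000000) (6191141 / 1000000) (115583 / 1000000) (93 / 2000) := by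
  constructor <;> norm_num


theorem cE4a_2 : cEf (1222923) (2305190) = (-2072506566106, 2856850031496) := by decide +kernel

theorem cE4b_2 : cEf (163295) (-693917) = (1013578693970, -789523348566) := by decide +kernel

theorem wR_2 : WR (1222923 / 2 ^ 20) (2305190 / 2 ^ 20) (163295 / 2 ^ 20) (-693917 / 2 ^ 20 + 1 / 25) (-2072506566106 / 2 ^ 40) (2856850031496 / 2 ^ 40) (1013578693970 / 2 ^ 40) (-789523348566 / 2 ^ 40) (-42235 / 10 ^ 4) (-54015 / 10 ^ 4) (1 / 25) (13 / 50000000) (282 / 15625) (7643 / 200000) (49 / 50000000) (64367 / 40000) (19 / 2500000) (40061 / 62500) (640977 / 1000000) (524259 / 500000) (1048519 / 1000000) (64367 / 40000) (201147 / 125000) (622151 / 250000) (497721 / 200000) (1941259 / 500000) (1604999 / 500000) (1168511 / 1000000) (6856687 / 1000000) (108177 / 1000000) (103 / 2000) := by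
  constructor <;> norm_num


theorem cE4a_3 : cEf (1334887) (2558434) = (-2999394567151, 2534980562215) := by decide +kernel

theorem cE4b_3 : cEf (48000) (-698545) = (904909629282, -711315415265) := by decide +kernel

theorem wR_3 : WR (1334887 / 2 ^ 20) (2558434 / 2 ^ 20) (48000 / 2 ^ 20) (-698545 / 2 ^ 20 + 1 / 25) (-2999394567151 / 2 ^ 40) (2534980562215 / 2 ^ 40) (904909629282 / 2 ^ 40) (-711315415265 / 2 ^ 40) (-55405 / 10 ^ 4) (-50504 / 10 ^ 4) (1 / 25) (11 / 25000000) (18243 / 1000000) (20379 / 500000) (47 / 25000000) (1841539 / 1000000) (101 / 10000000) (125571 / 200000) (39241 / 62500) (142667 / 125000) (1141337 / 1000000) (1841537 / 1000000) (920769 / 500000) (1376029 / 500000) (2752059 / 1000000) (4383269 / 1000000) (3571721 / 1000000) (1046841 / 1000000) (468557 / 62500) (2091 / 20000) (563 / 10000) := by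
  constructor <;> norm_num


theorem cE4a_4 : cEf (1422110) (2769838) = (-3745195394645, 2046346546176) := by decide +kernel

theorem cE4b_4 : cEf (-48564) (-691074) = (829899142350, -642839088249) := by decide +kernel

theorem wR_4 : WR (1422110 / 2 ^ 20) (2769838 / 2 ^ 20) (-48564 / 2 ^ 20) (-691074 / 2 ^ 20 + 1 / 25) (-3745195394645 / 2 ^ 40) (2046346546176 / 2 ^ 40) (829899142350 / 2 ^ 40) (-642839088249 / 2 ^ 40) (-67789 / 10 ^ 4) (-44839 / 10 ^ 4) (1 / 25) (7 / 20000000) (18543 / 1000000) (21537 / 500000) (83 / 50000000) (2046073 / 1000000) (23 / 5000000) (620789 / 1000000) (62079 / 100000) (1215733 / 1000000) (607867 / 500000) (2046071 / 1000000) (255759 / 125000) (46396 / 15625) (593869 / 200000) (2391587 / 500000) (970383 / 250000) (477371 / 500000) (406383 / 50000) (102607 / 1000000) (61 / 1000) := by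
  constructor <;> norm_num


theorem cE4a_5 : cEf (1492811) (2953300) = (-4326316631909, 1458254775611) := by decide +kernel

theorem cE4b_5 : cEf (-132120) (-675921) = (774832504865, -582466182471) := by decide +kernel

theorem wR_5 : WR (1492811 / 2 ^ 20) (2953300 / 2 ^ 20) (-132120 / 2 ^ 20) (-675921 / 2 ^ 20 + 1 / 25) (-4326316631909 / 2 ^ 40) (1458254775611 / 2 ^ 40) (774832504865 / 2 ^ 40) (-582466182471 / 2 ^ 40) (-79257 / 10 ^ 4) (-37230 / 10 ^ 4) (1 / 25) (59 / 100000000) (9457 / 500000) (45227 / 1000000) (3 / 1000000) (2231819 / 1000000) (51 / 10000000) (308799 / 500000) (617599 / 1000000) (255611 / 200000) (159757 / 125000) (278977 / 125000) (2231817 / 1000000) (63117 / 20000) (3155851 / 1000000) (127747 / 25000) (259517 / 62500) (55101 / 62500) (8756567 / 1000000) (101599 / 1000000) (657 / 10000) := by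
  constructor <;> norm_num


theorem cE4a_6 : cEf (1551541) (3116536) = (-4759335455521, 814191252014) := by decide +kernel

theorem cE4b_6 : cEf (-205918) (-655430) = (732645392063, -528666623351) := by decide +kernel

theorem wR_6 : WR (1551541 / 2 ^ 20) (3116536 / 2 ^ 20) (-205918 / 2 ^ 20) (-655430 / 2 ^ 20 + 1 / 25) (-4759335455521 / 2 ^ 40) (814191252014 / 2 ^ 40) (732645392063 / 2 ^ 40) (-528666623351 / 2 ^ 40) (-89653 / 10 ^ 4) (-27853 / 10 ^ 4) (1 / 25) (7 / 20000000) (19337 / 1000000) (23627 / 500000) (37 / 20000000) (2403847 / 1000000) (157 / 10000000) (77143 / 125000) (123429 / 200000) (53271 / 40000) (20809 / 15625) (600961 / 250000) (480769 / 200000) (207507 / 62500) (3320113 / 1000000) (5379797 / 1000000) (2195737 / 500000) (821701 / 1000000) (4693999 / 500000) (25293 / 250000) (141 / 2000) := by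
  constructor <;> norm_num


theorem cE4a_7 : cEf (1601112) (3264321) = (-5060167078752, 144221183227) := by decide +kernel

theorem cE4b_7 : cEf (-272009) (-630998) = (699270283781, -480212241454) := by decide +kernel

theorem wR_7 : WR (1601112 / 2 ^ 20) (3264321 / 2 ^ 20) (-272009 / 2 ^ 20) (-630998 / 2 ^ 20 + 1 / 25) (-5060167078752 / 2 ^ 40) (144221183227 / 2 ^ 40) (699270283781 / 2 ^ 40) (-480212241454 / 2 ^ 40) (-98820 / 10 ^ 4) (-16877 / 10 ^ 4) (1 / 25) (11 / 50000000) (9901 / 500000) (49183 / 1000000) (119 / 100000000) (1282661 / 500000) (1 / 62500) (38673 / 62500) (618769 / 1000000) (1379017 / 1000000) (689509 / 500000) (64133 / 25000) (2565321 / 1000000) (3467409 / 1000000) (346741 / 100000) (560373 / 100000) (920813 / 200000) (771509 / 1000000) (5012541 / 500000) (101139 / 1000000) (47 / 625) := by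
  constructor <;> norm_num


theorem cE4a_8 : cEf (1643395) (3399843) = (-5243796658416, -530108922022) := by decide +kernel

theorem cE4b_8 : cEf (-331788) (-603524) = (672177004292, -436141073315) := by decide +kernel

theorem wR_8 : WR (1643395 / 2 ^ 20) (3399843 / 2 ^ 20) (-331788 / 2 ^ 20) (-603524 / 2 ^ 20 + 1 / 25) (-5243796658416 / 2 ^ 40) (-530108922022 / 2 ^ 40) (672177004292 / 2 ^ 40) (-436141073315 / 2 ^ 40) (-106602 / 10 ^ 4) (-4472 / 10 ^ 4) (1 / 25) (49 / 100000000) (20307 / 1000000) (5103 / 100000) (141 / 50000000) (21747 / 8000) (131 / 10000000) (622053 / 1000000) (311027 / 500000) (1421191 / 1000000) (177649 / 125000) (339797 / 125000) (2718377 / 1000000) (225079 / 62500) (720253 / 200000) (1447329 / 250000) (2396757 / 500000) (145751 / 200000) (1333697 / 125000) (20281 / 200000) (801 / 10000) := by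
  constructor <;> norm_num


theorem cE4a_9 : cEf (1679707) (3525343) = (-5324208534441, -1193036465950) := by decide +kernel

theorem cE4b_9 : cEf (-386251) (-573620) = (649702870321, -395700918105) := by decide +kernel

theorem wR_9 : WR (1679707 / 2 ^ 20) (3525343 / 2 ^ 20) (-386251 / 2 ^ 20) (-573620 / 2 ^ 20 + 1 / 25) (-5324208534441 / 2 ^ 40) (-1193036465950 / 2 ^ 40) (649702870321 / 2 ^ 40) (-395700918105 / 2 ^ 40) (-112857 / 10 ^ 4) (9187 / 10 ^ 4) (1 / 25) (3 / 20000000) (4169 / 200000) (52809 / 1000000) (21 / 25000000) (2864519 / 1000000) (13 / 5000000) (156681 / 250000) (25069 / 40000) (18241 / 12500) (1459281 / 1000000) (1432259 / 500000) (2864519 / 1000000) (3724151 / 1000000) (465519 / 125000) (1188449 / 200000) (248121 / 50000) (69187 / 100000) (1415379 / 125000) (101889 / 1000000) (17 / 200) := by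
  constructor <;> norm_num


theorem cE4a_10 : cEf (1711014) (3642464) = (-5314375773981, -1832972965245) := by decide +kernel

theorem cE4b_10 : cEf (-436140) (-541718) = (630706237750, -358295251774) := by decide +kernel

theorem wR_10 : WR (1711014 / 2 ^ 20) (3642464 / 2 ^ 20) (-436140 / 2 ^ 20) (-541718 / 2 ^ 20 + 1 / 25) (-5314375773981 / 2 ^ 40) (-1832972965245 / 2 ^ 40) (630706237750 / 2 ^ 40) (-358295251774 / 2 ^ 40) (-117445 / 10 ^ 4) (23918 / 10 ^ 4) (1 / 25) (7 / 25000000) (2677 / 125000) (5453 / 100000) (163 / 100000000) (46951 / 15625) (27 / 1250000) (632591 / 1000000) (39537 / 62500) (747001 / 500000) (1494003 / 1000000) (3004861 / 1000000) (1502431 / 500000) (1918943 / 500000) (3837887 / 1000000) (1516733 / 250000) (1022563 / 200000) (659723 / 1000000) (479423 / 40000) (12819 / 125000) (899 / 10000) := by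
  constructor <;> norm_num


theorem wN_0 {z : ℂ} (hz : ‖z - ⟨(W4X 0 : ℝ) / 10 ^ 4, (W4Y 0 : ℝ) / 10 ^ 4⟩‖ ≤ (W4E 0 : ℝ) / 10 ^ 4)
    (hw : ‖wz (2 / 25) z‖ ≤ 1) : wz (2 / 25) z ∈ wmap '' Ptip (2 / 25) := by
  have h := wR_0.num
    (by have h := exp_of (by norm_num) cE4a_0
        push_cast at h
        exact h)
    (by have h := exp_of (by norm_num) cE4b_0
        push_cast at h
        rw [add_sub_cancel_right]
        exact h)
  refine h.mem ?_ hw
  have e1 : W4X 0 = -13352 := rfl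
  have e2 : W4Y 0 = -52910 := rfl
  have e3 : W4E 0 = 410 := rfl
  rw [e1, e2, e3] at hz
  push_cast at hz
  refine hz.trans ?_
  norm_num


theorem wN_1 {z : ℂ} (hz : ‖z - ⟨(W4X 1 : ℝ) / 10 ^ 4, (W4Y 1 : ℝ) / 10 ^ 4⟩‖ ≤ (W4E 1 : ℝ) / 10 ^ 4)
    (hw : ‖wz (2 / 25) z‖ ≤ 1) : wz (2 / 25) z ∈ wmap '' Ptip (2 / 25) := by
  have h := wR_1.num
    (by have h := exp_of (by norm_num) cE4a_1
        push_cast at h
        exact h)
    (by have h := exp_of (by norm_num) cE4b_1
        push_cast at h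
        rw [add_sub_cancel_right]
        exact h)
  refine h.mem ?_ hw
  have e1 : W4X 1 = -28321 := rfl
  have e2 : W4Y 1 = -55054 := rfl
  have e3 : W4E 1 = 465 := rfl
  rw [e1, e2, e3] at hz
  push_cast at hz
  refine hz.trans ?_
  norm_num


theorem wN_2 {z : ℂ} (hz : ‖z - ⟨(W4X 2 : ℝ) / 10 ^ 4, (W4Y 2 : ℝ) / 10 ^ 4⟩‖ ≤ (W4E 2 : ℝ) / 10 ^ 4)
    (hw : ‖wz (2 / 25) z‖ ≤ 1) : wz (2 / 25) z ∈ wmap '' Ptip (2 / 25) := by
  have h := wR_2.num
    (by have h := exp_of (by norm_num) cE4a_2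
        push_cast at h
        exact h)
    (by have h := exp_of (by norm_num) cE4b_2
        push_cast at h
        rw [add_sub_cancel_right]
        exact h)
  refine h.mem ?_ hw
  have e1 : W4X 2 = -42235 := rfl
  have e2 : W4Y 2 = -54015 := rfl
  have e3 : W4E 2 = 515 := rfl
  rw [e1, e2, e3] at hz
  push_cast at hz
  refine hz.trans ?_
  norm_num


theorem wN_3 {z : ℂ} (hz : ‖z - ⟨(W4X 3 : ℝ) / 10 ^ 4, (W4Y 3 : ℝ) / 10 ^ 4⟩‖ ≤ (W4E 3 : ℝ) / 10 ^ 4)
    (hw : ‖wz (2 / 25) z‖ ≤ 1) : wz (2 / 25) z ∈ wmap '' Ptip (2 / 25) := by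
  have h := wR_3.num
    (by have h := exp_of (by norm_num) cE4a_3
        push_cast at h
        exact h)
    (by have h := exp_of (by norm_num) cE4b_3
        push_cast at h
        rw [add_sub_cancel_right]
        exact h)
  refine h.mem ?_ hw
  have e1 : W4X 3 = -55405 := rfl
  have e2 : W4Y 3 = -50504 := rfl
  have e3 : W4E 3 = 563 := rfl
  rw [e1, e2, e3] at hz
  push_cast at hz
  refine hz.trans ?_
  norm_num


theorem wN_4 {z : ℂ} (hz : ‖z - ⟨(W4X 4 : ℝ) / 10 ^ 4, (W4Y 4 : ℝ) / 10 ^ 4⟩‖ ≤ (W4E 4 : ℝ) / 10 ^ 4)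
    (hw : ‖wz (2 / 25) z‖ ≤ 1) : wz (2 / 25) z ∈ wmap '' Ptip (2 / 25) := by
  have h := wR_4.num
    (by have h := exp_of (by norm_num) cE4a_4
        push_cast at h
        exact h)
    (by have h := exp_of (by norm_num) cE4b_4
        push_cast at h
        rw [add_sub_cancel_right]
        exact h)
  refine h.mem ?_ hw
  have e1 : W4X 4 = -67789 := rfl
  have e2 : W4Y 4 = -44839 := rfl
  have e3 : W4E 4 = 610 := rfl
  rw [e1, e2, e3] at hz
  push_cast at hz
  refine hz.trans ?_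
  norm_num


theorem wN_5 {z : ℂ} (hz : ‖z - ⟨(W4X 5 : ℝ) / 10 ^ 4, (W4Y 5 : ℝ) / 10 ^ 4⟩‖ ≤ (W4E 5 : ℝ) / 10 ^ 4)
    (hw : ‖wz (2 / 25) z‖ ≤ 1) : wz (2 / 25) z ∈ wmap '' Ptip (2 / 25) := by
  have h := wR_5.num
    (by have h := exp_of (by norm_num) cE4a_5
        push_cast at h
        exact h)
    (by have h := exp_of (by norm_num) cE4b_5
        push_cast at h
        rw [add_sub_cancel_right]
        exact h)
  refine h.mem ?_ hw
  have e1 : W4X 5 = -79257 := rfl
  have e2 : W4Y 5 = -37230 := rfl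
  have e3 : W4E 5 = 657 := rfl
  rw [e1, e2, e3] at hz
  push_cast at hz
  refine hz.trans ?_
  norm_num


theorem wN_6 {z : ℂ} (hz : ‖z - ⟨(W4X 6 : ℝ) / 10 ^ 4, (W4Y 6 : ℝ) / 10 ^ 4⟩‖ ≤ (W4E 6 : ℝ) / 10 ^ 4)
    (hw : ‖wz (2 / 25) z‖ ≤ 1) : wz (2 / 25) z ∈ wmap '' Ptip (2 / 25) := by
  have h := wR_6.num
    (by have h := exp_of (by norm_num) cE4a_6
        push_cast at h
        exact h)
    (by have h := exp_of (by norm_num) cE4b_6
        push_cast at h
        rw [add_sub_cancel_right]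
        exact h)
  refine h.mem ?_ hw
  have e1 : W4X 6 = -89653 := rfl
  have e2 : W4Y 6 = -27853 := rfl
  have e3 : W4E 6 = 705 := rfl
  rw [e1, e2, e3] at hz
  push_cast at hz
  refine hz.trans ?_
  norm_num


theorem wN_7 {z : ℂ} (hz : ‖z - ⟨(W4X 7 : ℝ) / 10 ^ 4, (W4Y 7 : ℝ) / 10 ^ 4⟩‖ ≤ (W4E 7 : ℝ) / 10 ^ 4)
    (hw : ‖wz (2 / 25) z‖ ≤ 1) : wz (2 / 25) z ∈ wmap '' Ptip (2 / 25) := by
  have h := wR_7.num
    (by have h := exp_of (by norm_num) cE4a_7
        push_cast at h
        exact h)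
    (by have h := exp_of (by norm_num) cE4b_7
        push_cast at h
        rw [add_sub_cancel_right]
        exact h)
  refine h.mem ?_ hw
  have e1 : W4X 7 = -98820 := rfl
  have e2 : W4Y 7 = -16877 := rfl
  have e3 : W4E 7 = 752 := rfl
  rw [e1, e2, e3] at hz
  push_cast at hz
  refine hz.trans ?_
  norm_num


theorem wN_8 {z : ℂ} (hz : ‖z - ⟨(W4X 8 : ℝ) / 10 ^ 4, (W4Y 8 : ℝ) / 10 ^ 4⟩‖ ≤ (W4E 8 : ℝ) / 10 ^ 4)
    (hw : ‖wz (2 / 25) z‖ ≤ 1) : wz (2 / 25) z ∈ wmap '' Ptip (2 / 25) := by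
  have h := wR_8.num
    (by have h := exp_of (by norm_num) cE4a_8
        push_cast at h
        exact h)
    (by have h := exp_of (by norm_num) cE4b_8
        push_cast at h
        rw [add_sub_cancel_right]
        exact h)
  refine h.mem ?_ hw
  have e1 : W4X 8 = -106602 := rfl
  have e2 : W4Y 8 = -4472 := rfl
  have e3 : W4E 8 = 801 := rfl
  rw [e1, e2, e3] at hz
  push_cast at hz
  refine hz.trans ?_
  norm_num


theorem wN_9 {z : ℂ} (hz : ‖z - ⟨(W4X 9 : ℝ) / 10 ^ 4, (W4Y 9 : ℝ) / 10 ^ 4⟩‖ ≤ (W4E 9 : ℝ) / 10 ^ 4)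
    (hw : ‖wz (2 / 25) z‖ ≤ 1) : wz (2 / 25) z ∈ wmap '' Ptip (2 / 25) := by
  have h := wR_9.num
    (by have h := exp_of (by norm_num) cE4a_9
        push_cast at h
        exact h)
    (by have h := exp_of (by norm_num) cE4b_9
        push_cast at h
        rw [add_sub_cancel_right]
        exact h)
  refine h.mem ?_ hw
  have e1 : W4X 9 = -112857 := rfl
  have e2 : W4Y 9 = 9187 := rfl
  have e3 : W4E 9 = 850 := rfl
  rw [e1, e2, e3] at hz
  push_cast at hz
  refine hz.trans ?_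
  norm_num


theorem wN_10 {z : ℂ} (hz : ‖z - ⟨(W4X 10 : ℝ) / 10 ^ 4, (W4Y 10 : ℝ) / 10 ^ 4⟩‖ ≤ (W4E 10 : ℝ) / 10 ^ 4)
    (hw : ‖wz (2 / 25) z‖ ≤ 1) : wz (2 / 25) z ∈ wmap '' Ptip (2 / 25) := by
  have h := wR_10.num
    (by have h := exp_of (by norm_num) cE4a_10
        push_cast at h
        exact h)
    (by have h := exp_of (by norm_num) cE4b_10
        push_cast at h
        rw [add_sub_cancel_right]
        exact h)
  refine h.mem ?_ hw
  have e1 : W4X 10 = -117445 := rfl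
  have e2 : W4Y 10 = 23918 := rfl
  have e3 : W4E 10 = 899 := rfl
  rw [e1, e2, e3] at hz
  push_cast at hz
  refine hz.trans ?_
  norm_num


/-- the discs are in the image of the window -/
theorem w4_disc {k : ℕ} (hk : k < 11) {z : ℂ}
    (hz : ‖z - ⟨(W4X k : ℝ) / 10 ^ 4, (W4Y k : ℝ) / 10 ^ 4⟩‖ ≤ (W4E k : ℝ) / 10 ^ 4)
    (hw : ‖wz (2 / 25) z‖ ≤ 1) : wz (2 / 25) z ∈ wmap '' Ptip (2 / 25) := by
  interval_cases k
  · exact wN_0 hz hw
  · exact wN_1 hz hw
  · exact wN_2 hz hw
  · exact wN_3 hz hw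
  · exact wN_4 hz hw
  · exact wN_5 hz hw
  · exact wN_6 hz hw
  · exact wN_7 hz hw
  · exact wN_8 hz hw
  · exact wN_9 hz hw
  · exact wN_10 hz hw

/-- (W4) from the location of the zeros of modulus at most `25/2` -/
theorem w4_of (H : ∀ z : ℂ, SokalF.F (qa (2 / 25)) z = 0 → ‖z‖ ≤ 25 / 2 →
    ∃ k < 11, ‖z - ⟨(W4X k : ℝ) / 10 ^ 4, (W4Y k : ℝ) / 10 ^ 4⟩‖ ≤ (W4E k : ℝ) / 10 ^ 4) :
    ∀ w, Zr (2 / 25) w → w ∈ wmap '' Ptip (2 / 25) := by
  rintro w ⟨_, h1, h2⟩
  have h0 : ((2 / 25 : ℝ)) ≠ 0 := by norm_num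
  have e1 : wz (2 / 25) (zmap (2 / 25) w) = w := wz_zmap h0 w
  have e2 : ‖zmap (2 / 25) w‖ ≤ 25 / 2 := by
    unfold zmap
    rw [norm_div, norm_mul, norm_mul, norm_I, one_mul, Complex.norm_real, Real.norm_of_nonneg (by norm_num)]
    have e3 : ‖cexp (I * ((2 / 25 : ℝ) : ℂ) / 2)‖ = 1 := by
      have : I * ((2 / 25 : ℝ) : ℂ) / 2 = ((1 / 25 : ℝ) : ℂ) * I := by push_cast; ring
      rw [this, norm_exp_ofReal_mul_I]
    rw [e3, mul_one]
    rw [div_le_iff₀ (by norm_num)]
    linarith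
  obtain ⟨k, hk, hz⟩ := H _ h2 e2
  have := w4_disc hk hz (by rw [e1]; exact h1)
  rwa [e1] at this


end SokalTI
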