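import Pool.Agent.Lib_MP_af4de1_ti.W4b
import Pool.Agent.Lib_MP_af4de1_ti.W4c

/-!
# (W4) with the tables of `W4b`
-/

set_option autoImplicit false

namespace SokalTI

open SokalFU SokalF Set

theorem w4z_eq {k : ℕ} (hk : k < 11) : w4z k = ⟨(W4X k : ℝ) / 10 ^ 4, (W4Y k : ℝ) / 10 ^ 4⟩ := by
  interval_cases k <;> rfl

theorem w4e_eq {k : ℕ} (hk : k < 11) : w4e k = (W4E k : ℝ) / 10 ^ 4 := by
  interval_cases k <;> rfl

/-- (W4) from the lists of F3 -/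
theorem w4_of_lists {R0 U lo hi hi' : ℤ} {n fuel : ℕ} {L : ℕ → List ℕ} (S : ListsOK R0 U lo hi hi' n fuel L)
    (hn : 12 ≤ n) (hR0 : 25 / 2 < rv R0) (hlo : rv lo ≤ 2 / 25)
    (H : ∀ α r : ℝ, 2 / 25 ≤ α → α ≤ Real.pi → rv R0 ≤ r → Dist α r) (hx : ∀ k < 12, w4x k ∈ L k) :
    ∀ w, Zr (2 / 25) w → w ∈ wmap '' Ptip (2 / 25) := by
  refine w4_of fun z hz hn' => ?_
  obtain ⟨k, hk, h⟩ := w4zeros S hn hR0 hlo H hx z hz hn'
  exact ⟨k, hk, by rw [← w4z_eq hk, ← w4e_eq hk]; exact h⟩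

end SokalTI
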