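import Pool.Agent.Lib_MP_af4de1_ti.W4b
import Pool.Agent.Lib_MP_af4de1_fu.T.Da0

/-!
# The 12 pieces over `2/25` of `W4b` are in the lists `dat1 .. dat12`
-/

set_option autoImplicit false

namespace SokalTI

open SokalFU

theorem w4x_mem0 : w4x 0 ∈ dat1 := by decide +kernel
theorem w4x_mem1 : w4x 1 ∈ dat2 := by decide +kernel
theorem w4x_mem2 : w4x 2 ∈ dat3 := by decide +kernel
theorem w4x_mem3 : w4x 3 ∈ dat4 := by decide +kernel
theorem w4x_mem4 : w4x 4 ∈ dat5 := by decide +kernel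
theorem w4x_mem5 : w4x 5 ∈ dat6 := by decide +kernel
theorem w4x_mem6 : w4x 6 ∈ dat7 := by decide +kernel
theorem w4x_mem7 : w4x 7 ∈ dat8 := by decide +kernel
theorem w4x_mem8 : w4x 8 ∈ dat9 := by decide +kernel
theorem w4x_mem9 : w4x 9 ∈ dat10 := by decide +kernel
theorem w4x_mem10 : w4x 10 ∈ dat11 := by decide +kernel
theorem w4x_mem11 : w4x 11 ∈ dat12 := by decide +kernel

/-- the pieces over `2/25` are in every table which begins with `dat1, .., dat12` (hypothesis `hx` of `w4_of_lists`) -/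
theorem w4x_mem {t : List (List ℕ)} : ∀ k < 12, w4x k ∈ (dat1 :: dat2 :: dat3 :: dat4 :: dat5 :: dat6 :: dat7 :: dat8 ::
    dat9 :: dat10 :: dat11 :: dat12 :: t).getD k [] := by
  intro k hk
  interval_cases k
  · exact w4x_mem0
  · exact w4x_mem1
  · exact w4x_mem2
  · exact w4x_mem3
  · exact w4x_mem4
  · exact w4x_mem5
  · exact w4x_mem6
  · exact w4x_mem7
  · exact w4x_mem8
  · exact w4x_mem9
  · exact w4x_mem10
  · exact w4x_mem11

end SokalTI
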