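import Pool.Agent.Lib_MP_af4de1_fu.F3
import Pool.Agent.Lib_MP_af4de1_ti.W4d
import Pool.Agent.Lib_MP_af4de1_ti.W4m

/-!
# (W4) from the table of F3
-/

set_option autoImplicit false

namespace SokalTI

open SokalFU SokalF Set

/-- (W4), given the statement for `r ≥ 50` -/
theorem w4_F3 (H : ∀ α r : ℝ, 2 / 25 ≤ α → α ≤ Real.pi → 50 ≤ r → Dist α r) :
    ∀ w, Zr (2 / 25) w → w ∈ wmap '' Ptip (2 / 25) := by
  have hx : ∀ k < 12, w4x k ∈ (fun k => tbl.getD k []) k := w4x_mem (t := [dat13, dat14, dat15, dat16, dat17, dat18, dat19, dat20, dat21, dat22, dat23, dat24, dat25, dat26, dat27, dat28, dat29, dat30, dat31, dat32, dat33, dat34, dat35, dat36, dat37, dat38, dat39, dat40, dat41, dat42, dat43, dat44, dat45, dat46, dat47, dat48, dat49, dat50, dat51, dat52, dat53, dat54, dat55])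
  exact w4_of_lists tbl_ok (by norm_num) (by rw [rv_R0]; norm_num) rv_lo.le
    (fun α r h1 h2 h3 => H α r h1 h2 (by rwa [rv_R0] at h3)) hx

end SokalTI
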