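import Mathlib

/-!
# Rational tools for the tip certificate: rounding and square roots
-/

set_option autoImplicit false

namespace SokalTI

/-- upper rounding to `2^-20` -/
def rU (q : ℚ) : ℚ := mkRat (q.num * 1048576 / q.den + 1) 1048576

/-- lower rounding to `2^-20` -/
def rL (q : ℚ) : ℚ := mkRat (q.num * 1048576 / q.den) 1048576

theorem rL_le (q : ℚ) : ((rL q : ℚ) : ℝ) ≤ q := by
  have h : rL q ≤ q := by
    unfold rL
    rw [Rat.mkRat_eq_div]
    have hd : (0 : ℚ) < q.den := by exact_mod_cast q.den_pos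
    have h1 : q.num * 1048576 / q.den * q.den ≤ q.num * 1048576 :=
      Int.ediv_mul_le _ (by exact_mod_cast q.den_pos.ne')
    have h2 : ((q.num * 1048576 / q.den : ℤ) : ℚ) * q.den ≤ q.num * 1048576 := by exact_mod_cast h1
    have h3 : q = q.num / q.den := (Rat.num_div_den q).symm
    conv_rhs => rw [h3]
    rw [div_le_div_iff₀ (by norm_num) hd]
    exact_mod_cast h2
  exact_mod_cast h

theorem le_rU (q : ℚ) : (q : ℝ) ≤ ((rU q : ℚ) : ℝ) := by
  have h : q ≤ rU q := by
    unfold rU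
    rw [Rat.mkRat_eq_div]
    have hd : (0 : ℚ) < q.den := by exact_mod_cast q.den_pos
    have hd' : (0 : ℤ) < q.den := by exact_mod_cast q.den_pos
    have h1 : q.num * 1048576 < (q.num * 1048576 / q.den + 1) * q.den :=
      Int.lt_ediv_add_one_mul_self _ hd'
    have h2 : (q.num : ℚ) * 1048576 ≤ ((q.num * 1048576 / q.den + 1 : ℤ) : ℚ) * q.den := by exact_mod_cast h1.le
    have h3 : q = q.num / q.den := (Rat.num_div_den q).symm
    conv_lhs => rw [h3]
    rw [div_le_div_iff₀ hd (by norm_num)]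
    exact_mod_cast h2
  exact_mod_cast h

/-- Newton's iteration for the integer square root -/
def nsq (n : ℕ) : ℕ :=
  (fun x => (x + n / x) / 2) ((fun x => (x + n / x) / 2) ((fun x => (x + n / x) / 2) ((fun x => (x + n / x) / 2)
    ((fun x => (x + n / x) / 2) ((fun x => (x + n / x) / 2) (2 ^ (Nat.log2 n / 2 + 1)))))))

/-- upper bound of the integer square root -/
def sqUn (n : ℕ) : ℕ := if n ≤ (nsq n + 1) * (nsq n + 1) then nsq n + 1 else n

/-- lower bound of the integer square root -/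
def sqLn (n : ℕ) : ℕ := if (nsq n - 1) * (nsq n - 1) ≤ n then nsq n - 1 else 0

theorem sqUn_spec (n : ℕ) : n ≤ sqUn n * sqUn n := by
  unfold sqUn
  split_ifs with h
  · exact h
  · exact Nat.le_mul_self n

theorem sqLn_spec (n : ℕ) : sqLn n * sqLn n ≤ n := by
  unfold sqLn
  split_ifs with h
  · exact h
  · exact Nat.zero_le _

/-- upper bound of the square root -/
def sqU (q : ℚ) : ℚ := mkRat (sqUn (q.num.toNat * 1099511627776 / q.den + 1)) 1048576

/-- lower bound of the square root -/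
def sqL (q : ℚ) : ℚ := mkRat (sqLn (q.num.toNat * 1099511627776 / q.den)) 1048576

theorem sqU_nonneg (q : ℚ) : (0 : ℝ) ≤ ((sqU q : ℚ) : ℝ) := by
  unfold sqU
  rw [Rat.mkRat_eq_div]
  push_cast
  positivity

theorem sqL_nonneg (q : ℚ) : (0 : ℝ) ≤ ((sqL q : ℚ) : ℝ) := by
  unfold sqL
  rw [Rat.mkRat_eq_div]
  push_cast
  positivity

theorem le_toNat_div (q : ℚ) : (q : ℝ) ≤ (q.num.toNat : ℝ) / q.den := by
  have h3 : (q : ℝ) = q.num / q.den := by exact_mod_cast (Rat.num_div_den q).symm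
  have hd : (0 : ℝ) < q.den := by exact_mod_cast q.den_pos
  rw [h3]
  refine div_le_div_of_nonneg_right ?_ hd.le
  have : q.num ≤ (q.num.toNat : ℤ) := Int.self_le_toNat _
  exact_mod_cast this

/-- `x ≤ s²` for the upper square root -/
theorem sqU_sq {q : ℚ} {x : ℝ} (h : x ≤ q) : x ≤ ((sqU q : ℚ) : ℝ) ^ 2 := by
  have h1 := le_toNat_div q
  have hd : (0 : ℝ) < q.den := by exact_mod_cast q.den_pos
  have h2 : q.num.toNat * 1099511627776 < (q.num.toNat * 1099511627776 / q.den + 1) * q.den :=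
    Nat.lt_mul_of_div_lt (Nat.lt_succ_self _) q.den_pos
  have h3 : ((q.num.toNat : ℝ)) * 1099511627776 ≤ ((q.num.toNat * 1099511627776 / q.den + 1 : ℕ) : ℝ) * q.den := by
    exact_mod_cast h2.le
  have h4 := sqUn_spec (q.num.toNat * 1099511627776 / q.den + 1)
  have h5 : ((q.num.toNat * 1099511627776 / q.den + 1 : ℕ) : ℝ) ≤
      ((sqUn (q.num.toNat * 1099511627776 / q.den + 1) : ℕ) : ℝ) * ((sqUn (q.num.toNat * 1099511627776 / q.den + 1) : ℕ) : ℝ) := by
    exact_mod_cast h4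
  unfold sqU
  rw [Rat.mkRat_eq_div]
  push_cast
  push_cast at h3 h5
  have h6 : (q.num.toNat : ℝ) / q.den ≤ ((q.num.toNat * 1099511627776 / q.den : ℕ) + 1 : ℝ) / 1099511627776 := by
    rw [div_le_div_iff₀ hd (by norm_num)]
    linarith
  refine h.trans (h1.trans (h6.trans ?_))
  rw [div_pow, show (1048576 : ℝ) ^ 2 = 1099511627776 by norm_num]
  refine div_le_div_of_nonneg_right ?_ (by norm_num)
  rw [pow_two]
  exact h5

theorem sqU_spec {q : ℚ} {x : ℝ} (h : x ≤ q) : √x ≤ ((sqU q : ℚ) : ℝ) :=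
  Real.sqrt_le_iff.2 ⟨sqU_nonneg q, sqU_sq h⟩

/-- `s² ≤ x` for the lower square root -/
theorem sqL_sq {q : ℚ} {x : ℝ} (hx : 0 ≤ x) (h : (q : ℝ) ≤ x) : ((sqL q : ℚ) : ℝ) ^ 2 ≤ x := by
  have hd : (0 : ℝ) < q.den := by exact_mod_cast q.den_pos
  have h4 := sqLn_spec (q.num.toNat * 1099511627776 / q.den)
  have h2 : q.num.toNat * 1099511627776 / q.den * q.den ≤ q.num.toNat * 1099511627776 := Nat.div_mul_le_self _ _
  have h3 : ((q.num.toNat * 1099511627776 / q.den : ℕ) : ℝ) * q.den ≤ (q.num.toNat : ℝ) * 1099511627776 := by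
    exact_mod_cast h2
  have h5 : ((sqLn (q.num.toNat * 1099511627776 / q.den) : ℕ) : ℝ) * ((sqLn (q.num.toNat * 1099511627776 / q.den) : ℕ) : ℝ) ≤
      ((q.num.toNat * 1099511627776 / q.den : ℕ) : ℝ) := by exact_mod_cast h4
  have h6 : (q.num.toNat : ℝ) / q.den ≤ x := by
    rcases le_total 0 q.num with hn | hn
    · have e : ((q.num.toNat : ℕ) : ℝ) = (q.num : ℝ) := by
        have : ((q.num.toNat : ℕ) : ℤ) = q.num := Int.toNat_of_nonneg hn
        exact_mod_cast this
      rw [e]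
      have h7 : (q : ℝ) = q.num / q.den := by exact_mod_cast (Rat.num_div_den q).symm
      rw [← h7]
      exact h
    · rw [Int.toNat_of_nonpos hn]
      simpa using hx
  unfold sqL
  rw [Rat.mkRat_eq_div]
  push_cast
  rw [div_pow, show (1048576 : ℝ) ^ 2 = 1099511627776 by norm_num, pow_two]
  have h8 : ((q.num.toNat * 1099511627776 / q.den : ℕ) : ℝ) / 1099511627776 ≤ (q.num.toNat : ℝ) / q.den := by
    rw [div_le_div_iff₀ (by norm_num) hd]
    exact h3
  refine (div_le_div_of_nonneg_right h5 (by norm_num)).trans (h8.trans h6)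

theorem sqL_spec {q : ℚ} {x : ℝ} (hx : 0 ≤ x) (h : (q : ℝ) ≤ x) : ((sqL q : ℚ) : ℝ) ≤ √x :=
  Real.le_sqrt_of_sq_le (sqL_sq hx h)

/-! ### Norms of rational complex numbers -/

/-- rational complex number -/
noncomputable def qc (x y : ℚ) : ℂ := ((x : ℝ) : ℂ) + ((y : ℝ) : ℂ) * Complex.I

theorem qc_re (x y : ℚ) : (qc x y).re = x := by simp [qc]

theorem qc_im (x y : ℚ) : (qc x y).im = y := by simp [qc]

theorem qc_norm (x y : ℚ) : ‖qc x y‖ = √(((x * x + y * y : ℚ)) : ℝ) := by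
  rw [Complex.norm_def, Complex.normSq_apply, qc_re, qc_im]
  push_cast
  rfl

/-- upper bound of the norm -/
def nrU (x y : ℚ) : ℚ := sqU (x * x + y * y)

/-- lower bound of the norm -/
def nrL (x y : ℚ) : ℚ := sqL (x * x + y * y)

theorem nrU_spec (x y : ℚ) : ‖qc x y‖ ≤ ((nrU x y : ℚ) : ℝ) := by
  rw [qc_norm]
  exact sqU_spec le_rfl

theorem nrL_spec (x y : ℚ) : ((nrL x y : ℚ) : ℝ) ≤ ‖qc x y‖ := by
  rw [qc_norm]
  refine sqL_spec ?_ le_rfl
  push_cast
  exact add_nonneg (mul_self_nonneg _) (mul_self_nonneg _)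

theorem qc_mul (x y x' y' : ℚ) : qc x y * qc x' y' = qc (x * x' - y * y') (x * y' + y * x') := by
  apply Complex.ext
  · rw [Complex.mul_re, qc_re, qc_re, qc_im, qc_im, qc_re]; push_cast; ring
  · rw [Complex.mul_im, qc_re, qc_re, qc_im, qc_im, qc_im]; push_cast; ring

theorem qc_add (x y x' y' : ℚ) : qc x y + qc x' y' = qc (x + x') (y + y') := by
  apply Complex.ext
  · rw [Complex.add_re, qc_re, qc_re, qc_re]; push_cast; ring
  · rw [Complex.add_im, qc_im, qc_im, qc_im]; push_cast; ring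

theorem qc_sub (x y x' y' : ℚ) : qc x y - qc x' y' = qc (x - x') (y - y') := by
  apply Complex.ext
  · rw [Complex.sub_re, qc_re, qc_re, qc_re]; push_cast; ring
  · rw [Complex.sub_im, qc_im, qc_im, qc_im]; push_cast; ring

theorem qc_one : (1 : ℂ) = qc 1 0 := by
  apply Complex.ext
  · rw [qc_re]; simp
  · rw [qc_im]; simp

end SokalTI
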