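import Mathlib

/-!
# Fixed point complex exponential for the tip certificate (piece for helper48)

`cE x y` is `2^40 e^p`, `p = (x + iy)/2^20`, up to `2^14`, for `|p| ≤ 9/2`.
PROOF. `U_m` (`cU`) satisfies `|U_m - 2^40 p^m/m!| ≤ e_m`, `e_(m+1) ≤ (9/2) e_m/(m+1) + 2`, `e_0 = 0`, so
`∑_(m<36) e_m ≤ 162`; the tail of the exponential series from `36` on is `≤ 2 (9/2)^36/36!`, negligible.
`cEf` is the loop for the kernel.
-/

set_option autoImplicit false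

namespace SokalTI

open Finset

/-- rounded `2^40 p^m / m!`, `p = (x + i y) / 2^20` -/
def cU (x y : ℤ) : ℕ → ℤ × ℤ
  | 0 => (2 ^ 40, 0)
  | m + 1 => (((cU x y m).1 * x - (cU x y m).2 * y) / (2 ^ 20 * ((m : ℤ) + 1)),
      ((cU x y m).1 * y + (cU x y m).2 * x) / (2 ^ 20 * ((m : ℤ) + 1)))

/-- rounded `2^40 e^p` -/
def cE (x y : ℤ) : ℤ × ℤ := (∑ m ∈ range 36, (cU x y m).1, ∑ m ∈ range 36, (cU x y m).2)

/-- the loop: `k` steps, `m` the index, `(a, b)` the term, `(s, t)` the sum -/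
def cloop (x y : ℤ) (k : ℕ) : ℤ → ℤ → ℤ → ℤ → ℤ → ℤ × ℤ :=
  Nat.rec (fun _ _ _ s t => (s, t))
    (fun _ ih m a b s t => ih (m + 1) ((a * x - b * y) / (2 ^ 20 * (m + 1))) ((a * y + b * x) / (2 ^ 20 * (m + 1)))
      (s + a) (t + b)) k

/-- `cE`, fast -/
def cEf (x y : ℤ) : ℤ × ℤ := cloop x y 36 0 (2 ^ 40) 0 0 0

/-- invariant of the loop: started at index `m` with the term `U_m` and the sum of the terms before `m` -/
theorem cloop_inv (x y : ℤ) : ∀ k m : ℕ,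
    cloop x y k (m : ℤ) (cU x y m).1 (cU x y m).2 (∑ j ∈ range m, (cU x y j).1) (∑ j ∈ range m, (cU x y j).2) =
      (∑ j ∈ range (m + k), (cU x y j).1, ∑ j ∈ range (m + k), (cU x y j).2) := by
  intro k
  induction k with
  | zero => intro m; simp [cloop]
  | succ k ih =>
    intro m
    have h1 := ih (m + 1)
    rw [show m + 1 + k = m + (k + 1) by ring] at h1
    rw [← h1]
    rw [Finset.sum_range_succ (fun j => (cU x y j).1) m, Finset.sum_range_succ (fun j => (cU x y j).2) m]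
    show cloop x y k ((m : ℤ) + 1) _ _ _ _ = _
    push_cast
    rfl

theorem cEf_eq (x y : ℤ) : cEf x y = cE x y := by
  have h := cloop_inv x y 36 0
  simp only [Finset.range_zero, Finset.sum_empty, Nat.cast_zero, zero_add] at h
  exact h

/-- floor division is off by at most one -/
theorem ediv_near (a b : ℤ) (hb : 0 < b) : |(((a / b : ℤ) : ℝ)) - (a : ℝ) / b| ≤ 1 := by
  have h1 := Int.emod_add_mul_ediv a b
  have h2 := Int.emod_nonneg a hb.ne'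
  have h3 := Int.emod_lt_of_pos a hb
  have hbR : (0 : ℝ) < b := by exact_mod_cast hb
  have h4 : (a : ℝ) = ((a % b : ℤ) : ℝ) + (b : ℝ) * ((a / b : ℤ) : ℝ) := by exact_mod_cast h1.symm
  have h5 : (0 : ℝ) ≤ ((a % b : ℤ) : ℝ) := by exact_mod_cast h2
  have h6 : ((a % b : ℤ) : ℝ) < b := by exact_mod_cast h3
  have h7 : (a : ℝ) / b = ((a % b : ℤ) : ℝ) / b + ((a / b : ℤ) : ℝ) := by
    rw [h4]; field_simp
  rw [h7, abs_le]
  have h8 : ((a % b : ℤ) : ℝ) / b < 1 := by rw [div_lt_one hbR]; exact h6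
  have h9 : 0 ≤ ((a % b : ℤ) : ℝ) / b := by positivity
  constructor <;> linarith

/-- the pair of integers as a complex number -/
noncomputable def cV (z : ℤ × ℤ) : ℂ := (z.1 : ℂ) + (z.2 : ℂ) * Complex.I

/-- the numeric error sequence -/
def eN : ℕ → ℚ
  | 0 => 0
  | m + 1 => 9 / 2 * eN m / (m + 1) + 2

theorem eN_nonneg : ∀ m, 0 ≤ eN m := by
  intro m
  induction m with
  | zero => simp [eN]
  | succ m ih => unfold eN; positivity

theorem eN_sum : ∑ m ∈ range 36, eN m ≤ 162 := by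
  decide +kernel

theorem cU_step (x y : ℤ) (m : ℕ) :
    ‖cV (cU x y (m + 1)) - cV (cU x y m) * (((x : ℂ) + (y : ℂ) * Complex.I) / 2 ^ 20) / ((m : ℂ) + 1)‖ ≤ 2 := by
  set a := (cU x y m).1 with ha
  set b := (cU x y m).2 with hb
  have hpos : (0 : ℤ) < 2 ^ 20 * ((m : ℤ) + 1) := by positivity
  have h1 := ediv_near (a * x - b * y) (2 ^ 20 * ((m : ℤ) + 1)) hpos
  have h2 := ediv_near (a * y + b * x) (2 ^ 20 * ((m : ℤ) + 1)) hpos
  have e1 : cV (cU x y (m + 1)) - cV (cU x y m) * (((x : ℂ) + (y : ℂ) * Complex.I) / 2 ^ 20) / ((m : ℂ) + 1) =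
      (((((a * x - b * y) / (2 ^ 20 * ((m : ℤ) + 1)) : ℤ) : ℝ) - ((a * x - b * y : ℤ) : ℝ) / ((2 ^ 20 * ((m : ℤ) + 1) : ℤ) : ℝ) : ℝ) : ℂ) +
      (((((a * y + b * x) / (2 ^ 20 * ((m : ℤ) + 1)) : ℤ) : ℝ) - ((a * y + b * x : ℤ) : ℝ) / ((2 ^ 20 * ((m : ℤ) + 1) : ℤ) : ℝ) : ℝ) : ℂ) *
        Complex.I := by
    have hm : ((m : ℂ) + 1) ≠ 0 := by exact_mod_cast Nat.succ_ne_zero m
    have h3 : cV (cU x y (m + 1)) = (((a * x - b * y) / (2 ^ 20 * ((m : ℤ) + 1)) : ℤ) : ℂ) +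
        (((a * y + b * x) / (2 ^ 20 * ((m : ℤ) + 1)) : ℤ) : ℂ) * Complex.I := rfl
    rw [h3]
    have h4 : cV (cU x y m) = (a : ℂ) + (b : ℂ) * Complex.I := rfl
    rw [h4]
    generalize ((a * x - b * y) / (2 ^ 20 * ((m : ℤ) + 1)) : ℤ) = q1
    generalize ((a * y + b * x) / (2 ^ 20 * ((m : ℤ) + 1)) : ℤ) = q2
    push_cast
    have hI : Complex.I ^ 2 = -1 := Complex.I_sq
    field_simp
    ring_nf
    rw [hI]
    ring
  rw [e1]
  refine (norm_add_le _ _).trans ?_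
  rw [norm_mul, Complex.norm_I, mul_one, Complex.norm_real, Complex.norm_real, Real.norm_eq_abs, Real.norm_eq_abs]
  linarith

theorem cU_err (x y : ℤ) (h : ‖((x : ℂ) + (y : ℂ) * Complex.I) / 2 ^ 20‖ ≤ 9 / 2) : ∀ m : ℕ,
    ‖cV (cU x y m) - 2 ^ 40 * ((((x : ℂ) + (y : ℂ) * Complex.I) / 2 ^ 20) ^ m / (m.factorial : ℂ))‖ ≤ (eN m : ℝ) := by
  intro m
  induction m with
  | zero => simp [cU, cV, eN]; norm_num
  | succ m ih =>
    set p : ℂ := ((x : ℂ) + (y : ℂ) * Complex.I) / 2 ^ 20 with hp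
    have hm : ((m : ℂ) + 1) ≠ 0 := by exact_mod_cast Nat.succ_ne_zero m
    have hmn : ‖((m : ℂ) + 1)‖ = (m : ℝ) + 1 := by
      have : ((m : ℂ) + 1) = (((m : ℝ) + 1 : ℝ) : ℂ) := by push_cast; rfl
      rw [this, Complex.norm_real, Real.norm_eq_abs, abs_of_nonneg (by positivity)]
    have h1 : cV (cU x y (m + 1)) - 2 ^ 40 * (p ^ (m + 1) / ((m + 1).factorial : ℂ)) =
        (cV (cU x y (m + 1)) - cV (cU x y m) * p / ((m : ℂ) + 1)) +
        (cV (cU x y m) - 2 ^ 40 * (p ^ m / (m.factorial : ℂ))) * p / ((m : ℂ) + 1) := by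
      have hf : (m.factorial : ℂ) ≠ 0 := by exact_mod_cast m.factorial_ne_zero
      rw [Nat.factorial_succ]
      push_cast
      field_simp
      ring
    rw [h1]
    refine (norm_add_le _ _).trans ?_
    have h2 := cU_step x y m
    rw [← hp] at h2
    have h3 : ‖(cV (cU x y m) - 2 ^ 40 * (p ^ m / (m.factorial : ℂ))) * p / ((m : ℂ) + 1)‖ ≤
        (eN m : ℝ) * (9 / 2) / ((m : ℝ) + 1) := by
      rw [norm_div, norm_mul, hmn]
      gcongr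
      exact_mod_cast eN_nonneg m
    have h4 : ((eN (m + 1) : ℚ) : ℝ) = 9 / 2 * (eN m : ℝ) / ((m : ℝ) + 1) + 2 := by
      rw [show eN (m + 1) = 9 / 2 * eN m / (m + 1) + 2 from rfl]; push_cast; rfl
    rw [h4]
    have h5 : (eN m : ℝ) * (9 / 2) / ((m : ℝ) + 1) = 9 / 2 * (eN m : ℝ) / ((m : ℝ) + 1) := by ring
    linarith

/-- the sharper form: error `2^-32` -/
theorem cE_err32 (x y : ℤ) (h : x ^ 2 + y ^ 2 ≤ (9 * 2 ^ 19) ^ 2) :
    ‖(((cE x y).1 : ℂ) + ((cE x y).2 : ℂ) * Complex.I) / 2 ^ 40 - Complex.exp (((x : ℂ) + (y : ℂ) * Complex.I) / 2 ^ 20)‖ ≤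
      1 / 2 ^ 32 := by
  set p : ℂ := ((x : ℂ) + (y : ℂ) * Complex.I) / 2 ^ 20 with hp
  have hpn : ‖p‖ ≤ 9 / 2 := by
    have h1 : ‖((x : ℂ) + (y : ℂ) * Complex.I)‖ ≤ 9 * 2 ^ 19 := by
      have h2 : ‖((x : ℂ) + (y : ℂ) * Complex.I)‖ ^ 2 = (x : ℝ) ^ 2 + (y : ℝ) ^ 2 := by
        have h3 : ((x : ℂ) + (y : ℂ) * Complex.I) = (((x : ℝ) : ℂ) + ((y : ℝ) : ℂ) * Complex.I) := by push_cast; rfl
        rw [h3, Complex.sq_norm, Complex.normSq_add_mul_I]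
      have h4 : (x : ℝ) ^ 2 + (y : ℝ) ^ 2 ≤ (9 * 2 ^ 19) ^ 2 := by exact_mod_cast h
      have h5 : ‖((x : ℂ) + (y : ℂ) * Complex.I)‖ ^ 2 ≤ (9 * 2 ^ 19) ^ 2 := by rw [h2]; exact h4
      exact le_of_sq_le_sq h5 (by positivity)
    rw [hp, norm_div]
    have h6 : ‖(2 : ℂ) ^ 20‖ = 2 ^ 20 := by norm_num
    rw [h6, div_le_iff₀ (by positivity)]
    linarith
  have hsum : (((cE x y).1 : ℂ) + ((cE x y).2 : ℂ) * Complex.I) = ∑ m ∈ range 36, cV (cU x y m) := by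
    simp only [cE, cV, Finset.sum_add_distrib, ← Finset.sum_mul]
    push_cast
    rfl
  have htail := Complex.exp_bound' (x := p) (n := 36) (by
    have : ‖p‖ / ((Nat.succ 36 : ℕ) : ℝ) ≤ (9 / 2) / ((Nat.succ 36 : ℕ) : ℝ) := by gcongr
    refine this.trans ?_
    norm_num)
  have hA : ‖∑ m ∈ range 36, cV (cU x y m) - 2 ^ 40 * ∑ m ∈ range 36, p ^ m / (m.factorial : ℂ)‖ ≤ 162 := by
    rw [Finset.mul_sum, ← Finset.sum_sub_distrib]
    refine (norm_sum_le _ _).trans ?_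
    refine (Finset.sum_le_sum fun m _ => cU_err x y hpn m).trans ?_
    have := eN_sum
    exact_mod_cast this
  have hfac : ((36 : ℕ).factorial : ℝ) = 371993326789901217467999448150835200000000 := by
    norm_num [Nat.factorial]
  have hB : ‖Complex.exp p - ∑ m ∈ range 36, p ^ m / (m.factorial : ℂ)‖ ≤ 1 / 2 ^ 40 := by
    refine htail.trans ?_
    have h7 : ‖p‖ ^ 36 ≤ (9 / 2 : ℝ) ^ 36 := by gcongr
    rw [hfac]
    calc ‖p‖ ^ 36 / 371993326789901217467999448150835200000000 * 2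
        ≤ (9 / 2 : ℝ) ^ 36 / 371993326789901217467999448150835200000000 * 2 := by gcongr
      _ ≤ 1 / 2 ^ 40 := by norm_num
  have hC : (((cE x y).1 : ℂ) + ((cE x y).2 : ℂ) * Complex.I) / 2 ^ 40 - Complex.exp p =
      (∑ m ∈ range 36, cV (cU x y m) - 2 ^ 40 * ∑ m ∈ range 36, p ^ m / (m.factorial : ℂ)) / 2 ^ 40 -
      (Complex.exp p - ∑ m ∈ range 36, p ^ m / (m.factorial : ℂ)) := by
    rw [hsum]; field_simp; ring
  rw [hC]
  refine (norm_sub_le _ _).trans ?_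
  have h8 : ‖(∑ m ∈ range 36, cV (cU x y m) - 2 ^ 40 * ∑ m ∈ range 36, p ^ m / (m.factorial : ℂ)) / 2 ^ 40‖ ≤
      162 / 2 ^ 40 := by
    rw [norm_div]
    have h9 : ‖(2 : ℂ) ^ 40‖ = 2 ^ 40 := by norm_num
    rw [h9]
    gcongr
  have : (162 : ℝ) / 2 ^ 40 + 1 / 2 ^ 40 ≤ 1 / 2 ^ 32 := by norm_num
  linarith

theorem cE_err (x y : ℤ) (h : x ^ 2 + y ^ 2 ≤ (9 * 2 ^ 19) ^ 2) :
    ‖(((cE x y).1 : ℂ) + ((cE x y).2 : ℂ) * Complex.I) / 2 ^ 40 - Complex.exp (((x : ℂ) + (y : ℂ) * Complex.I) / 2 ^ 20)‖ ≤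
      1 / 2 ^ 26 := by
  refine (cE_err32 x y h).trans ?_
  norm_num

end SokalTI
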