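import Pool.Agent.Lib_MP_af4de1_ti.Geo

/-!
# Enclosures of `h_L`, `h_R`, `B` on a disc

`E ≈ e^(p_c)`, `H ≈ h_L(p_c)`.
-/

set_option autoImplicit false

namespace SokalTI

open SokalFU Complex

section
variable {E H pc z : ℂ} {ε r : ℝ}

/-- `e^(p_c + z)` -/
theorem exp_encl (hz : ‖z‖ ≤ r) (hr : r ≤ 1) :
    ∃ w : ℂ, ‖w‖ ≤ r ^ 2 ∧ cexp (pc + z) = cexp pc * (1 + z + w) := by
  refine ⟨cexp z - 1 - z, ?_, ?_⟩
  · refine (norm_exp_sub_one_sub_id_le (hz.trans hr)).trans ?_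
    exact pow_le_pow_left₀ (norm_nonneg _) hz 2
  · rw [exp_add]
    ring

theorem den_encl (hE : ‖cexp pc - E‖ ≤ ε) (hz : ‖z‖ ≤ r) (hr : r ≤ 1) :
    ‖E - 1‖ - ε - (‖E‖ + ε) * (r + r ^ 2) ≤ ‖cexp (pc + z) - 1‖ := by
  obtain ⟨w, hw, he⟩ := exp_encl (pc := pc) hz hr
  have hε : 0 ≤ ε := (norm_nonneg _).trans hE
  have h1 : ‖cexp pc‖ ≤ ‖E‖ + ε := by
    calc ‖cexp pc‖ = ‖E + (cexp pc - E)‖ := by congr 1; ring
      _ ≤ _ := norm_add_le _ _
      _ ≤ _ := by linarith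
  have h2 : E - 1 = (cexp (pc + z) - 1) - (cexp pc - E) - cexp pc * (z + w) := by rw [he]; ring
  have h3 : ‖E - 1‖ ≤ ‖cexp (pc + z) - 1‖ + ε + (‖E‖ + ε) * (r + r ^ 2) := by
    rw [h2]
    refine (norm_sub_le _ _).trans (add_le_add ((norm_sub_le _ _).trans (add_le_add le_rfl hE)) ?_)
    rw [norm_mul]
    exact mul_le_mul h1 ((norm_add_le _ _).trans (add_le_add hz hw)) (norm_nonneg _) (by positivity)
  linarith

theorem encl_L (hp : (pc + z).re ≠ 0) (hE : ‖cexp pc - E‖ ≤ ε) (hz : ‖z‖ ≤ r) (hr : r ≤ 1) :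
    ‖hL (pc + z) - H‖ * (‖E - 1‖ - ε - (‖E‖ + ε) * (r + r ^ 2)) ≤
      ‖pc - H * (E - 1)‖ + ‖H‖ * ε + r * (‖1 - H * E‖ + ‖H‖ * ε) + ‖H‖ * ((‖E‖ + ε) * r ^ 2) := by
  obtain ⟨w, hw, he⟩ := exp_encl (pc := pc) hz hr
  have hε : 0 ≤ ε := (norm_nonneg _).trans hE
  have h0 : 0 ≤ r := (norm_nonneg _).trans hz
  have h1 : ‖cexp pc‖ ≤ ‖E‖ + ε := by
    calc ‖cexp pc‖ = ‖E + (cexp pc - E)‖ := by congr 1; ring
      _ ≤ _ := norm_add_le _ _
      _ ≤ _ := by linarith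
  have hne := exp_ne_one hp
  have h2 : (hL (pc + z) - H) * (cexp (pc + z) - 1) =
      (pc - H * (E - 1)) - H * (cexp pc - E) + z * ((1 - H * E) - H * (cexp pc - E)) - H * (cexp pc * w) := by
    have := hL_mul hp
    rw [sub_mul, this, he]
    ring
  have h3 := den_encl (pc := pc) (z := z) hE hz hr
  have h4 : ‖hL (pc + z) - H‖ * ‖cexp (pc + z) - 1‖ ≤
      ‖pc - H * (E - 1)‖ + ‖H‖ * ε + r * (‖1 - H * E‖ + ‖H‖ * ε) + ‖H‖ * ((‖E‖ + ε) * r ^ 2) := by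
    rw [← norm_mul, h2]
    refine (norm_sub_le _ _).trans (add_le_add ((norm_add_le _ _).trans (add_le_add ((norm_sub_le _ _).trans
      (add_le_add le_rfl ?_)) ?_)) ?_)
    · rw [norm_mul]
      exact mul_le_mul_of_nonneg_left hE (norm_nonneg _)
    · rw [norm_mul]
      refine mul_le_mul hz ((norm_sub_le _ _).trans (add_le_add le_rfl ?_)) (norm_nonneg _) h0
      rw [norm_mul]
      exact mul_le_mul_of_nonneg_left hE (norm_nonneg _)
    · rw [norm_mul, norm_mul]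
      exact mul_le_mul_of_nonneg_left (mul_le_mul h1 hw (norm_nonneg _) (by positivity)) (norm_nonneg _)
  exact (mul_le_mul_of_nonneg_left h3 (norm_nonneg _)).trans h4

theorem encl_R (hp : (pc + z).re ≠ 0) (hE : ‖cexp pc - E‖ ≤ ε) (hz : ‖z‖ ≤ r) (hr : r ≤ 1) :
    ‖hR (pc + z) - (H + pc)‖ * (‖E - 1‖ - ε - (‖E‖ + ε) * (r + r ^ 2)) ≤
      ‖pc - H * (E - 1)‖ + ‖H‖ * ε + (‖E‖ + ε) * (r * ‖1 - H‖ + r ^ 2 + r ^ 2 * (r + ‖H‖)) := by
  obtain ⟨w, hw, he⟩ := exp_encl (pc := pc) hz hr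
  have hε : 0 ≤ ε := (norm_nonneg _).trans hE
  have h0 : 0 ≤ r := (norm_nonneg _).trans hz
  have h1 : ‖cexp pc‖ ≤ ‖E‖ + ε := by
    calc ‖cexp pc‖ = ‖E + (cexp pc - E)‖ := by congr 1; ring
      _ ≤ _ := norm_add_le _ _
      _ ≤ _ := by linarith
  have h2 : (hR (pc + z) - (H + pc)) * (cexp (pc + z) - 1) =
      (pc - H * (E - 1)) - H * (cexp pc - E) + cexp pc * (z * (1 - H) + z ^ 2 + w * (z - H)) := by
    have h5 : hR (pc + z) = hL (pc + z) + (pc + z) := by linear_combination hR_sub_hL hp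
    have := hL_mul hp
    rw [h5]
    have h6 : (hL (pc + z) + (pc + z) - (H + pc)) * (cexp (pc + z) - 1) =
        hL (pc + z) * (cexp (pc + z) - 1) + (z - H) * (cexp (pc + z) - 1) := by ring
    rw [h6, this, he]
    ring
  have h3 := den_encl (pc := pc) (z := z) hE hz hr
  have h4 : ‖hR (pc + z) - (H + pc)‖ * ‖cexp (pc + z) - 1‖ ≤
      ‖pc - H * (E - 1)‖ + ‖H‖ * ε + (‖E‖ + ε) * (r * ‖1 - H‖ + r ^ 2 + r ^ 2 * (r + ‖H‖)) := by
    rw [← norm_mul, h2]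
    refine (norm_add_le _ _).trans (add_le_add ((norm_sub_le _ _).trans (add_le_add le_rfl ?_)) ?_)
    · rw [norm_mul]
      exact mul_le_mul_of_nonneg_left hE (norm_nonneg _)
    · rw [norm_mul]
      refine mul_le_mul h1 ((norm_add_le _ _).trans (add_le_add ((norm_add_le _ _).trans (add_le_add ?_ ?_)) ?_))
        (norm_nonneg _) (by positivity)
      · rw [norm_mul]
        exact mul_le_mul_of_nonneg_right hz (norm_nonneg _)
      · rw [norm_pow]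
        exact pow_le_pow_left₀ (norm_nonneg _) hz 2
      · rw [norm_mul]
        exact mul_le_mul hw ((norm_sub_le _ _).trans (add_le_add hz le_rfl)) (norm_nonneg _) (by positivity)
  exact (mul_le_mul_of_nonneg_left h3 (norm_nonneg _)).trans h4

end

end SokalTI
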