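import Pool.Agent.Lib_MP_af4de1_ti.Box0
import Pool.Agent.Lib_MP_af4de1_ti.CEx
import Pool.Agent.Lib_MP_af4de1_ti.Encl

/-!
# Intervals of `h_L`, `h_R`, `B`, `G` on a disc
-/

set_option autoImplicit false

namespace SokalTI

open SokalFU Complex

/-! ### The analytic statement -/

theorem encl_all {E H pc : ℂ} {ε r nH nE n0 n1 nM dL ηL ηR : ℝ} (hE : ‖cexp pc - E‖ ≤ ε)
    (hnH : ‖H‖ ≤ nH) (hnE : ‖E‖ ≤ nE) (hn0 : ‖pc - H * (E - 1)‖ ≤ n0) (hn1 : ‖1 - H * E‖ ≤ n1)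
    (hnM : ‖1 - H‖ ≤ nM) (hdL : dL ≤ ‖E - 1‖) (r1 : r ≤ 1)
    (hden : 0 < dL - ε - (nE + ε) * (r + r ^ 2))
    (hηL : (n0 + nH * ε + r * (n1 + nH * ε) + nH * ((nE + ε) * r ^ 2)) / (dL - ε - (nE + ε) * (r + r ^ 2)) ≤ ηL)
    (hηR : (n0 + nH * ε + (nE + ε) * (r * nM + r ^ 2 + r ^ 2 * (r + nH))) / (dL - ε - (nE + ε) * (r + r ^ 2)) ≤ ηR)
    (hre : r < pc.re) {p : ℂ} (hp : ‖p - pc‖ ≤ r) :
    0 < p.re ∧ ‖hL p - H‖ ≤ ηL ∧ ‖hR p - (H + pc)‖ ≤ ηR := by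
  have hε : 0 ≤ ε := (norm_nonneg _).trans hE
  have r0 : 0 ≤ r := (norm_nonneg _).trans hp
  have hz : pc + (p - pc) = p := by ring
  have hpre : 0 < p.re := by
    have h1 : |(p - pc).re| ≤ r := (abs_re_le_norm _).trans hp
    rw [sub_re] at h1
    have := (abs_le.1 h1).1
    linarith
  have hden' : dL - ε - (nE + ε) * (r + r ^ 2) ≤ ‖E - 1‖ - ε - (‖E‖ + ε) * (r + r ^ 2) := by
    have h1 : (‖E‖ + ε) * (r + r ^ 2) ≤ (nE + ε) * (r + r ^ 2) :=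
      mul_le_mul_of_nonneg_right (by linarith) (by positivity)
    linarith
  have nH0 : 0 ≤ nH := (norm_nonneg _).trans hnH
  have nE0 : 0 ≤ nE := (norm_nonneg _).trans hnE
  refine ⟨hpre, ?_, ?_⟩
  · have h1 := encl_L (E := E) (H := H) (pc := pc) (z := p - pc) (by rw [hz]; exact hpre.ne') hE hp r1
    rw [hz] at h1
    refine le_trans ?_ hηL
    rw [le_div_iff₀ hden]
    refine (mul_le_mul_of_nonneg_left hden' (norm_nonneg _)).trans (h1.trans ?_)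
    gcongr
  · have h1 := encl_R (E := E) (H := H) (pc := pc) (z := p - pc) (by rw [hz]; exact hpre.ne') hE hp r1
    rw [hz] at h1
    refine le_trans ?_ hηR
    rw [le_div_iff₀ hden]
    refine (mul_le_mul_of_nonneg_left hden' (norm_nonneg _)).trans (h1.trans ?_)
    gcongr

/-- the value at the centre -/
theorem encl_cen {E H pc : ℂ} {ε nH n0 dL e0 : ℝ} (hE : ‖cexp pc - E‖ ≤ ε)
    (hnH : ‖H‖ ≤ nH) (hn0 : ‖pc - H * (E - 1)‖ ≤ n0) (hdL : dL ≤ ‖E - 1‖)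
    (hden : 0 < dL - ε) (he0 : (n0 + nH * ε) / (dL - ε) ≤ e0) (hre : 0 < pc.re) :
    ‖hL pc - H‖ ≤ e0 := by
  have hε : 0 ≤ ε := (norm_nonneg _).trans hE
  have h1 := encl_L (E := E) (H := H) (pc := pc) (z := 0) (r := 0) (by rw [add_zero]; exact hre.ne') hE (by simp)
    (by norm_num)
  rw [add_zero] at h1
  refine le_trans ?_ he0
  rw [le_div_iff₀ hden]
  have h2 : ‖hL pc - H‖ * (dL - ε) ≤ ‖hL pc - H‖ * (‖E - 1‖ - ε) :=
    mul_le_mul_of_nonneg_left (by linarith) (norm_nonneg _)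
  have h3 : ‖H‖ * ε ≤ nH * ε := mul_le_mul_of_nonneg_right hnH hε
  nlinarith

theorem Bp_encl {H pc : ℂ} {r nM nR ηL ηR e0 nP : ℝ} (hnM : ‖1 - H‖ ≤ nM) (hnR : ‖1 - (H + pc)‖ ≤ nR)
    (h : ∀ p : ℂ, ‖p - pc‖ ≤ r → 0 < p.re ∧ ‖hL p - H‖ ≤ ηL ∧ ‖hR p - (H + pc)‖ ≤ ηR)
    (h0 : ‖hL pc - H‖ ≤ e0) (hP : ‖pc‖ ≤ nP) {p : ℂ} (hp : ‖p - pc‖ ≤ r) :
    ‖Bp p - pc * ((H + (H + pc)) / 2 - 1)‖ ≤ (nM + ηL) * (nR + ηR) * r + nP * e0 := by
  have r0 : 0 ≤ r := (norm_nonneg _).trans hp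
  have hpc := h pc (by rw [sub_self, norm_zero]; exact r0)
  have hG : ∀ x ∈ Metric.closedBall pc r, ‖-((1 - hL x) * (1 - hR x))‖ ≤ (nM + ηL) * (nR + ηR) := by
    intro x hx
    rw [mem_closedBall_iff_norm] at hx
    obtain ⟨-, h1, h2⟩ := h x hx
    rw [norm_neg, norm_mul]
    have h3 : ‖1 - hL x‖ ≤ nM + ηL := by
      calc ‖1 - hL x‖ = ‖(1 - H) - (hL x - H)‖ := by congr 1; ring
        _ ≤ _ := norm_sub_le _ _
        _ ≤ _ := add_le_add hnM h1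
    have h4 : ‖1 - hR x‖ ≤ nR + ηR := by
      calc ‖1 - hR x‖ = ‖(1 - (H + pc)) - (hR x - (H + pc))‖ := by congr 1; ring
        _ ≤ _ := norm_sub_le _ _
        _ ≤ _ := add_le_add hnR h2
    exact mul_le_mul h3 h4 (norm_nonneg _) ((norm_nonneg _).trans h3)
  have hmv : ‖Bp p - Bp pc‖ ≤ (nM + ηL) * (nR + ηR) * ‖p - pc‖ := by
    refine Convex.norm_image_sub_le_of_norm_hasDerivWithin_le (s := Metric.closedBall pc r)
      (f' := fun x => -((1 - hL x) * (1 - hR x))) ?_ hG (convex_closedBall _ _) ?_ ?_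
    · intro x hx
      rw [mem_closedBall_iff_norm] at hx
      exact (hasDerivAt_Bp (h x hx).1.ne').hasDerivWithinAt
    · exact Metric.mem_closedBall_self r0
    · rw [mem_closedBall_iff_norm]; exact hp
  have hC : 0 ≤ (nM + ηL) * (nR + ηR) := (norm_nonneg _).trans (hG pc (Metric.mem_closedBall_self r0))
  have hcen : ‖Bp pc - pc * ((H + (H + pc)) / 2 - 1)‖ ≤ nP * e0 := by
    have h1 : hR pc = hL pc + pc := by linear_combination hR_sub_hL hpc.1.ne'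
    have h2 : Bp pc - pc * ((H + (H + pc)) / 2 - 1) = pc * (hL pc - H) := by
      unfold Bp
      rw [h1]
      ring
    rw [h2, norm_mul]
    exact mul_le_mul hP h0 (norm_nonneg _) ((norm_nonneg _).trans hP)
  calc ‖Bp p - pc * ((H + (H + pc)) / 2 - 1)‖ = ‖(Bp p - Bp pc) + (Bp pc - pc * ((H + (H + pc)) / 2 - 1))‖ := by
        congr 1; ring
    _ ≤ _ := norm_add_le _ _
    _ ≤ (nM + ηL) * (nR + ηR) * r + nP * e0 := by
        refine add_le_add (hmv.trans ?_) hcen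
        exact mul_le_mul_of_nonneg_left hp hC

/-! ### The intervals -/

/-- rational bounds on a disc -/
structure Iv where
  hL1 : ℚ
  hL2 : ℚ
  aL1 : ℚ
  aL2 : ℚ
  sL1 : ℚ
  mL1 : ℚ
  mL2 : ℚ
  hR2 : ℚ
  aR1 : ℚ
  sR1 : ℚ
  sR2 : ℚ
  mR1 : ℚ
  mR2 : ℚ
  bx1 : ℚ
  bx2 : ℚ
  by1 : ℚ
  by2 : ℚ
  gx1 : ℚ
  gx2 : ℚ
  gy1 : ℚ
  gy2 : ℚ

/-- the bounds hold at `p` -/
structure Iv.Ok (I : Iv) (p : ℂ) : Prop where
  pos : 0 < p.re
  hL1 : (I.hL1 : ℝ) ≤ ‖hL p‖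
  hL2 : ‖hL p‖ ≤ I.hL2
  aL1 : (I.aL1 : ℝ) ≤ (hL p).re
  aL2 : (hL p).re ≤ I.aL2
  sL1 : (I.sL1 : ℝ) ≤ -(hL p).im
  mL1 : (I.mL1 : ℝ) ≤ ‖1 - hL p‖
  mL2 : ‖1 - hL p‖ ≤ I.mL2
  hR2 : ‖hR p‖ ≤ I.hR2
  aR1 : (I.aR1 : ℝ) ≤ (hR p).re
  sR1 : (I.sR1 : ℝ) ≤ (hR p).im
  sR2 : (hR p).im ≤ I.sR2
  mR1 : (I.mR1 : ℝ) ≤ ‖1 - hR p‖
  mR2 : ‖1 - hR p‖ ≤ I.mR2
  bx1 : (I.bx1 : ℝ) ≤ (Bp p).re
  bx2 : (Bp p).re ≤ I.bx2
  by1 : (I.by1 : ℝ) ≤ (Bp p).im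
  by2 : (Bp p).im ≤ I.by2
  gx1 : (I.gx1 : ℝ) ≤ ((1 - hL p) * (1 - hR p)).re
  gx2 : ((1 - hL p) * (1 - hR p)).re ≤ I.gx2
  gy1 : (I.gy1 : ℝ) ≤ ((1 - hL p) * (1 - hR p)).im
  gy2 : ((1 - hL p) * (1 - hR p)).im ≤ I.gy2

/-- the final record -/
def mkI (px py r hx hy nH nM nR eL eR e0 : ℚ) : Iv :=
  let Hx := hx + px
  let Hy := hy + py
  let qx := (hx + Hx) / 2 - 1
  let qy := (hy + Hy) / 2
  let eB := (nM + eL) * (nR + eR) * r + nrU px py * e0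
  let bx := px * qx - py * qy
  let bY := px * qy + py * qx
  let eG := eL * nR + eR * nM + eL * eR
  let gx := (1 - hx) * (1 - Hx) - hy * Hy
  let gy := -((1 - hx) * Hy) - hy * (1 - Hx)
  ⟨nrL hx hy - eL, nH + eL, hx - eL, hx + eL, -hy - eL, nrL (1 - hx) hy - eL, nM + eL, nrU Hx Hy + eR, Hx - eR,
    Hy - eR, Hy + eR, nrL (1 - Hx) Hy - eR, nR + eR, bx - eB, bx + eB, bY - eB, bY + eB, gx - eG, gx + eG, gy - eG, gy + eG⟩

/-- second stage: the centre `p = (px, py)`, `E = (ex, ey)`, `H = (hx, hy)` -/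
def mkH (px py r ex ey hx hy : ℚ) (k : Iv → Bool) : Bool :=
  let ε : ℚ := mkRat 1 4294967296
  let nH := nrU hx hy
  let nE := nrU ex ey
  let n0 := nrU (px - (hx * (ex - 1) - hy * ey)) (py - (hx * ey + hy * (ex - 1)))
  let n1 := nrU (1 - (hx * ex - hy * ey)) (hx * ey + hy * ex)
  let nM := nrU (1 - hx) hy
  let dL := nrL (ex - 1) ey
  let den := dL - ε - (nE + ε) * (r + r * r)
  decide (0 < den) && decide (0 < dL - ε) && decide (r < px) && decide (r ≤ 1) &&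
    k (mkI px py r hx hy nH nM (nrU (1 - (hx + px)) (hy + py))
      (rU ((n0 + nH * ε + r * (n1 + nH * ε) + nH * ((nE + ε) * (r * r))) / den))
      (rU ((n0 + nH * ε + (nE + ε) * (r * nM + r * r + r * r * (r + nH))) / den))
      (rU ((n0 + nH * ε) / (dL - ε))))

/-- first stage -/
def mkE (px py r ex ey : ℚ) (k : Iv → Bool) : Bool :=
  let dx := ex - 1
  let dd := dx * dx + ey * ey
  mkH px py r ex ey (rL ((px * dx + py * ey) / dd)) (rL ((py * dx - px * ey) / dd)) k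

/-- the intervals on the disc with the centre `(a + ib) / 2^20` and the radius `r` -/
def mkIv (a b : ℤ) (r : ℚ) (k : Iv → Bool) : Bool :=
  decide (a * a + b * b ≤ 22265110462464) &&
    mkE (mkRat a 1048576) (mkRat b 1048576) r (mkRat (cEf a b).1 1099511627776) (mkRat (cEf a b).2 1099511627776) k

end SokalTI
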