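import Pool.Agent.Lib_MP_af4de1_ti.Box1

/-!
# Soundness of the intervals
-/

set_option autoImplicit false

namespace SokalTI

open SokalFU Complex

theorem norm_sub_bounds {x y : ℂ} {η : ℝ} (h : ‖x - y‖ ≤ η) : ‖y‖ - η ≤ ‖x‖ ∧ ‖x‖ ≤ ‖y‖ + η := by
  constructor
  · have : ‖y‖ ≤ ‖x‖ + ‖x - y‖ := by
      calc ‖y‖ = ‖x - (x - y)‖ := by congr 1; ring
        _ ≤ _ := norm_sub_le _ _
    linarith
  · have : ‖x‖ ≤ ‖y‖ + ‖x - y‖ := by
      calc ‖x‖ = ‖y + (x - y)‖ := by congr 1; ring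
        _ ≤ _ := norm_add_le _ _
    linarith

theorem re_sub_bounds {x y : ℂ} {η : ℝ} (h : ‖x - y‖ ≤ η) : y.re - η ≤ x.re ∧ x.re ≤ y.re + η := by
  have h1 : |(x - y).re| ≤ η := (abs_re_le_norm _).trans h
  rw [sub_re] at h1
  have := abs_le.1 h1
  constructor <;> linarith [this.1, this.2]

theorem im_sub_bounds {x y : ℂ} {η : ℝ} (h : ‖x - y‖ ≤ η) : y.im - η ≤ x.im ∧ x.im ≤ y.im + η := by
  have h1 : |(x - y).im| ≤ η := (abs_im_le_norm _).trans h
  rw [sub_im] at h1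
  have := abs_le.1 h1
  constructor <;> linarith [this.1, this.2]

theorem mkI_ok {px py r hx hy nH nM nR eL eR e0 : ℚ}
    (hnH : nrU hx hy ≤ nH) (hnM : ‖1 - qc hx hy‖ ≤ (nM : ℝ)) (hnR : ‖1 - (qc hx hy + qc px py)‖ ≤ (nR : ℝ))
    (hmL : ((nrL (1 - hx) hy : ℚ) : ℝ) ≤ ‖1 - qc hx hy‖)
    (h : ∀ p : ℂ, ‖p - qc px py‖ ≤ r → 0 < p.re ∧ ‖hL p - qc hx hy‖ ≤ eL ∧ ‖hR p - (qc hx hy + qc px py)‖ ≤ eR)
    (h0 : ‖hL (qc px py) - qc hx hy‖ ≤ e0) {p : ℂ} (hp : ‖p - qc px py‖ ≤ r) :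
    (mkI px py r hx hy nH nM nR eL eR e0).Ok p := by
  obtain ⟨hpos, hl, hr⟩ := h p hp
  have hadd : qc hx hy + qc px py = qc (hx + px) (hy + py) := qc_add _ _ _ _
  have nb := norm_sub_bounds hl
  have rb := re_sub_bounds hl
  have ib := im_sub_bounds hl
  have hr' : ‖hR p - qc (hx + px) (hy + py)‖ ≤ eR := by rw [← hadd]; exact hr
  have nbR := norm_sub_bounds hr'
  have rbR := re_sub_bounds hr'
  have ibR := im_sub_bounds hr'
  have hl1 : ‖(1 - hL p) - (1 - qc hx hy)‖ ≤ eL := by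
    rw [show (1 - hL p) - (1 - qc hx hy) = -(hL p - qc hx hy) by ring, norm_neg]
    exact hl
  have hr1 : ‖(1 - hR p) - (1 - qc (hx + px) (hy + py))‖ ≤ eR := by
    rw [show (1 - hR p) - (1 - qc (hx + px) (hy + py)) = -(hR p - qc (hx + px) (hy + py)) by ring, norm_neg]
    exact hr'
  have mb := norm_sub_bounds hl1
  have mbR := norm_sub_bounds hr1
  have hB := Bp_encl hnM hnR h h0 (nrU_spec px py) hp
  have hBc : qc px py * ((qc hx hy + (qc hx hy + qc px py)) / 2 - 1) =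
      qc (px * ((hx + (hx + px)) / 2 - 1) - py * ((hy + (hy + py)) / 2))
        (px * ((hy + (hy + py)) / 2) + py * ((hx + (hx + px)) / 2 - 1)) := by
    rw [← qc_mul]
    congr 1
    apply Complex.ext
    · rw [qc_re, sub_re, one_re, show (qc hx hy + (qc hx hy + qc px py)) / 2 = (qc hx hy + (qc hx hy + qc px py)) * ((1 / 2 : ℝ) : ℂ) by push_cast; ring,
        re_mul_ofReal, add_re, add_re, qc_re, qc_re]
      push_cast
      ring
    · rw [qc_im, sub_im, one_im, show (qc hx hy + (qc hx hy + qc px py)) / 2 = (qc hx hy + (qc hx hy + qc px py)) * ((1 / 2 : ℝ) : ℂ) by push_cast; ring,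
        im_mul_ofReal, add_im, add_im, qc_im, qc_im]
      push_cast
      ring
  rw [hBc] at hB
  have bB := re_sub_bounds hB
  have cB := im_sub_bounds hB
  rw [qc_re] at bB
  rw [qc_im] at cB
  -- G
  have hG : ‖(1 - hL p) * (1 - hR p) - (1 - qc hx hy) * (1 - qc (hx + px) (hy + py))‖ ≤ (eL : ℝ) * nR + eR * nM + eL * eR := by
    have e1 : (1 - hL p) * (1 - hR p) - (1 - qc hx hy) * (1 - qc (hx + px) (hy + py)) =
        -((hL p - qc hx hy) * (1 - (qc hx hy + qc px py))) - (hR p - qc (hx + px) (hy + py)) * (1 - qc hx hy) +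
          (hL p - qc hx hy) * (hR p - qc (hx + px) (hy + py)) := by
      rw [← hadd]; ring
    rw [e1]
    refine (norm_add_le _ _).trans (add_le_add ((norm_sub_le _ _).trans (add_le_add ?_ ?_)) ?_)
    · rw [norm_neg, norm_mul]
      exact mul_le_mul hl hnR (norm_nonneg _) ((norm_nonneg _).trans hl)
    · rw [norm_mul]
      exact mul_le_mul hr' hnM (norm_nonneg _) ((norm_nonneg _).trans hr')
    · rw [norm_mul]
      exact mul_le_mul hl hr' (norm_nonneg _) ((norm_nonneg _).trans hl)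
  have hGc : (1 - qc hx hy) * (1 - qc (hx + px) (hy + py)) =
      qc ((1 - hx) * (1 - (hx + px)) - hy * (hy + py)) (-((1 - hx) * (hy + py)) - hy * (1 - (hx + px))) := by
    rw [qc_one, qc_sub, qc_sub, qc_mul]
    congr 1 <;> ring
  rw [hGc] at hG
  have gr := re_sub_bounds hG
  have gi := im_sub_bounds hG
  rw [qc_re] at gr
  rw [qc_im] at gi
  have hmR : ((nrL (1 - (hx + px)) (hy + py) : ℚ) : ℝ) ≤ ‖1 - qc (hx + px) (hy + py)‖ := by
    have h1 := nrL_spec (1 - (hx + px)) (hy + py)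
    have h2 : ‖1 - qc (hx + px) (hy + py)‖ = ‖qc (1 - (hx + px)) (hy + py)‖ := by
      rw [qc_one, qc_sub, qc_norm, qc_norm]
      congr 2
      ring
    rw [h2]
    exact h1
  have hnR' : ‖1 - qc (hx + px) (hy + py)‖ ≤ (nR : ℝ) := by rw [← hadd]; exact hnR
  have hnH' : ((nrU hx hy : ℚ) : ℝ) ≤ (nH : ℝ) := by exact_mod_cast hnH
  have hH1 := nrL_spec hx hy
  have hH2 := nrU_spec hx hy
  have hR2 := nrU_spec (hx + px) (hy + py)
  rw [qc_re] at rb rbR
  rw [qc_im] at ib ibR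
  constructor
  all_goals try dsimp only [mkI]
  all_goals try push_cast
  · exact hpos
  · linarith [nb.1]
  · linarith [nb.2]
  · linarith [rb.1]
  · linarith [rb.2]
  · linarith [ib.2]
  · linarith [mb.1]
  · linarith [mb.2]
  · linarith [nbR.2]
  · push_cast at rbR
    linarith [rbR.1]
  · push_cast at ibR
    linarith [ibR.1]
  · push_cast at ibR
    linarith [ibR.2]
  · linarith [mbR.1]
  · linarith [mbR.2]
  · push_cast at bB
    linarith [bB.1]
  · push_cast at bB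
    linarith [bB.2]
  · push_cast at cB
    linarith [cB.1]
  · push_cast at cB
    linarith [cB.2]
  · push_cast at gr
    linarith [gr.1]
  · push_cast at gr
    linarith [gr.2]
  · push_cast at gi
    linarith [gi.1]
  · push_cast at gi
    linarith [gi.2]

theorem mkH_spec {px py r ex ey hx hy : ℚ} {k : Iv → Bool} (hE : ‖cexp (qc px py) - qc ex ey‖ ≤ 1 / 4294967296)
    (h : mkH px py r ex ey hx hy k = true) :
    ∃ I, k I = true ∧ ∀ p : ℂ, ‖p - qc px py‖ ≤ r → I.Ok p := by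
  unfold mkH at h
  simp only [Bool.and_eq_true, decide_eq_true_eq] at h
  obtain ⟨⟨⟨⟨h1, h2⟩, h3⟩, h4⟩, h5⟩ := h
  refine ⟨_, h5, fun p hp => ?_⟩
  have r0 : (0 : ℝ) ≤ r := (norm_nonneg _).trans hp
  have eε : ((mkRat 1 4294967296 : ℚ) : ℝ) = 1 / 4294967296 := by
    rw [Rat.mkRat_eq_div]; push_cast; rfl
  have hden : (0 : ℝ) < (nrL (ex - 1) ey : ℚ) - 1 / 4294967296 - ((nrU ex ey : ℚ) + 1 / 4294967296) * (r + r ^ 2) := by
    have : (0 : ℝ) < ((nrL (ex - 1) ey - mkRat 1 4294967296 - (nrU ex ey + mkRat 1 4294967296) * (r + r * r) : ℚ) : ℝ) := by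
      exact_mod_cast h1
    push_cast at this
    rw [eε] at this
    rw [pow_two]
    exact this
  have hden2 : (0 : ℝ) < (nrL (ex - 1) ey : ℚ) - 1 / 4294967296 := by
    have : (0 : ℝ) < ((nrL (ex - 1) ey - mkRat 1 4294967296 : ℚ) : ℝ) := by exact_mod_cast h2
    push_cast at this
    rw [eε] at this
    exact this
  have hre : (r : ℝ) < (qc px py).re := by rw [qc_re]; exact_mod_cast h3
  have hr1 : (r : ℝ) ≤ 1 := by exact_mod_cast h4
  have e1 : qc ex ey - 1 = qc (ex - 1) ey := by rw [qc_one, qc_sub, sub_zero]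
  have e2 : qc px py - qc hx hy * (qc ex ey - 1) =
      qc (px - (hx * (ex - 1) - hy * ey)) (py - (hx * ey + hy * (ex - 1))) := by
    rw [e1, qc_mul, qc_sub]
  have e3 : ‖1 - qc hx hy * qc ex ey‖ = ‖qc (1 - (hx * ex - hy * ey)) (hx * ey + hy * ex)‖ := by
    rw [qc_mul, qc_one, qc_sub, qc_norm, qc_norm]
    congr 2
    ring
  have e4 : ‖1 - qc hx hy‖ = ‖qc (1 - hx) hy‖ := by
    rw [qc_one, qc_sub, qc_norm, qc_norm]
    congr 2
    ring
  have e5 : ‖1 - (qc hx hy + qc px py)‖ = ‖qc (1 - (hx + px)) (hy + py)‖ := by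
    rw [qc_add, qc_one, qc_sub, qc_norm, qc_norm]
    congr 2
    ring
  have b1 := nrU_spec hx hy
  have b2 := nrU_spec ex ey
  have b3 : ‖qc px py - qc hx hy * (qc ex ey - 1)‖ ≤ (nrU (px - (hx * (ex - 1) - hy * ey)) (py - (hx * ey + hy * (ex - 1))) : ℚ) := by
    rw [e2]; exact nrU_spec _ _
  have b4 : ‖1 - qc hx hy * qc ex ey‖ ≤ (nrU (1 - (hx * ex - hy * ey)) (hx * ey + hy * ex) : ℚ) := by
    rw [e3]; exact nrU_spec _ _
  have b5 : ‖1 - qc hx hy‖ ≤ (nrU (1 - hx) hy : ℚ) := by rw [e4]; exact nrU_spec _ _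
  have b6 : ((nrL (ex - 1) ey : ℚ) : ℝ) ≤ ‖qc ex ey - 1‖ := by rw [e1]; exact nrL_spec _ _
  have b7 : ‖1 - (qc hx hy + qc px py)‖ ≤ (nrU (1 - (hx + px)) (hy + py) : ℚ) := by rw [e5]; exact nrU_spec _ _
  have b8 : ((nrL (1 - hx) hy : ℚ) : ℝ) ≤ ‖1 - qc hx hy‖ := by rw [e4]; exact nrL_spec _ _
  have eL := le_rU ((nrU (px - (hx * (ex - 1) - hy * ey)) (py - (hx * ey + hy * (ex - 1))) + nrU hx hy * mkRat 1 4294967296 +
    r * (nrU (1 - (hx * ex - hy * ey)) (hx * ey + hy * ex) + nrU hx hy * mkRat 1 4294967296) +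
    nrU hx hy * ((nrU ex ey + mkRat 1 4294967296) * (r * r))) /
      (nrL (ex - 1) ey - mkRat 1 4294967296 - (nrU ex ey + mkRat 1 4294967296) * (r + r * r)))
  have eR := le_rU ((nrU (px - (hx * (ex - 1) - hy * ey)) (py - (hx * ey + hy * (ex - 1))) + nrU hx hy * mkRat 1 4294967296 +
    (nrU ex ey + mkRat 1 4294967296) * (r * nrU (1 - hx) hy + r * r + r * r * (r + nrU hx hy))) /
      (nrL (ex - 1) ey - mkRat 1 4294967296 - (nrU ex ey + mkRat 1 4294967296) * (r + r * r)))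
  have e0 := le_rU ((nrU (px - (hx * (ex - 1) - hy * ey)) (py - (hx * ey + hy * (ex - 1))) + nrU hx hy * mkRat 1 4294967296) /
      (nrL (ex - 1) ey - mkRat 1 4294967296))
  refine mkI_ok le_rfl b5 b7 b8 (fun p' hp' => ?_) ?_ hp
  · refine encl_all hE b1 b2 b3 b4 b5 b6 hr1 hden ?_ ?_ hre hp'
    · refine le_trans (le_of_eq ?_) eL
      push_cast
      rw [eε, pow_two]
    · refine le_trans (le_of_eq ?_) eR
      push_cast
      rw [eε, pow_two]
  · refine encl_cen hE b1 b3 b6 hden2 ?_ (r0.trans_lt hre)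
    refine le_trans (le_of_eq ?_) e0
    push_cast
    rw [eε]

theorem mkIv_spec {a b : ℤ} {r : ℚ} {k : Iv → Bool} (h : mkIv a b r k = true) :
    ∃ I, k I = true ∧ ∀ p : ℂ, ‖p - qc (mkRat a 1048576) (mkRat b 1048576)‖ ≤ r → I.Ok p := by
  unfold mkIv mkE at h
  rw [Bool.and_eq_true, decide_eq_true_eq] at h
  refine mkH_spec ?_ h.2
  have h1 := cE_err32 a b (by
    have := h.1
    norm_num at this ⊢
    nlinarith)
  rw [cEf_eq]
  rw [← norm_neg, neg_sub]
  have e1 : qc (mkRat (cE a b).1 1099511627776) (mkRat (cE a b).2 1099511627776) =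
      (((cE a b).1 : ℂ) + ((cE a b).2 : ℂ) * Complex.I) / 2 ^ 40 := by
    unfold qc
    rw [Rat.mkRat_eq_div, Rat.mkRat_eq_div]
    push_cast
    norm_num
    ring
  have e2 : qc (mkRat a 1048576) (mkRat b 1048576) = ((a : ℂ) + (b : ℂ) * Complex.I) / 2 ^ 20 := by
    unfold qc
    rw [Rat.mkRat_eq_div, Rat.mkRat_eq_div]
    push_cast
    norm_num
    ring
  rw [e1, e2]
  refine h1.trans (le_of_eq ?_)
  norm_num

end SokalTI
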