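import Pool.Agent.Lib_MP_af4de1_ti.Box1

/-!
# The tests of the tip certificate
-/

set_option autoImplicit false

namespace SokalTI

/-- (G1), (G2); `v1 ≤ Im p`, `Re p ≤ u2` -/
def tG (v1 u2 : ℚ) (I : Iv) : Bool :=
  decide (0 < I.gx1) && decide (I.gy2 < 0) && decide (u2 * I.gx2 < v1 * (-I.gy2))

/-- `|w| > 1` -/
def tw (I : Iv) : Bool :=
  decide (I.aL2 ≤ 0) &&
    decide (24 < I.hL1 * (24 + 24 * (-I.aL2) + 12 * (I.aL2 * I.aL2) + 4 * (-I.aL2) * (I.aL2 * I.aL2) +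
      (I.aL2 * I.aL2) * (I.aL2 * I.aL2)))

/-- upper bound of `δ` -/
def dmx (I : Iv) : ℚ := min (2 / 25) (rU (-I.bx1 * 10000 / 31415))

def relLU (I : Iv) (dm : ℚ) : ℚ := rU (599 / 1000 * I.hL2 * sqU (I.mL2 * dm) / (I.sL1 * I.sL1))

def bLU (I : Iv) (dm sd rl : ℚ) : ℚ :=
  I.hL2 / sqL I.mL1 * (dm / (2 * (I.sL1 * sqL I.sL1)) + 399 / 1000 * (dm * sd) / (I.sL1 * I.sL1)) / (1 - rl)

def q1 (I : Iv) : ℚ := rL (min (433 / 1000 * (I.aR1 - 1)) (4331 / 10000 * (I.aR1 - 1)) + I.sR1 / 4)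

def x1 (I : Iv) : ℚ := rL (I.sR1 / I.hR2)

def tfUq (dm q x : ℚ) : ℚ := rU (47 / 10 * (dm / (4 * q * (x * x))) ^ 4)

def relRU (I : Iv) (dm sd q x Sq t : ℚ) : ℚ :=
  rU (399 / 1000 * I.hR2 * sqU (I.mR2 * dm) * (100 / (243 * (I.sR1 * I.sR1)) + (1 + 27 / 100 * Sq) / (12 * (q * q))) +
      t * sqU I.mR2 * (3 / 5 / sqL x + 1 / 10 * sd / (q * x)))

def bRU (I : Iv) (dm sd q x Sq t rr : ℚ) : ℚ :=
  (I.hR2 / sqL I.mR1 * (59 / 200 * dm / (I.sR1 * sqL I.sR1) + 177 / 2000 * dm * (1 + 3 / 10 * Sq) / (q * sqL q)) +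
      t * (2 / 5 * sd / sqL I.mR1 + 27 / 20 * sqU I.mR2 + 11 / 20 * sqU I.mR2 * sd / x)) / (1 - rr)

/-- stage 3 -/
def tB3 (I : Iv) (dm sd q x Sq t rl rr : ℚ) (k : ℚ → ℚ → ℚ → ℚ → ℚ → Bool) : Bool :=
  decide (rl < 1) && decide (rr < 1) && k dm rl rr (bLU I dm sd rl) (bRU I dm sd q x Sq t rr)

/-- stage 2 -/
def tB2 (I : Iv) (dm sd q x Sq t : ℚ) (k : ℚ → ℚ → ℚ → ℚ → ℚ → Bool) : Bool :=
  tB3 I dm sd q x Sq t (relLU I dm) (relRU I dm sd q x Sq t) k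

/-- the bounds -/
def tB (I : Iv) (k : ℚ → ℚ → ℚ → ℚ → ℚ → Bool) : Bool :=
  decide (0 < I.sL1) && decide (0 < sqL I.sL1) && decide (0 < sqL I.mL1) && decide (0 < I.sR1) &&
    decide (0 < sqL I.sR1) && decide (0 < sqL I.mR1) && decide (0 < q1 I) && decide (0 < sqL (q1 I)) &&
    decide (0 < x1 I) && decide (0 < sqL (x1 I)) &&
    tB2 I (dmx I) (sqU (dmx I)) (q1 I) (x1 I) (sqU (dmx I / q1 I)) (tfUq (dmx I) (q1 I) (x1 I)) k

/-- pointwise conditions and the inner end; `u1 ≤ Re p` -/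
def tP (u1 : ℚ) (I : Iv) : Bool :=
  decide (97 / 100 ≤ I.aR1) && decide (I.sR2 ≤ 5 * I.aR1) && decide (3154 * I.sR2 ≤ 9489 * I.aR1) &&
    (decide (5 / 4 ≤ I.sR1) || decide (3 - I.sR1 * I.sR1 ≤ 3 * I.aR1)) &&
    tB I (fun dm rl rr bl br => decide (24 / 5 * dm ≤ I.sL1) && decide (bl + br < u1) &&
      (decide (1257 / 5000 < -I.bx2) ||
        (decide (2 * (rl * rl) ≤ 1) && decide (2 * (rr * rr) ≤ 1) &&
          decide (3 / 5 * (1 - I.aL1) - 4 / 5 * I.sL1 < (1 - 2 * (rl * rl)) * I.mL1) &&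
          decide (4 / 5 * I.sR2 - 3 / 5 * (I.aR1 - 1) < (1 - 2 * (rr * rr)) * I.mR1))))

/-- `1/24`-multiple of the Taylor polynomial of the exponential -/
def e4 (z : ℚ) : ℚ := 24 + 24 * z + 12 * (z * z) + 4 * (z * (z * z)) + (z * z) * (z * z)

/-- the left side -/
def tL (I : Iv) : Bool :=
  decide (I.by2 < 0) && tB I (fun dm rl rr _ _ => decide (0 < dm) &&
    decide (24 * ((1 + rl) * sqU I.mR2) < (1 - rr) * sqL I.mL1 * e4 (rL (-I.by2 / dm))))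

/-- the right side -/
def tR (I : Iv) : Bool :=
  decide (0 < I.by1) && tB I (fun dm rl rr _ _ => decide (0 < dm) &&
    decide (24 * ((1 + rr) * sqU I.mL2) < (1 - rl) * sqL I.mR1 * e4 (rL (I.by1 / dm))))

/-- (W3) on the left side -/
def tW (I : Iv) : Bool :=
  decide (I.hL2 < 1 + I.aL1) ||
    (decide (I.bx2 ≤ -1257 / 5000) && decide (2 < I.sR1) && decide (0 < I.aR1) && decide (3154 * I.sR2 ≤ 9489 * I.aR1))

/-! ### Discs -/

/-- the disc around the rectangle `[u1, u2] × [v1, v2]` (scale `2^10`) -/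
def rect (u1 u2 v1 v2 : ℤ) (k : Iv → Bool) : Bool :=
  mkIv (512 * (u1 + u2)) (512 * (v1 + v2)) (sqU (mkRat ((u2 - u1) * (u2 - u1) + (v2 - v1) * (v2 - v1)) 4194304)) k

/-- test of a rectangle -/
def cell (u1 u2 v1 v2 : ℤ) : Bool :=
  rect u1 u2 v1 v2 (fun I => tG (mkRat v1 1024) (mkRat u2 1024) I && (tw I || tP (mkRat u1 1024) I))

/-- a chain of tests -/
def segs (t : ℤ → ℤ → Bool) : ℤ → List ℤ → Bool
  | _, [] => true
  | a, b :: l => t a b && segs t b l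

/-- last point -/
def lastI : ℤ → List ℤ → ℤ
  | a, [] => a
  | _, b :: l => lastI b l

/-- a strip `(v1, v2, u0, us)`: rectangles `[u_i, u_(i+1)] × [v1, v2]`, `u0 ≤ 2 v1 / 5`, `last ≥ U(v2)` -/
def strip (v1 v2 u0 : ℤ) (us : List ℤ) : Bool :=
  decide (5 * u0 ≤ 2 * v1) && (decide (4 * v2 ≤ 5 * lastI u0 us) || decide (22 * v2 + 95028 ≤ 100 * lastI u0 us)) &&
    segs (fun u u' => cell u u' v1 v2) u0 us

/-- a list of strips from `v` on -/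
def strips : ℤ → List (ℤ × ℤ × List ℤ) → Bool
  | _, [] => true
  | v, (v', u0, us) :: l => strip v v' u0 us && strips v' l

/-- last point of a list of strips -/
def lastS : ℤ → List (ℤ × ℤ × List ℤ) → ℤ
  | v, [] => v
  | _, (v', _, _) :: l => lastS v' l

/-- left segment `p = v (2/5 + i)`, `v ∈ [v1, v2] / 1024` -/
def segL (v1 v2 : ℤ) : Bool :=
  mkIv (1024 * (v1 + v2) / 5) (512 * (v1 + v2)) (mkRat (10771 * (v2 - v1)) 20480000 + mkRat 1 1048576)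
    (fun I => tw I || (tL I && tW I))

/-- lower right segment `p = v (4/5 + i)` -/
def segR (v1 v2 : ℤ) : Bool :=
  mkIv (2048 * (v1 + v2) / 5) (512 * (v1 + v2)) (mkRat (12807 * (v2 - v1)) 20480000 + mkRat 1 1048576)
    (fun I => tw I || tR I)

/-- upper right segment `p = 116/125 + (11/50) v + i v` -/
def segU (v1 v2 : ℤ) : Bool :=
  mkIv ((97307853 + 11264 * (v1 + v2)) / 100) (512 * (v1 + v2)) (mkRat (10240 * (v2 - v1)) 20480000 + mkRat 1 1048576)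
    (fun I => tw I || tR I)

/-- the top `v = 19/5` -/
def segT (u1 u2 : ℤ) : Bool := rect u1 u2 3891 3892 tw

end SokalTI
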