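import Pool.Agent.Lib_MP_af4de1_ti.Bounds

/-!
# Monotone upper bounds of the closed forms
-/

set_option autoImplicit false

namespace SokalTI.Bx

open Complex SokalTI

variable {h : ℂ} {δ : ℝ}

theorem relL_nonneg (h : ℂ) (δ : ℝ) : 0 ≤ relL h δ := by
  unfold relL
  positivity

theorem relL_le {h2 s1 S : ℝ} (hh : ‖h‖ ≤ h2) (s0 : 0 < s1) (hs : s1 ≤ -h.im) (hS : √(‖1 - h‖ * δ) ≤ S) :
    relL h δ ≤ 599 / 1000 * h2 * S / (s1 * s1) := by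
  unfold relL
  have h1 : h.im ^ 2 = (-h.im) * (-h.im) := by ring
  have h2' : 0 ≤ h2 := (norm_nonneg _).trans hh
  rw [h1]
  have hS0 : 0 ≤ S := (Real.sqrt_nonneg _).trans hS
  have hs0 : 0 ≤ -h.im := (s0.trans_le hs).le
  gcongr

theorem bL_le {h2 s1 ss m1 dm sd rl : ℝ} (hh : ‖h‖ ≤ h2) (s0 : 0 < s1) (hs : s1 ≤ -h.im)
    (ss0 : 0 < ss) (hss : ss ≤ √s1) (m0 : 0 < m1) (hm : m1 ≤ √‖1 - h‖) (δ0 : 0 ≤ δ) (hδ : δ ≤ dm) (hsd : √δ ≤ sd)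
    (hr : relL h δ ≤ rl) (hrl : rl < 1) :
    bL h δ ≤ h2 / m1 * (dm / (2 * (s1 * ss)) + 399 / 1000 * (dm * sd) / (s1 * s1)) / (1 - rl) := by
  unfold bL
  have e1 : h.im ^ 2 = (-h.im) * (-h.im) := by ring
  have h2' : 0 ≤ h2 := (norm_nonneg _).trans hh
  have hsq : ss ≤ √(-h.im) := hss.trans (Real.sqrt_le_sqrt hs)
  have hsd0 : 0 ≤ sd := (Real.sqrt_nonneg _).trans hsd
  have hd0 : 0 ≤ dm := δ0.trans hδ
  have hs0 : 0 < -h.im := s0.trans_le hs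
  rw [e1]
  have h1 : 0 < 1 - rl := by linarith
  have h3 : 1 - rl ≤ 1 - relL h δ := by linarith
  gcongr

theorem qp_ge {a1 s1 q : ℝ} (ha : a1 ≤ h.re) (hs : s1 ≤ h.im)
    (hq : q ≤ min (433 / 1000 * (a1 - 1)) (4331 / 10000 * (a1 - 1)) + s1 / 4) : q ≤ qp h := by
  unfold qp
  have h3 : √3 ≤ 4331 / 10000 * 4 := by
    rw [Real.sqrt_le_left (by norm_num)]
    norm_num
  have h3' : 433 / 1000 * 4 ≤ √3 := Real.le_sqrt_of_sq_le (by norm_num)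
  have h4 : √3 / 4 * (a1 - 1) ≤ √3 / 4 * (h.re - 1) := by
    have : 0 ≤ √3 / 4 := by positivity
    exact mul_le_mul_of_nonneg_left (by linarith) this
  rcases le_total 0 (a1 - 1) with h5 | h5
  · have h6 : min (433 / 1000 * (a1 - 1)) (4331 / 10000 * (a1 - 1)) ≤ 433 / 1000 * (a1 - 1) := min_le_left _ _
    have h7 : 433 / 1000 * (a1 - 1) ≤ √3 / 4 * (a1 - 1) := mul_le_mul_of_nonneg_right (by linarith) h5
    linarith
  · have h6 : min (433 / 1000 * (a1 - 1)) (4331 / 10000 * (a1 - 1)) ≤ 4331 / 10000 * (a1 - 1) := min_le_right _ _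
    have h7 : 4331 / 10000 * (a1 - 1) ≤ √3 / 4 * (a1 - 1) := mul_le_mul_of_nonpos_right (by linarith) h5
    linarith

theorem xl_ge {h2 s1 x : ℝ} (hh : ‖h‖ ≤ h2) (hn : 0 < ‖h‖) (s0 : 0 < s1) (hs : s1 ≤ h.im) (hx : x ≤ s1 / h2) :
    x ≤ xl h := by
  unfold xl
  refine hx.trans ?_
  have : 0 < h.im := s0.trans_le hs
  gcongr

theorem xl_le_one (hn : 0 < ‖h‖) : xl h ≤ 1 := by
  unfold xl
  rw [div_le_one hn]
  exact (le_abs_self _).trans (abs_im_le_norm h)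

theorem tf_nonneg (h : ℂ) (δ : ℝ) : 0 ≤ tf h δ := by
  unfold tf
  positivity

theorem tf_le {q x dm t : ℝ} (q0 : 0 < q) (hq : q ≤ qp h) (x0 : 0 < x) (hx : x ≤ xl h) (δ0 : 0 ≤ δ) (hδ : δ ≤ dm)
    (ht : 47 / 10 * (dm / (4 * q * (x * x))) ^ 4 ≤ t) : tf h δ ≤ t := by
  unfold tf
  refine le_trans ?_ ht
  have hd0 : 0 ≤ dm := δ0.trans hδ
  have hq0 := q0.trans_le hq
  have hx0 := x0.trans_le hx
  rw [pow_two]
  gcongr

theorem relR_nonneg (h : ℂ) (δ : ℝ) (hq : 0 < qp h) (hx : 0 < xl h) : 0 ≤ relR h δ := by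
  unfold relR
  have := tf_nonneg h δ
  positivity

theorem relR_le {h2 s1 S q x dm sd Sq t m2 sx : ℝ} (hh : ‖h‖ ≤ h2) (s0 : 0 < s1) (hs : s1 ≤ h.im)
    (hS : √(‖1 - h‖ * δ) ≤ S) (q0 : 0 < q) (hq : q ≤ qp h) (x0 : 0 < x) (hx : x ≤ xl h) (δ0 : 0 ≤ δ)
    (hδ : δ ≤ dm) (hsd : √δ ≤ sd) (hSq : √(dm / q) ≤ Sq) (ht : tf h δ ≤ t) (hm2 : √‖1 - h‖ ≤ m2)
    (sx0 : 0 < sx) (hsx : sx ≤ √x) :
    relR h δ ≤ 399 / 1000 * h2 * S * (100 / (243 * (s1 * s1)) + (1 + 27 / 100 * Sq) / (12 * (q * q))) +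
      t * m2 * (3 / 5 / sx + 1 / 10 * sd / (q * x)) := by
  unfold relR
  have hd0 : 0 ≤ dm := δ0.trans hδ
  have hq0 := q0.trans_le hq
  have hx0 := x0.trans_le hx
  have hs0 := s0.trans_le hs
  have h2' : 0 ≤ h2 := (norm_nonneg _).trans hh
  have hS0 : 0 ≤ S := (Real.sqrt_nonneg _).trans hS
  have hsd0 : 0 ≤ sd := (Real.sqrt_nonneg _).trans hsd
  have ht0 : 0 ≤ t := (tf_nonneg h δ).trans ht
  have hm0 : 0 ≤ m2 := (Real.sqrt_nonneg _).trans hm2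
  have hsq : √(δ / qp h) ≤ Sq := (Real.sqrt_le_sqrt (by gcongr)).trans hSq
  have hsx' : sx ≤ √(xl h) := hsx.trans (Real.sqrt_le_sqrt hx)
  have htf := tf_nonneg h δ
  have hSq0 : 0 ≤ Sq := (Real.sqrt_nonneg _).trans hSq
  rw [pow_two, pow_two]
  gcongr

theorem bR_le {h2 s1 ss q sq x dm sd Sq t m1 m2 rr : ℝ} (hh : ‖h‖ ≤ h2) (hn : 0 < ‖h‖) (s0 : 0 < s1)
    (hs : s1 ≤ h.im) (ss0 : 0 < ss) (hss : ss ≤ √s1) (q0 : 0 < q) (hq : q ≤ qp h) (sq0 : 0 < sq) (hsq : sq ≤ √q)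
    (x0 : 0 < x) (hx : x ≤ xl h) (δ0 : 0 ≤ δ) (hδ : δ ≤ dm) (hsd : √δ ≤ sd) (hSq : √(dm / q) ≤ Sq) (ht : tf h δ ≤ t)
    (m0 : 0 < m1) (hm1 : m1 ≤ √‖1 - h‖) (hm2 : √‖1 - h‖ ≤ m2) (hr : relR h δ ≤ rr) (hrr : rr < 1) :
    bR h δ ≤ (h2 / m1 * (59 / 200 * dm / (s1 * ss) + 177 / 2000 * dm * (1 + 3 / 10 * Sq) / (q * sq)) +
      t * (2 / 5 * sd / m1 + 27 / 20 * m2 + 11 / 20 * m2 * sd / x)) / (1 - rr) := by
  unfold bR
  have hd0 : 0 ≤ dm := δ0.trans hδ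
  have hq0 := q0.trans_le hq
  have hx0 := x0.trans_le hx
  have hs0 := s0.trans_le hs
  have h2' : 0 ≤ h2 := (norm_nonneg _).trans hh
  have hsd0 : 0 ≤ sd := (Real.sqrt_nonneg _).trans hsd
  have ht0 : 0 ≤ t := (tf_nonneg h δ).trans ht
  have hm0 : 0 ≤ m2 := (Real.sqrt_nonneg _).trans hm2
  have hsq' : √(δ / qp h) ≤ Sq := (Real.sqrt_le_sqrt (by gcongr)).trans hSq
  have hss' : ss ≤ √h.im := hss.trans (Real.sqrt_le_sqrt hs)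
  have hsqq : sq ≤ √(qp h) := hsq.trans (Real.sqrt_le_sqrt hq)
  have htf := tf_nonneg h δ
  have h1 : 0 < 1 - rr := by linarith
  have h3 : 1 - rr ≤ 1 - relR h δ := by linarith
  have hx1 : 27 / 20 * √‖1 - h‖ * √(xl h) ≤ 27 / 20 * m2 := by
    have h4 : √(xl h) ≤ 1 := by
      exact Real.sqrt_le_one.2 (xl_le_one hn)
    have h5 : 27 / 20 * √‖1 - h‖ ≤ 27 / 20 * m2 := by linarith
    calc 27 / 20 * √‖1 - h‖ * √(xl h) ≤ 27 / 20 * m2 * 1 :=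
          mul_le_mul h5 h4 (Real.sqrt_nonneg _) (by positivity)
      _ = _ := mul_one _
  have hSq0 : 0 ≤ Sq := (Real.sqrt_nonneg _).trans hSq
  have hA : ‖h‖ / √‖1 - h‖ * (59 / 200 * δ / (h.im * √h.im) +
      177 / 2000 * δ * (1 + 3 / 10 * √(δ / qp h)) / (qp h * √(qp h))) ≤
      h2 / m1 * (59 / 200 * dm / (s1 * ss) + 177 / 2000 * dm * (1 + 3 / 10 * Sq) / (q * sq)) := by
    gcongr
  have hB : tf h δ * (2 / 5 * √δ / √‖1 - h‖ + 27 / 20 * √‖1 - h‖ * √(xl h) + 11 / 20 * √‖1 - h‖ * √δ / xl h) ≤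
      t * (2 / 5 * sd / m1 + 27 / 20 * m2 + 11 / 20 * m2 * sd / x) := by
    refine mul_le_mul ht (add_le_add (add_le_add ?_ hx1) ?_) (by positivity) ht0
    · gcongr
    · gcongr
  have hN : 0 ≤ h2 / m1 * (59 / 200 * dm / (s1 * ss) + 177 / 2000 * dm * (1 + 3 / 10 * Sq) / (q * sq)) +
      t * (2 / 5 * sd / m1 + 27 / 20 * m2 + 11 / 20 * m2 * sd / x) := by positivity
  exact div_le_div₀ hN (add_le_add hA hB) h1 h3

end SokalTI.Bx
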