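import Pool.Agent.Lib_MP_af4de1_ti.Cond
import Pool.Agent.Lib_MP_af4de1_ti.Geo

/-!
# The tip: passage from rational inequalities to the numerical conditions

Argument bounds, `|w|` against `1`, the angle `ψ`, and the conditions on the two sides.
-/

set_option autoImplicit false

namespace SokalTI

open Complex SokalFU

/-! ### The argument -/

theorem cos54 : Real.cos (5 / 4) ≤ 3154 / 10000 := by
  have hpi := Real.pi_gt_three
  have h1 : Real.cos (5 / 64) ≤ 996950183 / 1000000000 := by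
    have := Real.cos_bound (x := 5 / 64) (by rw [abs_of_pos (by norm_num)]; norm_num)
    rw [abs_le] at this
    have h2 := this.2
    rw [abs_of_pos (by norm_num : (0 : ℝ) < 5 / 64)] at h2
    norm_num at h2
    linarith
  have h2 : 0 ≤ Real.cos (5 / 64) := (Real.cos_pos_of_mem_Ioo ⟨by linarith, by linarith⟩).le
  have h2' : Real.cos (5 / 32) ≤ 987819336 / 1000000000 := by
    have : Real.cos (5 / 32) = 2 * Real.cos (5 / 64) ^ 2 - 1 := by
      rw [← Real.cos_two_mul]; norm_num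
    rw [this]
    nlinarith
  have h3' : 0 ≤ Real.cos (5 / 32) := (Real.cos_pos_of_mem_Ioo ⟨by linarith, by linarith⟩).le
  have h3 : Real.cos (5 / 16) ≤ 951574082 / 1000000000 := by
    have : Real.cos (5 / 16) = 2 * Real.cos (5 / 32) ^ 2 - 1 := by
      rw [← Real.cos_two_mul]; norm_num
    rw [this]
    nlinarith
  have h4 : 0 ≤ Real.cos (5 / 16) := (Real.cos_pos_of_mem_Ioo ⟨by linarith, by linarith⟩).le
  have h5 : Real.cos (5 / 8) ≤ 810986470 / 1000000000 := by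
    have : Real.cos (5 / 8) = 2 * Real.cos (5 / 16) ^ 2 - 1 := by
      rw [← Real.cos_two_mul]; norm_num
    rw [this]
    nlinarith
  have h6 : 0 ≤ Real.cos (5 / 8) := (Real.cos_pos_of_mem_Ioo ⟨by linarith, by linarith⟩).le
  have : Real.cos (5 / 4) = 2 * Real.cos (5 / 8) ^ 2 - 1 := by
    rw [← Real.cos_two_mul]; norm_num
  rw [this]
  nlinarith

theorem tan54' : 9489 / 3154 ≤ Real.tan (5 / 4) := by
  have hpi := Real.pi_gt_three
  have hpos : 0 < Real.cos (5 / 4) := Real.cos_pos_of_mem_Ioo ⟨by linarith, by linarith⟩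
  have hs : 0 < Real.sin (5 / 4) := Real.sin_pos_of_pos_of_lt_pi (by norm_num) (by linarith)
  rw [Real.tan_eq_sin_div_cos, le_div_iff₀ hpos]
  have h7 := cos54
  have h8 := Real.sin_sq_add_cos_sq (5 / 4)
  have h9 : 9489 / 10000 ≤ Real.sin (5 / 4) := by
    nlinarith
  nlinarith

theorem tan54 : 3 ≤ Real.tan (5 / 4) := (by norm_num : (3 : ℝ) ≤ 9489 / 3154).trans tan54'

theorem arg_le_of_tan {h : ℂ} (ha : 0 < h.re) {θ : ℝ} (h0 : 0 ≤ θ)
    (h2 : h.im ≤ h.re * Real.tan θ) : arg h ≤ θ := by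
  have h3 : |arg h| < Real.pi / 2 := by
    rw [Complex.abs_arg_lt_pi_div_two_iff]
    exact Or.inl ha
  have h4 := abs_lt.mp h3
  by_contra hc
  push Not at hc
  have h5 : Real.tan θ < Real.tan (arg h) :=
    Real.tan_lt_tan_of_lt_of_lt_pi_div_two (by linarith) h4.2 hc
  rw [Complex.tan_arg] at h5
  have h6 : h.re * Real.tan θ < h.im := by
    rw [lt_div_iff₀ ha] at h5
    linarith
  linarith

/-- `arg h ≤ 5/4` -/
theorem arg_le_54 {h : ℂ} (ha : 0 < h.re) (hs : h.im ≤ 3 * h.re) : arg h ≤ 5 / 4 := by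
  have hpi := Real.pi_gt_three
  refine arg_le_of_tan ha (by norm_num) ?_
  have := tan54
  nlinarith

theorem x54_of {h : ℂ} (ha : 0 < h.re) (hs : 3154 * h.im ≤ 9489 * h.re) : arg h ≤ 5 / 4 := by
  refine arg_le_of_tan ha (by norm_num) ?_
  have := tan54'
  nlinarith

/-- `s cos s ≤ (1 - s²/3) sin s` -/
theorem cot_le {s : ℝ} (h0 : 0 ≤ s) (h1 : s ≤ Real.pi / 2) :
    s * Real.cos s ≤ (1 - s ^ 2 / 3) * Real.sin s := by
  have hmono : MonotoneOn (fun s : ℝ => (1 - s ^ 2 / 3) * Real.sin s - s * Real.cos s)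
      (Set.Icc 0 (Real.pi / 2)) := by
    have hd : ∀ s : ℝ, HasDerivAt (fun s : ℝ => (1 - s ^ 2 / 3) * Real.sin s - s * Real.cos s)
        (s / 3 * (Real.sin s - s * Real.cos s)) s := by
      intro s
      have e1 : HasDerivAt (fun s : ℝ => 1 - s ^ 2 / 3) (-(2 * s / 3)) s := by
        refine (((hasDerivAt_pow 2 s).div_const 3).const_sub 1).congr_deriv ?_
        norm_num
      have e2 := e1.mul (Real.hasDerivAt_sin s)
      have e3 := (hasDerivAt_id' s).mul (Real.hasDerivAt_cos s)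
      have e4 := e2.sub e3
      refine e4.congr_deriv ?_
      ring
    refine monotoneOn_of_deriv_nonneg (convex_Icc _ _) ?_ ?_ ?_
    · exact fun s _ => (hd s).continuousAt.continuousWithinAt
    · exact fun s _ => (hd s).differentiableAt.differentiableWithinAt
    · intro s hs
      rw [interior_Icc] at hs
      rw [(hd s).deriv]
      have h2 : s * Real.cos s ≤ Real.sin s := by
        have h3 := Real.lt_tan hs.1 hs.2
        have h4 : 0 < Real.cos s := Real.cos_pos_of_mem_Ioo ⟨by linarith [hs.1, Real.pi_pos], hs.2⟩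
        rw [Real.tan_eq_sin_div_cos, lt_div_iff₀ h4] at h3
        exact h3.le
      have h5 : 0 ≤ s / 3 := by linarith [hs.1]
      exact mul_nonneg h5 (by linarith)
  have h2 := hmono (Set.left_mem_Icc.mpr (by linarith [Real.pi_pos])) ⟨h0, h1⟩ h0
  simp at h2
  linarith

theorem xs_of {h : ℂ} (ha : 0 < h.re) (hs0 : 0 ≤ h.im) (hs : arg h ≤ 5 / 4)
    (h2 : 5 / 4 ≤ h.im ∨ 1 - h.im ^ 2 / 3 ≤ h.re) : arg h ≤ h.im := by
  rcases le_or_gt (5 / 4) h.im with h3 | h3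
  · exact hs.trans h3
  · have h4 : 1 - h.im ^ 2 / 3 ≤ h.re := by
      rcases h2 with h5 | h5
      · linarith
      · exact h5
    have hpi := Real.pi_gt_three
    refine arg_le_of_tan ha hs0 ?_
    have hc : 0 < Real.cos h.im := Real.cos_pos_of_mem_Ioo ⟨by linarith, by linarith⟩
    have hsn : 0 ≤ Real.sin h.im := Real.sin_nonneg_of_nonneg_of_le_pi hs0 (by linarith)
    rw [Real.tan_eq_sin_div_cos, ← mul_div_assoc, le_div_iff₀ hc]
    have h5 := cot_le hs0 (by linarith)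
    have h6 : (1 - h.im ^ 2 / 3) * Real.sin h.im ≤ h.re * Real.sin h.im :=
      mul_le_mul_of_nonneg_right h4 hsn
    linarith

/-- `arg h ≤ Im h` -/
theorem arg_le_im {h : ℂ} (ha : 0 < h.re) (hs0 : 0 ≤ h.im) (hs : h.im ≤ 3 * h.re)
    (h2 : 5 / 4 ≤ h.im ∨ 1 - h.im ^ 2 / 3 ≤ h.re) : arg h ≤ h.im :=
  xs_of ha hs0 (arg_le_54 ha hs) h2

/-! ### The exponential from below -/

/-- `1 + x + x²/2 + x³/6 + x⁴/24` -/
noncomputable def T4 (x : ℝ) : ℝ := 1 + x + x ^ 2 / 2 + x ^ 3 / 6 + x ^ 4 / 24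

theorem T4_le_exp {x : ℝ} (hx : 0 ≤ x) : T4 x ≤ Real.exp x := by
  have := Real.sum_le_exp_of_nonneg hx 5
  simp only [Finset.sum_range_succ, Finset.sum_range_zero, Nat.factorial] at this
  unfold T4
  norm_num at this
  linarith

theorem T4_pos {x : ℝ} (hx : 0 ≤ x) : 0 < T4 x := by unfold T4; positivity

theorem T4_mono {x y : ℝ} (hx : 0 ≤ x) (hxy : x ≤ y) : T4 x ≤ T4 y := by
  unfold T4; gcongr

theorem exp_neg_le {z : ℝ} (hz : 0 ≤ z) : Real.exp (-z) ≤ 1 / (1 + z + z ^ 2 / 2 + z ^ 3 / 6 + z ^ 4 / 24) := by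
  rw [Real.exp_neg, ← one_div]
  exact one_div_le_one_div_of_le (T4_pos hz) (T4_le_exp hz)

theorem le_exp {t : ℝ} (ht : 0 ≤ t) : 1 + t + t ^ 2 / 2 + t ^ 3 / 6 + t ^ 4 / 24 ≤ Real.exp t := T4_le_exp ht

theorem exp_le_inv {t : ℝ} (ht : t < 1) : Real.exp t ≤ 1 / (1 - t) := by
  have h1 := Real.add_one_le_exp (-t)
  have h2 : 0 < 1 - t := by linarith
  rw [le_div_iff₀ h2]
  have h3 : Real.exp t * Real.exp (-t) = 1 := by rw [← Real.exp_add]; simp
  have h4 := Real.exp_pos t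
  nlinarith

/-- `1 + x + x²/2 + x³/6 ≤ e^x` for all real `x` -/
theorem T3_le_exp (x : ℝ) : 1 + x + x ^ 2 / 2 + x ^ 3 / 6 ≤ Real.exp x := by
  have hd1 : ∀ x : ℝ, HasDerivAt (fun x : ℝ => Real.exp x - (1 + x)) (Real.exp x - 1) x := by
    intro x
    exact (Real.hasDerivAt_exp x).sub ((hasDerivAt_id x).const_add 1)
  have hd2 : ∀ x : ℝ, HasDerivAt (fun x : ℝ => Real.exp x - (1 + x + x ^ 2 / 2)) (Real.exp x - (1 + x)) x := by
    intro x
    have e1 : HasDerivAt (fun x : ℝ => 1 + x + x ^ 2 / 2) (1 + x) x := by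
      have h1 : HasDerivAt (fun x : ℝ => x ^ 2 / 2) x x := by
        refine ((hasDerivAt_pow 2 x).div_const 2).congr_deriv ?_
        norm_num
      exact ((hasDerivAt_id x).const_add 1).add h1
    exact (Real.hasDerivAt_exp x).sub e1
  have hd3 : ∀ x : ℝ, HasDerivAt (fun x : ℝ => Real.exp x - (1 + x + x ^ 2 / 2 + x ^ 3 / 6))
      (Real.exp x - (1 + x + x ^ 2 / 2)) x := by
    intro x
    have e1 : HasDerivAt (fun x : ℝ => 1 + x + x ^ 2 / 2 + x ^ 3 / 6) (1 + x + x ^ 2 / 2) x := by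
      have h1 : HasDerivAt (fun x : ℝ => x ^ 2 / 2) x x := by
        refine ((hasDerivAt_pow 2 x).div_const 2).congr_deriv ?_
        norm_num
      have h2 : HasDerivAt (fun x : ℝ => x ^ 3 / 6) (x ^ 2 / 2) x := by
        refine ((hasDerivAt_pow 3 x).div_const 6).congr_deriv ?_
        norm_num
        ring
      exact (((hasDerivAt_id x).const_add 1).add h1).add h2
    exact (Real.hasDerivAt_exp x).sub e1
  -- the quadratic remainder is increasing
  have hm2 : Monotone (fun x : ℝ => Real.exp x - (1 + x + x ^ 2 / 2)) := by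
    refine monotone_of_deriv_nonneg (fun x => (hd2 x).differentiableAt) fun x => ?_
    rw [(hd2 x).deriv]
    have := Real.add_one_le_exp x
    linarith
  rcases le_total 0 x with hx | hx
  · have h1 : MonotoneOn (fun x : ℝ => Real.exp x - (1 + x + x ^ 2 / 2 + x ^ 3 / 6)) (Set.Ici 0) := by
      refine monotoneOn_of_deriv_nonneg (convex_Ici 0) (fun x _ => (hd3 x).continuousAt.continuousWithinAt)
        (fun x _ => (hd3 x).differentiableAt.differentiableWithinAt) fun x hx => ?_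
      rw [interior_Ici] at hx
      rw [(hd3 x).deriv]
      have := hm2 (le_of_lt hx)
      simp at this
      linarith
    have h2 := h1 (Set.self_mem_Ici) hx hx
    simp at h2
    linarith
  · have h1 : AntitoneOn (fun x : ℝ => Real.exp x - (1 + x + x ^ 2 / 2 + x ^ 3 / 6)) (Set.Iic 0) := by
      refine antitoneOn_of_deriv_nonpos (convex_Iic 0) (fun x _ => (hd3 x).continuousAt.continuousWithinAt)
        (fun x _ => (hd3 x).differentiableAt.differentiableWithinAt) fun x hx => ?_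
      rw [interior_Iic] at hx
      rw [(hd3 x).deriv]
      have := hm2 (le_of_lt hx)
      simp at this
      linarith
    have h2 := h1 hx (Set.self_mem_Iic) hx
    simp at h2
    linarith

/-! ### `|w|` against `1` -/

theorem norm_wmap (p : ℂ) : ‖wmap p‖ = ‖hL p‖ * Real.exp (-(hL p).re) := by
  unfold wmap
  rw [norm_mul, Complex.norm_exp, Complex.neg_re]

/-- `|w| > 1` from `|h_L|² ≥ n`, `Re h_L ≤ -x` -/
theorem one_lt_wmap {p : ℂ} {n x : ℝ} (h1 : n ≤ ‖hL p‖ ^ 2) (h2 : (hL p).re ≤ -x) (h3 : 0 ≤ x)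
    (h4 : 1 < n * T4 x ^ 2) : 1 < ‖wmap p‖ := by
  have hT := T4_pos h3
  have h5 : T4 x ≤ Real.exp (-(hL p).re) := (T4_le_exp h3).trans (Real.exp_le_exp.mpr (by linarith))
  have h6 : 1 < ‖wmap p‖ ^ 2 := by
    rw [norm_wmap, mul_pow]
    have h7 : T4 x ^ 2 ≤ Real.exp (-(hL p).re) ^ 2 := by gcongr
    have h8 : n * T4 x ^ 2 ≤ ‖hL p‖ ^ 2 * T4 x ^ 2 := mul_le_mul_of_nonneg_right h1 (by positivity)
    have h9 : ‖hL p‖ ^ 2 * T4 x ^ 2 ≤ ‖hL p‖ ^ 2 * Real.exp (-(hL p).re) ^ 2 :=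
      mul_le_mul_of_nonneg_left h7 (by positivity)
    linarith
  nlinarith [norm_nonneg (wmap p)]

/-- `|w| < 1` from `|h_L|² ≤ n`, `Re h_L ≥ x` -/
theorem wmap_lt_one {p : ℂ} {n x : ℝ} (h1 : ‖hL p‖ ^ 2 ≤ n) (h2 : x ≤ (hL p).re)
    (h3 : 0 < 1 + x + x ^ 2 / 2 + x ^ 3 / 6) (h4 : n < (1 + x + x ^ 2 / 2 + x ^ 3 / 6) ^ 2) : ‖wmap p‖ < 1 := by
  have h5 : 1 + x + x ^ 2 / 2 + x ^ 3 / 6 ≤ Real.exp (hL p).re :=
    (T3_le_exp x).trans (Real.exp_le_exp.mpr h2)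
  have h6 : ‖hL p‖ < Real.exp (hL p).re := by
    have h7 : ‖hL p‖ ^ 2 < Real.exp (hL p).re ^ 2 := by
      have : (1 + x + x ^ 2 / 2 + x ^ 3 / 6) ^ 2 ≤ Real.exp (hL p).re ^ 2 := by gcongr
      linarith
    exact lt_of_pow_lt_pow_left₀ 2 (Real.exp_pos _).le h7
  rw [norm_wmap, Real.exp_neg, ← div_eq_mul_inv, div_lt_one (Real.exp_pos _)]
  exact h6

/-! ### The angle -/

theorem psi_gt {p : ℂ} (h1 : arg (hR p) ≤ 5 / 4) (h2 : 2 < (hR p).im) : 3 / 4 < psiP p := by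
  unfold psiP; linarith

theorem psi_lt {p : ℂ} (h1 : 0 ≤ (hR p).im) (h2 : (hR p).im ≤ 6) : psiP p < 3 / 4 + 2 * Real.pi := by
  unfold psiP
  have := Complex.arg_nonneg_iff.mpr h1
  have := Real.pi_gt_three
  linarith

/-- `ψ < 19/5` for all points of the region -/
theorem psi_lt_Dtip19 {p : ℂ} (hp : p ∈ Dtip) : psiP p < 19 / 5 := by
  have hs : p ∈ Sec := ⟨hp.1, hp.2.1.trans (by norm_num), hp.2.2.1, hp.2.2.2.trans (Uf_le _)⟩
  have h1 := hR_im_pos hs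
  have h2 := hL_im_neg hs
  have h3 := hR_sub_hL (Sec.re_ne hs)
  have h4 : (hR p).im = (hL p).im + p.im := by
    have := congrArg Complex.im h3
    rw [Complex.sub_im] at this
    linarith
  have h5 := Complex.arg_nonneg_iff.mpr h1.le
  unfold psiP
  linarith [hp.2.1]

/-- (W3) on the right, for all points of the region -/
theorem psi_lt_Dtip {p : ℂ} (hp : p ∈ Dtip) : psiP p < 3 / 4 + 2 * Real.pi := by
  have := psi_lt_Dtip19 hp
  have := Real.pi_gt_three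
  linarith

theorem psi_lt_Dtip' {p : ℂ} (hp : p ∈ Dtip) : psiP p < 5 / 8 + 2 * Real.pi := by
  have := psi_lt_Dtip19 hp
  have := Real.pi_gt_three
  linarith

/-! ### The sides -/

/-- the side inequality -/
theorem side_of {Y δ δ₁ y e₁ e₂ r₁ r₂ a b A B : ℝ} (hδ : 0 < δ) (hδ₁ : δ ≤ δ₁) (hy0 : 0 ≤ y) (hy : y ≤ Y)
    (he₁ : e₁ ≤ r₁) (hr₁ : 0 ≤ r₁) (he₂ : e₂ ≤ r₂) (hr₂ : r₂ ≤ 1) (ha0 : 0 ≤ a) (ha : a ≤ A) (hB : 0 ≤ B)
    (hb : B ≤ b) (h : (1 + r₁) ^ 2 * A < ((1 - r₂) * T4 (y / δ₁)) ^ 2 * B) :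
    Real.exp (-Y / δ) * (1 + e₁) * √a < (1 - e₂) * √b := by
  have hδ₁0 : 0 < δ₁ := hδ.trans_le hδ₁
  set T := T4 (y / δ₁) with hTdef
  have hyd : 0 ≤ y / δ₁ := by positivity
  have hT : 0 < T := T4_pos hyd
  have hA : 0 ≤ A := ha0.trans ha
  have hr2' : 0 ≤ 1 - r₂ := by linarith
  have h1 : T ≤ Real.exp (Y / δ) := by
    refine (T4_le_exp hyd).trans (Real.exp_le_exp.mpr ?_)
    calc y / δ₁ ≤ y / δ := by gcongr
      _ ≤ Y / δ := by gcongr
  have h2 : Real.exp (-Y / δ) ≤ 1 / T := by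
    rw [neg_div, Real.exp_neg, ← one_div]
    exact one_div_le_one_div_of_le hT h1
  have h3 : (1 + r₁) * √A < (1 - r₂) * T * √B := by
    refine lt_of_pow_lt_pow_left₀ 2 (by positivity) ?_
    rw [mul_pow, mul_pow ((1 - r₂) * T), Real.sq_sqrt hA, Real.sq_sqrt hB]
    exact h
  have h4 : √a ≤ √A := Real.sqrt_le_sqrt ha
  have h5 : √B ≤ √b := Real.sqrt_le_sqrt hb
  have hE := (Real.exp_pos (-Y / δ)).le
  have he2' : 0 ≤ 1 - e₂ := by linarith
  calc Real.exp (-Y / δ) * (1 + e₁) * √a ≤ Real.exp (-Y / δ) * (1 + r₁) * √a := by gcongr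
    _ ≤ 1 / T * (1 + r₁) * √A := by gcongr
    _ = ((1 + r₁) * √A) / T := by ring
    _ < ((1 - r₂) * T * √B) / T := by gcongr
    _ = (1 - r₂) * √B := by field_simp
    _ ≤ (1 - e₂) * √b := by gcongr

theorem condL_of {p : ℂ} {δ δ₁ y rl rr A B : ℝ} (hδ : 0 < δ) (hδ₁ : δ ≤ δ₁) (hy0 : 0 ≤ y)
    (hy : (Bp p).im ≤ -y) (hl : relL (hL p) δ ≤ rl) (hl0 : 0 ≤ rl) (hr : relR (hR p) δ ≤ rr) (hr1 : rr ≤ 1)
    (hA : ‖1 - hR p‖ ≤ A) (hB0 : 0 ≤ B) (hB : B ≤ ‖1 - hL p‖)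
    (h : (1 + rl) ^ 2 * A < ((1 - rr) * T4 (y / δ₁)) ^ 2 * B) : CondL p δ := by
  have := side_of (Y := -(Bp p).im) hδ hδ₁ hy0 (by linarith) hl hl0 hr hr1 (norm_nonneg _) hA hB0 hB h
  rw [neg_neg] at this
  exact this

theorem condR_of {p : ℂ} {δ δ₁ y rl rr A B : ℝ} (hδ : 0 < δ) (hδ₁ : δ ≤ δ₁) (hy0 : 0 ≤ y)
    (hy : y ≤ (Bp p).im) (hl : relL (hL p) δ ≤ rl) (hl1 : rl ≤ 1) (hr : relR (hR p) δ ≤ rr) (hr0 : 0 ≤ rr)
    (hA : ‖1 - hL p‖ ≤ A) (hB0 : 0 ≤ B) (hB : B ≤ ‖1 - hR p‖)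
    (h : (1 + rr) ^ 2 * A < ((1 - rl) * T4 (y / δ₁)) ^ 2 * B) : CondR p δ := by
  have := side_of (Y := (Bp p).im) hδ hδ₁ hy0 hy hr hr0 hl hl1 (norm_nonneg _) hA hB0 hB h
  rw [neg_div] at this
  exact this

end SokalTI
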