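import Pool.Agent.Lib_MP_af4de1_ti.Box2
import Pool.Agent.Lib_MP_af4de1_ti.Box3
import Pool.Agent.Lib_MP_af4de1_ti.BoxR
import Pool.Agent.Lib_MP_af4de1_ti.CertX

/-!
# Soundness of the tests of the tip certificate
-/

set_option autoImplicit false

namespace SokalTI

open SokalFU Complex

variable {I : Iv} {p : ℂ} {δ : ℝ}

theorem tG_sound {v1 u2 : ℚ} (h : tG v1 u2 I = true) (hI : I.Ok p) (him : 0 ≤ p.im) (hv : (v1 : ℝ) ≤ p.im)
    (hu : p.re ≤ u2) : CondG p := by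
  unfold tG at h
  simp only [Bool.and_eq_true, decide_eq_true_eq] at h
  obtain ⟨⟨h1, h2⟩, h3⟩ := h
  have h1' : (0 : ℝ) < I.gx1 := by exact_mod_cast h1
  have h2' : (I.gy2 : ℝ) < 0 := by exact_mod_cast h2
  have h3' : (u2 : ℝ) * I.gx2 < v1 * (-I.gy2) := by exact_mod_cast h3
  have g1 := hI.gx1
  have g2 := hI.gx2
  have g3 := hI.gy2
  have hp := hI.pos
  have e : Gp p = (1 - hL p) * (1 - hR p) := rfl
  unfold CondG
  rw [e]
  refine ⟨h1'.trans_le g1, ?_⟩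
  have a1 : p.re * ((1 - hL p) * (1 - hR p)).re ≤ u2 * I.gx2 :=
    mul_le_mul hu g2 (h1'.le.trans g1) (hp.le.trans hu)
  have a2 : (v1 : ℝ) * (-I.gy2) ≤ p.im * (-((1 - hL p) * (1 - hR p)).im) :=
    (mul_le_mul_of_nonneg_right hv (by linarith)).trans (mul_le_mul_of_nonneg_left (by linarith) him)
  linarith

theorem tw_sound (h : tw I = true) (hI : I.Ok p) : 1 < ‖wmap p‖ := by
  unfold tw at h
  simp only [Bool.and_eq_true, decide_eq_true_eq] at h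
  obtain ⟨h1, h2⟩ := h
  have h1' : (I.aL2 : ℝ) ≤ 0 := by exact_mod_cast h1
  have h2' : (24 : ℝ) < I.hL1 * (24 + 24 * (-I.aL2) + 12 * (I.aL2 * I.aL2) + 4 * (-I.aL2) * (I.aL2 * I.aL2) +
      (I.aL2 * I.aL2) * (I.aL2 * I.aL2)) := by exact_mod_cast h2
  have h3 := le_exp (t := -(I.aL2 : ℝ)) (by linarith)
  have h4 : Real.exp (-(I.aL2 : ℝ)) ≤ Real.exp (-(hL p).re) := Real.exp_le_exp.2 (by linarith [hI.aL2])
  set T : ℝ := 24 + 24 * (-I.aL2) + 12 * (I.aL2 * I.aL2) + 4 * (-I.aL2) * (I.aL2 * I.aL2) +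
      (I.aL2 * I.aL2) * (I.aL2 * I.aL2) with hT
  have hT0 : 0 < T := by
    rw [hT]
    have a1 : 0 ≤ 4 * (-(I.aL2 : ℝ)) * (I.aL2 * I.aL2) := mul_nonneg (by linarith) (mul_self_nonneg _)
    have a2 : 0 ≤ (I.aL2 : ℝ) * I.aL2 * (I.aL2 * I.aL2) := mul_self_nonneg _
    have a3 : 0 ≤ (I.aL2 : ℝ) * I.aL2 := mul_self_nonneg _
    linarith
  have h5 : T ≤ 24 * Real.exp (-(hL p).re) := by
    have : T = 24 * (1 + -(I.aL2 : ℝ) + (-(I.aL2 : ℝ)) ^ 2 / 2 + (-(I.aL2 : ℝ)) ^ 3 / 6 + (-(I.aL2 : ℝ)) ^ 4 / 24) := by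
      rw [hT]; ring
    rw [this]
    linarith
  have hL0 : (0 : ℝ) < I.hL1 := by
    by_contra hc
    push Not at hc
    have : (I.hL1 : ℝ) * T ≤ 0 := mul_nonpos_of_nonpos_of_nonneg hc hT0.le
    linarith
  rw [norm_wmap]
  have h6 : (I.hL1 : ℝ) * T ≤ ‖hL p‖ * (24 * Real.exp (-(hL p).re)) :=
    mul_le_mul hI.hL1 h5 hT0.le (norm_nonneg _)
  nlinarith

theorem tW_sound (h : tW I = true) (hI : I.Ok p) (hw : ‖wmap p‖ = 1) :
    (Bp p).re ≤ -(Real.pi * (2 / 25)) ∧ 3 / 4 < psiP p := by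
  unfold tW at h
  simp only [Bool.or_eq_true, Bool.and_eq_true, decide_eq_true_eq] at h
  rcases h with h | ⟨⟨⟨h1, h2⟩, h3⟩, h4⟩
  · exfalso
    have h' : (I.hL2 : ℝ) < 1 + I.aL1 := by exact_mod_cast h
    have h1 : ‖hL p‖ < 1 + (hL p).re := by linarith [hI.hL2, hI.aL1]
    have h2 : 1 + (hL p).re ≤ Real.exp (hL p).re := by linarith [Real.add_one_le_exp (hL p).re]
    have h3 : ‖wmap p‖ < 1 := by
      rw [norm_wmap, Real.exp_neg, ← div_eq_mul_inv, div_lt_one (Real.exp_pos _)]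
      linarith
    linarith
  · have h1' : (I.bx2 : ℝ) ≤ -1257 / 5000 := by
      have : ((I.bx2 : ℚ) : ℝ) ≤ ((-1257 / 5000 : ℚ) : ℝ) := by exact_mod_cast h1
      push_cast at this
      exact this
    have h2' : (2 : ℝ) < I.sR1 := by exact_mod_cast h2
    have h3' : (0 : ℝ) < I.aR1 := by exact_mod_cast h3
    have h4' : (3154 : ℝ) * I.sR2 ≤ 9489 * I.aR1 := by exact_mod_cast h4
    have hpi := Real.pi_lt_d4
    refine ⟨by linarith [hI.bx2], psi_gt (x54_of (h3'.trans_le hI.aR1) ?_) (h2'.trans_le hI.sR1)⟩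
    linarith [hI.sR2, hI.aR1]

theorem dmx_ge (hI : I.Ok p) (h0 : 0 < δ) (h1 : δ ≤ 2 / 25) (h2 : (Bp p).re ≤ -(Real.pi * δ)) :
    δ ≤ ((dmx I : ℚ) : ℝ) := by
  unfold dmx
  rw [Rat.cast_min]
  refine le_min (by push_cast; exact h1) ?_
  refine le_trans ?_ (le_rU _)
  push_cast
  have hpi := Real.pi_gt_d4
  rw [le_div_iff₀ (by norm_num)]
  nlinarith [hI.bx1]

theorem tB_sound {k : ℚ → ℚ → ℚ → ℚ → ℚ → Bool} (h : tB I k = true) :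
    ∃ dm rl rr bl br : ℚ, k dm rl rr bl br = true ∧ dm = dmx I ∧ (rl : ℝ) < 1 ∧ (rr : ℝ) < 1 ∧
      ∀ p : ℂ, ∀ δ : ℝ, I.Ok p → 0 < δ → δ ≤ 2 / 25 → (Bp p).re ≤ -(Real.pi * δ) →
        δ ≤ dm ∧ 0 < qp (hR p) ∧ relL (hL p) δ ≤ rl ∧ 0 ≤ relR (hR p) δ ∧ relR (hR p) δ ≤ rr ∧
          bL (hL p) δ ≤ bl ∧ bR (hR p) δ ≤ br := by
  unfold tB tB2 tB3 at h
  simp only [Bool.and_eq_true, decide_eq_true_eq] at h
  obtain ⟨⟨⟨⟨⟨⟨⟨⟨⟨⟨c1, c2⟩, c3⟩, c4⟩, c5⟩, c6⟩, c7⟩, c8⟩, c9⟩, c10⟩, ⟨c11, c12⟩, hk⟩ := h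
  refine ⟨_, _, _, _, _, hk, rfl, by exact_mod_cast c11, by exact_mod_cast c12, ?_⟩
  intro p δ hI δ0 δ1 hB
  have c1' : (0 : ℝ) < I.sL1 := by exact_mod_cast c1
  have c2' : (0 : ℝ) < sqL I.sL1 := by exact_mod_cast c2
  have c3' : (0 : ℝ) < sqL I.mL1 := by exact_mod_cast c3
  have c4' : (0 : ℝ) < I.sR1 := by exact_mod_cast c4
  have c5' : (0 : ℝ) < sqL I.sR1 := by exact_mod_cast c5
  have c6' : (0 : ℝ) < sqL I.mR1 := by exact_mod_cast c6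
  have c7' : (0 : ℝ) < q1 I := by exact_mod_cast c7
  have c8' : (0 : ℝ) < sqL (q1 I) := by exact_mod_cast c8
  have c9' : (0 : ℝ) < x1 I := by exact_mod_cast c9
  have c10' : (0 : ℝ) < sqL (x1 I) := by exact_mod_cast c10
  have c11' : ((relLU I (dmx I) : ℚ) : ℝ) < 1 := by exact_mod_cast c11
  have c12' : ((relRU I (dmx I) (sqU (dmx I)) (q1 I) (x1 I) (sqU (dmx I / q1 I)) (tfUq (dmx I) (q1 I) (x1 I)) : ℚ) : ℝ) < 1 := by
    exact_mod_cast c12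
  have hdm := dmx_ge hI δ0 δ1 hB
  have dm0 : (0 : ℝ) < dmx I := δ0.trans_le hdm
  have hsd : √δ ≤ ((sqU (dmx I) : ℚ) : ℝ) := sqU_spec hdm
  have hnR : 0 < ‖hR p‖ := by
    have h1 : 0 < (hR p).im := c4'.trans_le hI.sR1
    exact h1.trans_le ((le_abs_self _).trans (abs_im_le_norm _))
  have hhR2 : (0 : ℝ) < I.hR2 := hnR.trans_le hI.hR2
  -- left
  have hSL : √(‖1 - hL p‖ * δ) ≤ ((sqU (I.mL2 * dmx I) : ℚ) : ℝ) := by
    refine sqU_spec ?_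
    push_cast
    exact mul_le_mul hI.mL2 hdm δ0.le ((norm_nonneg _).trans hI.mL2)
  have hrl : relL (hL p) δ ≤ ((relLU I (dmx I) : ℚ) : ℝ) := by
    refine (Bx.relL_le hI.hL2 c1' hI.sL1 hSL).trans ?_
    unfold relLU
    refine le_trans (le_of_eq ?_) (le_rU _)
    push_cast
    ring
  have hbl : bL (hL p) δ ≤ ((bLU I (dmx I) (sqU (dmx I)) (relLU I (dmx I)) : ℚ) : ℝ) := by
    refine (Bx.bL_le hI.hL2 c1' hI.sL1 c2' (sqL_spec c1'.le le_rfl) c3'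
      (sqL_spec (norm_nonneg _) hI.mL1) δ0.le hdm hsd hrl c11').trans ?_
    unfold bLU
    push_cast
    exact le_rfl
  -- right
  have hq : ((q1 I : ℚ) : ℝ) ≤ qp (hR p) := by
    refine Bx.qp_ge hI.aR1 hI.sR1 ?_
    unfold q1
    refine (rL_le _).trans (le_of_eq ?_)
    push_cast
    rfl
  have hx : ((x1 I : ℚ) : ℝ) ≤ xl (hR p) := by
    refine Bx.xl_ge hI.hR2 hnR c4' hI.sR1 ?_
    unfold x1
    refine (rL_le _).trans (le_of_eq ?_)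
    push_cast
    rfl
  have htf : tf (hR p) δ ≤ ((tfUq (dmx I) (q1 I) (x1 I) : ℚ) : ℝ) := by
    refine Bx.tf_le c7' hq c9' hx δ0.le hdm ?_
    unfold tfUq
    refine le_trans (le_of_eq ?_) (le_rU _)
    push_cast
    rfl
  have hSR : √(‖1 - hR p‖ * δ) ≤ ((sqU (I.mR2 * dmx I) : ℚ) : ℝ) := by
    refine sqU_spec ?_
    push_cast
    exact mul_le_mul hI.mR2 hdm δ0.le ((norm_nonneg _).trans hI.mR2)
  have hSq : √(((dmx I : ℚ) : ℝ) / ((q1 I : ℚ) : ℝ)) ≤ ((sqU (dmx I / q1 I) : ℚ) : ℝ) := by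
    refine sqU_spec ?_
    push_cast
    exact le_rfl
  have hqp0 : 0 < qp (hR p) := c7'.trans_le hq
  have hxl0 : 0 < xl (hR p) := c9'.trans_le hx
  have hm2 : √‖1 - hR p‖ ≤ ((sqU I.mR2 : ℚ) : ℝ) := sqU_spec hI.mR2
  have hrr : relR (hR p) δ ≤ ((relRU I (dmx I) (sqU (dmx I)) (q1 I) (x1 I) (sqU (dmx I / q1 I)) (tfUq (dmx I) (q1 I) (x1 I)) : ℚ) : ℝ) := by
    refine (Bx.relR_le hI.hR2 c4' hI.sR1 hSR c7' hq c9' hx δ0.le hdm hsd hSq htf hm2 c10'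
      (sqL_spec c9'.le le_rfl)).trans ?_
    conv_rhs => unfold relRU
    refine le_trans (le_of_eq ?_) (le_rU _)
    push_cast
    rfl
  have hbr := Bx.bR_le hI.hR2 hnR c4' hI.sR1 c5' (sqL_spec c4'.le le_rfl) c7' hq c8' (sqL_spec c7'.le le_rfl)
    c9' hx δ0.le hdm hsd hSq htf c6' (sqL_spec (norm_nonneg _) hI.mR1) hm2 hrr c12'
  refine ⟨hdm, hqp0, hrl, Bx.relR_nonneg _ _ hqp0 hxl0, hrr, hbl, hbr.trans (le_of_eq ?_)⟩
  conv_rhs => unfold bRU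
  push_cast
  rfl

theorem tP_sound {u1 : ℚ} (h : tP u1 I = true) (hI : I.Ok p) (hu : (u1 : ℝ) ≤ p.re) (δ0 : 0 < δ) (δ1 : δ ≤ 2 / 25)
    (hB : (Bp p).re ≤ -(Real.pi * δ)) : PtCond p δ ∧ ((Bp p).re = -(Real.pi * δ) → CondI p δ) := by
  unfold tP at h
  simp only [Bool.and_eq_true, Bool.or_eq_true, decide_eq_true_eq] at h
  obtain ⟨⟨⟨⟨c1, c2⟩, c3⟩, c4⟩, hb⟩ := h
  obtain ⟨dm, rl, rr, bl, br, hk, -, hrl, hrr, hall⟩ := tB_sound hb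
  obtain ⟨hdm, hqp, hl, hr0, hr, hbl, hbr⟩ := hall p δ hI δ0 δ1 hB
  simp only [Bool.and_eq_true, Bool.or_eq_true, decide_eq_true_eq] at hk
  obtain ⟨⟨d1, d2⟩, d3⟩ := hk
  have c1' : (97 / 100 : ℝ) ≤ I.aR1 := by
    have : ((97 / 100 : ℚ) : ℝ) ≤ ((I.aR1 : ℚ) : ℝ) := by exact_mod_cast c1
    push_cast at this
    exact this
  have c2' : (I.sR2 : ℝ) ≤ 5 * I.aR1 := by exact_mod_cast c2
  have c3' : (3154 : ℝ) * I.sR2 ≤ 9489 * I.aR1 := by exact_mod_cast c3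
  have d1' : (24 / 5 : ℝ) * dm ≤ I.sL1 := by
    have : ((24 / 5 * dm : ℚ) : ℝ) ≤ ((I.sL1 : ℚ) : ℝ) := by exact_mod_cast d1
    push_cast at this
    exact this
  have d2' : (bl : ℝ) + br < u1 := by exact_mod_cast d2
  have haR : 0 < (hR p).re := by linarith [hI.aR1]
  have hsR0 : 0 ≤ (hR p).im := by
    unfold tB at hb
    simp only [Bool.and_eq_true, decide_eq_true_eq] at hb
    have : (0 : ℝ) < I.sR1 := by exact_mod_cast hb.1.1.1.1.1.1.1.2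
    exact this.le.trans hI.sR1
  have hx54 : arg (hR p) ≤ 5 / 4 := x54_of haR (by linarith [hI.sR2, hI.aR1])
  refine ⟨⟨by linarith [hI.sL1], xs_of haR hsR0 hx54 ?_, hx54, by linarith [hI.sR2, hI.aR1],
    c1'.trans hI.aR1, hqp, hl.trans_lt hrl, hr.trans_lt hrr, by linarith⟩, ?_⟩
  · rcases c4 with c4 | c4
    · left
      have : ((5 / 4 : ℚ) : ℝ) ≤ ((I.sR1 : ℚ) : ℝ) := by exact_mod_cast c4
      push_cast at this
      exact this.trans hI.sR1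
    · right
      have h1 : (3 : ℝ) - I.sR1 * I.sR1 ≤ 3 * I.aR1 := by exact_mod_cast c4
      have h0 : (0 : ℝ) < I.sR1 := by
        unfold tB at hb
        simp only [Bool.and_eq_true, decide_eq_true_eq] at hb
        exact_mod_cast hb.1.1.1.1.1.1.1.2
      have h2 : (I.sR1 : ℝ) * I.sR1 ≤ (hR p).im * (hR p).im := mul_self_le_mul_self h0.le hI.sR1
      nlinarith [hI.aR1]
  · intro hin
    rcases d3 with d3 | ⟨⟨⟨e1, e2⟩, e3⟩, e4⟩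
    · exfalso
      have h1 : (1257 / 5000 : ℝ) < -I.bx2 := by
        have : ((1257 / 5000 : ℚ) : ℝ) < ((-I.bx2 : ℚ) : ℝ) := by exact_mod_cast d3
        push_cast at this
        exact this
      have hpi := Real.pi_lt_d4
      have hpi0 := Real.pi_pos
      have h2 : Real.pi * δ ≤ Real.pi * (2 / 25) := mul_le_mul_of_nonneg_left δ1 hpi0.le
      linarith [hI.bx2]
    · have e1' : (2 : ℝ) * (rl * rl) ≤ 1 := by exact_mod_cast e1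
      have e2' : (2 : ℝ) * (rr * rr) ≤ 1 := by exact_mod_cast e2
      have e3' : (3 / 5 : ℝ) * (1 - I.aL1) - 4 / 5 * I.sL1 < (1 - 2 * (rl * rl)) * I.mL1 := by
        have : ((3 / 5 * (1 - I.aL1) - 4 / 5 * I.sL1 : ℚ) : ℝ) < (((1 - 2 * (rl * rl)) * I.mL1 : ℚ) : ℝ) := by
          exact_mod_cast e3
        push_cast at this
        exact this
      have e4' : (4 / 5 : ℝ) * I.sR2 - 3 / 5 * (I.aR1 - 1) < (1 - 2 * (rr * rr)) * I.mR1 := by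
        have : ((4 / 5 * I.sR2 - 3 / 5 * (I.aR1 - 1) : ℚ) : ℝ) < (((1 - 2 * (rr * rr)) * I.mR1 : ℚ) : ℝ) := by
          exact_mod_cast e4
        push_cast at this
        exact this
      have hl0 := Bx.relL_nonneg (hL p) δ
      have q1 : relL (hL p) δ ^ 2 ≤ rl * rl := by
        rw [pow_two]
        exact mul_self_le_mul_self hl0 hl
      have q2 : relR (hR p) δ ^ 2 ≤ rr * rr := by
        rw [pow_two]
        exact mul_self_le_mul_self hr0 hr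
      constructor
      · have m1 : (1 - 2 * (rl * rl : ℝ)) * I.mL1 ≤ (1 - 2 * relL (hL p) δ ^ 2) * ‖1 - hL p‖ := by
          calc (1 - 2 * (rl * rl : ℝ)) * I.mL1 ≤ (1 - 2 * (rl * rl : ℝ)) * ‖1 - hL p‖ :=
                mul_le_mul_of_nonneg_left hI.mL1 (by linarith)
            _ ≤ _ := mul_le_mul_of_nonneg_right (by linarith) (norm_nonneg _)
        linarith [hI.aL1, hI.sL1]
      · have m1 : (1 - 2 * (rr * rr : ℝ)) * I.mR1 ≤ (1 - 2 * relR (hR p) δ ^ 2) * ‖1 - hR p‖ := by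
          calc (1 - 2 * (rr * rr : ℝ)) * I.mR1 ≤ (1 - 2 * (rr * rr : ℝ)) * ‖1 - hR p‖ :=
                mul_le_mul_of_nonneg_left hI.mR1 (by linarith)
            _ ≤ _ := mul_le_mul_of_nonneg_right (by linarith) (norm_nonneg _)
        linarith [hI.sR2, hI.aR1]

theorem e4_pos {z : ℚ} (hz : 0 ≤ z) : (0 : ℝ) < ((e4 z : ℚ) : ℝ) := by
  have hz' : (0 : ℝ) ≤ z := by exact_mod_cast hz
  unfold e4
  push_cast
  positivity

/-- the common step of the two sides -/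
theorem side_sound {E r1 r2 a1 a2 m1 m2 M1 M2 Z : ℝ} {z : ℚ} (h0 : 0 ≤ z) (hz : (z : ℝ) ≤ Z) (hZ : 0 ≤ Z) (hE : E ≤ Real.exp (-Z))
    (hE0 : 0 < E) (h1 : a1 ≤ r1) (ha1 : 0 ≤ a1) (h2 : a2 ≤ r2) (hr2 : r2 < 1) (hm1 : m1 ≤ M1) (hm0 : 0 ≤ m1) (hm2 : M2 ≤ m2) (hM2 : 0 ≤ M2)
    (h : 24 * ((1 + r1) * M1) < (1 - r2) * M2 * ((e4 z : ℚ) : ℝ)) : E * (1 + a1) * m1 < (1 - a2) * m2 := by
  have hM1 : 0 ≤ M1 := hm0.trans hm1
  have hr1 : 0 ≤ r1 := ha1.trans h1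
  have hez : ((e4 z : ℚ) : ℝ) ≤ 24 * Real.exp Z := by
    have h0' : (0 : ℝ) ≤ z := by exact_mod_cast h0
    have h3 := le_exp h0'
    have h4 : Real.exp (z : ℝ) ≤ Real.exp Z := Real.exp_le_exp.2 hz
    have h5 : ((e4 z : ℚ) : ℝ) = 24 * (1 + (z : ℝ) + (z : ℝ) ^ 2 / 2 + (z : ℝ) ^ 3 / 6 + (z : ℝ) ^ 4 / 24) := by
      unfold e4
      push_cast
      ring
    rw [h5]
    linarith
  have hEZ : E * Real.exp Z ≤ 1 := by
    calc E * Real.exp Z ≤ Real.exp (-Z) * Real.exp Z := mul_le_mul_of_nonneg_right hE (Real.exp_pos _).le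
      _ = 1 := by rw [← Real.exp_add, neg_add_cancel, Real.exp_zero]
  have h6 : 24 * ((1 + r1) * M1) < (1 - r2) * M2 * (24 * Real.exp Z) :=
    h.trans_le (mul_le_mul_of_nonneg_left hez (mul_nonneg (by linarith) hM2))
  have h7 : (1 + r1) * M1 < (1 - r2) * M2 * Real.exp Z := by nlinarith
  calc E * (1 + a1) * m1 ≤ E * (1 + r1) * M1 := by gcongr
    _ = E * ((1 + r1) * M1) := by ring
    _ < E * ((1 - r2) * M2 * Real.exp Z) := mul_lt_mul_of_pos_left h7 hE0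
    _ = (1 - r2) * M2 * (E * Real.exp Z) := by ring
    _ ≤ (1 - r2) * M2 * 1 := mul_le_mul_of_nonneg_left hEZ (mul_nonneg (by linarith) hM2)
    _ ≤ (1 - a2) * m2 := by
        rw [mul_one]
        exact mul_le_mul (by linarith) hm2 hM2 (by linarith)

theorem rL_nonneg {q : ℚ} (h : 0 ≤ q) : 0 ≤ rL q := by
  unfold rL
  rw [Rat.mkRat_eq_div]
  have h1 : 0 ≤ q.num := Rat.num_nonneg.2 h
  have h2 : 0 ≤ q.num * 1048576 / (q.den : ℤ) := by positivity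
  have h3 : (0 : ℚ) ≤ ((q.num * 1048576 / (q.den : ℤ) : ℤ) : ℚ) := by exact_mod_cast h2
  positivity

theorem tL_sound (h : tL I = true) (hI : I.Ok p) (δ0 : 0 < δ) (δ1 : δ ≤ 2 / 25)
    (hB : (Bp p).re ≤ -(Real.pi * δ)) : CondL p δ := by
  unfold tL at h
  rw [Bool.and_eq_true, decide_eq_true_eq] at h
  obtain ⟨hb, ht⟩ := h
  obtain ⟨dm, rl, rr, bl, br, hk, -, hrl, hrr, hall⟩ := tB_sound ht
  obtain ⟨hdm, hqp, hl, hr0, hr, hbl, hbr⟩ := hall p δ hI δ0 δ1 hB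
  simp only [Bool.and_eq_true, decide_eq_true_eq] at hk
  obtain ⟨d0, d1⟩ := hk
  have hb' : (I.by2 : ℝ) < 0 := by exact_mod_cast hb
  have d0' : (0 : ℝ) < dm := by exact_mod_cast d0
  have d1' : (24 : ℝ) * ((1 + rl) * ((sqU I.mR2 : ℚ) : ℝ)) < (1 - rr) * ((sqL I.mL1 : ℚ) : ℝ) * ((e4 (rL (-I.by2 / dm)) : ℚ) : ℝ) := by
    exact_mod_cast d1
  have hz := rL_le (-I.by2 / dm)
  push_cast at hz
  have hz0 : 0 ≤ rL (-I.by2 / dm) := rL_nonneg (div_nonneg (by linarith) d0.le)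
  unfold CondL
  refine side_sound (Z := -I.by2 / dm) hz0 hz ?_ ?_ (Real.exp_pos _) hl (Bx.relL_nonneg _ _) hr hrr (sqU_spec hI.mR2)
    (Real.sqrt_nonneg _) (sqL_spec (norm_nonneg _) hI.mL1) (sqL_nonneg _) d1'
  · exact div_nonneg (by linarith) d0'.le
  · refine Real.exp_le_exp.2 ?_
    have h1 : (Bp p).im / δ ≤ (I.by2 : ℝ) / δ := div_le_div_of_nonneg_right hI.by2 δ0.le
    have h2 : (-(I.by2 : ℝ)) / dm ≤ (-(I.by2 : ℝ)) / δ := div_le_div_of_nonneg_left (by linarith) δ0 hdm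
    have h3 : (-(I.by2 : ℝ)) / δ = -((I.by2 : ℝ) / δ) := neg_div _ _
    linarith

theorem tR_sound (h : tR I = true) (hI : I.Ok p) (δ0 : 0 < δ) (δ1 : δ ≤ 2 / 25)
    (hB : (Bp p).re ≤ -(Real.pi * δ)) : CondR p δ := by
  unfold tR at h
  rw [Bool.and_eq_true, decide_eq_true_eq] at h
  obtain ⟨hb, ht⟩ := h
  obtain ⟨dm, rl, rr, bl, br, hk, -, hrl, hrr, hall⟩ := tB_sound ht
  obtain ⟨hdm, hqp, hl, hr0, hr, hbl, hbr⟩ := hall p δ hI δ0 δ1 hB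
  simp only [Bool.and_eq_true, decide_eq_true_eq] at hk
  obtain ⟨d0, d1⟩ := hk
  have hb' : (0 : ℝ) < I.by1 := by exact_mod_cast hb
  have d0' : (0 : ℝ) < dm := by exact_mod_cast d0
  have d1' : (24 : ℝ) * ((1 + rr) * ((sqU I.mL2 : ℚ) : ℝ)) < (1 - rl) * ((sqL I.mR1 : ℚ) : ℝ) * ((e4 (rL (I.by1 / dm)) : ℚ) : ℝ) := by
    exact_mod_cast d1
  have hz := rL_le (I.by1 / dm)
  push_cast at hz
  have hz0 : 0 ≤ rL (I.by1 / dm) := rL_nonneg (div_nonneg hb.le d0.le)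
  unfold CondR
  refine side_sound (Z := I.by1 / dm) hz0 hz ?_ ?_ (Real.exp_pos _) hr hr0 hl hrl (sqU_spec hI.mL2)
    (Real.sqrt_nonneg _) (sqL_spec (norm_nonneg _) hI.mR1) (sqL_nonneg _) d1'
  · exact div_nonneg hb'.le d0'.le
  · refine Real.exp_le_exp.2 (neg_le_neg ?_)
    have h1 : (I.by1 : ℝ) / δ ≤ (Bp p).im / δ := div_le_div_of_nonneg_right hI.by1 δ0.le
    have h2 : (I.by1 : ℝ) / dm ≤ (I.by1 : ℝ) / δ := div_le_div_of_nonneg_left hb'.le δ0 hdm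
    linarith

/-! ### Cells and segments -/

theorem cell_sound {u1 u2 v1 v2 : ℤ} (h : cell u1 u2 v1 v2 = true) (him : 0 ≤ p.im)
    (hu1 : (u1 : ℝ) / 1024 ≤ p.re) (hu2 : p.re ≤ (u2 : ℝ) / 1024) (hv1 : (v1 : ℝ) / 1024 ≤ p.im)
    (hm : ‖p - qc (mkRat (512 * (u1 + u2)) 1048576) (mkRat (512 * (v1 + v2)) 1048576)‖ ≤
      ((sqU (mkRat ((u2 - u1) * (u2 - u1) + (v2 - v1) * (v2 - v1)) 4194304) : ℚ) : ℝ)) :
    CondG p ∧ (‖wmap p‖ ≤ 1 → ∀ δ : ℝ, 0 < δ → δ ≤ 2 / 25 → (Bp p).re ≤ -(Real.pi * δ) →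
      PtCond p δ ∧ ((Bp p).re = -(Real.pi * δ) → CondI p δ)) := by
  unfold cell rect at h
  obtain ⟨I, hk, hI⟩ := mkIv_spec h
  have hIp := hI p hm
  rw [Bool.and_eq_true, Bool.or_eq_true] at hk
  refine ⟨tG_sound hk.1 hIp him ?_ ?_, fun hw δ δ0 δ1 hB => ?_⟩
  · rw [Rat.mkRat_eq_div]
    push_cast
    exact hv1
  · rw [Rat.mkRat_eq_div]
    push_cast
    exact hu2
  · rcases hk.2 with h1 | h1
    · exact absurd (tw_sound h1 hIp) (not_lt.2 hw)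
    · refine tP_sound h1 hIp ?_ δ0 δ1 hB
      rw [Rat.mkRat_eq_div]
      push_cast
      exact hu1

theorem segL_sound {v1 v2 : ℤ} (h : segL v1 v2 = true)
    (hm : ‖p - qc (mkRat (1024 * (v1 + v2) / 5) 1048576) (mkRat (512 * (v1 + v2)) 1048576)‖ ≤
      ((mkRat (10771 * (v2 - v1)) 20480000 + mkRat 1 1048576 : ℚ) : ℝ)) :
    (‖wmap p‖ ≤ 1 → ∀ δ : ℝ, 0 < δ → δ ≤ 2 / 25 → (Bp p).re ≤ -(Real.pi * δ) → CondL p δ) ∧
    (‖wmap p‖ = 1 → (Bp p).re ≤ -(Real.pi * (2 / 25)) ∧ 3 / 4 < psiP p) := by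
  unfold segL at h
  obtain ⟨I, hk, hI⟩ := mkIv_spec h
  have hIp := hI p hm
  rw [Bool.or_eq_true, Bool.and_eq_true] at hk
  rcases hk with h1 | ⟨h1, h2⟩
  · exact ⟨fun hw => absurd (tw_sound h1 hIp) (not_lt.2 hw), fun hw => absurd (tw_sound h1 hIp) (not_lt.2 hw.le)⟩
  · exact ⟨fun _ δ δ0 δ1 hB => tL_sound h1 hIp δ0 δ1 hB, fun hw => tW_sound h2 hIp hw⟩

theorem segR_sound {v1 v2 : ℤ} (h : segR v1 v2 = true)
    (hm : ‖p - qc (mkRat (2048 * (v1 + v2) / 5) 1048576) (mkRat (512 * (v1 + v2)) 1048576)‖ ≤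
      ((mkRat (12807 * (v2 - v1)) 20480000 + mkRat 1 1048576 : ℚ) : ℝ)) :
    ‖wmap p‖ ≤ 1 → ∀ δ : ℝ, 0 < δ → δ ≤ 2 / 25 → (Bp p).re ≤ -(Real.pi * δ) → CondR p δ := by
  unfold segR at h
  obtain ⟨I, hk, hI⟩ := mkIv_spec h
  have hIp := hI p hm
  rw [Bool.or_eq_true] at hk
  rcases hk with h1 | h1
  · exact fun hw => absurd (tw_sound h1 hIp) (not_lt.2 hw)
  · exact fun _ δ δ0 δ1 hB => tR_sound h1 hIp δ0 δ1 hB

theorem segU_sound {v1 v2 : ℤ} (h : segU v1 v2 = true)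
    (hm : ‖p - qc (mkRat ((97307853 + 11264 * (v1 + v2)) / 100) 1048576) (mkRat (512 * (v1 + v2)) 1048576)‖ ≤
      ((mkRat (10240 * (v2 - v1)) 20480000 + mkRat 1 1048576 : ℚ) : ℝ)) :
    ‖wmap p‖ ≤ 1 → ∀ δ : ℝ, 0 < δ → δ ≤ 2 / 25 → (Bp p).re ≤ -(Real.pi * δ) → CondR p δ := by
  unfold segU at h
  obtain ⟨I, hk, hI⟩ := mkIv_spec h
  have hIp := hI p hm
  rw [Bool.or_eq_true] at hk
  rcases hk with h1 | h1
  · exact fun hw => absurd (tw_sound h1 hIp) (not_lt.2 hw)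
  · exact fun _ δ δ0 δ1 hB => tR_sound h1 hIp δ0 δ1 hB

theorem segT_sound {u1 u2 : ℤ} (h : segT u1 u2 = true)
    (hm : ‖p - qc (mkRat (512 * (u1 + u2)) 1048576) (mkRat (512 * (3891 + 3892)) 1048576)‖ ≤
      ((sqU (mkRat ((u2 - u1) * (u2 - u1) + (3892 - 3891) * (3892 - 3891)) 4194304) : ℚ) : ℝ)) : 1 < ‖wmap p‖ := by
  unfold segT rect at h
  obtain ⟨I, hk, hI⟩ := mkIv_spec h
  exact tw_sound hk (hI p hm)

end SokalTI
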