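import Pool.Agent.Lib_MP_af4de1_ti.Box3
import Pool.Agent.Lib_MP_af4de1_ti.Cond

/-!
# The discs of the certificate contain the rectangles and the segments
-/

set_option autoImplicit false

namespace SokalTI

open SokalFU Complex

theorem rect_mem {u1 u2 v1 v2 : ℤ} {p : ℂ} (h1 : (u1 : ℝ) / 1024 ≤ p.re) (h2 : p.re ≤ (u2 : ℝ) / 1024)
    (h3 : (v1 : ℝ) / 1024 ≤ p.im) (h4 : p.im ≤ (v2 : ℝ) / 1024) :
    ‖p - qc (mkRat (512 * (u1 + u2)) 1048576) (mkRat (512 * (v1 + v2)) 1048576)‖ ≤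
      ((sqU (mkRat ((u2 - u1) * (u2 - u1) + (v2 - v1) * (v2 - v1)) 4194304) : ℚ) : ℝ) := by
  have e : ‖p - qc (mkRat (512 * (u1 + u2)) 1048576) (mkRat (512 * (v1 + v2)) 1048576)‖ =
      √((p.re - ((u1 : ℝ) + u2) / 2048) ^ 2 + (p.im - ((v1 : ℝ) + v2) / 2048) ^ 2) := by
    rw [Complex.norm_eq_sqrt_sq_add_sq]
    congr 2
    · congr 1
      rw [Complex.sub_re, qc_re, Rat.mkRat_eq_div]
      push_cast
      ring
    · congr 1
      rw [Complex.sub_im, qc_im, Rat.mkRat_eq_div]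
      push_cast
      ring
  rw [e]
  refine sqU_spec ?_
  rw [Rat.mkRat_eq_div]
  push_cast
  have a1 : (p.re - ((u1 : ℝ) + u2) / 2048) ^ 2 ≤ (((u2 : ℝ) - u1) / 2048) ^ 2 := by
    refine sq_le_sq' ?_ ?_ <;> linarith
  have a2 : (p.im - ((v1 : ℝ) + v2) / 2048) ^ 2 ≤ (((v2 : ℝ) - v1) / 2048) ^ 2 := by
    refine sq_le_sq' ?_ ?_ <;> linarith
  refine (add_le_add a1 a2).trans (le_of_eq ?_)
  ring

/-- the discs on a line -/
theorem line_mem {v1 v2 cr K : ℤ} {s c0 : ℝ} {p : ℂ} (h : p.re = c0 + s * p.im)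
    (h3 : (v1 : ℝ) / 1024 ≤ p.im) (h4 : p.im ≤ (v2 : ℝ) / 1024)
    (hc : |c0 + s * (((v1 : ℝ) + v2) / 2048) - (cr : ℝ) / 1048576| ≤ 1 / 1048576) (hK : 0 ≤ K)
    (hs : 1 + s ^ 2 ≤ ((K : ℝ) / 10000) ^ 2) :
    ‖p - qc (mkRat cr 1048576) (mkRat (512 * (v1 + v2)) 1048576)‖ ≤
      ((mkRat (K * (v2 - v1)) 20480000 + mkRat 1 1048576 : ℚ) : ℝ) := by
  have hK' : (0 : ℝ) ≤ (K : ℝ) := by exact_mod_cast hK
  have e : p - qc (mkRat cr 1048576) (mkRat (512 * (v1 + v2)) 1048576) =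
      ((p.im - ((v1 : ℝ) + v2) / 2048 : ℝ) : ℂ) * (⟨s, 1⟩ : ℂ) +
      ((c0 + s * (((v1 : ℝ) + v2) / 2048) - (cr : ℝ) / 1048576 : ℝ) : ℂ) := by
    apply Complex.ext
    · rw [Complex.sub_re, qc_re, Rat.mkRat_eq_div, Complex.add_re, Complex.re_ofReal_mul, Complex.ofReal_re, h]
      push_cast
      ring
    · rw [Complex.sub_im, qc_im, Rat.mkRat_eq_div, Complex.add_im, Complex.im_ofReal_mul, Complex.ofReal_im]
      push_cast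
      ring
  have n1 : ‖(⟨s, 1⟩ : ℂ)‖ ≤ (K : ℝ) / 10000 := by
    rw [Complex.norm_eq_sqrt_sq_add_sq]
    refine Real.sqrt_le_iff.2 ⟨by positivity, ?_⟩
    show s ^ 2 + 1 ^ 2 ≤ _
    linarith
  have n2 : ‖((p.im - ((v1 : ℝ) + v2) / 2048 : ℝ) : ℂ)‖ ≤ ((v2 : ℝ) - v1) / 2048 := by
    rw [Complex.norm_real, Real.norm_eq_abs, abs_le]
    constructor <;> linarith
  have n3 : ‖((c0 + s * (((v1 : ℝ) + v2) / 2048) - (cr : ℝ) / 1048576 : ℝ) : ℂ)‖ ≤ 1 / 1048576 := by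
    rw [Complex.norm_real, Real.norm_eq_abs]
    exact hc
  have n4 := mul_le_mul n2 n1 (norm_nonneg _) ((norm_nonneg _).trans n2)
  rw [e]
  refine (norm_add_le _ _).trans ?_
  rw [norm_mul]
  refine (add_le_add n4 n3).trans (le_of_eq ?_)
  rw [Rat.mkRat_eq_div, Rat.mkRat_eq_div]
  push_cast
  ring

theorem segL_mem {v1 v2 : ℤ} {p : ℂ} (h : p.re = 2 / 5 * p.im)
    (h3 : (v1 : ℝ) / 1024 ≤ p.im) (h4 : p.im ≤ (v2 : ℝ) / 1024) :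
    ‖p - qc (mkRat (1024 * (v1 + v2) / 5) 1048576) (mkRat (512 * (v1 + v2)) 1048576)‖ ≤
      ((mkRat (10771 * (v2 - v1)) 20480000 + mkRat 1 1048576 : ℚ) : ℝ) := by
  refine line_mem (s := 2 / 5) (c0 := 0) (by rw [h]; ring) h3 h4 ?_ (by norm_num) (by norm_num)
  have a1 : 1024 * (v1 + v2) / 5 * 5 ≤ 1024 * (v1 + v2) := Int.ediv_mul_le _ (by norm_num)
  have a2 : 1024 * (v1 + v2) < (1024 * (v1 + v2) / 5 + 1) * 5 := Int.lt_ediv_add_one_mul_self _ (by norm_num)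
  have b1 : ((1024 * (v1 + v2) / 5 : ℤ) : ℝ) * 5 ≤ 1024 * ((v1 : ℝ) + v2) := by exact_mod_cast a1
  have b2 : 1024 * ((v1 : ℝ) + v2) < (((1024 * (v1 + v2) / 5 : ℤ) : ℝ) + 1) * 5 := by exact_mod_cast a2
  rw [abs_le]
  constructor <;> linarith

theorem segR_mem {v1 v2 : ℤ} {p : ℂ} (h : p.re = 4 / 5 * p.im)
    (h3 : (v1 : ℝ) / 1024 ≤ p.im) (h4 : p.im ≤ (v2 : ℝ) / 1024) :
    ‖p - qc (mkRat (2048 * (v1 + v2) / 5) 1048576) (mkRat (512 * (v1 + v2)) 1048576)‖ ≤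
      ((mkRat (12807 * (v2 - v1)) 20480000 + mkRat 1 1048576 : ℚ) : ℝ) := by
  refine line_mem (s := 4 / 5) (c0 := 0) (by rw [h]; ring) h3 h4 ?_ (by norm_num) (by norm_num)
  have a1 : 2048 * (v1 + v2) / 5 * 5 ≤ 2048 * (v1 + v2) := Int.ediv_mul_le _ (by norm_num)
  have a2 : 2048 * (v1 + v2) < (2048 * (v1 + v2) / 5 + 1) * 5 := Int.lt_ediv_add_one_mul_self _ (by norm_num)
  have b1 : ((2048 * (v1 + v2) / 5 : ℤ) : ℝ) * 5 ≤ 2048 * ((v1 : ℝ) + v2) := by exact_mod_cast a1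
  have b2 : 2048 * ((v1 : ℝ) + v2) < (((2048 * (v1 + v2) / 5 : ℤ) : ℝ) + 1) * 5 := by exact_mod_cast a2
  rw [abs_le]
  constructor <;> linarith

theorem segU_mem {v1 v2 : ℤ} {p : ℂ} (h : p.re = 32 / 25 + 11 / 50 * (p.im - 8 / 5))
    (h3 : (v1 : ℝ) / 1024 ≤ p.im) (h4 : p.im ≤ (v2 : ℝ) / 1024) :
    ‖p - qc (mkRat ((97307853 + 11264 * (v1 + v2)) / 100) 1048576) (mkRat (512 * (v1 + v2)) 1048576)‖ ≤
      ((mkRat (10240 * (v2 - v1)) 20480000 + mkRat 1 1048576 : ℚ) : ℝ) := by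
  refine line_mem (s := 11 / 50) (c0 := 116 / 125) (by rw [h]; ring) h3 h4 ?_ (by norm_num) (by norm_num)
  have a1 : (97307853 + 11264 * (v1 + v2)) / 100 * 100 ≤ 97307853 + 11264 * (v1 + v2) :=
    Int.ediv_mul_le _ (by norm_num)
  have a2 : 97307853 + 11264 * (v1 + v2) < ((97307853 + 11264 * (v1 + v2)) / 100 + 1) * 100 :=
    Int.lt_ediv_add_one_mul_self _ (by norm_num)
  have a3 : 97307853 + 11264 * (v1 + v2) + 1 ≤ ((97307853 + 11264 * (v1 + v2)) / 100 + 1) * 100 := a2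
  have b1 : (((97307853 + 11264 * (v1 + v2)) / 100 : ℤ) : ℝ) * 100 ≤ 97307853 + 11264 * ((v1 : ℝ) + v2) := by
    exact_mod_cast a1
  have b2 : 97307853 + 11264 * ((v1 : ℝ) + v2) + 1 ≤ ((((97307853 + 11264 * (v1 + v2)) / 100 : ℤ) : ℝ) + 1) * 100 := by
    exact_mod_cast a3
  rw [abs_le]
  constructor <;> linarith

end SokalTI
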