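import Pool.Agent.Lib_MP_af4de1_ti.Bounds

/-!
# The tip: common facts about `Ev`, `Ev2`
-/

set_option autoImplicit false

namespace SokalTI

open Complex MeasureTheory Set Filter Topology

/-- the height `-δ Re Ev` -/
noncomputable def ht (h v : ℂ) : ℝ := (v ^ 2 / 2 - h * gg v).im

theorem norm_exp_Ev {δ : ℝ} (hδ : 0 < δ) (h v : ℂ) :
    ‖cexp (Ev δ h v)‖ = Real.exp (-(ht h v / δ)) := by
  rw [Complex.norm_exp]
  congr 1
  unfold Ev ht
  have e : I / (δ : ℂ) * (v ^ 2 / 2 - h * gg v) = ((1 / δ : ℝ) : ℂ) * (I * (v ^ 2 / 2 - h * gg v)) := by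
    push_cast
    have : (δ : ℂ) ≠ 0 := by exact_mod_cast hδ.ne'
    field_simp
  rw [e, Complex.re_ofReal_mul, Complex.mul_re, Complex.I_re, Complex.I_im]
  ring

theorem norm_exp_Ev2 {δ : ℝ} (hδ : 0 < δ) (h v : ℂ) :
    ‖cexp (Ev2 δ h v)‖ = Real.exp (-(((1 - h) * (v ^ 2 / 2)).im / δ)) := by
  rw [Complex.norm_exp]
  congr 1
  unfold Ev2
  have e : I / (δ : ℂ) * ((1 - h) * (v ^ 2 / 2)) = ((1 / δ : ℝ) : ℂ) * (I * ((1 - h) * (v ^ 2 / 2))) := by
    push_cast
    have : (δ : ℂ) ≠ 0 := by exact_mod_cast hδ.ne'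
    field_simp
  rw [e, Complex.re_ofReal_mul, Complex.mul_re, Complex.I_re, Complex.I_im]
  ring

/-- the difference of the exponents -/
theorem Ev_sub_Ev2 (δ : ℝ) (h v : ℂ) : Ev δ h v - Ev2 δ h v = -(I / δ * h * (gg v - v ^ 2 / 2)) := by
  unfold Ev Ev2
  ring

theorem norm_Ev_sub_Ev2 {δ : ℝ} (hδ : 0 < δ) (h v : ℂ) :
    ‖Ev δ h v - Ev2 δ h v‖ = ‖h‖ / δ * ‖gg v - v ^ 2 / 2‖ := by
  rw [Ev_sub_Ev2, norm_neg, norm_mul, norm_mul, norm_div, Complex.norm_I, Complex.norm_real,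
    Real.norm_eq_abs, abs_of_pos hδ]
  ring

/-- `|e^z - e^w| ≤ |z - w| max(|e^z|, |e^w|)` -/
theorem norm_exp_sub_exp_le (z w : ℂ) {M : ℝ} (hz : ‖cexp z‖ ≤ M) (hw : ‖cexp w‖ ≤ M) :
    ‖cexp z - cexp w‖ ≤ ‖z - w‖ * M := by
  have hseg : ∀ y ∈ segment ℝ w z, ‖cexp y‖ ≤ M := by
    intro y hy
    obtain ⟨a, b, ha, hb, hab, rfl⟩ := hy
    rw [Complex.norm_exp] at hz hw ⊢
    have hM : 0 < M := (Real.exp_pos _).trans_le hz
    have h1 : z.re ≤ Real.log M := (Real.le_log_iff_exp_le hM).2 hz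
    have h2 : w.re ≤ Real.log M := (Real.le_log_iff_exp_le hM).2 hw
    rw [← Real.exp_log hM]
    apply Real.exp_le_exp.2
    have : (a • w + b • z).re = a * w.re + b * z.re := by
      simp [Complex.add_re]
    rw [this]
    calc a * w.re + b * z.re ≤ a * Real.log M + b * Real.log M :=
          add_le_add (mul_le_mul_of_nonneg_left h2 ha) (mul_le_mul_of_nonneg_left h1 hb)
      _ = Real.log M := by rw [← add_mul, hab, one_mul]
  have h3 := Convex.norm_image_sub_le_of_norm_hasDerivWithin_le (𝕜 := ℂ) (f := cexp) (f' := cexp) (C := M)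
    (s := segment ℝ w z) (x := w) (y := z)
    (fun y _ => (Complex.hasDerivAt_exp y).hasDerivWithinAt) hseg (convex_segment w z)
    (left_mem_segment ℝ w z) (right_mem_segment ℝ w z)
  rw [mul_comm]
  exact h3

theorem continuous_gg : Continuous gg := by
  unfold gg
  fun_prop

theorem continuous_Ev (δ : ℝ) (h : ℂ) : Continuous (Ev δ h) := by
  unfold Ev
  have := continuous_gg
  fun_prop

theorem continuous_Ev2 (δ : ℝ) (h : ℂ) : Continuous (Ev2 δ h) := by
  unfold Ev2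
  fun_prop

theorem hasDerivAt_gg (v : ℂ) : HasDerivAt gg (cexp v - 1) v := by
  unfold gg
  exact ((Complex.hasDerivAt_exp v).sub_const 1).sub (hasDerivAt_id v)

/-- `Ev' = (i/δ)((1-h) v - h g(v))` -/
theorem hasDerivAt_Ev (δ : ℝ) (h v : ℂ) :
    HasDerivAt (Ev δ h) (I / δ * ((1 - h) * v - h * gg v)) v := by
  have h1 : HasDerivAt (fun v : ℂ => v ^ 2 / 2) v v := by
    have := (hasDerivAt_pow 2 v).div_const 2
    simpa using this
  have h2 := (h1.sub ((hasDerivAt_gg v).const_mul h)).const_mul (I / (δ : ℂ))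
  have e : I / (δ : ℂ) * (v - h * (cexp v - 1)) = I / δ * ((1 - h) * v - h * gg v) := by
    unfold gg
    ring
  rw [e] at h2
  exact h2

theorem etq_re : et.re = 1 / 2 := by
  unfold et
  rw [← neg_mul, ← Complex.ofReal_neg, Complex.exp_ofReal_mul_I_re, Real.cos_neg, Real.cos_pi_div_three]

theorem etq_im : et.im = -(√3 / 2) := by
  unfold et
  rw [← neg_mul, ← Complex.ofReal_neg, Complex.exp_ofReal_mul_I_im, Real.sin_neg, Real.sin_pi_div_three]

theorem norm_et : ‖et‖ = 1 := by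
  unfold et
  rw [← neg_mul, ← Complex.ofReal_neg, Complex.norm_exp_ofReal_mul_I]

end SokalTI
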