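import Mathlib

/-!
# The tip: the exponent and the two saddle integrals

`Ev δ h v = (i/δ)(v²/2 - h g(v))`, `g v = e^v - 1 - v`.
`JLw w δ h`: the horizontal line with weight `w`; `JRw w δ h x`: from `+∞` along the horizontal line through
`2 x e^{-iπ/3}`, then straight to `0`, then up the imaginary axis.
-/

set_option autoImplicit false

namespace SokalTI

open Complex MeasureTheory Set

/-- `g(v) = e^v - 1 - v` -/
noncomputable def gg (v : ℂ) : ℂ := cexp v - 1 - v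

/-- the exponent -/
noncomputable def Ev (δ : ℝ) (h v : ℂ) : ℂ := I / δ * (v ^ 2 / 2 - h * gg v)

/-- its quadratic part -/
noncomputable def Ev2 (δ : ℝ) (h v : ℂ) : ℂ := I / δ * ((1 - h) * (v ^ 2 / 2))

/-- `e^{-iπ/3}` -/
noncomputable def et : ℂ := cexp (-((Real.pi / 3 : ℝ) * I))

/-- the left integral with a weight -/
noncomputable def JLw (w : ℂ → ℂ) (δ : ℝ) (h : ℂ) : ℂ := ∫ u : ℝ, w u * cexp (Ev δ h u)

/-- the right integral with a weight -/
noncomputable def JRw (w : ℂ → ℂ) (δ : ℝ) (h : ℂ) (x : ℝ) : ℂ :=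
  I * (∫ y in Ioi (0 : ℝ), w (I * y) * cexp (Ev δ h (I * y))) -
    et * (∫ t in (0 : ℝ)..(2 * x), w (t * et) * cexp (Ev δ h (t * et))) -
    ∫ u in Ioi (0 : ℝ), w (2 * x * et + u) * cexp (Ev δ h (2 * x * et + u))

noncomputable def JL (δ : ℝ) (h : ℂ) : ℂ := JLw (fun _ => 1) δ h
noncomputable def JL1 (δ : ℝ) (h : ℂ) : ℂ := JLw id δ h
noncomputable def JR (δ : ℝ) (h : ℂ) : ℂ := JRw (fun _ => 1) δ h (arg h)
noncomputable def JR1 (δ : ℝ) (h : ℂ) : ℂ := JRw id δ h (arg h)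

/-- the Gauss integral at the left saddle, `(2πδ/(s - i(1-a)))^{1/2}`, `h = a - i s` -/
noncomputable def jL (δ : ℝ) (h : ℂ) : ℂ := (2 * Real.pi * δ / (-(I * (1 - h)))) ^ (1 / 2 : ℂ)

/-- the Gauss integral at the right saddle, `i (2πδ/(s - i(a-1)))^{1/2}`, `h = a + i s` -/
noncomputable def jR (δ : ℝ) (h : ℂ) : ℂ := I * (2 * Real.pi * δ / (I * (1 - h))) ^ (1 / 2 : ℂ)

end SokalTI
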