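import Pool.Agent.Lib_MP_af4de1_fu.UReg

/-!
# The tip: expansion of `h_L` at `p = 0`
-/

set_option autoImplicit false

namespace SokalTI

open Complex SokalFU

/-- the error in `h_L = 1 - p/2 + p²/12 + ε` -/
noncomputable def eps (p : ℂ) : ℂ := hL p - (1 - p / 2 + p ^ 2 / 12)

theorem hL_eps (p : ℂ) : hL p = 1 - p / 2 + p ^ 2 / 12 + eps p := by unfold eps; ring

theorem norm_eps {p : ℂ} (hp : p.re ≠ 0) (h : ‖p‖ ≤ 3 / 10) : ‖eps p‖ ≤ ‖p‖ ^ 4 / 400 := by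
  have h1 := exp_ne_one hp
  have hp0 : 0 < ‖p‖ := norm_pos_iff.2 (ne_zero_of_re hp)
  have hn := norm_nonneg p
  have hle1 : ‖p‖ ≤ 1 := by linarith
  -- the remainder
  set E : ℂ := cexp p - ∑ m ∈ Finset.range 7, p ^ m / (m.factorial : ℂ) with hE
  have hEn : ‖E‖ ≤ ‖p‖ ^ 7 / 4410 := by
    refine (Complex.exp_bound hle1 (n := 7) (by norm_num)).trans (le_of_eq ?_)
    norm_num [Nat.factorial]
    ring
  have hexp : cexp p = 1 + p + p ^ 2 / 2 + p ^ 3 / 6 + p ^ 4 / 24 + p ^ 5 / 120 + p ^ 6 / 720 + E := by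
    rw [hE]
    simp only [Finset.sum_range_succ, Finset.sum_range_zero, Nat.factorial]
    push_cast
    ring
  have hN : (cexp p - 1) * (1 - p / 2 + p ^ 2 / 12) - p =
      p ^ 5 / 720 + p ^ 6 / 1440 + p ^ 8 / 8640 + E * (1 - p / 2 + p ^ 2 / 12) := by
    rw [hexp]
    ring
  have hNn : ‖(cexp p - 1) * (1 - p / 2 + p ^ 2 / 12) - p‖ ≤ 17 / 10000 * ‖p‖ ^ 5 := by
    rw [hN]
    have e1 : ‖p ^ 5 / 720‖ = ‖p‖ ^ 5 / 720 := by rw [norm_div, norm_pow]; norm_num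
    have e2 : ‖p ^ 6 / 1440‖ = ‖p‖ ^ 6 / 1440 := by rw [norm_div, norm_pow]; norm_num
    have e3 : ‖p ^ 8 / 8640‖ = ‖p‖ ^ 8 / 8640 := by rw [norm_div, norm_pow]; norm_num
    have e4 : ‖(1 : ℂ) - p / 2 + p ^ 2 / 12‖ ≤ 2 := by
      refine (norm_add_le _ _).trans ?_
      have a1 := norm_sub_le (1 : ℂ) (p / 2)
      have a2 : ‖p / 2‖ = ‖p‖ / 2 := by rw [norm_div]; norm_num
      have a3 : ‖p ^ 2 / 12‖ = ‖p‖ ^ 2 / 12 := by rw [norm_div, norm_pow]; norm_num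
      rw [norm_one, a2] at a1
      rw [a3]
      nlinarith
    have e5 : ‖E * (1 - p / 2 + p ^ 2 / 12)‖ ≤ ‖p‖ ^ 7 / 4410 * 2 := by
      rw [norm_mul]
      exact mul_le_mul hEn e4 (norm_nonneg _) (by positivity)
    have b1 := norm_add_le (p ^ 5 / 720 + p ^ 6 / 1440 + p ^ 8 / 8640) (E * (1 - p / 2 + p ^ 2 / 12))
    have b2 := norm_add_le (p ^ 5 / 720 + p ^ 6 / 1440) (p ^ 8 / 8640)
    have b3 := norm_add_le (p ^ 5 / 720) (p ^ 6 / 1440)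
    rw [e1, e2] at b3
    rw [e3] at b2
    have c5 : 0 < ‖p‖ ^ 5 := by positivity
    have c6 : ‖p‖ ^ 6 ≤ 3 / 10 * ‖p‖ ^ 5 := by
      have : ‖p‖ ^ 6 = ‖p‖ * ‖p‖ ^ 5 := by ring
      rw [this]; gcongr
    have c7 : ‖p‖ ^ 7 ≤ 9 / 100 * ‖p‖ ^ 5 := by
      have : ‖p‖ ^ 7 = ‖p‖ ^ 2 * ‖p‖ ^ 5 := by ring
      rw [this]
      have : ‖p‖ ^ 2 ≤ 9 / 100 := by nlinarith
      gcongr
    have c8 : ‖p‖ ^ 8 ≤ 27 / 1000 * ‖p‖ ^ 5 := by
      have : ‖p‖ ^ 8 = ‖p‖ ^ 3 * ‖p‖ ^ 5 := by ring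
      rw [this]
      have : ‖p‖ ^ 3 ≤ (3 / 10) ^ 3 := pow_le_pow_left₀ hn h 3
      have : ‖p‖ ^ 3 ≤ 27 / 1000 := by linarith
      gcongr
    linarith
  have hden : 31 / 40 * ‖p‖ ≤ ‖cexp p - 1‖ := by
    have b1 := Complex.exp_bound hle1 (n := 2) (by norm_num)
    have b2 : ∑ m ∈ Finset.range 2, p ^ m / (m.factorial : ℂ) = 1 + p := by
      simp [Finset.sum_range_succ]
    rw [b2] at b1
    have b3 : ‖p‖ ^ 2 * (((2 : ℕ).succ : ℝ) * (((2 : ℕ).factorial : ℝ) * (2 : ℕ))⁻¹) = 3 / 4 * ‖p‖ ^ 2 := by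
      norm_num [Nat.factorial]
      ring
    rw [b3] at b1
    have b4 : p = (cexp p - 1) - (cexp p - (1 + p)) := by ring
    have b5 : ‖p‖ ≤ ‖cexp p - 1‖ + ‖cexp p - (1 + p)‖ := by
      conv_lhs => rw [b4]
      exact norm_sub_le _ _
    nlinarith
  have hden0 : 0 < ‖cexp p - 1‖ := norm_pos_iff.2 h1
  have e0 : eps p = -((cexp p - 1) * (1 - p / 2 + p ^ 2 / 12) - p) / (cexp p - 1) := by
    unfold eps hL
    field_simp
    ring
  rw [e0, norm_div, norm_neg, div_le_iff₀ hden0]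
  have c1 : ‖p‖ ^ 4 / 400 * (31 / 40 * ‖p‖) ≤ ‖p‖ ^ 4 / 400 * ‖cexp p - 1‖ := by gcongr
  have c5 : 0 < ‖p‖ ^ 5 := by positivity
  have c2 : ‖p‖ ^ 4 / 400 * (31 / 40 * ‖p‖) = 31 / 16000 * ‖p‖ ^ 5 := by ring
  rw [c2] at c1
  linarith

/-- `B = p³/12 + p ε` -/
theorem Bp_eps {p : ℂ} (hp : p.re ≠ 0) : Bp p = p ^ 3 / 12 + p * eps p := by
  unfold Bp
  rw [hR_eq_add hp, hL_eps]
  ring

/-- `G = (p²/12 + ε)² - p²/4` -/
theorem Gp_eps {p : ℂ} (hp : p.re ≠ 0) : Gp p = (p ^ 2 / 12 + eps p) ^ 2 - p ^ 2 / 4 := by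
  unfold Gp
  rw [hR_eq_add hp, hL_eps]
  ring

/-- the small part of the sector -/
structure Sm (p : ℂ) : Prop where
  v0 : 0 < p.im
  v1 : p.im ≤ 1 / 5
  u0 : 2 / 5 * p.im ≤ p.re
  u1 : p.re ≤ 4 / 5 * p.im

namespace Sm

variable {p : ℂ}

theorem re_pos (h : Sm p) : 0 < p.re := by
  have := h.v0
  have := h.u0
  linarith

theorem re_ne (h : Sm p) : p.re ≠ 0 := h.re_pos.ne'

theorem norm_sq (p : ℂ) : ‖p‖ ^ 2 = p.re ^ 2 + p.im ^ 2 := by
  rw [← Complex.normSq_eq_norm_sq, Complex.normSq_apply]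
  ring

theorem norm_le (h : Sm p) : ‖p‖ ≤ 1281 / 1000 * p.im := by
  have h0 := h.v0
  have h1 := norm_sq p
  have h2 : p.re ^ 2 ≤ (4 / 5 * p.im) ^ 2 := by
    have := h.u1
    have := h.re_pos
    gcongr
  have h3 : ‖p‖ ^ 2 ≤ (1281 / 1000 * p.im) ^ 2 := by nlinarith
  exact abs_le_of_sq_le_sq' h3 (by positivity) |>.2

theorem le_norm (h : Sm p) : 1077 / 1000 * p.im ≤ ‖p‖ := by
  have h0 := h.v0
  have h1 := norm_sq p
  have h2 : (2 / 5 * p.im) ^ 2 ≤ p.re ^ 2 := by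
    have := h.u0
    gcongr
  have h3 : (1077 / 1000 * p.im) ^ 2 ≤ ‖p‖ ^ 2 := by nlinarith
  exact abs_le_of_sq_le_sq' h3 (norm_nonneg _) |>.2

theorem norm_eps_le (h : Sm p) : ‖eps p‖ ≤ 27 / 4000 * p.im ^ 4 := by
  have h0 := h.v0
  have h1 := h.v1
  have h2 := h.norm_le
  have h3 : ‖p‖ ≤ 3 / 10 := by linarith
  refine (norm_eps h.re_ne h3).trans ?_
  have h4 : ‖p‖ ^ 4 ≤ (1281 / 1000 * p.im) ^ 4 := pow_le_pow_left₀ (norm_nonneg _) h2 4
  have h5 : 0 < p.im ^ 4 := by positivity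
  nlinarith

theorem v4 (h : Sm p) : p.im ^ 4 ≤ 1 / 125 * p.im := by
  have h0 := h.v0
  have : p.im ^ 3 ≤ (1 / 5) ^ 3 := pow_le_pow_left₀ h0.le h.v1 3
  have e : p.im ^ 4 = p.im ^ 3 * p.im := by ring
  rw [e]
  have : p.im ^ 3 ≤ 1 / 125 := by linarith
  gcongr

theorem er (h : Sm p) : |(eps p).re| ≤ 27 / 500000 * p.im := by
  have := (Complex.abs_re_le_norm (eps p)).trans h.norm_eps_le
  have := h.v4
  linarith

theorem ei (h : Sm p) : |(eps p).im| ≤ 27 / 500000 * p.im := by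
  have := (Complex.abs_im_le_norm (eps p)).trans h.norm_eps_le
  have := h.v4
  linarith

theorem v2 (h : Sm p) : p.im ^ 2 ≤ 1 / 5 * p.im := by
  have h0 := h.v0
  have h1 := h.v1
  nlinarith

theorem ei' (h : Sm p) : |(eps p).im| ≤ 27 / 100000 * p.im ^ 2 := by
  have h1 := (Complex.abs_im_le_norm (eps p)).trans h.norm_eps_le
  have h0 := h.v0
  have : p.im ^ 2 ≤ 1 / 25 := by
    have := h.v1
    nlinarith
  have e : p.im ^ 4 = p.im ^ 2 * p.im ^ 2 := by ring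
  rw [e] at h1
  nlinarith [sq_nonneg p.im]

theorem er' (h : Sm p) : |(eps p).re| ≤ 27 / 100000 * p.im ^ 2 := by
  have h1 := (Complex.abs_re_le_norm (eps p)).trans h.norm_eps_le
  have h0 := h.v0
  have : p.im ^ 2 ≤ 1 / 25 := by
    have := h.v1
    nlinarith
  have e : p.im ^ 4 = p.im ^ 2 * p.im ^ 2 := by ring
  rw [e] at h1
  nlinarith [sq_nonneg p.im]

theorem hL_re (p : ℂ) : (hL p).re = 1 - p.re / 2 + (p.re ^ 2 - p.im ^ 2) / 12 + (eps p).re := by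
  rw [hL_eps]
  simp only [Complex.add_re, Complex.sub_re, Complex.one_re]
  have e1 : (p / 2).re = p.re / 2 := by simp
  have e2 : (p ^ 2 / 12).re = (p.re ^ 2 - p.im ^ 2) / 12 := by
    rw [show p ^ 2 / 12 = ((1 / 12 : ℝ) : ℂ) * p ^ 2 by push_cast; ring, Complex.re_ofReal_mul, pow_two, Complex.mul_re]
    ring
  rw [e1, e2]

theorem hL_im (p : ℂ) : -(hL p).im = p.im / 2 - p.re * p.im / 6 - (eps p).im := by
  rw [hL_eps]
  simp only [Complex.add_im, Complex.sub_im, Complex.one_im]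
  have e1 : (p / 2).im = p.im / 2 := by simp
  have e2 : (p ^ 2 / 12).im = p.re * p.im / 6 := by
    rw [show p ^ 2 / 12 = ((1 / 12 : ℝ) : ℂ) * p ^ 2 by push_cast; ring, Complex.im_ofReal_mul, pow_two, Complex.mul_im]
    ring
  rw [e1, e2]
  ring

theorem hR_re (h : Sm p) : (hR p).re = 1 + p.re / 2 + (p.re ^ 2 - p.im ^ 2) / 12 + (eps p).re := by
  rw [hR_eq_add h.re_ne, Complex.add_re, hL_re]
  ring

theorem hR_im (h : Sm p) : (hR p).im = p.im / 2 + p.re * p.im / 6 + (eps p).im := by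
  rw [hR_eq_add h.re_ne, Complex.add_im]
  have := hL_im p
  linarith

theorem uv0 (h : Sm p) : 2 / 5 * p.im ^ 2 ≤ p.re * p.im := by
  have := h.v0
  have := h.u0
  nlinarith

theorem uv1 (h : Sm p) : p.re * p.im ≤ 4 / 25 * p.im := by
  have := h.v0
  have := h.u1
  have := h.v1
  nlinarith

theorem uu0 (h : Sm p) : 4 / 25 * p.im ^ 2 ≤ p.re ^ 2 := by
  have := h.v0
  have := h.u0
  nlinarith

theorem uu1 (h : Sm p) : p.re ^ 2 ≤ 16 / 25 * p.im ^ 2 := by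
  have := h.v0
  have := h.re_pos
  have := h.u1
  nlinarith

theorem sL0 (h : Sm p) : 473 / 1000 * p.im ≤ -(hL p).im := by
  rw [hL_im]
  have h1 := abs_le.1 h.ei
  have := h.uv1
  have := h.v0
  linarith

theorem sL1 (h : Sm p) : -(hL p).im ≤ 1 / 2 * p.im := by
  rw [hL_im]
  have h1 := abs_le.1 h.ei'
  have := h.uv0
  have := sq_nonneg p.im
  linarith

theorem sR0 (h : Sm p) : 1 / 2 * p.im ≤ (hR p).im := by
  rw [h.hR_im]
  have h1 := abs_le.1 h.ei'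
  have := h.uv0
  have := sq_nonneg p.im
  linarith

theorem sR1 (h : Sm p) : (hR p).im ≤ 527 / 1000 * p.im := by
  rw [h.hR_im]
  have h1 := abs_le.1 h.ei
  have := h.uv1
  have := h.v0
  linarith

theorem aR0 (h : Sm p) : p.re / 2 - 143 / 10000 * p.im ≤ (hR p).re - 1 := by
  rw [h.hR_re]
  have h1 := abs_le.1 h.er
  have := h.uu0
  have := h.v2
  have := h.v0
  linarith

theorem aR1 (h : Sm p) : (hR p).re - 1 ≤ p.re / 2 := by
  rw [h.hR_re]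
  have h1 := abs_le.1 h.er'
  have := h.uu1
  have := sq_nonneg p.im
  linarith

/-- `1 - Re h_L ≥ u/2` -/
theorem aL0 (h : Sm p) : p.re / 2 ≤ 1 - (hL p).re := by
  rw [hL_re]
  have h1 := abs_le.1 h.er'
  have := h.uu1
  have := sq_nonneg p.im
  linarith

theorem aL1 (h : Sm p) : 1 - (hL p).re ≤ p.re / 2 + 143 / 10000 * p.im := by
  rw [hL_re]
  have h1 := abs_le.1 h.er
  have := h.uu0
  have := h.v2
  have := h.v0
  linarith

/-- `|1 - h_L|` -/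
theorem mL0 (h : Sm p) : 51 / 100 * p.im ≤ ‖1 - hL p‖ := by
  have h0 := h.v0
  have e1 := norm_sq (1 - hL p)
  rw [Complex.sub_re, Complex.sub_im, Complex.one_re, Complex.one_im] at e1
  have h1 := h.aL0
  have h2 := h.sL0
  have h3 := h.u0
  have h4 : (1 / 5 * p.im) ^ 2 ≤ (1 - (hL p).re) ^ 2 := pow_le_pow_left₀ (by linarith) (by linarith) 2
  have h5 : (473 / 1000 * p.im) ^ 2 ≤ (0 - (hL p).im) ^ 2 := pow_le_pow_left₀ (by linarith) (by linarith) 2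
  have h6 : (51 / 100 * p.im) ^ 2 ≤ ‖1 - hL p‖ ^ 2 := by
    rw [e1]
    nlinarith [sq_nonneg p.im]
  exact abs_le_of_sq_le_sq' h6 (norm_nonneg _) |>.2

theorem mL1 (h : Sm p) : ‖1 - hL p‖ ≤ 13 / 20 * p.im := by
  have h0 := h.v0
  have e1 := norm_sq (1 - hL p)
  rw [Complex.sub_re, Complex.sub_im, Complex.one_re, Complex.one_im] at e1
  have h1 := h.aL1
  have h1' := h.aL0
  have h2 := h.sL1
  have h2' := h.sL0
  have h3 := h.u1
  have h3' := h.re_pos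
  have h4 : (1 - (hL p).re) ^ 2 ≤ (4143 / 10000 * p.im) ^ 2 := pow_le_pow_left₀ (by linarith) (by linarith) 2
  have h5 : (0 - (hL p).im) ^ 2 ≤ (1 / 2 * p.im) ^ 2 := pow_le_pow_left₀ (by linarith) (by linarith) 2
  have h6 : ‖1 - hL p‖ ^ 2 ≤ (13 / 20 * p.im) ^ 2 := by
    rw [e1]
    nlinarith [sq_nonneg p.im]
  exact abs_le_of_sq_le_sq' h6 (by positivity) |>.2

theorem mR0 (h : Sm p) : 53 / 100 * p.im ≤ ‖1 - hR p‖ := by
  have h0 := h.v0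
  have e1 := norm_sq (1 - hR p)
  rw [Complex.sub_re, Complex.sub_im, Complex.one_re, Complex.one_im] at e1
  have h1 := h.aR0
  have h2 := h.sR0
  have h3 := h.u0
  have h4 : (1857 / 10000 * p.im) ^ 2 ≤ (1 - (hR p).re) ^ 2 := by
    rw [show (1 - (hR p).re) ^ 2 = ((hR p).re - 1) ^ 2 by ring]
    exact pow_le_pow_left₀ (by linarith) (by linarith) 2
  have h5 : (1 / 2 * p.im) ^ 2 ≤ (0 - (hR p).im) ^ 2 := by
    rw [show (0 - (hR p).im) ^ 2 = (hR p).im ^ 2 by ring]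
    exact pow_le_pow_left₀ (by linarith) (by linarith) 2
  have h6 : (53 / 100 * p.im) ^ 2 ≤ ‖1 - hR p‖ ^ 2 := by
    rw [e1]
    nlinarith [sq_nonneg p.im]
  exact abs_le_of_sq_le_sq' h6 (norm_nonneg _) |>.2

theorem mR1 (h : Sm p) : ‖1 - hR p‖ ≤ 67 / 100 * p.im := by
  have h0 := h.v0
  have e1 := norm_sq (1 - hR p)
  rw [Complex.sub_re, Complex.sub_im, Complex.one_re, Complex.one_im] at e1
  have h1 := h.aR0
  have h1' := h.aR1
  have h2 := h.sR0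
  have h2' := h.sR1
  have h3 := h.u0
  have h3' := h.u1
  have h4 : (1 - (hR p).re) ^ 2 ≤ (2 / 5 * p.im) ^ 2 := by
    rw [show (1 - (hR p).re) ^ 2 = ((hR p).re - 1) ^ 2 by ring]
    exact pow_le_pow_left₀ (by linarith) (by linarith) 2
  have h5 : (0 - (hR p).im) ^ 2 ≤ (527 / 1000 * p.im) ^ 2 := by
    rw [show (0 - (hR p).im) ^ 2 = (hR p).im ^ 2 by ring]
    exact pow_le_pow_left₀ (by linarith) (by linarith) 2
  have h6 : ‖1 - hR p‖ ^ 2 ≤ (67 / 100 * p.im) ^ 2 := by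
    rw [e1]
    nlinarith [sq_nonneg p.im]
  exact abs_le_of_sq_le_sq' h6 (by positivity) |>.2

theorem hLn (h : Sm p) : ‖hL p‖ ≤ 1 := by
  have h0 := h.v0
  have e1 := norm_sq (hL p)
  have h1 := h.aL0
  have h1' := h.aL1
  have h2 := h.sL0
  have h2' := h.sL1
  have h3 := h.u0
  have h4 := h.v1
  have h5 := h.u1
  have i1 : (hL p).re ≤ 1 - 1 / 5 * p.im := by linarith
  have i0 : 0 ≤ (hL p).re := by linarith
  have i2 : (hL p).re ^ 2 ≤ (1 - 1 / 5 * p.im) ^ 2 := pow_le_pow_left₀ i0 i1 2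
  have i3 : (hL p).im ^ 2 ≤ (1 / 2 * p.im) ^ 2 := by
    rw [show (hL p).im ^ 2 = (-(hL p).im) ^ 2 by ring]
    exact pow_le_pow_left₀ (by linarith) h2' 2
  have h6 : ‖hL p‖ ^ 2 ≤ 1 ^ 2 := by
    rw [e1]
    nlinarith
  exact abs_le_of_sq_le_sq' h6 (by positivity) |>.2

theorem hRn (h : Sm p) : ‖hR p‖ ≤ 109 / 100 := by
  have h0 := h.v0
  have e1 := norm_sq (hR p)
  have h1 := h.aR0
  have h1' := h.aR1
  have h2 := h.sR0
  have h2' := h.sR1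
  have h3 := h.u0
  have h4 := h.v1
  have h5 := h.u1
  have i1 : (hR p).re ≤ 27 / 25 := by linarith
  have i0 : 0 ≤ (hR p).re := by linarith
  have i2 : (hR p).re ^ 2 ≤ (27 / 25) ^ 2 := pow_le_pow_left₀ i0 i1 2
  have i3 : (hR p).im ^ 2 ≤ (527 / 5000) ^ 2 := pow_le_pow_left₀ (by linarith) (by linarith) 2
  have h6 : ‖hR p‖ ^ 2 ≤ (109 / 100) ^ 2 := by
    rw [e1]
    nlinarith
  exact abs_le_of_sq_le_sq' h6 (by positivity) |>.2

theorem hRn0 (h : Sm p) : 1 ≤ ‖hR p‖ := by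
  have h1 := h.aR0
  have h2 := h.u0
  have h3 := h.v0
  have := (Complex.re_le_norm (hR p))
  linarith

/-- the error of `B` -/
theorem Berr (h : Sm p) : ‖p * eps p‖ ≤ 173 / 500000 * p.im ^ 3 := by
  have h0 := h.v0
  rw [norm_mul]
  have h1 := h.norm_le
  have h2 := h.norm_eps_le
  have h3 : ‖p‖ * ‖eps p‖ ≤ (1281 / 1000 * p.im) * (27 / 4000 * p.im ^ 4) :=
    mul_le_mul h1 h2 (norm_nonneg _) (by positivity)
  have h4 : p.im ^ 2 ≤ 1 / 25 := by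
    have := h.v1
    nlinarith
  have h5 : (1281 / 1000 * p.im) * (27 / 4000 * p.im ^ 4) = 34587 / 4000000 * (p.im ^ 2 * p.im ^ 3) := by ring
  have h6 : p.im ^ 2 * p.im ^ 3 ≤ 1 / 25 * p.im ^ 3 := by gcongr
  have h7 : 0 < p.im ^ 3 := by positivity
  rw [h5] at h3
  linarith

theorem cube_re (p : ℂ) : (p ^ 3 / 12).re = (p.re ^ 3 - 3 * p.re * p.im ^ 2) / 12 := by
  rw [show p ^ 3 / 12 = ((1 / 12 : ℝ) : ℂ) * (p * (p * p)) by push_cast; ring, Complex.re_ofReal_mul, Complex.mul_re,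
    Complex.mul_re, Complex.mul_im]
  ring

theorem cube_im (p : ℂ) : (p ^ 3 / 12).im = (3 * p.re ^ 2 * p.im - p.im ^ 3) / 12 := by
  rw [show p ^ 3 / 12 = ((1 / 12 : ℝ) : ℂ) * (p * (p * p)) by push_cast; ring, Complex.im_ofReal_mul, Complex.mul_im,
    Complex.mul_re, Complex.mul_im]
  ring

theorem Bre (h : Sm p) : |(Bp p).re - (p.re ^ 3 - 3 * p.re * p.im ^ 2) / 12| ≤ 173 / 500000 * p.im ^ 3 := by
  rw [Bp_eps h.re_ne, Complex.add_re, cube_re, add_sub_cancel_left]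
  exact (Complex.abs_re_le_norm _).trans h.Berr

theorem Bim (h : Sm p) : |(Bp p).im - (3 * p.re ^ 2 * p.im - p.im ^ 3) / 12| ≤ 173 / 500000 * p.im ^ 3 := by
  rw [Bp_eps h.re_ne, Complex.add_im, cube_im, add_sub_cancel_left]
  exact (Complex.abs_im_le_norm _).trans h.Berr

/-- `-Re B ≤ .2378 u v²` -/
theorem B1 (h : Sm p) : -(Bp p).re ≤ 2378 / 10000 * (p.re * p.im ^ 2) := by
  have h1 := abs_le.1 h.Bre
  have h0 := h.v0
  have hu := h.u0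
  have hup := h.re_pos
  have i1 : p.im ^ 3 ≤ 5 / 2 * (p.re * p.im ^ 2) := by
    have : p.im ^ 3 = p.im * p.im ^ 2 := by ring
    rw [this]
    nlinarith [sq_nonneg p.im]
  have i2 : 4 / 25 * (p.re * p.im ^ 2) ≤ p.re ^ 3 := by
    have : p.re ^ 3 = p.re * p.re ^ 2 := by ring
    rw [this]
    have := h.uu0
    nlinarith
  have := h1.1
  nlinarith

/-- `-Re B ≤ .1578 v³` -/
theorem B1' (h : Sm p) : -(Bp p).re ≤ 1578 / 10000 * p.im ^ 3 := by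
  have h1 := abs_le.1 h.Bre
  have h0 := h.v0
  have hu := h.u1
  have hup := h.re_pos
  -- `3 u v² - u³ ≤ 1.888 v³`
  have i1 : 3 * p.re * p.im ^ 2 - p.re ^ 3 ≤ 236 / 125 * p.im ^ 3 := by
    have e : 236 / 125 * p.im ^ 3 - (3 * p.re * p.im ^ 2 - p.re ^ 3) =
        (4 / 5 * p.im - p.re) * (59 / 25 * p.im ^ 2 - 4 / 5 * p.im * p.re - p.re ^ 2) := by ring
    have f1 : 0 ≤ 4 / 5 * p.im - p.re := by linarith
    have f2 : 0 ≤ 59 / 25 * p.im ^ 2 - 4 / 5 * p.im * p.re - p.re ^ 2 := by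
      have := h.uu1
      nlinarith
    have := mul_nonneg f1 f2
    linarith
  have := h1.1
  have : 0 < p.im ^ 3 := by positivity
  linarith

/-- left side -/
theorem BL (h : Sm p) (hk : p.re = 2 / 5 * p.im) :
    -(Bp p).re ≤ 951 / 10000 * p.im ^ 3 ∧ (Bp p).im ≤ -(429 / 10000 * p.im ^ 3) := by
  have h1 := abs_le.1 h.Bre
  have h2 := abs_le.1 h.Bim
  have h0 := h.v0
  have h3 : 0 < p.im ^ 3 := by positivity
  rw [hk] at h1 h2
  constructor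
  · have := h1.1
    nlinarith
  · have := h2.2
    nlinarith

/-- right side -/
theorem BR (h : Sm p) (hk : p.re = 4 / 5 * p.im) : 763 / 10000 * p.im ^ 3 ≤ (Bp p).im := by
  have h2 := abs_le.1 h.Bim
  have h0 := h.v0
  have h3 : 0 < p.im ^ 3 := by positivity
  rw [hk] at h2
  have := h2.1
  nlinarith

/-- `|(p²/12 + ε)²|` -/
theorem Gerr (h : Sm p) : ‖(p ^ 2 / 12 + eps p) ^ 2‖ ≤ 1 / 1000 * p.im ^ 2 := by
  have h0 := h.v0
  rw [norm_pow]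
  have h1 : ‖p ^ 2 / 12 + eps p‖ ≤ 3 / 100 * p.im := by
    refine (norm_add_le _ _).trans ?_
    have e1 : ‖p ^ 2 / 12‖ = ‖p‖ ^ 2 / 12 := by rw [norm_div, norm_pow]; norm_num
    rw [e1]
    have h2 : ‖p‖ ^ 2 ≤ (1281 / 1000 * p.im) ^ 2 := pow_le_pow_left₀ (norm_nonneg _) h.norm_le 2
    have h3 := h.norm_eps_le
    have h4 := h.v4
    have h5 := h.v2
    nlinarith
  have h2 : ‖p ^ 2 / 12 + eps p‖ ^ 2 ≤ (3 / 100 * p.im) ^ 2 := pow_le_pow_left₀ (norm_nonneg _) h1 2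
  have := sq_nonneg p.im
  nlinarith

theorem G_re (h : Sm p) : |(Gp p).re - (p.im ^ 2 - p.re ^ 2) / 4| ≤ 1 / 1000 * p.im ^ 2 := by
  have e : (p ^ 2 / 4).re = (p.re ^ 2 - p.im ^ 2) / 4 := by
    rw [show p ^ 2 / 4 = ((1 / 4 : ℝ) : ℂ) * p ^ 2 by push_cast; ring, Complex.re_ofReal_mul, pow_two, Complex.mul_re]
    ring
  rw [Gp_eps h.re_ne, Complex.sub_re, e]
  have : ((p ^ 2 / 12 + eps p) ^ 2).re - (p.re ^ 2 - p.im ^ 2) / 4 - (p.im ^ 2 - p.re ^ 2) / 4 =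
      ((p ^ 2 / 12 + eps p) ^ 2).re := by ring
  rw [this]
  exact (Complex.abs_re_le_norm _).trans h.Gerr

theorem G_im (h : Sm p) : |(Gp p).im + p.re * p.im / 2| ≤ 1 / 1000 * p.im ^ 2 := by
  have e : (p ^ 2 / 4).im = p.re * p.im / 2 := by
    rw [show p ^ 2 / 4 = ((1 / 4 : ℝ) : ℂ) * p ^ 2 by push_cast; ring, Complex.im_ofReal_mul, pow_two, Complex.mul_im]
    ring
  rw [Gp_eps h.re_ne, Complex.sub_im, e]
  have : ((p ^ 2 / 12 + eps p) ^ 2).im - p.re * p.im / 2 + p.re * p.im / 2 =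
      ((p ^ 2 / 12 + eps p) ^ 2).im := by ring
  rw [this]
  exact (Complex.abs_im_le_norm _).trans h.Gerr

/-- (G1) -/
theorem G1 (h : Sm p) : 0 < (Gp p).re := by
  have h1 := abs_le.1 h.G_re
  have h0 := h.v0
  have h2 := h.uu1
  have h3 : 0 < p.im ^ 2 := by positivity
  linarith

/-- (G2) -/
theorem G2 (h : Sm p) : p.re * (Gp p).re < -(Gp p).im * p.im := by
  have h1 := abs_le.1 h.G_re
  have h2 := abs_le.1 h.G_im
  have h0 := h.v0
  have hu := h.re_pos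
  have hu0 := h.u0
  have hu1 := h.u1
  have h3 : 0 < p.im ^ 2 := by positivity
  have i1 : p.re * (Gp p).re ≤ p.re * ((p.im ^ 2 - p.re ^ 2) / 4 + 1 / 1000 * p.im ^ 2) :=
    mul_le_mul_of_nonneg_left (by linarith) hu.le
  have i2 : (p.re * p.im / 2 - 1 / 1000 * p.im ^ 2) * p.im ≤ -(Gp p).im * p.im :=
    mul_le_mul_of_nonneg_right (by linarith) h0.le
  have i3 : 0 < p.re ^ 3 := by positivity
  have i4 : p.im ^ 3 ≤ 5 / 2 * (p.re * p.im ^ 2) := by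
    have : p.im ^ 3 = p.im * p.im ^ 2 := by ring
    rw [this]
    nlinarith
  have i5 : 0 < p.re * p.im ^ 2 := by positivity
  nlinarith

end Sm

end SokalTI
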