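import Pool.Agent.Lib_MP_af4de1_ti.Common

/-!
# Left saddle: the function `gr u = e^u - 1 - u`
-/

set_option autoImplicit false

namespace SokalTI

open Complex MeasureTheory Set Filter Topology

/-- `e^u - 1 - u` -/
noncomputable def gr (u : ℝ) : ℝ := Real.exp u - 1 - u

theorem gg_real (u : ℝ) : gg (u : ℂ) = (gr u : ℂ) := by
  unfold gg gr
  push_cast
  ring

theorem ht_real (h : ℂ) (u : ℝ) : ht h (u : ℂ) = -h.im * gr u := by
  unfold ht
  rw [gg_real]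
  have e : ((u : ℂ) ^ 2 / 2 - h * (gr u : ℂ)) = ((u ^ 2 / 2 : ℝ) : ℂ) - ((gr u : ℝ) : ℂ) * h := by
    push_cast; ring
  rw [e, Complex.sub_im, Complex.ofReal_im, Complex.im_ofReal_mul]
  ring

theorem gr_nonneg (u : ℝ) : 0 ≤ gr u := by
  unfold gr
  linarith [Real.add_one_le_exp u]

theorem continuous_gr : Continuous gr := by
  unfold gr
  fun_prop

theorem hasDerivAt_gr (u : ℝ) : HasDerivAt gr (Real.exp u - 1) u := by
  unfold gr
  exact ((Real.hasDerivAt_exp u).sub_const 1).sub (hasDerivAt_id u)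

/-- a function with nonnegative derivative on `[0, ∞)` and value `0` at `0` -/
theorem nonneg_of_deriv {f f' : ℝ → ℝ} (h : ∀ x, HasDerivAt f (f' x) x) (h0 : f 0 = 0)
    (hf : ∀ x, 0 ≤ x → 0 ≤ f' x) (x : ℝ) (hx : 0 ≤ x) : 0 ≤ f x := by
  have hm : MonotoneOn f (Ici 0) := by
    apply monotoneOn_of_deriv_nonneg (convex_Ici 0)
      (fun y _ => (h y).continuousAt.continuousWithinAt)
      (fun y _ => (h y).differentiableAt.differentiableWithinAt)
    intro y hy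
    rw [interior_Ici] at hy
    rw [(h y).deriv]
    exact hf y hy.le
  have := hm (mem_Ici.2 (le_refl (0:ℝ))) (mem_Ici.2 hx) hx
  rwa [h0] at this

/-! ### `e^{-t}` -/

theorem hasDerivAt_expneg (t : ℝ) : HasDerivAt (fun t : ℝ => Real.exp (-t)) (-Real.exp (-t)) t := by
  have := (hasDerivAt_neg t).exp
  simpa using this

theorem en1 (t : ℝ) (ht : 0 ≤ t) : 0 ≤ 1 - Real.exp (-t) := by
  have := Real.exp_le_one_iff.2 (neg_nonpos.2 ht)
  linarith

theorem en2 (t : ℝ) (ht : 0 ≤ t) : 0 ≤ Real.exp (-t) - 1 + t :=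
  nonneg_of_deriv (f := fun t => Real.exp (-t) - 1 + t) (f' := fun t => 1 - Real.exp (-t))
    (fun x => by
      have := ((hasDerivAt_expneg x).sub_const 1).add (hasDerivAt_id x)
      rw [show -Real.exp (-x) + 1 = 1 - Real.exp (-x) by ring] at this
      exact this) (by simp) en1 t ht

theorem hasDerivAt_pw (n : ℕ) (c t : ℝ) :
    HasDerivAt (fun t : ℝ => t ^ (n + 1) / c) ((n + 1) * t ^ n / c) t := by
  have := (hasDerivAt_pow (n + 1) t).div_const c
  simpa using this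

theorem en3 (t : ℝ) (ht : 0 ≤ t) : 0 ≤ t ^ 2 / 2 - t + 1 - Real.exp (-t) :=
  nonneg_of_deriv (f := fun t => t ^ 2 / 2 - t + 1 - Real.exp (-t))
    (f' := fun t => Real.exp (-t) - 1 + t)
    (fun x => by
      have := (((hasDerivAt_pw 1 2 x).sub (hasDerivAt_id x)).add_const 1).sub (hasDerivAt_expneg x)
      refine this.congr_deriv ?_
      norm_num
      ring) (by simp) en2 t ht

theorem en4 (t : ℝ) (ht : 0 ≤ t) : 0 ≤ Real.exp (-t) - 1 + t - t ^ 2 / 2 + t ^ 3 / 6 :=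
  nonneg_of_deriv (f := fun t => Real.exp (-t) - 1 + t - t ^ 2 / 2 + t ^ 3 / 6)
    (f' := fun t => t ^ 2 / 2 - t + 1 - Real.exp (-t))
    (fun x => by
      have := ((((hasDerivAt_expneg x).sub_const 1).add (hasDerivAt_id x)).sub
        (hasDerivAt_pw 1 2 x)).add (hasDerivAt_pw 2 6 x)
      refine this.congr_deriv ?_
      norm_num
      ring) (by simp) en3 t ht

theorem en5 (t : ℝ) (ht : 0 ≤ t) :
    0 ≤ t ^ 4 / 24 - t ^ 3 / 6 + t ^ 2 / 2 - t + 1 - Real.exp (-t) :=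
  nonneg_of_deriv (f := fun t => t ^ 4 / 24 - t ^ 3 / 6 + t ^ 2 / 2 - t + 1 - Real.exp (-t))
    (f' := fun t => Real.exp (-t) - 1 + t - t ^ 2 / 2 + t ^ 3 / 6)
    (fun x => by
      have := (((((hasDerivAt_pw 3 24 x).sub (hasDerivAt_pw 2 6 x)).add
        (hasDerivAt_pw 1 2 x)).sub (hasDerivAt_id x)).add_const 1).sub (hasDerivAt_expneg x)
      refine this.congr_deriv ?_
      norm_num
      ring) (by simp) en4 t ht

theorem en6 (t : ℝ) (ht : 0 ≤ t) :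
    0 ≤ Real.exp (-t) - 1 + t - t ^ 2 / 2 + t ^ 3 / 6 - t ^ 4 / 24 + t ^ 5 / 120 :=
  nonneg_of_deriv
    (f := fun t => Real.exp (-t) - 1 + t - t ^ 2 / 2 + t ^ 3 / 6 - t ^ 4 / 24 + t ^ 5 / 120)
    (f' := fun t => t ^ 4 / 24 - t ^ 3 / 6 + t ^ 2 / 2 - t + 1 - Real.exp (-t))
    (fun x => by
      have := ((((((hasDerivAt_expneg x).sub_const 1).add (hasDerivAt_id x)).sub
        (hasDerivAt_pw 1 2 x)).add (hasDerivAt_pw 2 6 x)).sub (hasDerivAt_pw 3 24 x)).add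
        (hasDerivAt_pw 4 120 x)
      refine this.congr_deriv ?_
      norm_num
      ring) (by simp) en5 t ht

theorem gr_neg_le {t : ℝ} (ht : 0 ≤ t) : gr (-t) ≤ t ^ 2 / 2 := by
  unfold gr
  linarith [en3 t ht]

theorem gr_neg_ge {t : ℝ} (ht : 0 ≤ t) : t ^ 2 / 2 - t ^ 3 / 6 ≤ gr (-t) := by
  unfold gr
  linarith [en4 t ht]

theorem gr_neg_near {t : ℝ} (ht : 0 ≤ t) (ht2 : t ≤ 3 / 2) : 31 / 100 * t ^ 2 ≤ gr (-t) := by
  have h1 := en6 t ht
  have h2 : 0 ≤ 19 / 100 - t / 6 + t ^ 2 / 24 - t ^ 3 / 120 := by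
    nlinarith [mul_nonneg ht (sub_nonneg.2 ht2), mul_nonneg (mul_nonneg ht ht) (sub_nonneg.2 ht2)]
  have h3 : 0 ≤ t ^ 2 * (19 / 100 - t / 6 + t ^ 2 / 24 - t ^ 3 / 120) :=
    mul_nonneg (sq_nonneg t) h2
  unfold gr
  nlinarith

theorem exp_m32 : (22 / 100 : ℝ) ≤ Real.exp (-(3 / 2)) ∧ Real.exp (-(3 / 2)) ≤ 23 / 100 := by
  have h1 := en6 (3 / 2) (by norm_num)
  have h2 : Real.exp (-(3 / 2)) * Real.exp (3 / 2) = 1 := by
    rw [← Real.exp_add]; simp
  have h3 : Real.exp (3 / 2) ^ 2 = Real.exp 1 ^ 3 := by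
    rw [← Real.exp_nat_mul, ← Real.exp_nat_mul]
    norm_num
  have h4 := Real.exp_one_gt_d9
  have h5 := Real.exp_one_lt_d9
  have h6 : 0 < Real.exp (3 / 2) := Real.exp_pos _
  have h7 : (4.35 : ℝ) ≤ Real.exp (3 / 2) := by
    by_contra hcon
    push Not at hcon
    have h8 : Real.exp (3 / 2) ^ 2 < 4.35 ^ 2 := by nlinarith
    have h9 : (2.718 : ℝ) ^ 3 ≤ Real.exp 1 ^ 3 := pow_le_pow_left₀ (by norm_num) (by linarith) 3
    rw [h3] at h8
    norm_num at h8 h9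
    linarith
  have h8 : Real.exp (3 / 2) ≤ 4.5 := by
    by_contra hcon
    push Not at hcon
    have h8 : (4.5 : ℝ) ^ 2 < Real.exp (3 / 2) ^ 2 := by nlinarith
    have h9 : Real.exp 1 ^ 3 ≤ (2.7183 : ℝ) ^ 3 := pow_le_pow_left₀ (Real.exp_pos _).le (by linarith) 3
    rw [h3] at h8
    norm_num at h8 h9
    linarith
  constructor
  · nlinarith
  · nlinarith

theorem gr_neg_far {t : ℝ} (ht : 3 / 2 ≤ t) : 18 / 25 + 77 / 100 * (t - 3 / 2) ≤ gr (-t) := by
  obtain ⟨h1, h2⟩ := exp_m32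
  have h3 : Real.exp (-t) = Real.exp (-(3 / 2)) * Real.exp (-(t - 3 / 2)) := by
    rw [← Real.exp_add]; congr 1; ring
  have h4 : 1 - (t - 3 / 2) ≤ Real.exp (-(t - 3 / 2)) := by
    have := Real.add_one_le_exp (-(t - 3 / 2))
    linarith
  have h5 : Real.exp (-(3 / 2)) * (1 - (t - 3 / 2)) ≤ Real.exp (-t) := by
    rw [h3]
    exact mul_le_mul_of_nonneg_left h4 (Real.exp_pos _).le
  unfold gr
  nlinarith

/-! ### `e^u`, `u ≥ 0` -/

theorem gr_ge {u : ℝ} (hu : 0 ≤ u) : u ^ 2 / 2 ≤ gr u := by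
  have := Real.quadratic_le_exp_of_nonneg hu
  unfold gr
  linarith

theorem ep1 (u : ℝ) (hu : 0 ≤ u) : 0 ≤ u * Real.exp u + 1 - Real.exp u :=
  nonneg_of_deriv (f := fun u => u * Real.exp u + 1 - Real.exp u) (f' := fun u => u * Real.exp u)
    (fun x => by
      have := (((hasDerivAt_id x).mul (Real.hasDerivAt_exp x)).add_const 1).sub (Real.hasDerivAt_exp x)
      refine this.congr_deriv ?_
      simp) (by simp) (fun x hx => mul_nonneg hx (Real.exp_pos x).le) u hu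

theorem hasDerivAt_pe (n : ℕ) (c t : ℝ) :
    HasDerivAt (fun t : ℝ => t ^ (n + 1) / c * Real.exp t)
      ((n + 1) * t ^ n / c * Real.exp t + t ^ (n + 1) / c * Real.exp t) t :=
  (hasDerivAt_pw n c t).mul (Real.hasDerivAt_exp t)

theorem ep2 (u : ℝ) (hu : 0 ≤ u) : 0 ≤ u ^ 2 / 2 * Real.exp u + u + 1 - Real.exp u :=
  nonneg_of_deriv (f := fun u => u ^ 2 / 2 * Real.exp u + u + 1 - Real.exp u)
    (f' := fun u => (u * Real.exp u + 1 - Real.exp u) + u ^ 2 / 2 * Real.exp u)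
    (fun x => by
      have := (((hasDerivAt_pe 1 2 x).add (hasDerivAt_id x)).add_const 1).sub (Real.hasDerivAt_exp x)
      refine this.congr_deriv ?_
      norm_num
      ring) (by simp)
    (fun x hx => add_nonneg (ep1 x hx) (mul_nonneg (by positivity) (Real.exp_pos x).le)) u hu

theorem ep3 (u : ℝ) (hu : 0 ≤ u) : 0 ≤ u ^ 3 / 6 * Real.exp u + u ^ 2 / 2 + u + 1 - Real.exp u :=
  nonneg_of_deriv (f := fun u => u ^ 3 / 6 * Real.exp u + u ^ 2 / 2 + u + 1 - Real.exp u)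
    (f' := fun u => (u ^ 2 / 2 * Real.exp u + u + 1 - Real.exp u) + u ^ 3 / 6 * Real.exp u)
    (fun x => by
      have := ((((hasDerivAt_pe 2 6 x).add (hasDerivAt_pw 1 2 x)).add (hasDerivAt_id x)).add_const 1).sub
        (Real.hasDerivAt_exp x)
      refine this.congr_deriv ?_
      norm_num
      ring) (by simp)
    (fun x hx => add_nonneg (ep2 x hx) (mul_nonneg (by positivity) (Real.exp_pos x).le)) u hu

theorem ep4 (u : ℝ) (hu : 0 ≤ u) :
    0 ≤ u ^ 4 / 24 * Real.exp u + u ^ 3 / 6 + u ^ 2 / 2 + u + 1 - Real.exp u :=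
  nonneg_of_deriv (f := fun u => u ^ 4 / 24 * Real.exp u + u ^ 3 / 6 + u ^ 2 / 2 + u + 1 - Real.exp u)
    (f' := fun u => (u ^ 3 / 6 * Real.exp u + u ^ 2 / 2 + u + 1 - Real.exp u) +
      u ^ 4 / 24 * Real.exp u)
    (fun x => by
      have := (((((hasDerivAt_pe 3 24 x).add (hasDerivAt_pw 2 6 x)).add (hasDerivAt_pw 1 2 x)).add
        (hasDerivAt_id x)).add_const 1).sub (Real.hasDerivAt_exp x)
      refine this.congr_deriv ?_
      norm_num
      ring) (by simp)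
    (fun x hx => add_nonneg (ep3 x hx) (mul_nonneg (by positivity) (Real.exp_pos x).le)) u hu

theorem ep5 (u : ℝ) (hu : 0 ≤ u) :
    0 ≤ u ^ 5 / 120 * Real.exp u + u ^ 4 / 24 + u ^ 3 / 6 + u ^ 2 / 2 + u + 1 - Real.exp u :=
  nonneg_of_deriv
    (f := fun u => u ^ 5 / 120 * Real.exp u + u ^ 4 / 24 + u ^ 3 / 6 + u ^ 2 / 2 + u + 1 - Real.exp u)
    (f' := fun u => (u ^ 4 / 24 * Real.exp u + u ^ 3 / 6 + u ^ 2 / 2 + u + 1 - Real.exp u) +
      u ^ 5 / 120 * Real.exp u)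
    (fun x => by
      have := ((((((hasDerivAt_pe 4 120 x).add (hasDerivAt_pw 3 24 x)).add (hasDerivAt_pw 2 6 x)).add
        (hasDerivAt_pw 1 2 x)).add (hasDerivAt_id x)).add_const 1).sub (Real.hasDerivAt_exp x)
      refine this.congr_deriv ?_
      norm_num
      ring) (by simp)
    (fun x hx => add_nonneg (ep4 x hx) (mul_nonneg (by positivity) (Real.exp_pos x).le)) u hu

theorem gr_pos_le {u : ℝ} (hu : 0 ≤ u) :
    gr u - u ^ 2 / 2 ≤ u ^ 3 / 6 + u ^ 4 / 24 + u ^ 5 / 120 * Real.exp u := by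
  unfold gr
  linarith [ep5 u hu]

end SokalTI
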