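import Pool.Agent.Lib_MP_af4de1_ti.L1

/-!
# Left saddle: integral toolkit on half-lines
-/

set_option autoImplicit false

namespace SokalTI

open MeasureTheory Set Filter Topology

theorem gm_int (n : ℕ) {c : ℝ} (hc : 0 < c) :
    IntegrableOn (fun u : ℝ => u ^ n * Real.exp (-(c * u ^ 2))) (Ioi 0) := by
  have h := integrableOn_rpow_mul_exp_neg_mul_sq hc (s := (n : ℝ))
    (by have : (0 : ℝ) ≤ n := Nat.cast_nonneg n
        linarith)
  refine h.congr_fun (fun x hx => ?_) measurableSet_Ioi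
  simp only [Real.rpow_natCast]
  rw [neg_mul]

theorem gm_val (n : ℕ) {c : ℝ} (hc : 0 < c) :
    ∫ u in Ioi (0 : ℝ), u ^ n * Real.exp (-(c * u ^ 2)) =
      c ^ (-((n : ℝ) + 1) / 2) * (1 / 2) * Real.Gamma (((n : ℝ) + 1) / 2) := by
  rw [← integral_rpow_mul_exp_neg_mul_rpow (p := 2) (q := (n : ℝ)) (by norm_num)
    (by have : (0 : ℝ) ≤ n := Nat.cast_nonneg n
        linarith) hc]
  refine setIntegral_congr_fun measurableSet_Ioi (fun x hx => ?_)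
  simp only [Real.rpow_natCast, Real.rpow_two]
  rw [neg_mul]

theorem gm0 {c : ℝ} : ∫ u in Ioi (0 : ℝ), Real.exp (-(c * u ^ 2)) = √(Real.pi / c) / 2 := by
  rw [← integral_gaussian_Ioi c]
  refine setIntegral_congr_fun measurableSet_Ioi (fun x hx => ?_)
  simp only [neg_mul]

theorem gm1 {c : ℝ} (hc : 0 < c) :
    ∫ u in Ioi (0 : ℝ), u * Real.exp (-(c * u ^ 2)) = 1 / (2 * c) := by
  have h := gm_val 1 hc
  simp only [pow_one, Nat.cast_one] at h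
  rw [h, show (-((1 : ℝ) + 1) / 2) = -1 by norm_num, show ((1 : ℝ) + 1) / 2 = 1 by norm_num,
    Real.Gamma_one, Real.rpow_neg_one]
  field_simp

theorem gm3 {c : ℝ} (hc : 0 < c) :
    ∫ u in Ioi (0 : ℝ), u ^ 3 * Real.exp (-(c * u ^ 2)) = 1 / (2 * c ^ 2) := by
  have h := gm_val 3 hc
  rw [h, show (-(((3 : ℕ) : ℝ) + 1) / 2) = -((2 : ℕ) : ℝ) by norm_num,
    show (((3 : ℕ) : ℝ) + 1) / 2 = ((1 : ℕ) : ℝ) + 1 by norm_num,
    Real.Gamma_nat_eq_factorial, Real.rpow_neg hc.le, Real.rpow_natCast]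
  norm_num

theorem gm5 {c : ℝ} (hc : 0 < c) :
    ∫ u in Ioi (0 : ℝ), u ^ 5 * Real.exp (-(c * u ^ 2)) = 1 / c ^ 3 := by
  have h := gm_val 5 hc
  rw [h, show (-(((5 : ℕ) : ℝ) + 1) / 2) = -((3 : ℕ) : ℝ) by norm_num,
    show (((5 : ℕ) : ℝ) + 1) / 2 = ((2 : ℕ) : ℝ) + 1 by norm_num,
    Real.Gamma_nat_eq_factorial, Real.rpow_neg hc.le, Real.rpow_natCast]
  norm_num [Nat.factorial]
  ring

theorem gm4 {c : ℝ} (hc : 0 < c) :
    ∫ u in Ioi (0 : ℝ), u ^ 4 * Real.exp (-(c * u ^ 2)) = 3 / 8 * √Real.pi / (c ^ 2 * √c) := by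
  have h := gm_val 4 hc
  have e : c ^ (-(((4 : ℕ) : ℝ) + 1) / 2) = 1 / (c ^ 2 * √c) := by
    rw [show (-(((4 : ℕ) : ℝ) + 1) / 2) = -(((2 : ℕ) : ℝ) + 1 / 2) by norm_num, Real.rpow_neg hc.le,
      Real.rpow_add hc, Real.rpow_natCast, ← Real.sqrt_eq_rpow, one_div]
  rw [h, e, show (((4 : ℕ) : ℝ) + 1) / 2 = ((2 : ℕ) : ℝ) + 1 / 2 by norm_num, Real.Gamma_nat_add_half]
  norm_num [Nat.doubleFactorial]
  ring

/-- comparison on the two pieces of `(0, ∞)` -/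
theorem two_piece {f g1 g2 : ℝ → ℝ} {b : ℝ} (hb : 0 ≤ b) (hf : Continuous f)
    (hg1 : IntegrableOn g1 (Ioi 0)) (hg2 : IntegrableOn g2 (Ioi b))
    (h0 : ∀ t, 0 < t → 0 ≤ f t) (hn1 : ∀ t, 0 < t → 0 ≤ g1 t)
    (h1 : ∀ t, 0 < t → t ≤ b → f t ≤ g1 t) (h2 : ∀ t, b < t → f t ≤ g2 t) :
    IntegrableOn f (Ioi 0) ∧ ∫ t in Ioi (0 : ℝ), f t ≤ (∫ t in Ioi (0 : ℝ), g1 t) +
      ∫ t in Ioi b, g2 t := by
  have e : Ioc 0 b ∪ Ioi b = Ioi 0 := Ioc_union_Ioi_eq_Ioi hb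
  have i1 : IntegrableOn f (Ioc 0 b) := by
    refine Integrable.mono' (hg1.mono_set Ioc_subset_Ioi_self)
      hf.aestronglyMeasurable.restrict ?_
    refine (ae_restrict_iff' measurableSet_Ioc).2 (Eventually.of_forall fun t ht => ?_)
    rw [Real.norm_eq_abs, abs_of_nonneg (h0 t ht.1)]
    exact h1 t ht.1 ht.2
  have i2 : IntegrableOn f (Ioi b) := by
    refine Integrable.mono' hg2 hf.aestronglyMeasurable.restrict ?_
    refine (ae_restrict_iff' measurableSet_Ioi).2 (Eventually.of_forall fun t ht => ?_)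
    rw [Real.norm_eq_abs, abs_of_nonneg (h0 t (hb.trans_lt ht))]
    exact h2 t ht
  have i3 : IntegrableOn f (Ioi 0) := by
    rw [← e]
    exact i1.union i2
  refine ⟨i3, ?_⟩
  rw [← e, setIntegral_union (Ioc_disjoint_Ioi le_rfl) measurableSet_Ioi i1 i2]
  have h3 : ∫ t in Ioc 0 b, f t ≤ ∫ t in Ioc 0 b, g1 t :=
    setIntegral_mono_on i1 (hg1.mono_set Ioc_subset_Ioi_self) measurableSet_Ioc
      (fun t ht => h1 t ht.1 ht.2)
  have h4 : ∫ t in Ioc 0 b, g1 t ≤ ∫ t in Ioi 0, g1 t := by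
    refine setIntegral_mono_set hg1 ?_ (Ioc_subset_Ioi_self.eventuallyLE)
    exact (ae_restrict_iff' measurableSet_Ioi).2 (Eventually.of_forall fun t ht => hn1 t ht)
  have h5 : ∫ t in Ioi b, f t ≤ ∫ t in Ioi b, g2 t :=
    setIntegral_mono_on i2 hg2 measurableSet_Ioi (fun t ht => h2 t ht)
  rw [e]
  linarith

/-- comparison on `(0, ∞)` -/
theorem one_piece {f g : ℝ → ℝ} (hf : Continuous f) (hg : IntegrableOn g (Ioi 0))
    (h0 : ∀ t, 0 < t → 0 ≤ f t) (h1 : ∀ t, 0 < t → f t ≤ g t) :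
    IntegrableOn f (Ioi 0) ∧ ∫ t in Ioi (0 : ℝ), f t ≤ ∫ t in Ioi (0 : ℝ), g t := by
  have i1 : IntegrableOn f (Ioi 0) := by
    refine Integrable.mono' hg hf.aestronglyMeasurable.restrict ?_
    refine (ae_restrict_iff' measurableSet_Ioi).2 (Eventually.of_forall fun t ht => ?_)
    rw [Real.norm_eq_abs, abs_of_nonneg (h0 t ht)]
    exact h1 t ht
  exact ⟨i1, setIntegral_mono_on i1 hg measurableSet_Ioi (fun t ht => h1 t ht)⟩

/-- the whole line -/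
theorem split_line {f : ℝ → ℝ} (h1 : IntegrableOn f (Ioi 0))
    (h2 : IntegrableOn (fun t => f (-t)) (Ioi 0)) :
    Integrable f ∧ ∫ u, f u = (∫ u in Ioi (0 : ℝ), f u) + ∫ t in Ioi (0 : ℝ), f (-t) := by
  have h3 : IntegrableOn f (Iic 0) := by
    have h4 : IntegrableOn (fun t => f (-t)) (Ioi (-0)) := by simpa using h2
    have := h4.comp_neg_Iio
    rw [integrableOn_Iic_iff_integrableOn_Iio]
    simpa using this
  have h5 : Integrable f := by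
    rw [← integrableOn_univ, ← Iic_union_Ioi (a := (0 : ℝ))]
    exact h3.union h1
  refine ⟨h5, ?_⟩
  have h6 := integral_comp_neg_Ioi (c := (0 : ℝ)) (f := f)
  rw [neg_zero] at h6
  rw [h6, ← setIntegral_univ, ← Iic_union_Ioi (a := (0 : ℝ)),
    setIntegral_union (Iic_disjoint_Ioi le_rfl) measurableSet_Ioi h3 h1]
  ring

end SokalTI
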