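import Pool.Agent.Lib_MP_af4de1_ti.L2

/-!
# Left saddle: the four real integrals
-/

set_option autoImplicit false

namespace SokalTI

open MeasureTheory Set Filter Topology

noncomputable def Dm (lam u : ℝ) : ℝ :=
  |gr u - u ^ 2 / 2| * max (Real.exp (-(lam * gr u))) (Real.exp (-(lam * (u ^ 2 / 2))))

theorem continuous_Dm (lam : ℝ) : Continuous (Dm lam) := by
  unfold Dm
  have := continuous_gr
  fun_prop

theorem Dm_nonneg (lam u : ℝ) : 0 ≤ Dm lam u := by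
  unfold Dm
  exact mul_nonneg (abs_nonneg _) ((Real.exp_pos _).le.trans (le_max_left _ _))

theorem exp_le_two_mul {lam u : ℝ} (hl : 24 / 5 ≤ lam) :
    Real.exp u ≤ 2 * Real.exp (753 / 10000 * lam * u ^ 2) := by
  have h1 : u ≤ Real.log 2 + 753 / 10000 * lam * u ^ 2 := by
    have := Real.log_two_gt_d9
    nlinarith [sq_nonneg (u - 1000 / 722), mul_nonneg (sub_nonneg.2 hl) (sq_nonneg u)]
  calc Real.exp u ≤ Real.exp (Real.log 2 + 753 / 10000 * lam * u ^ 2) := Real.exp_le_exp.2 h1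
    _ = 2 * Real.exp (753 / 10000 * lam * u ^ 2) := by
      rw [Real.exp_add, Real.exp_log (by norm_num)]

theorem Dm_pos_le {lam u : ℝ} (hl : 24 / 5 ≤ lam) (hu : 0 < u) :
    Dm lam u ≤ 1 / 6 * (u ^ 3 * Real.exp (-(lam / 2 * u ^ 2))) +
      1 / 24 * (u ^ 4 * Real.exp (-(lam / 2 * u ^ 2))) +
      1 / 60 * (u ^ 5 * Real.exp (-(4247 / 10000 * lam * u ^ 2))) := by
  have h1 := gr_ge hu.le
  have h2 := gr_pos_le hu.le
  have h3 : max (Real.exp (-(lam * gr u))) (Real.exp (-(lam * (u ^ 2 / 2)))) =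
      Real.exp (-(lam / 2 * u ^ 2)) := by
    rw [max_eq_right]
    · congr 1; ring
    · apply Real.exp_le_exp.2
      nlinarith
  unfold Dm
  rw [h3, abs_of_nonneg (sub_nonneg.2 h1)]
  have h4 : Real.exp u * Real.exp (-(lam / 2 * u ^ 2)) ≤
      2 * Real.exp (-(4247 / 10000 * lam * u ^ 2)) := by
    calc Real.exp u * Real.exp (-(lam / 2 * u ^ 2)) ≤
        2 * Real.exp (753 / 10000 * lam * u ^ 2) * Real.exp (-(lam / 2 * u ^ 2)) :=
          mul_le_mul_of_nonneg_right (exp_le_two_mul hl) (Real.exp_pos _).le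
      _ = 2 * Real.exp (-(4247 / 10000 * lam * u ^ 2)) := by
        rw [mul_assoc, ← Real.exp_add]
        congr 2
        ring
  have h5 : 0 < Real.exp (-(lam / 2 * u ^ 2)) := Real.exp_pos _
  have h6 : 0 ≤ u ^ 5 / 120 := by positivity
  calc (gr u - u ^ 2 / 2) * Real.exp (-(lam / 2 * u ^ 2)) ≤
      (u ^ 3 / 6 + u ^ 4 / 24 + u ^ 5 / 120 * Real.exp u) * Real.exp (-(lam / 2 * u ^ 2)) :=
        mul_le_mul_of_nonneg_right h2 h5.le
    _ = 1 / 6 * (u ^ 3 * Real.exp (-(lam / 2 * u ^ 2))) +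
      1 / 24 * (u ^ 4 * Real.exp (-(lam / 2 * u ^ 2))) +
      u ^ 5 / 120 * (Real.exp u * Real.exp (-(lam / 2 * u ^ 2))) := by ring
    _ ≤ 1 / 6 * (u ^ 3 * Real.exp (-(lam / 2 * u ^ 2))) +
      1 / 24 * (u ^ 4 * Real.exp (-(lam / 2 * u ^ 2))) +
      u ^ 5 / 120 * (2 * Real.exp (-(4247 / 10000 * lam * u ^ 2))) := by
        have := mul_le_mul_of_nonneg_left h4 h6
        linarith
    _ = _ := by ring

theorem sqrt_pi_le : √Real.pi ≤ 17725 / 10000 := by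
  rw [show (17725 / 10000 : ℝ) = √((17725 / 10000) ^ 2) by
    rw [Real.sqrt_sq (by norm_num)]]
  apply Real.sqrt_le_sqrt
  have := Real.pi_lt_d4
  norm_num at this ⊢
  linarith

theorem K_plus {lam : ℝ} (hl : 24 / 5 ≤ lam) :
    IntegrableOn (Dm lam) (Ioi 0) ∧ ∫ u in Ioi (0 : ℝ), Dm lam u ≤ 4503 / 10000 / lam ^ 2 := by
  have hl0 : 0 < lam := by linarith
  have c1 : 0 < lam / 2 := by linarith
  have c2 : 0 < 4247 / 10000 * lam := by linarith
  have i3 := (gm_int 3 c1).const_mul (1 / 6)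
  have i4 := (gm_int 4 c1).const_mul (1 / 24)
  have i5 := (gm_int 5 c2).const_mul (1 / 60)
  have i6 : IntegrableOn (fun u : ℝ => 1 / 6 * (u ^ 3 * Real.exp (-(lam / 2 * u ^ 2))) +
      1 / 24 * (u ^ 4 * Real.exp (-(lam / 2 * u ^ 2))) +
      1 / 60 * (u ^ 5 * Real.exp (-(4247 / 10000 * lam * u ^ 2)))) (Ioi 0) := (i3.add i4).add i5
  obtain ⟨h1, h2⟩ := one_piece (continuous_Dm lam) i6
    (fun t _ => Dm_nonneg lam t) (fun t ht => Dm_pos_le hl ht)
  refine ⟨h1, h2.trans ?_⟩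
  have e1 : ∫ u in Ioi (0 : ℝ), (1 / 6 * (u ^ 3 * Real.exp (-(lam / 2 * u ^ 2))) +
      1 / 24 * (u ^ 4 * Real.exp (-(lam / 2 * u ^ 2))) +
      1 / 60 * (u ^ 5 * Real.exp (-(4247 / 10000 * lam * u ^ 2)))) =
      1 / 6 * (1 / (2 * (lam / 2) ^ 2)) + 1 / 24 * (3 / 8 * √Real.pi / ((lam / 2) ^ 2 * √(lam / 2))) +
      1 / 60 * (1 / (4247 / 10000 * lam) ^ 3) := by
    have h3 : ∫ u in Ioi (0 : ℝ), (1 / 6 * (u ^ 3 * Real.exp (-(lam / 2 * u ^ 2))) +
        1 / 24 * (u ^ 4 * Real.exp (-(lam / 2 * u ^ 2))) +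
        1 / 60 * (u ^ 5 * Real.exp (-(4247 / 10000 * lam * u ^ 2)))) =
        (∫ u in Ioi (0 : ℝ), (1 / 6 * (u ^ 3 * Real.exp (-(lam / 2 * u ^ 2))) +
        1 / 24 * (u ^ 4 * Real.exp (-(lam / 2 * u ^ 2))))) +
        ∫ u in Ioi (0 : ℝ), 1 / 60 * (u ^ 5 * Real.exp (-(4247 / 10000 * lam * u ^ 2))) :=
      integral_add (i3.add i4) i5
    have h4 : ∫ u in Ioi (0 : ℝ), (1 / 6 * (u ^ 3 * Real.exp (-(lam / 2 * u ^ 2))) +
        1 / 24 * (u ^ 4 * Real.exp (-(lam / 2 * u ^ 2)))) =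
        (∫ u in Ioi (0 : ℝ), 1 / 6 * (u ^ 3 * Real.exp (-(lam / 2 * u ^ 2)))) +
        ∫ u in Ioi (0 : ℝ), 1 / 24 * (u ^ 4 * Real.exp (-(lam / 2 * u ^ 2))) := integral_add i3 i4
    rw [h3, h4, integral_const_mul, integral_const_mul, integral_const_mul, gm3 c1, gm4 c1, gm5 c2]
  rw [e1]
  have h5 : (1549 / 1000 : ℝ) ≤ √(lam / 2) := by
    apply Real.le_sqrt_of_sq_le
    norm_num
    linarith
  have h6 := sqrt_pi_le
  have h7 : 3 / 8 * √Real.pi / ((lam / 2) ^ 2 * √(lam / 2)) ≤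
      3 / 8 * (17725 / 10000) / ((lam / 2) ^ 2 * (1549 / 1000)) := by
    gcongr
  have h8 : 1 / (4247 / 10000 * lam) ^ 3 ≤ 1 / ((4247 / 10000) ^ 3 * lam ^ 2 * (24 / 5)) := by
    apply one_div_le_one_div_of_le (by positivity)
    have : (4247 / 10000 : ℝ) ^ 3 * lam ^ 2 * (24 / 5) ≤ (4247 / 10000) ^ 3 * lam ^ 2 * lam :=
      mul_le_mul_of_nonneg_left hl (by positivity)
    calc _ ≤ _ := this
      _ = _ := by ring
  have e2 : 1 / 6 * (1 / (2 * (lam / 2) ^ 2)) = (1 / 3) / lam ^ 2 := by field_simp; norm_num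
  have e3 : 1 / 24 * (3 / 8 * (17725 / 10000) / ((lam / 2) ^ 2 * (1549 / 1000))) =
      (1 / 24 * (3 / 8 * (17725 / 10000)) * 4 / (1549 / 1000)) / lam ^ 2 := by
    field_simp
    norm_num
  have e4 : 1 / 60 * (1 / ((4247 / 10000) ^ 3 * lam ^ 2 * (24 / 5))) =
      (1 / 60 / (4247 / 10000) ^ 3 / (24 / 5)) / lam ^ 2 := by
    field_simp
  calc _ ≤ (1 / 3) / lam ^ 2 + (1 / 24 * (3 / 8 * (17725 / 10000)) * 4 / (1549 / 1000)) / lam ^ 2 +
        (1 / 60 / (4247 / 10000) ^ 3 / (24 / 5)) / lam ^ 2 := by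
        rw [← e2, ← e3, ← e4]
        linarith
    _ = (1 / 3 + (1 / 24 * (3 / 8 * (17725 / 10000)) * 4 / (1549 / 1000)) +
        (1 / 60 / (4247 / 10000) ^ 3 / (24 / 5))) / lam ^ 2 := by ring
    _ ≤ 4503 / 10000 / lam ^ 2 := by
        apply div_le_div_of_nonneg_right _ (by positivity)
        norm_num

/-! ### the left half-line -/

theorem Dm_neg_near {lam t : ℝ} (hl : 24 / 5 ≤ lam) (ht : 0 < t) (ht2 : t ≤ 3 / 2) :
    Dm lam (-t) ≤ 1 / 6 * (t ^ 3 * Real.exp (-(31 / 100 * lam * t ^ 2))) := by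
  have h1 := gr_neg_le ht.le
  have h2 := gr_neg_ge ht.le
  have h3 := gr_neg_near ht.le ht2
  have h4 : max (Real.exp (-(lam * gr (-t)))) (Real.exp (-(lam * ((-t) ^ 2 / 2)))) ≤
      Real.exp (-(31 / 100 * lam * t ^ 2)) := by
    apply max_le
    · apply Real.exp_le_exp.2
      nlinarith
    · apply Real.exp_le_exp.2
      nlinarith [mul_nonneg (show 0 ≤ lam by linarith) (sq_nonneg t)]
  unfold Dm
  have h5 : |gr (-t) - (-t) ^ 2 / 2| ≤ t ^ 3 / 6 := by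
    rw [abs_le]
    constructor
    · nlinarith
    · have : 0 ≤ t ^ 3 := by positivity
      nlinarith
  calc _ ≤ t ^ 3 / 6 * Real.exp (-(31 / 100 * lam * t ^ 2)) :=
        mul_le_mul h5 h4 ((Real.exp_pos _).le.trans (le_max_left _ _)) (by positivity)
    _ = _ := by ring

theorem Dm_neg_far {lam t : ℝ} (hl : 24 / 5 ≤ lam) (ht : 3 / 2 < t) :
    Dm lam (-t) ≤ 405 / 1000 * Real.exp (-(18 / 25 * lam)) *
      Real.exp (-((77 / 100 * lam - 181 / 100) * (t - 3 / 2))) := by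
  have h0 : 0 < t := by linarith
  have h1 := gr_neg_le h0.le
  have h3 := gr_neg_far ht.le
  have h4 : max (Real.exp (-(lam * gr (-t)))) (Real.exp (-(lam * ((-t) ^ 2 / 2)))) ≤
      Real.exp (-(lam * (18 / 25 + 77 / 100 * (t - 3 / 2)))) := by
    apply max_le
    · apply Real.exp_le_exp.2
      nlinarith
    · apply Real.exp_le_exp.2
      nlinarith
  have h6 : 1 + 181 / 100 * (t - 3 / 2) + (181 / 100 * (t - 3 / 2)) ^ 2 / 2 ≤
      Real.exp (181 / 100 * (t - 3 / 2)) :=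
    Real.quadratic_le_exp_of_nonneg (by linarith)
  have h5 : |gr (-t) - (-t) ^ 2 / 2| ≤ 405 / 1000 * Real.exp (181 / 100 * (t - 3 / 2)) := by
    rw [abs_of_nonpos (by linarith [show (-t) ^ 2 = t ^ 2 by ring])]
    nlinarith [sq_nonneg (t - 3 / 2)]
  unfold Dm
  calc _ ≤ 405 / 1000 * Real.exp (181 / 100 * (t - 3 / 2)) *
        Real.exp (-(lam * (18 / 25 + 77 / 100 * (t - 3 / 2)))) :=
        mul_le_mul h5 h4 ((Real.exp_pos _).le.trans (le_max_left _ _)) (by positivity)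
    _ = _ := by
      rw [mul_assoc, mul_assoc, ← Real.exp_add, ← Real.exp_add]
      congr 2
      ring

theorem expt_int {c : ℝ} (hc : 0 < c) (b : ℝ) :
    IntegrableOn (fun t : ℝ => Real.exp (-(c * (t - b)))) (Ioi b) ∧
      ∫ t in Ioi b, Real.exp (-(c * (t - b))) = 1 / c := by
  have e : (fun t : ℝ => Real.exp (-(c * (t - b)))) = fun t => Real.exp (c * b) * Real.exp (-c * t) := by
    ext t
    rw [← Real.exp_add]
    congr 1
    ring
  rw [e]
  refine ⟨(integrableOn_exp_mul_Ioi (neg_lt_zero.2 hc) b).const_mul _, ?_⟩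
  rw [integral_const_mul, integral_exp_mul_Ioi (neg_lt_zero.2 hc) b, neg_div_neg_eq, ← mul_div_assoc,
    ← Real.exp_add]
  simp

theorem exp_3456 : (316 / 10 : ℝ) ≤ Real.exp (3456 / 1000) := by
  have h1 : Real.exp (3456 / 1000) = Real.exp 1 ^ 3 * Real.exp (456 / 1000) := by
    rw [← Real.exp_nat_mul, ← Real.exp_add]
    norm_num
  have h2 : (15757 / 10000 : ℝ) ≤ Real.exp (456 / 1000) := by
    have := Real.sum_le_exp_of_nonneg (x := 456 / 1000) (by norm_num) 4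
    norm_num [Finset.sum_range_succ, Nat.factorial] at this ⊢
    linarith
  have h3 := Real.exp_one_gt_d9
  have h4 : (2.71828 : ℝ) ^ 3 ≤ Real.exp 1 ^ 3 := pow_le_pow_left₀ (by norm_num) (by linarith) 3
  rw [h1]
  calc (316 / 10 : ℝ) ≤ 2.71828 ^ 3 * (15757 / 10000) := by norm_num
    _ ≤ _ := by gcongr

theorem sq_exp_le {lam : ℝ} (hl : 24 / 5 ≤ lam) :
    lam ^ 2 * Real.exp (-(18 / 25 * lam)) ≤ 7292 / 10000 := by
  have h1 : lam / (24 / 5) ≤ Real.exp ((lam - 24 / 5) / (24 / 5)) := by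
    have := Real.add_one_le_exp ((lam - 24 / 5) / (24 / 5))
    calc lam / (24 / 5) = (lam - 24 / 5) / (24 / 5) + 1 := by ring
      _ ≤ _ := this
  have h2 : (lam / (24 / 5)) ^ 2 ≤ Real.exp ((lam - 24 / 5) / (24 / 5)) ^ 2 :=
    pow_le_pow_left₀ (by positivity) h1 2
  rw [← Real.exp_nat_mul] at h2
  have h3 : Real.exp ((2 : ℕ) * ((lam - 24 / 5) / (24 / 5))) ≤ Real.exp (18 / 25 * (lam - 24 / 5)) := by
    apply Real.exp_le_exp.2
    push_cast
    linarith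
  have h4 : lam ^ 2 ≤ (24 / 5) ^ 2 * Real.exp (18 / 25 * (lam - 24 / 5)) := by
    have := h2.trans h3
    rw [div_pow, div_le_iff₀ (by norm_num)] at this
    linarith
  have h5 := exp_3456
  have h6 : Real.exp (18 / 25 * (lam - 24 / 5)) * Real.exp (-(18 / 25 * lam)) =
      1 / Real.exp (3456 / 1000) := by
    rw [← Real.exp_add, one_div, ← Real.exp_neg]
    congr 1
    ring
  have h7 : 1 / Real.exp (3456 / 1000) ≤ 1 / (316 / 10) :=
    one_div_le_one_div_of_le (by norm_num) h5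
  calc lam ^ 2 * Real.exp (-(18 / 25 * lam)) ≤
      (24 / 5) ^ 2 * Real.exp (18 / 25 * (lam - 24 / 5)) * Real.exp (-(18 / 25 * lam)) :=
        mul_le_mul_of_nonneg_right h4 (Real.exp_pos _).le
    _ = (24 / 5) ^ 2 * (1 / Real.exp (3456 / 1000)) := by rw [mul_assoc, h6]
    _ ≤ (24 / 5) ^ 2 * (1 / (316 / 10)) := mul_le_mul_of_nonneg_left h7 (by norm_num)
    _ ≤ _ := by norm_num

theorem K_minus {lam : ℝ} (hl : 24 / 5 ≤ lam) :
    IntegrableOn (fun t => Dm lam (-t)) (Ioi 0) ∧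
      ∫ t in Ioi (0 : ℝ), Dm lam (-t) ≤ 10242 / 10000 / lam ^ 2 := by
  have hl0 : 0 < lam := by linarith
  have c1 : 0 < 31 / 100 * lam := by linarith
  have c2 : 0 < 77 / 100 * lam - 181 / 100 := by linarith
  have i3 := (gm_int 3 c1).const_mul (1 / 6)
  have i4 := (expt_int c2 (3 / 2)).1.const_mul (405 / 1000 * Real.exp (-(18 / 25 * lam)))
  obtain ⟨h1, h2⟩ := two_piece (f := fun t => Dm lam (-t)) (b := 3 / 2) (by norm_num)
    ((continuous_Dm lam).comp continuous_neg) i3 i4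
    (fun t _ => Dm_nonneg lam (-t)) (fun t ht => by positivity)
    (fun t ht ht2 => Dm_neg_near hl ht ht2) (fun t ht => Dm_neg_far hl ht)
  refine ⟨h1, h2.trans ?_⟩
  rw [integral_const_mul, integral_const_mul, gm3 c1, (expt_int c2 (3 / 2)).2]
  have h3 := sq_exp_le hl
  have h4 : 405 / 1000 * Real.exp (-(18 / 25 * lam)) * (1 / (77 / 100 * lam - 181 / 100)) ≤
      157 / 1000 / lam ^ 2 := by
    rw [le_div_iff₀ (by positivity), mul_one_div, div_mul_eq_mul_div, div_le_iff₀ c2]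
    nlinarith
  have e1 : 1 / 6 * (1 / (2 * (31 / 100 * lam) ^ 2)) = (1 / 12 / (31 / 100) ^ 2) / lam ^ 2 := by
    field_simp
    norm_num
  rw [e1]
  calc _ ≤ (1 / 12 / (31 / 100) ^ 2) / lam ^ 2 + 157 / 1000 / lam ^ 2 := by linarith
    _ = (1 / 12 / (31 / 100) ^ 2 + 157 / 1000) / lam ^ 2 := by ring
    _ ≤ _ := by
      apply div_le_div_of_nonneg_right _ (by positivity)
      norm_num

end SokalTI
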