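import Pool.Agent.Lib_MP_af4de1_ti.L3

/-!
# Left saddle: the integral of `gr e^{-λ gr}`
-/

set_option autoImplicit false

namespace SokalTI

open MeasureTheory Set Filter Topology

theorem em_int (n : ℕ) {c : ℝ} (hc : 0 < c) :
    IntegrableOn (fun u : ℝ => u ^ n * Real.exp (-(c * u))) (Ioi 0) := by
  have h := integrableOn_rpow_mul_exp_neg_mul_rpow (p := 1) (s := (n : ℝ)) (b := c)
    (by have : (0 : ℝ) ≤ n := Nat.cast_nonneg n
        linarith) one_pos hc
  refine h.congr_fun (fun x hx => ?_) measurableSet_Ioi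
  simp only [Real.rpow_natCast, Real.rpow_one]
  rw [neg_mul]

/-- all moments on the left half-line -/
theorem neg_int (n : ℕ) {lam : ℝ} (hl : 0 < lam) :
    IntegrableOn (fun t : ℝ => t ^ n * Real.exp (-(lam * gr (-t)))) (Ioi 0) := by
  have hg := (em_int n hl).const_mul (Real.exp lam)
  refine (one_piece (f := fun t : ℝ => t ^ n * Real.exp (-(lam * gr (-t)))) ?_ hg
    (fun t ht => by positivity) (fun t ht => ?_)).1
  · have := continuous_gr
    fun_prop
  · have h1 : t - 1 ≤ gr (-t) := by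
      unfold gr
      linarith [Real.exp_pos (-t)]
    have h2 : Real.exp (-(lam * gr (-t))) ≤ Real.exp lam * Real.exp (-(lam * t)) := by
      rw [← Real.exp_add]
      apply Real.exp_le_exp.2
      nlinarith
    have h3 : 0 ≤ t ^ n := by positivity
    have := mul_le_mul_of_nonneg_left h2 h3
    calc _ ≤ _ := this
      _ = _ := by ring

/-- all moments on the right half-line -/
theorem pos_int (n : ℕ) {lam : ℝ} (hl : 0 < lam) :
    IntegrableOn (fun t : ℝ => t ^ n * Real.exp (-(lam * gr t))) (Ioi 0) := by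
  have hg := gm_int n (c := lam / 2) (by linarith)
  refine (one_piece (f := fun t : ℝ => t ^ n * Real.exp (-(lam * gr t))) ?_ hg
    (fun t ht => by positivity) (fun t ht => ?_)).1
  · have := continuous_gr
    fun_prop
  · have h1 := gr_ge ht.le
    have h2 : Real.exp (-(lam * gr t)) ≤ Real.exp (-(lam / 2 * t ^ 2)) := by
      apply Real.exp_le_exp.2
      nlinarith
    exact mul_le_mul_of_nonneg_left h2 (by positivity)

theorem E_plus {lam : ℝ} (hl : 24 / 5 ≤ lam) :
    IntegrableOn (fun u => Real.exp (-(lam * gr u))) (Ioi 0) ∧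
      ∫ u in Ioi (0 : ℝ), Real.exp (-(lam * gr u)) ≤ √(Real.pi / (lam / 2)) / 2 := by
  have hl0 : 0 < lam := by linarith
  have hg : IntegrableOn (fun u : ℝ => Real.exp (-(lam / 2 * u ^ 2))) (Ioi 0) := by
    simpa using gm_int 0 (c := lam / 2) (by linarith)
  rw [← gm0]
  refine one_piece (f := fun t : ℝ => Real.exp (-(lam * gr t))) ?_ hg
    (fun t ht => by positivity) (fun t ht => ?_)
  · have := continuous_gr
    fun_prop
  · have h1 := gr_ge ht.le
    apply Real.exp_le_exp.2
    nlinarith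

theorem E_minus0 {lam : ℝ} (hl : 24 / 5 ≤ lam) :
    IntegrableOn (fun t => Real.exp (-(lam * gr (-t)))) (Ioi 0) ∧
      ∫ t in Ioi (0 : ℝ), Real.exp (-(lam * gr (-t))) ≤
        √(Real.pi / (lam / 2)) / 2 + 10242 / 10000 / lam := by
  have hl0 : 0 < lam := by linarith
  have hg : IntegrableOn (fun u : ℝ => Real.exp (-(lam / 2 * u ^ 2))) (Ioi 0) := by
    simpa using gm_int 0 (c := lam / 2) (by linarith)
  have hk := (K_minus hl).1.const_mul lam
  have hi : IntegrableOn (fun t : ℝ => Real.exp (-(lam / 2 * t ^ 2)) + lam * Dm lam (-t)) (Ioi 0) :=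
    hg.add hk
  obtain ⟨h1, h2⟩ := one_piece (f := fun t : ℝ => Real.exp (-(lam * gr (-t)))) (by
      have := continuous_gr
      fun_prop) hi (fun t ht => by positivity) (fun t ht => by
      have h3 := gr_neg_le ht.le
      have h4 := Real.add_one_le_exp (lam * gr (-t) - lam / 2 * t ^ 2)
      have h5 : Real.exp (-(lam / 2 * t ^ 2)) = Real.exp (lam * gr (-t) - lam / 2 * t ^ 2) *
          Real.exp (-(lam * gr (-t))) := by
        rw [← Real.exp_add]
        congr 1
        ring
      have h6 : (t ^ 2 / 2 - gr (-t)) * Real.exp (-(lam * gr (-t))) ≤ Dm lam (-t) := by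
        unfold Dm
        apply mul_le_mul _ (le_max_left _ _) (Real.exp_pos _).le (abs_nonneg _)
        rw [abs_of_nonpos (by nlinarith)]
        linarith [show (-t) ^ 2 = t ^ 2 by ring]
      have h7 : (lam * gr (-t) - lam / 2 * t ^ 2 + 1) * Real.exp (-(lam * gr (-t))) ≤
          Real.exp (-(lam / 2 * t ^ 2)) := by
        rw [h5]
        exact mul_le_mul_of_nonneg_right h4 (Real.exp_pos _).le
      have h8 := mul_le_mul_of_nonneg_left h6 hl0.le
      nlinarith)
  refine ⟨h1, h2.trans ?_⟩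
  have e : ∫ t in Ioi (0 : ℝ), (Real.exp (-(lam / 2 * t ^ 2)) + lam * Dm lam (-t)) =
      (∫ t in Ioi (0 : ℝ), Real.exp (-(lam / 2 * t ^ 2))) + ∫ t in Ioi (0 : ℝ), lam * Dm lam (-t) :=
    integral_add hg hk
  rw [e, gm0, integral_const_mul]
  have h9 := mul_le_mul_of_nonneg_left (K_minus hl).2 hl0.le
  have e2 : lam * (10242 / 10000 / lam ^ 2) = 10242 / 10000 / lam := by
    field_simp
  rw [e2] at h9
  linarith

theorem E_minus1 {lam : ℝ} (hl : 24 / 5 ≤ lam) :
    IntegrableOn (fun t => t * Real.exp (-(lam * gr (-t)))) (Ioi 0) ∧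
      ∫ t in Ioi (0 : ℝ), t * Real.exp (-(lam * gr (-t))) ≤ 17 / 10 / lam := by
  have hl0 : 0 < lam := by linarith
  have c1 : 0 < 31 / 100 * lam := by linarith
  have c2 : 0 < 77 / 100 * lam - 2 / 3 := by linarith
  have i3 : IntegrableOn (fun u : ℝ => u * Real.exp (-(31 / 100 * lam * u ^ 2))) (Ioi 0) := by
    simpa using gm_int 1 c1
  have i4 := (expt_int c2 (3 / 2)).1.const_mul (3 / 2 * Real.exp (-(18 / 25 * lam)))
  obtain ⟨h1, h2⟩ := two_piece (f := fun t => t * Real.exp (-(lam * gr (-t)))) (b := 3 / 2)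
    (by norm_num)
    (by
      have := continuous_gr
      fun_prop) i3 i4
    (fun t ht => by positivity) (fun t ht => by positivity)
    (fun t ht ht2 => by
      have h3 := gr_neg_near ht.le ht2
      apply mul_le_mul_of_nonneg_left _ ht.le
      apply Real.exp_le_exp.2
      nlinarith)
    (fun t ht => by
      have h3 := gr_neg_far ht.le
      have h4 := Real.add_one_le_exp (2 / 3 * (t - 3 / 2))
      have h5 : t ≤ 3 / 2 * Real.exp (2 / 3 * (t - 3 / 2)) := by linarith
      have h6 : Real.exp (-(lam * gr (-t))) ≤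
          Real.exp (-(lam * (18 / 25 + 77 / 100 * (t - 3 / 2)))) := by
        apply Real.exp_le_exp.2
        nlinarith
      calc t * Real.exp (-(lam * gr (-t))) ≤ 3 / 2 * Real.exp (2 / 3 * (t - 3 / 2)) *
          Real.exp (-(lam * (18 / 25 + 77 / 100 * (t - 3 / 2)))) :=
            mul_le_mul h5 h6 (Real.exp_pos _).le (by positivity)
        _ = _ := by
          rw [mul_assoc, mul_assoc, ← Real.exp_add, ← Real.exp_add]
          congr 2
          ring)
  refine ⟨h1, h2.trans ?_⟩
  rw [integral_const_mul, gm1 c1, (expt_int c2 (3 / 2)).2]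
  have h3 := sq_exp_le hl
  have h4 : lam * Real.exp (-(18 / 25 * lam)) ≤ 152 / 1000 := by
    have : 0 < Real.exp (-(18 / 25 * lam)) := Real.exp_pos _
    nlinarith [mul_pos hl0 this]
  have h5 : 3 / 2 * Real.exp (-(18 / 25 * lam)) * (1 / (77 / 100 * lam - 2 / 3)) ≤
      8 / 100 / lam := by
    rw [le_div_iff₀ (by positivity), mul_one_div, div_mul_eq_mul_div, div_le_iff₀ c2]
    nlinarith
  have e1 : 1 / (2 * (31 / 100 * lam)) = (1 / (62 / 100)) / lam := by
    field_simp
    norm_num
  rw [e1]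
  calc _ ≤ (1 / (62 / 100)) / lam + 8 / 100 / lam := by linarith
    _ = (1 / (62 / 100) + 8 / 100) / lam := by ring
    _ ≤ _ := by
      apply div_le_div_of_nonneg_right _ hl0.le
      norm_num

theorem hasDerivAt_egr (lam u : ℝ) :
    HasDerivAt (fun u => Real.exp (-(lam * gr u))) (-(lam * (Real.exp u - 1)) *
      Real.exp (-(lam * gr u))) u := by
  have := (((hasDerivAt_gr u).const_mul lam).neg).exp
  refine this.congr_deriv ?_
  simp only [Pi.neg_apply]
  ring

theorem hasDerivAt_egrn (lam t : ℝ) :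
    HasDerivAt (fun t => Real.exp (-(lam * gr (-t)))) (-(lam * (1 - Real.exp (-t))) *
      Real.exp (-(lam * gr (-t)))) t := by
  have := (hasDerivAt_egr lam (-t)).comp t (hasDerivAt_neg t)
  refine this.congr_deriv ?_
  ring

theorem T_plus {lam : ℝ} (hl : 24 / 5 ≤ lam) :
    IntegrableOn (fun u => gr u * Real.exp (-(lam * gr u))) (Ioi 0) ∧
      ∫ u in Ioi (0 : ℝ), gr u * Real.exp (-(lam * gr u)) ≤
        √(Real.pi / (lam / 2)) / 2 / (2 * lam) := by
  have hl0 : 0 < lam := by linarith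
  obtain ⟨i0, b0⟩ := E_plus hl
  -- the function `u (e^u - 1) e^{-λ gr u}`
  have hP : IntegrableOn (fun u : ℝ => u * (Real.exp u - 1) * Real.exp (-(lam * gr u))) (Ioi 0) := by
    have g1 := pos_int 1 (lam := lam / 2) (by linarith)
    have g2 := pos_int 2 (lam := lam / 2) (by linarith)
    have g3 : IntegrableOn (fun t : ℝ => t ^ 1 * Real.exp (-(lam / 2 * gr t)) +
        t ^ 2 * Real.exp (-(lam / 2 * gr t))) (Ioi 0) := g1.add g2
    refine (one_piece (f := fun u : ℝ => u * (Real.exp u - 1) * Real.exp (-(lam * gr u))) (by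
      have := continuous_gr
      fun_prop) g3 (fun t ht => ?_) (fun t ht => ?_)).1
    · have : 1 ≤ Real.exp t := Real.one_le_exp ht.le
      have h2 : 0 < Real.exp (-(lam * gr t)) := Real.exp_pos _
      have h3 : 0 ≤ t * (Real.exp t - 1) := mul_nonneg ht.le (by linarith)
      exact mul_nonneg h3 h2.le
    · have h1 : Real.exp t - 1 = gr t + t := by unfold gr; ring
      have h2 : Real.exp (-(lam * gr t)) = Real.exp (-(lam / 2 * gr t)) *
          Real.exp (-(lam / 2 * gr t)) := by
        rw [← Real.exp_add]; congr 1; ring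
      have h3 : gr t * Real.exp (-(lam / 2 * gr t)) ≤ 1 := by
        have h4 := Real.add_one_le_exp (lam / 2 * gr t)
        rw [Real.exp_neg, ← div_eq_mul_inv, div_le_one (Real.exp_pos _)]
        nlinarith [gr_nonneg t]
      have h4 : Real.exp (-(lam / 2 * gr t)) ≤ 1 := by
        apply Real.exp_le_one_iff.2
        have := gr_nonneg t
        nlinarith
      have h5 : 0 < Real.exp (-(lam / 2 * gr t)) := Real.exp_pos _
      rw [h1, h2]
      calc t * (gr t + t) * (Real.exp (-(lam / 2 * gr t)) * Real.exp (-(lam / 2 * gr t))) =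
          t * Real.exp (-(lam / 2 * gr t)) * (gr t * Real.exp (-(lam / 2 * gr t))) +
          t ^ 2 * Real.exp (-(lam / 2 * gr t)) * Real.exp (-(lam / 2 * gr t)) := by ring
        _ ≤ t * Real.exp (-(lam / 2 * gr t)) * 1 + t ^ 2 * Real.exp (-(lam / 2 * gr t)) * 1 := by
            have a1 := mul_le_mul_of_nonneg_left h3 (mul_nonneg ht.le h5.le)
            have a2 := mul_le_mul_of_nonneg_left h4 (mul_nonneg (sq_nonneg t) h5.le)
            linarith
        _ = _ := by ring
  have hd : ∀ u : ℝ, HasDerivAt (fun u => u * Real.exp (-(lam * gr u)))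
      (Real.exp (-(lam * gr u)) - lam * (u * (Real.exp u - 1) * Real.exp (-(lam * gr u)))) u := by
    intro u
    refine ((hasDerivAt_id u).mul (hasDerivAt_egr lam u)).congr_deriv ?_
    simp only [id]
    ring
  have hP2 := hP.const_mul lam
  have hDi : IntegrableOn (fun u : ℝ => Real.exp (-(lam * gr u)) -
      lam * (u * (Real.exp u - 1) * Real.exp (-(lam * gr u)))) (Ioi 0) := i0.sub hP2
  have hFi : IntegrableOn (fun u : ℝ => u * Real.exp (-(lam * gr u))) (Ioi 0) := by
    simpa using pos_int 1 hl0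
  have hT := tendsto_zero_of_hasDerivAt_of_integrableOn_Ioi (a := 0) (fun x _ => hd x) hDi hFi
  have hI := integral_Ioi_of_hasDerivAt_of_tendsto' (a := 0) (fun x _ => hd x) hDi hT
  have hS : ∫ u in Ioi (0 : ℝ), (Real.exp (-(lam * gr u)) -
      lam * (u * (Real.exp u - 1) * Real.exp (-(lam * gr u)))) =
      (∫ u in Ioi (0 : ℝ), Real.exp (-(lam * gr u))) -
      ∫ u in Ioi (0 : ℝ), lam * (u * (Real.exp u - 1) * Real.exp (-(lam * gr u))) :=
    integral_sub i0 hP2
  rw [hS, integral_const_mul] at hI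
  simp only [zero_mul, sub_zero] at hI
  obtain ⟨j1, j2⟩ := one_piece (f := fun u : ℝ => gr u * Real.exp (-(lam * gr u))) (by
      have := continuous_gr
      fun_prop) (hP.const_mul (1 / 2)) (fun t ht => mul_nonneg (gr_nonneg t) (Real.exp_pos _).le)
      (fun t ht => by
        have h1 : gr t ≤ 1 / 2 * (t * (Real.exp t - 1)) := by
          have h2 : 0 ≤ t * Real.exp t - 2 * Real.exp t + 2 + t :=
            nonneg_of_deriv (f := fun t => t * Real.exp t - 2 * Real.exp t + 2 + t)
              (f' := fun t => t * Real.exp t + 1 - Real.exp t)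
              (fun x => by
                have := ((((hasDerivAt_id x).mul (Real.hasDerivAt_exp x)).sub
                  ((Real.hasDerivAt_exp x).const_mul 2)).add_const 2).add (hasDerivAt_id x)
                refine this.congr_deriv ?_
                simp only [id]
                ring) (by norm_num) ep1 t ht.le
          unfold gr
          linarith
        calc gr t * Real.exp (-(lam * gr t)) ≤ 1 / 2 * (t * (Real.exp t - 1)) *
            Real.exp (-(lam * gr t)) := mul_le_mul_of_nonneg_right h1 (Real.exp_pos _).le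
          _ = _ := by ring)
  refine ⟨j1, j2.trans ?_⟩
  rw [integral_const_mul, le_div_iff₀ (by positivity)]
  linarith

theorem pade {t : ℝ} (ht : 0 ≤ t) : gr (-t) ≤ (t / 2 + t ^ 2 / 12) * (1 - Real.exp (-t)) := by
  have h3 : ∀ x, 0 ≤ x → 0 ≤ 1 / 6 - Real.exp (-x) * (1 / 6 + x / 6 + x ^ 2 / 12) := by
    intro x hx
    have h4 := Real.quadratic_le_exp_of_nonneg hx
    have h5 : Real.exp (-x) * Real.exp x = 1 := by rw [← Real.exp_add]; simp
    have h6 := mul_le_mul_of_nonneg_left h4 (Real.exp_pos (-x)).le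
    rw [h5] at h6
    nlinarith
  have h2 : ∀ x, 0 ≤ x → 0 ≤ -(1 / 2) + x / 6 + Real.exp (-x) * (1 / 2 + x / 3 + x ^ 2 / 12) := by
    intro x hx
    refine nonneg_of_deriv
      (f := fun x => -(1 / 2) + x / 6 + Real.exp (-x) * (1 / 2 + x / 3 + x ^ 2 / 12))
      (f' := fun x => 1 / 6 - Real.exp (-x) * (1 / 6 + x / 6 + x ^ 2 / 12)) (fun y => ?_)
      (by norm_num) h3 x hx
    have a1 : HasDerivAt (fun y : ℝ => 1 / 2 + y / 3 + y ^ 2 / 12) (1 / 3 + y / 6) y := by
      have := (((hasDerivAt_id y).div_const 3).const_add (1 / 2)).add (hasDerivAt_pw 1 12 y)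
      refine this.congr_deriv ?_
      norm_num
      ring
    have := (((hasDerivAt_id y).div_const 6).const_add (-(1 / 2))).add
      ((hasDerivAt_expneg y).mul a1)
    refine this.congr_deriv ?_
    ring
  have h1 : 0 ≤ (1 + t / 2 + t ^ 2 / 12) * (1 - Real.exp (-t)) - t := by
    refine nonneg_of_deriv
      (f := fun t => (1 + t / 2 + t ^ 2 / 12) * (1 - Real.exp (-t)) - t)
      (f' := fun x => -(1 / 2) + x / 6 + Real.exp (-x) * (1 / 2 + x / 3 + x ^ 2 / 12)) (fun y => ?_)
      (by norm_num) h2 t ht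
    have a1 : HasDerivAt (fun y : ℝ => 1 + y / 2 + y ^ 2 / 12) (1 / 2 + y / 6) y := by
      have := (((hasDerivAt_id y).div_const 2).const_add 1).add (hasDerivAt_pw 1 12 y)
      refine this.congr_deriv ?_
      norm_num
      ring
    have := (a1.mul ((hasDerivAt_expneg y).const_sub 1)).sub (hasDerivAt_id y)
    refine this.congr_deriv ?_
    ring
  unfold gr
  linarith

theorem T_minus {lam : ℝ} (hl : 24 / 5 ≤ lam) :
    IntegrableOn (fun t => gr (-t) * Real.exp (-(lam * gr (-t)))) (Ioi 0) ∧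
      ∫ t in Ioi (0 : ℝ), gr (-t) * Real.exp (-(lam * gr (-t))) ≤
        √(Real.pi / (lam / 2)) / 2 / (2 * lam) + 8 / 10 / lam ^ 2 := by
  have hl0 : 0 < lam := by linarith
  obtain ⟨i0, b0⟩ := E_minus0 hl
  obtain ⟨i1, b1⟩ := E_minus1 hl
  have i2 : IntegrableOn (fun t : ℝ => t * Real.exp (-(lam * gr (-t)))) (Ioi 0) := i1
  have i3 := neg_int 2 hl0
  have iF : IntegrableOn (fun t : ℝ => (t / 2 + t ^ 2 / 12) * Real.exp (-(lam * gr (-t)))) (Ioi 0) := by
    have := (i2.const_mul (1 / 2)).add (i3.const_mul (1 / 12))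
    refine IntegrableOn.congr_fun this (fun x _ => ?_) measurableSet_Ioi
    simp only [Pi.add_apply]
    ring
  have hP : IntegrableOn (fun t : ℝ => (t / 2 + t ^ 2 / 12) * (1 - Real.exp (-t)) *
      Real.exp (-(lam * gr (-t)))) (Ioi 0) := by
    refine (one_piece (f := fun t : ℝ => (t / 2 + t ^ 2 / 12) * (1 - Real.exp (-t)) *
      Real.exp (-(lam * gr (-t)))) (by
      have := continuous_gr
      fun_prop) iF (fun t ht => ?_) (fun t ht => ?_)).1
    · have h1 := en1 t ht.le
      have h2 : 0 < Real.exp (-(lam * gr (-t))) := Real.exp_pos _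
      have h3 : 0 ≤ t / 2 + t ^ 2 / 12 := by positivity
      exact mul_nonneg (mul_nonneg h3 h1) h2.le
    · have h2 : 0 < Real.exp (-(lam * gr (-t))) := Real.exp_pos _
      have h3 : 0 ≤ t / 2 + t ^ 2 / 12 := by positivity
      apply mul_le_mul_of_nonneg_right _ h2.le
      have := mul_le_mul_of_nonneg_left
        (show 1 - Real.exp (-t) ≤ 1 by linarith [Real.exp_pos (-t)]) h3
      linarith
  have iG : IntegrableOn (fun t : ℝ => (1 / 2 + t / 6) * Real.exp (-(lam * gr (-t)))) (Ioi 0) := by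
    have := (i0.const_mul (1 / 2)).add (i2.const_mul (1 / 6))
    refine IntegrableOn.congr_fun this (fun x _ => ?_) measurableSet_Ioi
    simp only [Pi.add_apply]
    ring
  have hd : ∀ t : ℝ, HasDerivAt (fun t => (t / 2 + t ^ 2 / 12) * Real.exp (-(lam * gr (-t))))
      ((1 / 2 + t / 6) * Real.exp (-(lam * gr (-t))) - lam * ((t / 2 + t ^ 2 / 12) *
        (1 - Real.exp (-t)) * Real.exp (-(lam * gr (-t))))) t := by
    intro t
    have a1 : HasDerivAt (fun y : ℝ => y / 2 + y ^ 2 / 12) (1 / 2 + t / 6) t := by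
      have := ((hasDerivAt_id t).div_const 2).add (hasDerivAt_pw 1 12 t)
      refine this.congr_deriv ?_
      norm_num
      ring
    refine (a1.mul (hasDerivAt_egrn lam t)).congr_deriv ?_
    ring
  have hP2 := hP.const_mul lam
  have hDi : IntegrableOn (fun t : ℝ => (1 / 2 + t / 6) * Real.exp (-(lam * gr (-t))) -
      lam * ((t / 2 + t ^ 2 / 12) * (1 - Real.exp (-t)) * Real.exp (-(lam * gr (-t))))) (Ioi 0) :=
    iG.sub hP2
  have hT := tendsto_zero_of_hasDerivAt_of_integrableOn_Ioi (a := 0) (fun x _ => hd x) hDi iF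
  have hI := integral_Ioi_of_hasDerivAt_of_tendsto' (a := 0) (fun x _ => hd x) hDi hT
  have hS : ∫ t in Ioi (0 : ℝ), ((1 / 2 + t / 6) * Real.exp (-(lam * gr (-t))) -
      lam * ((t / 2 + t ^ 2 / 12) * (1 - Real.exp (-t)) * Real.exp (-(lam * gr (-t))))) =
      (∫ t in Ioi (0 : ℝ), (1 / 2 + t / 6) * Real.exp (-(lam * gr (-t)))) -
      ∫ t in Ioi (0 : ℝ), lam * ((t / 2 + t ^ 2 / 12) * (1 - Real.exp (-t)) *
        Real.exp (-(lam * gr (-t)))) :=
    integral_sub iG hP2
  rw [hS, integral_const_mul] at hI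
  have hz : ((0 : ℝ) / 2 + 0 ^ 2 / 12) = 0 := by norm_num
  rw [hz, zero_mul, sub_zero] at hI
  have hG : ∫ t in Ioi (0 : ℝ), (1 / 2 + t / 6) * Real.exp (-(lam * gr (-t))) =
      1 / 2 * (∫ t in Ioi (0 : ℝ), Real.exp (-(lam * gr (-t)))) +
      1 / 6 * ∫ t in Ioi (0 : ℝ), t * Real.exp (-(lam * gr (-t))) := by
    rw [← integral_const_mul, ← integral_const_mul, ← integral_add (i0.const_mul (1 / 2))
      (i2.const_mul (1 / 6))]
    refine setIntegral_congr_fun measurableSet_Ioi (fun x _ => ?_)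
    ring
  obtain ⟨j1, j2⟩ := one_piece (f := fun t : ℝ => gr (-t) * Real.exp (-(lam * gr (-t)))) (by
      have := continuous_gr
      fun_prop) hP (fun t ht => mul_nonneg (gr_nonneg _) (Real.exp_pos _).le)
      (fun t ht => mul_le_mul_of_nonneg_right (pade ht.le) (Real.exp_pos _).le)
  refine ⟨j1, j2.trans ?_⟩
  have h1 : lam * (∫ t in Ioi (0 : ℝ), (t / 2 + t ^ 2 / 12) * (1 - Real.exp (-t)) *
        Real.exp (-(lam * gr (-t)))) ≤
      1 / 2 * (√(Real.pi / (lam / 2)) / 2 + 10242 / 10000 / lam) + 1 / 6 * (17 / 10 / lam) := by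
    linarith
  have e1 : √(Real.pi / (lam / 2)) / 2 / (2 * lam) + 8 / 10 / lam ^ 2 =
      (1 / 2 * (√(Real.pi / (lam / 2)) / 2) + 8 / 10 / lam) / lam := by
    field_simp
  rw [e1, le_div_iff₀ hl0]
  have h2 : 1 / 2 * (10242 / 10000 / lam) + 1 / 6 * (17 / 10 / lam) ≤ 8 / 10 / lam := by
    have : 1 / 2 * (10242 / 10000 / lam) + 1 / 6 * (17 / 10 / lam) =
      (1 / 2 * (10242 / 10000) + 1 / 6 * (17 / 10)) / lam := by ring
    rw [this]
    apply div_le_div_of_nonneg_right _ hl0.le
    norm_num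
  linarith

end SokalTI
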