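import Pool.Agent.Lib_MP_af4de1_ti.L4

/-!
# The left saddle integral: `‖JL - jL‖ ≤ relL ‖jL‖`, `‖JL1‖ ≤ bL ‖JL‖`
-/

set_option autoImplicit false

namespace SokalTI

open Complex MeasureTheory Set Filter Topology

theorem norm_expL {δ : ℝ} (hδ : 0 < δ) (h : ℂ) (u : ℝ) :
    ‖cexp (Ev δ h u)‖ = Real.exp (-(-h.im / δ * gr u)) := by
  rw [norm_exp_Ev hδ, ht_real]
  congr 1
  ring

theorem norm_exp2L {δ : ℝ} (hδ : 0 < δ) (h : ℂ) (u : ℝ) :
    ‖cexp (Ev2 δ h u)‖ = Real.exp (-(-h.im / δ * (u ^ 2 / 2))) := by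
  rw [norm_exp_Ev2 hδ]
  have e : ((1 - h) * ((u : ℂ) ^ 2 / 2)).im = -h.im * (u ^ 2 / 2) := by
    have e1 : (1 - h) * ((u : ℂ) ^ 2 / 2) = ((u ^ 2 / 2 : ℝ) : ℂ) * (1 - h) := by
      push_cast; ring
    rw [e1, Complex.im_ofReal_mul]
    simp
    ring
  rw [e]
  congr 1
  ring

theorem diff_le {δ : ℝ} (hδ : 0 < δ) (h : ℂ) (u : ℝ) :
    ‖cexp (Ev δ h u) - cexp (Ev2 δ h u)‖ ≤ ‖h‖ / δ * Dm (-h.im / δ) u := by
  have h1 := norm_exp_sub_exp_le (Ev δ h u) (Ev2 δ h u)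
    (M := max (Real.exp (-(-h.im / δ * gr u))) (Real.exp (-(-h.im / δ * (u ^ 2 / 2)))))
    (by rw [norm_expL hδ]; exact le_max_left _ _) (by rw [norm_exp2L hδ]; exact le_max_right _ _)
  refine h1.trans (le_of_eq ?_)
  rw [norm_Ev_sub_Ev2 hδ]
  have e : gg (u : ℂ) - (u : ℂ) ^ 2 / 2 = ((gr u - u ^ 2 / 2 : ℝ) : ℂ) := by
    rw [gg_real]; push_cast; ring
  rw [e, Complex.norm_real, Real.norm_eq_abs]
  unfold Dm
  ring

theorem Dm_line {lam : ℝ} (hl : 24 / 5 ≤ lam) :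
    Integrable (Dm lam) ∧ ∫ u, Dm lam u ≤ 14745 / 10000 / lam ^ 2 := by
  obtain ⟨a1, a2⟩ := K_plus hl
  obtain ⟨b1, b2⟩ := K_minus hl
  obtain ⟨c1, c2⟩ := split_line a1 b1
  refine ⟨c1, ?_⟩
  rw [c2]
  have : (14745 / 10000 : ℝ) / lam ^ 2 = 4503 / 10000 / lam ^ 2 + 10242 / 10000 / lam ^ 2 := by ring
  rw [this]
  exact add_le_add a2 b2

theorem gauss_L {δ : ℝ} (hδ : 0 < δ) {h : ℂ} (hs : h.im < 0) :
    Integrable (fun u : ℝ => cexp (Ev2 δ h u)) ∧ ∫ u : ℝ, cexp (Ev2 δ h u) = jL δ h := by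
  set b : ℂ := -(I * (1 - h)) / (2 * δ) with hb
  have hre : 0 < b.re := by
    have e1 : b = ((1 / (2 * δ) : ℝ) : ℂ) * (-(I * (1 - h))) := by
      rw [hb]; push_cast; ring
    rw [e1, Complex.re_ofReal_mul]
    have e2 : (-(I * (1 - h))).re = -h.im := by
      simp [Complex.mul_re]
    rw [e2]
    have : 0 < 1 / (2 * δ) := by positivity
    exact mul_pos this (by linarith)
  have hd : (δ : ℂ) ≠ 0 := by exact_mod_cast hδ.ne'
  have e : (fun u : ℝ => cexp (Ev2 δ h u)) = fun u : ℝ => cexp (-b * (u : ℂ) ^ 2) := by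
    ext u
    congr 1
    rw [hb]
    unfold Ev2
    field_simp
  rw [e]
  refine ⟨integrable_cexp_neg_mul_sq hre, ?_⟩
  rw [integral_gaussian_complex hre]
  unfold jL
  congr 1
  rw [hb]
  have : -(I * (1 - h)) ≠ 0 := by
    intro h0
    rw [hb, h0] at hre
    simp at hre
  field_simp

theorem norm_half_pow (z : ℂ) (hz : z ≠ 0) : ‖z ^ (1 / 2 : ℂ)‖ = √‖z‖ := by
  rw [Complex.norm_cpow_of_ne_zero hz, Real.sqrt_eq_rpow]
  simp

theorem one_sub_ne {h : ℂ} (hs : h.im ≠ 0) : 1 - h ≠ 0 := by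
  intro h0
  apply hs
  have : h = 1 := by linear_combination -h0
  rw [this]; simp

theorem norm_jL_aux {δ : ℝ} (hδ : 0 < δ) {h : ℂ} (hs : h.im < 0) :
    ‖jL δ h‖ = √(2 * Real.pi * δ / ‖1 - h‖) := by
  have h1 := one_sub_ne hs.ne
  unfold jL
  have h2 : (2 * Real.pi * δ / (-(I * (1 - h))) : ℂ) ≠ 0 := by
    apply div_ne_zero
    · have : (0 : ℝ) < 2 * Real.pi * δ := by positivity
      exact_mod_cast this.ne'
    · exact neg_ne_zero.2 (mul_ne_zero I_ne_zero h1)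
  have : (0 : ℝ) < 2 * Real.pi * δ := by positivity
  rw [norm_half_pow _ h2, norm_div, norm_neg, norm_mul I, Complex.norm_I, one_mul,
    show (2 * Real.pi * δ : ℂ) = ((2 * Real.pi * δ : ℝ) : ℂ) by push_cast; ring, Complex.norm_real,
    Real.norm_eq_abs, abs_of_pos this]

theorem JL_int {δ : ℝ} (hδ : 0 < δ) {h : ℂ} (hs : h.im < 0) (hl : 24 / 5 ≤ -h.im / δ) :
    Integrable (fun u : ℝ => cexp (Ev δ h u)) := by
  obtain ⟨a1, _⟩ := gauss_L hδ hs
  have b1 := (Dm_line hl).1.const_mul (‖h‖ / δ)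
  have c1 : Integrable (fun u : ℝ => cexp (Ev δ h u) - cexp (Ev2 δ h u)) := by
    refine Integrable.mono' b1 ?_ (Eventually.of_forall fun u => diff_le hδ h u)
    have e1 := continuous_Ev δ h
    have e2 := continuous_Ev2 δ h
    exact Continuous.aestronglyMeasurable (by fun_prop)
  have := c1.add a1
  refine this.congr (Eventually.of_forall fun u => ?_)
  simp

/-- the left saddle, first part -/
theorem JL_bound {δ : ℝ} (hδ : 0 < δ) {h : ℂ} (hs : h.im < 0) (hl : 24 / 5 ≤ -h.im / δ) :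
    ‖JL δ h - jL δ h‖ ≤ relL h δ * ‖jL δ h‖ := by
  obtain ⟨a1, a2⟩ := gauss_L hδ hs
  have a3 := JL_int hδ hs hl
  obtain ⟨b1, b2⟩ := Dm_line hl
  have h1 : JL δ h - jL δ h = ∫ u : ℝ, (cexp (Ev δ h u) - cexp (Ev2 δ h u)) := by
    rw [integral_sub a3 a1, a2]
    unfold JL JLw
    simp only [one_mul]
  have h2 : ‖JL δ h - jL δ h‖ ≤ ‖h‖ / δ * (14745 / 10000 / (-h.im / δ) ^ 2) := by
    rw [h1]
    calc ‖∫ u : ℝ, (cexp (Ev δ h u) - cexp (Ev2 δ h u))‖ ≤ ∫ u : ℝ, ‖h‖ / δ * Dm (-h.im / δ) u :=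
          norm_integral_le_of_norm_le (b1.const_mul _) (Eventually.of_forall fun u => diff_le hδ h u)
      _ = ‖h‖ / δ * ∫ u : ℝ, Dm (-h.im / δ) u := integral_const_mul _ _
      _ ≤ _ := mul_le_mul_of_nonneg_left b2 (by positivity)
  refine h2.trans ?_
  rw [norm_jL_aux hδ hs]
  have hm : 0 < ‖1 - h‖ := norm_pos_iff.2 (one_sub_ne hs.ne)
  have e1 : √(‖1 - h‖ * δ) * √(2 * Real.pi * δ / ‖1 - h‖) = √(2 * Real.pi) * δ := by
    rw [← Real.sqrt_mul (by positivity)]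
    rw [show ‖1 - h‖ * δ * (2 * Real.pi * δ / ‖1 - h‖) = 2 * Real.pi * δ ^ 2 by field_simp]
    rw [Real.sqrt_mul (by positivity), Real.sqrt_sq hδ.le]
  have e2 : relL h δ * √(2 * Real.pi * δ / ‖1 - h‖) =
      599 / 1000 * √(2 * Real.pi) * (‖h‖ * δ / h.im ^ 2) := by
    unfold relL
    calc _ = 599 / 1000 * ‖h‖ * (√(‖1 - h‖ * δ) * √(2 * Real.pi * δ / ‖1 - h‖)) / h.im ^ 2 := by ring
      _ = _ := by rw [e1]; ring
  rw [e2]
  have hs2 : 0 < h.im ^ 2 := by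
    have := hs.ne
    positivity
  have e3 : ‖h‖ / δ * (14745 / 10000 / (-h.im / δ) ^ 2) = 14745 / 10000 * (‖h‖ * δ / h.im ^ 2) := by
    field_simp
  rw [e3]
  apply mul_le_mul_of_nonneg_right _ (by positivity)
  have h5 : (2506 / 1000 : ℝ) ≤ √(2 * Real.pi) := by
    apply Real.le_sqrt_of_sq_le
    have := Real.pi_gt_d4
    norm_num at this ⊢
    linarith
  linarith

theorem T_line {lam : ℝ} (hl : 24 / 5 ≤ lam) :
    Integrable (fun u => gr u * Real.exp (-(lam * gr u))) ∧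
      ∫ u, gr u * Real.exp (-(lam * gr u)) ≤
        √(Real.pi / (lam / 2)) / 2 / lam + 8 / 10 / lam ^ 2 := by
  have hl0 : 0 < lam := by linarith
  obtain ⟨a1, a2⟩ := T_plus hl
  obtain ⟨b1, b2⟩ := T_minus hl
  obtain ⟨c1, c2⟩ := split_line a1 b1
  refine ⟨c1, ?_⟩
  rw [c2]
  have : √(Real.pi / (lam / 2)) / 2 / lam = √(Real.pi / (lam / 2)) / 2 / (2 * lam) +
      √(Real.pi / (lam / 2)) / 2 / (2 * lam) := by
    field_simp
    ring
  rw [this]
  linarith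

theorem uexp_int {δ : ℝ} (hδ : 0 < δ) {h : ℂ} (hs : h.im < 0) :
    Integrable (fun u : ℝ => (u : ℂ) * cexp (Ev δ h u)) := by
  have hl : 0 < -h.im / δ := div_pos (by linarith) hδ
  have hc := continuous_Ev δ h
  have hcr := continuous_gr
  have h1 : Integrable (fun u : ℝ => |u| * Real.exp (-(-h.im / δ * gr u))) := by
    refine (split_line (f := fun u : ℝ => |u| * Real.exp (-(-h.im / δ * gr u))) ?_ ?_).1
    · refine (pos_int 1 hl).congr_fun (fun x hx => ?_) measurableSet_Ioi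
      simp only [pow_one]
      rw [abs_of_pos hx]
    · refine (neg_int 1 hl).congr_fun (fun x hx => ?_) measurableSet_Ioi
      simp only [pow_one]
      rw [abs_neg, abs_of_pos hx]
  refine Integrable.mono' h1 (Continuous.aestronglyMeasurable (by fun_prop))
    (Eventually.of_forall fun u => ?_)
  rw [norm_mul, norm_expL hδ, Complex.norm_real, Real.norm_eq_abs]

theorem gexp_int {δ : ℝ} (hδ : 0 < δ) {h : ℂ} (hl : 24 / 5 ≤ -h.im / δ) :
    Integrable (fun u : ℝ => gg (u : ℂ) * cexp (Ev δ h u)) := by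
  have hc := continuous_Ev δ h
  have hcr := continuous_gg
  refine Integrable.mono' (T_line hl).1 (Continuous.aestronglyMeasurable (by fun_prop))
    (Eventually.of_forall fun u => ?_)
  rw [norm_mul, norm_expL hδ, gg_real, Complex.norm_real, Real.norm_eq_abs,
    abs_of_nonneg (gr_nonneg u)]

theorem partsL {δ : ℝ} (hδ : 0 < δ) {h : ℂ} (hs : h.im < 0) (hl : 24 / 5 ≤ -h.im / δ) :
    (1 - h) * JL1 δ h = h * ∫ u : ℝ, gg (u : ℂ) * cexp (Ev δ h u) := by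
  have i1 := uexp_int hδ hs
  have i2 := gexp_int hδ hl
  have hd : ∀ u : ℝ, HasDerivAt (fun u : ℝ => cexp (Ev δ h u))
      (I / δ * ((1 - h) * ((u : ℂ) * cexp (Ev δ h u)) - h * (gg (u : ℂ) * cexp (Ev δ h u)))) u := by
    intro u
    have h1 := ((hasDerivAt_Ev δ h (u : ℂ)).comp_ofReal).cexp
    refine h1.congr_deriv ?_
    ring
  have h2 : Integrable (fun u : ℝ => I / δ * ((1 - h) * ((u : ℂ) * cexp (Ev δ h u)) -
      h * (gg (u : ℂ) * cexp (Ev δ h u)))) :=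
    ((i1.const_mul (1 - h)).sub (i2.const_mul h)).const_mul _
  have h3 := integral_eq_zero_of_hasDerivAt_of_integrable hd h2 (JL_int hδ hs hl)
  rw [integral_const_mul] at h3
  have h4 : (I / δ : ℂ) ≠ 0 := div_ne_zero I_ne_zero (by exact_mod_cast hδ.ne')
  have h5 := (mul_eq_zero.1 h3).resolve_left h4
  rw [integral_sub (i1.const_mul (1 - h)) (i2.const_mul h), integral_const_mul, integral_const_mul] at h5
  unfold JL1 JLw
  simp only [id]
  linear_combination h5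

/-- the left saddle, second part -/
theorem JL1_bound {δ : ℝ} (hδ : 0 < δ) {h : ℂ} (hs : h.im < 0) (hl : 24 / 5 ≤ -h.im / δ)
    (hr : relL h δ < 1) : ‖JL1 δ h‖ ≤ bL h δ * ‖JL δ h‖ := by
  have hm : 0 < ‖1 - h‖ := norm_pos_iff.2 (one_sub_ne hs.ne)
  set s : ℝ := -h.im with hsdef
  have hs0 : 0 < s := by rw [hsdef]; linarith
  obtain ⟨b1, b2⟩ := T_line hl
  have h1 : ‖∫ u : ℝ, gg (u : ℂ) * cexp (Ev δ h u)‖ ≤
      √(Real.pi / (s / δ / 2)) / 2 / (s / δ) + 8 / 10 / (s / δ) ^ 2 := by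
    refine (norm_integral_le_of_norm_le b1 (Eventually.of_forall fun u => ?_)).trans b2
    rw [norm_mul, norm_expL hδ, gg_real, Complex.norm_real, Real.norm_eq_abs,
      abs_of_nonneg (gr_nonneg u)]
  have h2 : ‖1 - h‖ * ‖JL1 δ h‖ ≤
      ‖h‖ * (√(Real.pi / (s / δ / 2)) / 2 / (s / δ) + 8 / 10 / (s / δ) ^ 2) := by
    rw [← norm_mul, partsL hδ hs hl, norm_mul]
    exact mul_le_mul_of_nonneg_left h1 (norm_nonneg _)
  have h3 : (1 - relL h δ) * ‖jL δ h‖ ≤ ‖JL δ h‖ := by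
    have h4 := JL_bound hδ hs hl
    have h5 := norm_sub_norm_le (jL δ h) (JL δ h)
    rw [norm_sub_rev] at h5
    linarith
  have hr0 : 0 < 1 - relL h δ := by linarith
  set B : ℝ := ‖h‖ / √‖1 - h‖ * (δ / (2 * (s * √s)) + 399 / 1000 * (δ * √δ) / h.im ^ 2) with hB
  have hB0 : 0 ≤ B := by positivity
  have hbL : bL h δ = B / (1 - relL h δ) := rfl
  have h6 : B * ‖jL δ h‖ ≤ bL h δ * ‖JL δ h‖ := by
    rw [hbL, div_mul_eq_mul_div, le_div_iff₀ hr0]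
    have := mul_le_mul_of_nonneg_left h3 hB0
    linarith
  refine le_trans ?_ h6
  rw [norm_jL_aux hδ hs]
  -- `B √(2πδ/m) m = ‖h‖ (…) √(2πδ)`
  have hsm : 0 < √‖1 - h‖ := Real.sqrt_pos.2 hm
  have hss : 0 < √s := Real.sqrt_pos.2 hs0
  have hsd : 0 < √δ := Real.sqrt_pos.2 hδ
  have q1 : √‖1 - h‖ ^ 2 = ‖1 - h‖ := Real.sq_sqrt hm.le
  have q2 : √s ^ 2 = s := Real.sq_sqrt hs0.le
  have q3 : √δ ^ 2 = δ := Real.sq_sqrt hδ.le
  have e1 : √(2 * Real.pi * δ / ‖1 - h‖) = √(2 * Real.pi) * √δ / √‖1 - h‖ := by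
    rw [Real.sqrt_div (by positivity), Real.sqrt_mul (by positivity)]
  have e2 : √(Real.pi / (s / δ / 2)) = √(2 * Real.pi) * √δ / √s := by
    rw [show Real.pi / (s / δ / 2) = 2 * Real.pi * δ / s by field_simp,
      Real.sqrt_div (by positivity), Real.sqrt_mul (by positivity)]
  rw [e1]
  rw [e2] at h2
  have h7 : (2506 / 1000 : ℝ) ≤ √(2 * Real.pi) := by
    apply Real.le_sqrt_of_sq_le
    have := Real.pi_gt_d4
    norm_num at this ⊢
    linarith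
  have him : h.im ^ 2 = s ^ 2 := by rw [hsdef]; ring
  have e3 : B * (√(2 * Real.pi) * √δ / √‖1 - h‖) =
      ‖h‖ / ‖1 - h‖ * (√(2 * Real.pi) * √δ * δ / (2 * (s * √s)) +
        399 / 1000 * √(2 * Real.pi) * (δ ^ 2 / s ^ 2)) := by
    rw [hB, him]
    have : ‖h‖ / √‖1 - h‖ * (δ / (2 * (s * √s)) + 399 / 1000 * (δ * √δ) / s ^ 2) *
        (√(2 * Real.pi) * √δ / √‖1 - h‖) =
        ‖h‖ / √‖1 - h‖ ^ 2 * (√(2 * Real.pi) * √δ * δ / (2 * (s * √s)) +
        399 / 1000 * √(2 * Real.pi) * (δ * √δ ^ 2 / s ^ 2)) := by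
      field_simp
    rw [this, q1, q3]
    ring
  rw [e3, div_mul_eq_mul_div, le_div_iff₀ hm, mul_comm]
  refine h2.trans (mul_le_mul_of_nonneg_left ?_ (norm_nonneg _))
  have e4 : √(2 * Real.pi) * √δ / √s / 2 / (s / δ) = √(2 * Real.pi) * √δ * δ / (2 * (s * √s)) := by
    field_simp
  have e5 : 8 / 10 / (s / δ) ^ 2 = 8 / 10 * (δ ^ 2 / s ^ 2) := by
    field_simp
  rw [e4, e5]
  have h8 : 8 / 10 * (δ ^ 2 / s ^ 2) ≤ 399 / 1000 * √(2 * Real.pi) * (δ ^ 2 / s ^ 2) := by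
    apply mul_le_mul_of_nonneg_right _ (by positivity)
    linarith
  linarith

end SokalTI
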