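import Pool.Agent.Lib_MP_af4de1_ti.Defs
import Pool.Agent.Lib_MP_af4de1_fu.TipDer

/-!
# The tip: the two waves

`RepData`: what is needed from the representation `F = L + R` (helper18's MRep): the saddle integrals at
`g = h - iψ`, `h e^{-h} = ρ e^{-iψ}`, are `kk(g) JL`, `kk(g) JR`.
-/

set_option autoImplicit false

namespace SokalTI

open Complex SokalFU SokalF

/-- the value of the integrand at the saddle point `g = h - iψ`: `exp((i/δ)(h²/2 - h + ψ²/2))` -/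
noncomputable def kS (δ ψ : ℝ) (h : ℂ) : ℂ := cexp (I / δ * (h ^ 2 / 2 - h + ψ ^ 2 / 2))

/-- the representation -/
structure RepData (L R L1 R1 : ℝ → ℝ → ℝ → ℂ) : Prop where
  rep : ∀ δ ρ : ℝ, 0 < δ → 0 < ρ → ∃ c : ℂ, c ≠ 0 ∧ ∀ ψ : ℝ,
    c * cexp (I * (ψ : ℂ) ^ 2 / (2 * δ)) * F (qa δ) (zmap δ (ρ * cexp (-(I * ψ)))) = L δ ρ ψ + R δ ρ ψ
  dL : ∀ δ ρ ψ : ℝ, 0 < δ → 0 < ρ → HasDerivAt (L δ ρ) (-(L1 δ ρ ψ) / δ) ψ
  dR : ∀ δ ρ ψ : ℝ, 0 < δ → 0 < ρ → HasDerivAt (R δ ρ) (-(R1 δ ρ ψ) / δ) ψ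
  /-- the left saddle: `-π < Im g < 0`, `Im h < 0` -/
  linkL : ∀ (δ ρ ψ : ℝ) (h : ℂ), 0 < δ → 0 < ρ → h * cexp (-h) = ρ * cexp (-(I * ψ)) → h.im < 0 →
    -Real.pi < h.im - ψ → h.im - ψ < 0 →
    L δ ρ ψ = kS δ ψ h * JL δ h ∧
    L1 δ ρ ψ = kS δ ψ h * ((h - I * ψ) * JL δ h + JL1 δ h)
  /-- the right saddle: `Im g = arg h > 0` -/
  linkR : ∀ (δ ρ ψ : ℝ) (h : ℂ), 0 < δ → 0 < ρ → h * cexp (-h) = ρ * cexp (-(I * ψ)) → 0 < h.im →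
    0 < h.re → h.im - ψ = h.arg →
    R δ ρ ψ = kS δ ψ h * JR δ h ∧
    R1 δ ρ ψ = kS δ ψ h * ((h - I * ψ) * JR δ h + JR1 δ h)

variable {L R L1 R1 : ℝ → ℝ → ℝ → ℂ}

/-- the real function whose zeros contain the zeros of `F` -/
noncomputable def Gf (L R : ℝ → ℝ → ℝ → ℂ) (δ ρ ψ : ℝ) : ℝ := Real.log ‖L δ ρ ψ‖ - Real.log ‖R δ ρ ψ‖

theorem hasDerivAt_log_norm {f : ℝ → ℂ} {f' : ℂ} {t : ℝ} (hf : HasDerivAt f f' t) (h0 : f t ≠ 0) :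
    HasDerivAt (fun s => Real.log ‖f s‖) (f' / f t).re t := by
  have h1 := hf.norm_sq
  have hn : 0 < ‖f t‖ := norm_pos_iff.mpr h0
  have h2 := (h1.log (by positivity)).div_const 2
  have h3 : (fun s => Real.log (‖f s‖ ^ 2) / 2) = fun s => Real.log ‖f s‖ := by
    funext s
    rw [Real.log_pow]
    push_cast
    ring
  rw [h3] at h2
  have h4 : 2 * inner ℝ (f t) f' / ‖f t‖ ^ 2 / 2 = (f' / f t).re := by
    have h5 : f' / f t = (((‖f t‖ ^ 2)⁻¹ : ℝ) : ℂ) * ((starRingEnd ℂ) (f t) * f') := by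
      rw [div_eq_mul_inv, Complex.inv_def, Complex.normSq_eq_norm_sq]
      push_cast
      ring
    rw [h5, Complex.re_ofReal_mul, Complex.inner]
    have h6 : (((starRingEnd ℂ) (f t) * f').re) = ((f' * (starRingEnd ℂ) (f t)).re) := by
      rw [mul_comm]
    first
      | (field_simp)
      | (rw [h6]; field_simp)
  rw [h4] at h2
  exact h2

theorem hasDerivAt_Gf (hD : RepData L R L1 R1) {δ ρ ψ : ℝ} (hδ : 0 < δ) (hρ : 0 < ρ)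
    (hL0 : L δ ρ ψ ≠ 0) (hR0 : R δ ρ ψ ≠ 0) :
    HasDerivAt (Gf L R δ ρ) (((R1 δ ρ ψ / R δ ρ ψ).re - (L1 δ ρ ψ / L δ ρ ψ).re) / δ) ψ := by
  have h1 := hasDerivAt_log_norm (hD.dL δ ρ ψ hδ hρ) hL0
  have h2 := hasDerivAt_log_norm (hD.dR δ ρ ψ hδ hρ) hR0
  have h3 := h1.sub h2
  have h4 : (-(L1 δ ρ ψ) / δ / L δ ρ ψ).re - (-(R1 δ ρ ψ) / δ / R δ ρ ψ).re =
      ((R1 δ ρ ψ / R δ ρ ψ).re - (L1 δ ρ ψ / L δ ρ ψ).re) / δ := by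
    have e1 : -(L1 δ ρ ψ) / δ / L δ ρ ψ = ((-δ⁻¹ : ℝ) : ℂ) * (L1 δ ρ ψ / L δ ρ ψ) := by
      push_cast; ring
    have e2 : -(R1 δ ρ ψ) / δ / R δ ρ ψ = ((-δ⁻¹ : ℝ) : ℂ) * (R1 δ ρ ψ / R δ ρ ψ) := by
      push_cast; ring
    rw [e1, e2, Complex.re_ofReal_mul, Complex.re_ofReal_mul]
    ring
  rw [h4] at h3
  exact h3

theorem kS_ne_zero (δ ψ : ℝ) (h : ℂ) : kS δ ψ h ≠ 0 := Complex.exp_ne_zero _

/-- a zero of `F` gives `L = -R` -/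
theorem zero_iff (hD : RepData L R L1 R1) {δ ρ ψ : ℝ} (hδ : 0 < δ) (hρ : 0 < ρ) :
    F (qa δ) (zmap δ (ρ * cexp (-(I * ψ)))) = 0 ↔ L δ ρ ψ + R δ ρ ψ = 0 := by
  obtain ⟨c, hc, h⟩ := hD.rep δ ρ hδ hρ
  rw [← h ψ]
  constructor
  · intro h0; rw [h0, mul_zero]
  · intro h0
    rcases mul_eq_zero.mp h0 with h1 | h1
    · exact (mul_ne_zero hc (Complex.exp_ne_zero _) h1).elim
    · exact h1

/-- simplicity from the derivative -/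
theorem simple_of (hD : RepData L R L1 R1) {δ ρ ψ : ℝ} (hδ : 0 < δ) (hρ : 0 < ρ)
    (hL0 : L δ ρ ψ ≠ 0) (h0 : L δ ρ ψ + R δ ρ ψ = 0)
    (hne : (R1 δ ρ ψ / R δ ρ ψ).re - (L1 δ ρ ψ / L δ ρ ψ).re ≠ 0) :
    deriv (F (qa δ)) (zmap δ (ρ * cexp (-(I * ψ)))) ≠ 0 := by
  intro hd
  obtain ⟨c, hc, h⟩ := hD.rep δ ρ hδ hρ
  have hq : ‖qa δ‖ ≤ 1 := (norm_qa δ).le
  set z0 := zmap δ (ρ * cexp (-(I * ψ))) with hz0
  have hF0 : F (qa δ) z0 = 0 := (zero_iff hD hδ hρ).mpr h0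
  have h1 : HasDerivAt (F (qa δ)) 0 z0 := by
    have := (hasDerivAt_F hq z0).differentiableAt.hasDerivAt
    rwa [hd] at this
  -- the curve
  have h2 : HasDerivAt (fun s : ℝ => zmap δ (ρ * cexp (-(I * s))))
      (ρ * (cexp (-(I * ψ)) * (-(I * 1))) * cexp (I * δ / 2) / (I * δ)) ψ := by
    unfold zmap
    have e1 : HasDerivAt (fun s : ℝ => -(I * (s : ℂ))) (-(I * 1)) ψ := by
      have : HasDerivAt (fun s : ℝ => (s : ℂ)) 1 ψ := Complex.ofRealCLM.hasDerivAt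
      exact (this.const_mul I).neg
    exact (((e1.cexp).const_mul (ρ : ℂ)).mul_const _).div_const _
  have h3 : HasDerivAt (fun s : ℝ => F (qa δ) (zmap δ (ρ * cexp (-(I * s))))) 0 ψ := by
    have := h1.comp_of_eq ψ h2 rfl
    rw [zero_mul] at this
    exact this
  have h4 : HasDerivAt (fun s : ℝ => c * cexp (I * (s : ℂ) ^ 2 / (2 * δ))) 
      (c * (cexp (I * (ψ : ℂ) ^ 2 / (2 * δ)) * (I * (2 * (ψ : ℂ)) / (2 * δ)))) ψ := by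
    have e0 : HasDerivAt (fun s : ℝ => (s : ℂ)) 1 ψ := Complex.ofRealCLM.hasDerivAt
    have e1 : HasDerivAt (fun s : ℝ => (s : ℂ) ^ 2) (2 * (ψ : ℂ)) ψ := by
      have := e0.fun_pow 2
      norm_num at this
      exact this
    exact (((e1.const_mul I).div_const (2 * (δ : ℂ))).cexp).const_mul c
  have h5 := h4.mul h3
  have h6 : HasDerivAt (fun s : ℝ => L δ ρ s + R δ ρ s) 0 ψ := by
    have e1 : (fun s : ℝ => c * cexp (I * (s : ℂ) ^ 2 / (2 * δ))) *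
        (fun s : ℝ => F (qa δ) (zmap δ (ρ * cexp (-(I * s))))) = fun s : ℝ => L δ ρ s + R δ ρ s := by
      funext s
      exact h s
    rw [e1] at h5
    rw [← hz0, hF0, mul_zero, mul_zero, add_zero] at h5
    exact h5
  have h7 := (hD.dL δ ρ ψ hδ hρ).add (hD.dR δ ρ ψ hδ hρ)
  have h8 := h6.unique h7
  have hR0 : R δ ρ ψ ≠ 0 := by
    intro h9
    rw [h9, add_zero] at h0
    exact hL0 h0
  have hδC : (δ : ℂ) ≠ 0 := by exact_mod_cast hδ.ne'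
  have h9 : R1 δ ρ ψ = -L1 δ ρ ψ := by
    have : -(L1 δ ρ ψ) / δ + -(R1 δ ρ ψ) / δ = 0 := h8.symm
    field_simp at this
    linear_combination -this
  have h10 : R δ ρ ψ = -L δ ρ ψ := by linear_combination h0
  apply hne
  rw [h9, h10, neg_div_neg_eq, sub_self]

/-- the lower bound of the derivative from the moments -/
theorem deriv_pos {δ ρ ψ bL bR : ℝ} {hl hr : ℂ}
    (eL : L δ ρ ψ = kS δ ψ hl * JL δ hl) (eL1 : L1 δ ρ ψ = kS δ ψ hl * ((hl - I * ψ) * JL δ hl + JL1 δ hl))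
    (eR : R δ ρ ψ = kS δ ψ hr * JR δ hr) (eR1 : R1 δ ρ ψ = kS δ ψ hr * ((hr - I * ψ) * JR δ hr + JR1 δ hr))
    (jL0 : JL δ hl ≠ 0) (jR0 : JR δ hr ≠ 0)
    (hbL : ‖JL1 δ hl‖ ≤ bL * ‖JL δ hl‖) (hbR : ‖JR1 δ hr‖ ≤ bR * ‖JR δ hr‖)
    (hlt : bL + bR < (hr - hl).re) :
    0 < (R1 δ ρ ψ / R δ ρ ψ).re - (L1 δ ρ ψ / L δ ρ ψ).re := by
  have kL := kS_ne_zero δ ψ hl
  have kR := kS_ne_zero δ ψ hr
  have q1 : L1 δ ρ ψ / L δ ρ ψ = hl - I * ψ + JL1 δ hl / JL δ hl := by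
    rw [eL, eL1]; field_simp
  have q2 : R1 δ ρ ψ / R δ ρ ψ = hr - I * ψ + JR1 δ hr / JR δ hr := by
    rw [eR, eR1]; field_simp
  rw [q1, q2]
  have n1 : ‖JL1 δ hl / JL δ hl‖ ≤ bL := by
    rw [norm_div, div_le_iff₀ (norm_pos_iff.mpr jL0)]; exact hbL
  have n2 : ‖JR1 δ hr / JR δ hr‖ ≤ bR := by
    rw [norm_div, div_le_iff₀ (norm_pos_iff.mpr jR0)]; exact hbR
  have m1 := (Complex.abs_re_le_norm (JL1 δ hl / JL δ hl)).trans n1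
  have m2 := (Complex.abs_re_le_norm (JR1 δ hr / JR δ hr)).trans n2
  have m1' := abs_le.mp m1
  have m2' := abs_le.mp m2
  rw [Complex.sub_re] at hlt
  simp only [Complex.add_re, Complex.sub_re]
  linarith [m1'.1, m1'.2, m2'.1, m2'.2]

end SokalTI
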