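import Pool.Agent.Lib_MP_af4de1_ti.CertX

/-!
# The tip: the closed forms are monotone

Upper bounds of `relL, bL, relR, bR` from bounds of `|h|, |1-h|, |Im h|, qp h, xl h, δ`, the square roots through
witnesses; the conditions `PtCond`, `CondI` from inequalities between the bounds.
-/

set_option autoImplicit false

namespace SokalTI

open Complex SokalFU

theorem sqrt_le_of {x q : ℝ} (hq : 0 ≤ q) (h : x ≤ q ^ 2) : √x ≤ q := by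
  rw [show q = √(q ^ 2) from (Real.sqrt_sq hq).symm]
  exact Real.sqrt_le_sqrt h

theorem le_sqrt_of {x q : ℝ} (hq : 0 ≤ q) (h : q ^ 2 ≤ x) : q ≤ √x := by
  rw [show q = √(q ^ 2) from (Real.sqrt_sq hq).symm]
  exact Real.sqrt_le_sqrt h

/-! ### left -/

/-- upper bound of `relL` -/
noncomputable def rlU (H q s : ℝ) : ℝ := 599 / 1000 * H * q / s ^ 2

/-- upper bound of `bL` -/
noncomputable def blU (H qm d s qs qd rl : ℝ) : ℝ :=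
  H / qm * (d / (2 * (s * qs)) + 399 / 1000 * (d * qd) / s ^ 2) / (1 - rl)

section left
variable {h : ℂ} {δ d H m m₀ s q qm qs qd rl : ℝ}

theorem relL_nonneg (h : ℂ) (δ : ℝ) : 0 ≤ relL h δ := by
  unfold relL; positivity

theorem relL_le (hδ : 0 ≤ δ) (hd : δ ≤ d) (hH : ‖h‖ ≤ H) (hm : ‖1 - h‖ ≤ m) (hs0 : 0 < s) (hs : s ≤ -h.im)
    (hq0 : 0 ≤ q) (hq : m * d ≤ q ^ 2) : relL h δ ≤ rlU H q s := by
  unfold relL rlU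
  have hH0 : 0 ≤ H := (norm_nonneg _).trans hH
  have hm0 : 0 ≤ m := (norm_nonneg _).trans hm
  have h1 : √(‖1 - h‖ * δ) ≤ q := by
    refine sqrt_le_of hq0 (le_trans ?_ hq)
    gcongr
  have h2 : s ^ 2 ≤ h.im ^ 2 := by
    rw [← neg_sq h.im]
    gcongr
  gcongr

theorem bL_le (hδ : 0 ≤ δ) (hd : δ ≤ d) (hH : ‖h‖ ≤ H) (hs0 : 0 < s) (hs : s ≤ -h.im)
    (hqm0 : 0 < qm) (hqm : qm ^ 2 ≤ ‖1 - h‖) (hqs0 : 0 < qs) (hqs : qs ^ 2 ≤ s) (hqd0 : 0 ≤ qd) (hqd : d ≤ qd ^ 2)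
    (hrl : relL h δ ≤ rl) (hrl1 : rl < 1) : bL h δ ≤ blU H qm d s qs qd rl := by
  unfold bL blU
  have hH0 : 0 ≤ H := (norm_nonneg _).trans hH
  have hd0 : 0 ≤ d := hδ.trans hd
  have h1 : qm ≤ √‖1 - h‖ := le_sqrt_of hqm0.le hqm
  have h2 : qs ≤ √(-h.im) := le_sqrt_of hqs0.le (hqs.trans hs)
  have h3 : √δ ≤ qd := sqrt_le_of hqd0 (hd.trans hqd)
  have h4 : s ^ 2 ≤ h.im ^ 2 := by
    rw [← neg_sq h.im]
    gcongr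
  have h5 : 0 < 1 - rl := by linarith
  have h6 : 1 - rl ≤ 1 - relL h δ := by linarith
  have h7 : 0 ≤ -h.im := hs0.le.trans hs
  gcongr

end left

/-! ### right -/

/-- upper bound of `tf` -/
noncomputable def tfUm (d Q X : ℝ) : ℝ := 47 / 10 * (d / (4 * Q * X ^ 2)) ^ 4

/-- upper bound of `relR` -/
noncomputable def rrU (H q s qdQ Q T qm₁ qX qd X : ℝ) : ℝ :=
  399 / 1000 * H * q * (100 / (243 * s ^ 2) + (1 + 27 / 100 * qdQ) / (12 * Q ^ 2)) +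
    T * qm₁ * (3 / 5 / qX + 1 / 10 * qd / (Q * X))

/-- upper bound of `bR` -/
noncomputable def brU (H qm₀ d s qs qdQ Q qQ T qd qm₁ qX₁ X rr : ℝ) : ℝ :=
  (H / qm₀ * (59 / 200 * d / (s * qs) + 177 / 2000 * d * (1 + 3 / 10 * qdQ) / (Q * qQ)) +
    T * (2 / 5 * qd / qm₀ + 27 / 20 * qm₁ * qX₁ + 11 / 20 * qm₁ * qd / X)) / (1 - rr)

section right
variable {h : ℂ} {δ d H m m₀ s q qm₀ qm₁ qs qd rr Q X qdQ qX qX₁ qQ T : ℝ}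

theorem tf_nonneg (h : ℂ) (δ : ℝ) : 0 ≤ tf h δ := by
  unfold tf
  have : 0 ≤ (δ / (4 * qp h * xl h ^ 2)) ^ 4 := by
    rw [show (4 : ℕ) = 2 * 2 from rfl, pow_mul]
    positivity
  positivity

theorem tf_le (hδ : 0 ≤ δ) (hd : δ ≤ d) (hQ0 : 0 < Q) (hQ : Q ≤ qp h) (hX0 : 0 < X) (hX : X ≤ xl h)
    (hT : tfUm d Q X ≤ T) : tf h δ ≤ T := by
  refine le_trans ?_ hT
  unfold tf tfUm
  have h15 : 0 < qp h := hQ0.trans_le hQ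
  have h16 : 0 < xl h := hX0.trans_le hX
  have hd0 : 0 ≤ d := hδ.trans hd
  have h17 : 0 ≤ δ / (4 * qp h * xl h ^ 2) := by positivity
  gcongr

theorem relR_nonneg (hδ : 0 ≤ δ) (hQ : 0 < qp h) (hX : 0 < xl h) : 0 ≤ relR h δ := by
  unfold relR
  have := tf_nonneg h δ
  positivity

theorem relR_le (hδ : 0 ≤ δ) (hd : δ ≤ d) (hH : ‖h‖ ≤ H) (hm : ‖1 - h‖ ≤ m) (hs0 : 0 < s) (hs : s ≤ h.im)
    (hq0 : 0 ≤ q) (hq : m * d ≤ q ^ 2) (hQ0 : 0 < Q) (hQ : Q ≤ qp h) (hX0 : 0 < X) (hX : X ≤ xl h)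
    (hT : tfUm d Q X ≤ T) (hqdQ0 : 0 ≤ qdQ) (hqdQ : d ≤ Q * qdQ ^ 2) (hqm0 : 0 ≤ qm₁) (hqm : m ≤ qm₁ ^ 2)
    (hqX0 : 0 < qX) (hqX : qX ^ 2 ≤ X) (hqd0 : 0 ≤ qd) (hqd : d ≤ qd ^ 2) :
    relR h δ ≤ rrU H q s qdQ Q T qm₁ qX qd X := by
  unfold relR rrU
  have hH0 : 0 ≤ H := (norm_nonneg _).trans hH
  have hm0 : 0 ≤ m := (norm_nonneg _).trans hm
  have hd0 : 0 ≤ d := hδ.trans hd
  have h1 : √(‖1 - h‖ * δ) ≤ q := by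
    refine sqrt_le_of hq0 (le_trans ?_ hq)
    gcongr
  have h2 : s ^ 2 ≤ h.im ^ 2 := by gcongr
  have h3 : √(δ / qp h) ≤ qdQ := by
    refine sqrt_le_of hqdQ0 ?_
    calc δ / qp h ≤ d / Q := by gcongr
      _ ≤ qdQ ^ 2 := by rw [div_le_iff₀ hQ0]; linarith
  have h4 : √‖1 - h‖ ≤ qm₁ := sqrt_le_of hqm0 (hm.trans hqm)
  have h5 : qX ≤ √(xl h) := le_sqrt_of hqX0.le (hqX.trans hX)
  have h6 : √δ ≤ qd := sqrt_le_of hqd0 (hd.trans hqd)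
  have h7 := tf_le hδ hd hQ0 hQ hX0 hX hT
  have h8 := tf_nonneg h δ
  have h9 : 0 ≤ T := h8.trans h7
  have h15 : 0 < qp h := hQ0.trans_le hQ
  have h16 : 0 < xl h := hX0.trans_le hX
  have h17 : 0 ≤ 3 / 5 / √(xl h) + 1 / 10 * √δ / (qp h * xl h) := by positivity
  gcongr

theorem bR_le (hδ : 0 ≤ δ) (hd : δ ≤ d) (hH : ‖h‖ ≤ H) (hm : ‖1 - h‖ ≤ m) (hs0 : 0 < s) (hs : s ≤ h.im)
    (hQ0 : 0 < Q) (hQ : Q ≤ qp h) (hX0 : 0 < X) (hX : X ≤ xl h)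
    (hT : tfUm d Q X ≤ T) (hqdQ0 : 0 ≤ qdQ) (hqdQ : d ≤ Q * qdQ ^ 2) (hqm0 : 0 ≤ qm₁) (hqm : m ≤ qm₁ ^ 2)
    (hqm₀0 : 0 < qm₀) (hqm₀ : qm₀ ^ 2 ≤ ‖1 - h‖)
    (hqs0 : 0 < qs) (hqs : qs ^ 2 ≤ s) (hqQ0 : 0 < qQ) (hqQ : qQ ^ 2 ≤ Q)
    (hqX₁0 : 0 ≤ qX₁) (hqX₁ : xl h ≤ qX₁ ^ 2) (hqd0 : 0 ≤ qd) (hqd : d ≤ qd ^ 2)
    (hrr : relR h δ ≤ rr) (hrr1 : rr < 1) :
    bR h δ ≤ brU H qm₀ d s qs qdQ Q qQ T qd qm₁ qX₁ X rr := by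
  unfold bR brU
  have hH0 : 0 ≤ H := (norm_nonneg _).trans hH
  have hm0 : 0 ≤ m := (norm_nonneg _).trans hm
  have hd0 : 0 ≤ d := hδ.trans hd
  have h3 : √(δ / qp h) ≤ qdQ := by
    refine sqrt_le_of hqdQ0 ?_
    calc δ / qp h ≤ d / Q := by gcongr
      _ ≤ qdQ ^ 2 := by rw [div_le_iff₀ hQ0]; linarith
  have h4 : √‖1 - h‖ ≤ qm₁ := sqrt_le_of hqm0 (hm.trans hqm)
  have h4' : qm₀ ≤ √‖1 - h‖ := le_sqrt_of hqm₀0.le hqm₀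
  have h5 : √(xl h) ≤ qX₁ := sqrt_le_of hqX₁0 hqX₁
  have h6 : √δ ≤ qd := sqrt_le_of hqd0 (hd.trans hqd)
  have h7 := tf_le hδ hd hQ0 hQ hX0 hX hT
  have h8 := tf_nonneg h δ
  have h9 : 0 ≤ T := h8.trans h7
  have h10 : qs ≤ √h.im := le_sqrt_of hqs0.le (hqs.trans hs)
  have h11 : qQ ≤ √(qp h) := le_sqrt_of hqQ0.le (hqQ.trans hQ)
  have h12 : 0 < 1 - rr := by linarith
  have h13 : 1 - rr ≤ 1 - relR h δ := by linarith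
  have h14 : 0 < h.im := hs0.trans_le hs
  have h15 : 0 < qp h := hQ0.trans_le hQ
  have h16 : 0 < xl h := hX0.trans_le hX
  have h17 : 0 ≤ 2 / 5 * √δ / √‖1 - h‖ + 27 / 20 * √‖1 - h‖ * √(xl h) + 11 / 20 * √‖1 - h‖ * √δ / xl h := by
    positivity
  gcongr

/-- lower bound of `qp` -/
theorem le_qp {a s Q : ℝ} (ha : a ≤ h.re) (hs : s ≤ h.im) (h1 : Q ≤ 433 / 1000 * (a - 1) + s / 4)
    (h2 : Q ≤ 4331 / 10000 * (a - 1) + s / 4) : Q ≤ qp h := by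
  unfold qp
  have h3 : (1732 / 1000 : ℝ) ≤ √3 := le_sqrt_of (by norm_num) (by norm_num)
  have h4 : √3 ≤ (17324 / 10000 : ℝ) := sqrt_le_of (by norm_num) (by norm_num)
  rcases le_total 1 a with h5 | h5
  · nlinarith
  · nlinarith

/-- bounds of `xl` -/
theorem le_xl {s X : ℝ} (hH : ‖h‖ ≤ H) (hX0 : 0 ≤ X) (hs : s ≤ h.im) (hs0 : 0 < s) (h1 : X * H ≤ s) : X ≤ xl h := by
  unfold xl
  have h2 : 0 < ‖h‖ := by
    have := Complex.abs_im_le_norm h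
    have := le_abs_self h.im
    linarith
  rw [le_div_iff₀ h2]
  have : X * ‖h‖ ≤ X * H := by gcongr
  linarith

theorem xl_le {s n X : ℝ} (hn : n ≤ ‖h‖) (hn0 : 0 < n) (hX0 : 0 ≤ X) (hs : h.im ≤ s) (h1 : s ≤ X * n) :
    xl h ≤ X := by
  unfold xl
  rw [div_le_iff₀ (hn0.trans_le hn)]
  have : X * n ≤ X * ‖h‖ := by gcongr
  linarith

end right

/-! ### the conditions -/

/-- the cone condition from intervals -/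
theorem cone_of {c e m m₀ m₁ r : ℝ} (he0 : 0 ≤ e) (he : e ≤ r) (hm₀ : m₀ ≤ m) (hm₁ : m ≤ m₁)
    (h0 : c < (1 - 2 * r ^ 2) * m₀) (h1 : c < (1 - 2 * r ^ 2) * m₁) (hm : 0 ≤ m) : c < (1 - 2 * e ^ 2) * m := by
  have h2 : (1 - 2 * r ^ 2) * m ≤ (1 - 2 * e ^ 2) * m := by
    have : e ^ 2 ≤ r ^ 2 := by gcongr
    exact mul_le_mul_of_nonneg_right (by linarith) hm
  rcases le_total 0 (1 - 2 * r ^ 2) with h3 | h3
  · have : (1 - 2 * r ^ 2) * m₀ ≤ (1 - 2 * r ^ 2) * m := mul_le_mul_of_nonneg_left hm₀ h3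
    linarith
  · have : (1 - 2 * r ^ 2) * m₁ ≤ (1 - 2 * r ^ 2) * m := mul_le_mul_of_nonpos_left hm₁ h3
    linarith

theorem condI_of {p : ℂ} {δ rl rr aL sL mL₀ mL₁ aR sR mR₀ mR₁ : ℝ}
    (hl : relL (hL p) δ ≤ rl) (hr0 : 0 ≤ relR (hR p) δ) (hr : relR (hR p) δ ≤ rr)
    (haL : aL ≤ (hL p).re) (hsL : sL ≤ -(hL p).im) (hmL₀ : mL₀ ≤ ‖1 - hL p‖) (hmL₁ : ‖1 - hL p‖ ≤ mL₁)
    (haR : aR ≤ (hR p).re) (hsR : (hR p).im ≤ sR) (hmR₀ : mR₀ ≤ ‖1 - hR p‖) (hmR₁ : ‖1 - hR p‖ ≤ mR₁)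
    (h1 : 3 / 5 * (1 - aL) - 4 / 5 * sL < (1 - 2 * rl ^ 2) * mL₀)
    (h2 : 3 / 5 * (1 - aL) - 4 / 5 * sL < (1 - 2 * rl ^ 2) * mL₁)
    (h3 : 4 / 5 * sR - 3 / 5 * (aR - 1) < (1 - 2 * rr ^ 2) * mR₀)
    (h4 : 4 / 5 * sR - 3 / 5 * (aR - 1) < (1 - 2 * rr ^ 2) * mR₁) : CondI p δ := by
  constructor
  · have := cone_of (relL_nonneg (hL p) δ) hl hmL₀ hmL₁ h1 h2 (norm_nonneg _)
    linarith
  · have := cone_of hr0 hr hmR₀ hmR₁ h3 h4 (norm_nonneg _)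
    linarith

/-- `δ` from `Re B` -/
theorem delta_le {B δ b d : ℝ} (h1 : B ≤ -(Real.pi * δ)) (h2 : -b ≤ B) (hδ : 0 ≤ δ)
    (h3 : b ≤ 314159 / 100000 * d) : δ ≤ d := by
  have hpi := Real.pi_gt_d6
  have h4 : Real.pi * δ ≤ b := by linarith
  have h5 : (3141592 / 1000000 : ℝ) * δ ≤ Real.pi * δ := mul_le_mul_of_nonneg_right (by norm_num at hpi ⊢; linarith) hδ
  linarith

end SokalTI
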