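import Pool.Agent.Lib_MP_af4de1_ti.Common

/-!
# Right saddle, the slope `v = t e^{-iπ/3}`, `0 ≤ t ≤ 5/2` [TI-R1]

`r = √3/2`, `h = a + i s`.  `e^{t e^{-iπ/3}} = e^{t/2}(cos rt - i sin rt)`.
`ht h v = -(√3/4)t² + a (e^{t/2} sin rt - rt) + s (1 + t/2 - e^{t/2} cos rt)`, so `ht - qp t² = a A + s S`,
`A = e^{t/2} sin rt - rt - r t²/2`, `S = 1 + t/2 - e^{t/2} cos rt - t²/4`.
Power series (`Complex.exp_bound'` with 9 or 10 terms at `t e^{iπ/3}`, `|z| ≤ 5/2`): `A = r(-t⁴/24 - t⁵/120 + t⁷/5040 + t⁸/40320) + ..`,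
`S = t³/6 - t⁴/48 ... ` (coefficients: `e^{t/2} cos rt = ∑ t^n cos(nπ/3)/n!`, `e^{t/2} sin rt = ∑ t^n sin(nπ/3)/n!`).  Known: `S ≥ t³/6 - t⁶/480`,
`A ≥ -r(t⁴/24 + t⁵/120)` on `[0, 5/2]` (both with room at `t = 5/2`), and `s ≥ a t/2`, so
`a A + s S ≥ a t⁴ (1/12 - t³/960 - r/24 - r t/120) ≥ 0` for `t ≤ 5/2` (value `.0129` at `5/2`).
`S`: from `e^{-t} + 2 e^{t/2} cos rt = 3 ∑ (-t)^{3k}/(3k)!`: `S = (e^{-t} - 1 + t - t²/2)/2 + t³/4 - t⁶/480 + ..`.
`slope_gg`: `gg v = v² ∫_0^1 (1-τ) e^{τv} dτ`, `Re v = t/2`: `‖gg v‖ ≤ 4(e^{t/2} - 1 - t/2) ≤ (t²/2)(1 + t/4)`;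
`slope_g3`: `gg v - v²/2 = v³ ∫ (1-τ)²/2 e^{τv}`: `≤ 8(e^{t/2} - 1 - t/2 - t²/8) ≤ (t³/6)(1 + t/5)` (`t ≤ 5/2`); in Lean e.g. by the mean value
inequality applied three times, or termwise.
-/

set_option autoImplicit false

namespace SokalTI

open Complex

private theorem r1a_et_sq : et ^ 2 = et - 1 := by
  have h3 : √3 * √3 = 3 := Real.mul_self_sqrt (by norm_num)
  apply Complex.ext
  · rw [pow_two, Complex.mul_re, Complex.sub_re, etq_re, etq_im, Complex.one_re]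
    nlinarith [h3]
  · rw [pow_two, Complex.mul_im, Complex.sub_im, etq_re, etq_im, Complex.one_im]
    ring

theorem slope_quad (h : ℂ) (t : ℝ) : ((1 - h) * ((t * et) ^ 2 / 2)).im = qp h * t ^ 2 := by
  have e : (1 - h) * ((t * et) ^ 2 / 2) = ((t ^ 2 / 2 : ℝ) : ℂ) * ((1 - h) * (et - 1)) := by
    rw [mul_pow, r1a_et_sq]
    push_cast
    ring
  rw [e, Complex.im_ofReal_mul, Complex.mul_im, Complex.sub_re, Complex.sub_im, Complex.sub_re,
    Complex.sub_im, etq_re, etq_im, Complex.one_re, Complex.one_im]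
  unfold qp
  ring

/-- Taylor expansion of `gg` -/
private theorem r1a_taylor {t : ℝ} (h0 : 0 ≤ t) (h1 : t ≤ 5 / 2) : ∃ R : ℂ, ‖R‖ ≤ t ^ 7 / 2520 ∧
    (gg (t * et)).re = -(t ^ 2 / 4) - t ^ 3 / 6 - t ^ 4 / 48 + t ^ 5 / 240 + t ^ 6 / 720 + R.re ∧
    (gg (t * et)).im = -(√3 / 2 * t ^ 2 / 2) + √3 / 2 * t ^ 4 / 24 + √3 / 2 * t ^ 5 / 120 + R.im := by
  have hn : ‖(t : ℂ) * et‖ = t := by
    rw [norm_mul, norm_et, mul_one, Complex.norm_real, Real.norm_eq_abs, abs_of_nonneg h0]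
  have h2 := Complex.exp_bound' (x := (t : ℂ) * et) (n := 7) (by rw [hn]; norm_num; linarith)
  rw [hn] at h2
  have e3 : et ^ 3 = -1 := by
    linear_combination (et + 1) * r1a_et_sq
  have e4 : et ^ 4 = -et := by
    linear_combination et * e3
  have e5 : et ^ 5 = 1 - et := by
    linear_combination et ^ 2 * e3 - r1a_et_sq
  have e6 : et ^ 6 = 1 := by
    linear_combination (et ^ 3 - 1) * e3
  have hsum : ∑ m ∈ Finset.range 7, ((t : ℂ) * et) ^ m / (m.factorial : ℂ) =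
      1 + t * et + ((t ^ 2 / 2 : ℝ) : ℂ) * (et - 1) - ((t ^ 3 / 6 : ℝ) : ℂ) -
        ((t ^ 4 / 24 : ℝ) : ℂ) * et + ((t ^ 5 / 120 : ℝ) : ℂ) * (1 - et) +
        ((t ^ 6 / 720 : ℝ) : ℂ) := by
    simp only [Finset.sum_range_succ, Finset.sum_range_zero, mul_pow, r1a_et_sq, e3, e4, e5, e6,
      Nat.factorial]
    push_cast
    ring
  refine ⟨cexp ((t : ℂ) * et) - ∑ m ∈ Finset.range 7, ((t : ℂ) * et) ^ m / (m.factorial : ℂ),
    ?_, ?_, ?_⟩
  · refine h2.trans (le_of_eq ?_)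
    norm_num [Nat.factorial]
    ring
  · rw [hsum]
    unfold gg
    simp only [Complex.add_re, Complex.sub_re, Complex.re_ofReal_mul, Complex.ofReal_re,
      Complex.one_re, etq_re]
    ring
  · rw [hsum]
    unfold gg
    simp only [Complex.add_im, Complex.sub_im, Complex.im_ofReal_mul, Complex.ofReal_im,
      Complex.one_im, etq_im]
    ring

theorem slope_height {h : ℂ} {t : ℝ} (h0 : 0 ≤ t) (h1 : t ≤ 5 / 2) (ha : 0 ≤ h.re)
    (hs : h.re * t / 2 ≤ h.im) : qp h * t ^ 2 ≤ ht h (t * et) := by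
  obtain ⟨R, hR, hre, him⟩ := r1a_taylor h0 h1
  have hR1 : R.re ≤ t ^ 7 / 2520 := (Complex.re_le_norm R).trans hR
  have hR2 : R.im ≤ t ^ 7 / 2520 := (Complex.im_le_norm R).trans hR
  have hr : √3 / 2 ≤ 867 / 1000 := by
    have : √3 ≤ 1734 / 1000 := Real.sqrt_le_iff.2 ⟨by norm_num, by norm_num⟩
    linarith
  have hr0 : 0 ≤ √3 / 2 := by positivity
  have hq : ((t * et) ^ 2 / 2 : ℂ).im = -(√3 / 2 * t ^ 2 / 2) := by
    have e : ((t * et) ^ 2 / 2 : ℂ) = ((t ^ 2 / 2 : ℝ) : ℂ) * (et - 1) := by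
      rw [mul_pow, r1a_et_sq]
      push_cast
      ring
    rw [e, Complex.im_ofReal_mul, Complex.sub_im, etq_im, Complex.one_im]
    ring
  have hht : ht h (t * et) - qp h * t ^ 2 =
      h.re * (-(√3 / 2 * t ^ 4 / 24) - √3 / 2 * t ^ 5 / 120 - R.im) +
        h.im * (t ^ 3 / 6 + t ^ 4 / 48 - t ^ 5 / 240 - t ^ 6 / 720 - R.re) := by
    unfold ht qp
    rw [Complex.sub_im, hq, Complex.mul_im, hre, him]
    ring
  generalize √3 / 2 = r at hr hr0 hht
  have ht2 : t ^ 2 ≤ (5 / 2) ^ 2 := pow_le_pow_left₀ h0 h1 2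
  have ht3 : t ^ 3 ≤ (5 / 2) ^ 3 := pow_le_pow_left₀ h0 h1 3
  have ht4 : t ^ 4 ≤ (5 / 2) ^ 4 := pow_le_pow_left₀ h0 h1 4
  -- lower bound of the coefficient of `s`
  have hS : 0 ≤ t ^ 3 / 6 + t ^ 4 / 48 - t ^ 5 / 240 - t ^ 6 / 720 - R.re := by
    have h3 : 0 ≤ t ^ 3 * (1 / 6 + t / 48 - t ^ 2 / 240 - t ^ 3 / 720 - t ^ 4 / 2520) := by
      refine mul_nonneg (by positivity) ?_
      norm_num at ht2 ht3 ht4
      linarith
    nlinarith [h3, hR1]
  -- the sum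
  have hsum : 0 ≤ (-(r * t ^ 4 / 24) - r * t ^ 5 / 120 - R.im) +
      t / 2 * (t ^ 3 / 6 + t ^ 4 / 48 - t ^ 5 / 240 - t ^ 6 / 720 - R.re) := by
    have h3 : 0 ≤ t ^ 4 * (1 / 12 + t / 96 - t ^ 2 / 480 - t ^ 3 / 1440 - t ^ 4 / 5040 -
        867 / 1000 / 24 - 867 / 1000 * t / 120 - t ^ 3 / 2520) := by
      refine mul_nonneg (by positivity) ?_
      norm_num at ht2 ht3 ht4
      linarith
    have h4 : r * (t ^ 4 / 24 + t ^ 5 / 120) ≤ 867 / 1000 * (t ^ 4 / 24 + t ^ 5 / 120) :=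
      mul_le_mul_of_nonneg_right hr (by positivity)
    have h5 : t / 2 * R.re ≤ t / 2 * (t ^ 7 / 2520) :=
      mul_le_mul_of_nonneg_left hR1 (by positivity)
    nlinarith [h3, h4, h5, hR2]
  have h6 : h.re * t / 2 * (t ^ 3 / 6 + t ^ 4 / 48 - t ^ 5 / 240 - t ^ 6 / 720 - R.re) ≤
      h.im * (t ^ 3 / 6 + t ^ 4 / 48 - t ^ 5 / 240 - t ^ 6 / 720 - R.re) :=
    mul_le_mul_of_nonneg_right hs hS
  have h7 := mul_nonneg ha hsum
  have h8 : 0 ≤ ht h (t * et) - qp h * t ^ 2 := by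
    rw [hht]
    nlinarith [h6, h7]
  linarith

private theorem r1b_norm_exp (s : ℝ) : ‖cexp (s * et)‖ = Real.exp (s / 2) := by
  rw [Complex.norm_exp]
  congr 1
  rw [Complex.re_ofReal_mul, etq_re]
  ring

private theorem r1b_deriv_exp (s : ℝ) :
    HasDerivAt (fun x : ℝ => cexp (x * et)) (cexp (s * et) * et) s := by
  have h1 : HasDerivAt (fun x : ℝ => (x : ℂ) * et) et s := by
    have := (Complex.ofRealCLM.hasDerivAt (x := s)).mul_const et
    simpa using this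
  exact h1.cexp

/-- comparison of a function with a primitive of a bound of its derivative -/
private theorem r1b_comp {f f' : ℝ → ℂ} {B B' : ℝ → ℝ} (hf : ∀ x, HasDerivAt f (f' x) x)
    (hB : ∀ x, HasDerivAt B (B' x) x) (h0 : f 0 = 0) (hB0 : B 0 = 0)
    (hb : ∀ x, 0 ≤ x → ‖f' x‖ ≤ B' x) {t : ℝ} (ht : 0 ≤ t) : ‖f t‖ ≤ B t := by
  refine image_norm_le_of_norm_deriv_right_le_deriv_boundary (a := 0) (b := t) (f := f) (f' := f')
    (fun x _ => (hf x).continuousAt.continuousWithinAt) (fun x _ => (hf x).hasDerivWithinAt)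
    (B := B) (B' := B') (by rw [h0, hB0, norm_zero]) hB (fun x hx => hb x hx.1)
    (Set.right_mem_Icc.2 ht)

private theorem r1b_dE (x : ℝ) : HasDerivAt (fun x : ℝ => Real.exp (x / 2)) (Real.exp (x / 2) / 2) x := by
  have := ((hasDerivAt_id x).div_const 2).exp
  simp only [id] at this
  have e : Real.exp (x / 2) * (1 / 2) = Real.exp (x / 2) / 2 := by ring
  rw [e] at this
  exact this

private theorem r1b_one {t : ℝ} (ht : 0 ≤ t) : ‖cexp (t * et) - 1‖ ≤ 2 * (Real.exp (t / 2) - 1) := by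
  refine r1b_comp (f := fun x : ℝ => cexp (x * et) - 1) (f' := fun x : ℝ => cexp (x * et) * et)
    (B := fun x => 2 * (Real.exp (x / 2) - 1)) (B' := fun x => Real.exp (x / 2))
    (fun x => (r1b_deriv_exp x).sub_const 1) (fun x => ?_) (by simp) (by simp) (fun x _ => ?_) ht
  · have := ((r1b_dE x).sub_const 1).const_mul 2
    have e : 2 * (Real.exp (x / 2) / 2) = Real.exp (x / 2) := by ring
    rw [e] at this
    exact this
  · rw [norm_mul, norm_et, mul_one, r1b_norm_exp]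

private theorem r1b_two {t : ℝ} (ht : 0 ≤ t) :
    ‖gg (t * et)‖ ≤ 4 * (Real.exp (t / 2) - 1 - t / 2) := by
  refine r1b_comp (f := fun x : ℝ => gg (x * et)) (f' := fun x : ℝ => (cexp (x * et) - 1) * et)
    (B := fun x => 4 * (Real.exp (x / 2) - 1 - x / 2)) (B' := fun x => 2 * (Real.exp (x / 2) - 1))
    (fun x => ?_) (fun x => ?_) (by simp [gg]) (by simp) (fun x hx => ?_) ht
  · have h1 : HasDerivAt (fun x : ℝ => (x : ℂ) * et) et x := by
      have := (Complex.ofRealCLM.hasDerivAt (x := x)).mul_const et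
      simpa using this
    have h2 := ((r1b_deriv_exp x).sub_const 1).sub h1
    have e : cexp (x * et) * et - et = (cexp (x * et) - 1) * et := by ring
    rw [e] at h2
    exact h2
  · have := (((r1b_dE x).sub_const 1).sub ((hasDerivAt_id x).div_const 2)).const_mul 4
    have e : 4 * (Real.exp (x / 2) / 2 - 1 / 2) = 2 * (Real.exp (x / 2) - 1) := by ring
    rw [e] at this
    exact this
  · rw [norm_mul, norm_et, mul_one]
    exact r1b_one hx

private theorem r1b_three {t : ℝ} (ht : 0 ≤ t) :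
    ‖gg (t * et) - (t * et) ^ 2 / 2‖ ≤ 8 * (Real.exp (t / 2) - 1 - t / 2 - t ^ 2 / 8) := by
  refine r1b_comp (f := fun x : ℝ => gg (x * et) - (x * et) ^ 2 / 2)
    (f' := fun x : ℝ => gg (x * et) * et)
    (B := fun x => 8 * (Real.exp (x / 2) - 1 - x / 2 - x ^ 2 / 8))
    (B' := fun x => 4 * (Real.exp (x / 2) - 1 - x / 2))
    (fun x => ?_) (fun x => ?_) (by simp [gg]) (by simp) (fun x hx => ?_) ht
  · have h1 : HasDerivAt (fun x : ℝ => (x : ℂ) * et) et x := by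
      have := (Complex.ofRealCLM.hasDerivAt (x := x)).mul_const et
      simpa using this
    have h2 := ((r1b_deriv_exp x).sub_const 1).sub h1
    have h3 := (h1.pow 2).div_const 2
    have h4 := h2.sub h3
    have e : cexp (x * et) * et - et - (((2 : ℕ) : ℂ) * ((x : ℂ) * et) ^ (2 - 1) * et) / 2 =
        gg (x * et) * et := by
      unfold gg
      push_cast
      ring
    rw [e] at h4
    exact h4
  · have := ((((r1b_dE x).sub_const 1).sub ((hasDerivAt_id x).div_const 2)).sub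
      ((hasDerivAt_pow 2 x).div_const 8)).const_mul 8
    have e : 8 * (Real.exp (x / 2) / 2 - 1 / 2 - ((2 : ℕ) : ℝ) * x ^ (2 - 1) / 8) =
        4 * (Real.exp (x / 2) - 1 - x / 2) := by
      push_cast
      ring
    rw [e] at this
    exact this
  · rw [norm_mul, norm_et, mul_one]
    exact r1b_two hx

private theorem r1b_exp {u : ℝ} (h0 : 0 ≤ u) (h1 : u ≤ 5 / 4) :
    Real.exp u ≤ 1 + u + u ^ 2 / 2 + u ^ 3 / 6 + u ^ 4 / 24 + u ^ 5 / 60 := by
  have hn : ‖(u : ℂ)‖ = u := by rw [Complex.norm_real, Real.norm_eq_abs, abs_of_nonneg h0]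
  have h2 := Complex.exp_bound' (x := (u : ℂ)) (n := 5) (by rw [hn]; norm_num; linarith)
  rw [hn] at h2
  have e : cexp (u : ℂ) - ∑ m ∈ Finset.range 5, (u : ℂ) ^ m / (m.factorial : ℂ) =
      ((Real.exp u - (1 + u + u ^ 2 / 2 + u ^ 3 / 6 + u ^ 4 / 24) : ℝ) : ℂ) := by
    simp [Finset.sum_range_succ, Nat.factorial]
  rw [e, Complex.norm_real, Real.norm_eq_abs] at h2
  have h3 := (abs_le.1 h2).2
  have h4 : u ^ 5 / ((Nat.factorial 5 : ℕ) : ℝ) * 2 = u ^ 5 / 60 := by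
    norm_num [Nat.factorial]
    ring
  rw [h4] at h3
  linarith

theorem slope_gg {t : ℝ} (h0 : 0 ≤ t) (h1 : t ≤ 5 / 2) : ‖gg (t * et)‖ ≤ t ^ 2 / 2 * (1 + t / 4) := by
  refine (r1b_two h0).trans ?_
  have h2 := r1b_exp (u := t / 2) (by positivity) (by linarith)
  have h3 : 0 ≤ t ^ 3 * ((5 / 2 - t) * (t + 15 / 2)) :=
    mul_nonneg (by positivity) (mul_nonneg (by linarith) (by positivity))
  have h5 : 0 ≤ t ^ 3 := by positivity
  nlinarith [h2, h3, h5]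

theorem slope_g3 {t : ℝ} (h0 : 0 ≤ t) (h1 : t ≤ 5 / 2) :
    ‖gg (t * et) - (t * et) ^ 2 / 2‖ ≤ t ^ 3 / 6 * (1 + t / 5) := by
  refine (r1b_three h0).trans ?_
  have h2 := r1b_exp (u := t / 2) (by positivity) (by linarith)
  have h3 : 0 ≤ t ^ 4 * (5 / 2 - t) := mul_nonneg (by positivity) (by linarith)
  have h5 : 0 ≤ t ^ 4 := by positivity
  nlinarith [h2, h3, h5]

end SokalTI
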