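import Pool.Agent.Lib_MP_af4de1_ti.R1

/-!
# Right saddle, the horizontal leg `v = 2x e^{-iπ/3} + u`, `u ≥ 0`, `x = arg h` [TI-R3]

`c = 2x e^{-iπ/3} = x - i √3 x`.  `ht h (c + u) = ht h c + u (Im c + Im h) - Im (h e^c)(e^u - 1) = ht h c + (s - √3 x) u + A (e^u - 1)`,
`A = -Im (h e^c) = ‖h‖ e^x sin((√3-1)x)` (`h = ‖h‖ e^{ix}`).  `‖h‖ sin x = s ≥ x`; `sin((√3-1)x) ≥ (√3-1) sin x` (concavity, `0 ≤ x ≤ 5/4`), so
`A ≥ (√3-1) x e^x ≥ (√3-1) x` and `s + A ≥ √3 x`: `(s - √3x)u + A(e^u - 1) ≥ A(e^u - 1 - u)`.  `ht h c ≥ 4 qp x²` by `slope_height` at `t = 2x`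
(`a x ≤ s` because `tan x ≥ x`: `s cos x = a sin x`, i.e. `h.re * sin x = h.im * cos x`, so `a x ≤ s`: use `x cos x ≤ sin x`).
-/

set_option autoImplicit false

namespace SokalTI

open Complex

/-- the slope constant of the right tail -/
noncomputable def Aa (h : ℂ) : ℝ := ‖h‖ * Real.exp (arg h) * Real.sin ((√3 - 1) * arg h)

private theorem arg_pos_r3 {h : ℂ} (hs : 0 < h.im) : 0 < arg h := by
  have h1 : 0 ≤ arg h := arg_nonneg_iff.2 hs.le
  rcases h1.lt_or_eq with h2 | h2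
  · exact h2
  · have h3 := norm_mul_sin_arg h
    rw [← h2, Real.sin_zero, mul_zero] at h3
    exact absurd h3 hs.ne

private theorem arg_lt_r3 {h : ℂ} (ha : 0 < h.re) : arg h < Real.pi / 2 :=
  (abs_lt.1 (abs_arg_lt_pi_div_two_iff.2 (Or.inl ha))).2

theorem re_mul_arg_le {h : ℂ} (ha : 0 < h.re) (hs : 0 < h.im) : h.re * arg h ≤ h.im := by
  have h1 := arg_pos_r3 hs
  have h2 := arg_lt_r3 ha
  have h3 := Real.lt_tan h1 h2
  have hc : 0 < Real.cos (arg h) := Real.cos_pos_of_mem_Ioo ⟨by linarith [Real.pi_pos], h2⟩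
  rw [Real.tan_eq_sin_div_cos, lt_div_iff₀ hc] at h3
  rw [← norm_mul_cos_arg h, ← norm_mul_sin_arg h]
  have h4 := mul_le_mul_of_nonneg_left h3.le (norm_nonneg h)
  linarith

private theorem sqrt3_r3 : 433 / 250 ≤ √3 := by
  apply Real.le_sqrt_of_sq_le
  norm_num

private theorem sqrt3_lt_r3 : √3 < 2 := by
  rw [Real.sqrt_lt' (by norm_num)]
  norm_num

private theorem Aa_ge_r3 {h : ℂ} (ha : 0 < h.re) (hs : 0 < h.im) (hx : arg h ≤ h.im) :
    (√3 - 1) * arg h * Real.exp (arg h) ≤ Aa h := by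
  have h1 := arg_pos_r3 hs
  have h2 := arg_lt_r3 ha
  have h3 := sqrt3_r3
  have h4 := sqrt3_lt_r3
  have m1 : arg h ∈ Set.Icc 0 Real.pi := ⟨h1.le, by linarith [Real.pi_pos]⟩
  have m0 : (0 : ℝ) ∈ Set.Icc 0 Real.pi := ⟨le_rfl, Real.pi_pos.le⟩
  have c1 : 0 ≤ √3 - 1 := by linarith
  have c2 : 0 ≤ 2 - √3 := by linarith
  have hcon := (strictConcaveOn_sin_Icc.concaveOn).2 m1 m0 c1 c2 (by ring)
  simp only [smul_eq_mul, Real.sin_zero, mul_zero, add_zero] at hcon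
  unfold Aa
  have h5 : (√3 - 1) * arg h ≤ ‖h‖ * Real.sin ((√3 - 1) * arg h) := by
    have h6 := mul_le_mul_of_nonneg_left hcon (norm_nonneg h)
    have h7 : ‖h‖ * ((√3 - 1) * Real.sin (arg h)) = (√3 - 1) * h.im := by
      rw [← norm_mul_sin_arg h]
      ring
    rw [h7] at h6
    exact (mul_le_mul_of_nonneg_left hx (by linarith)).trans h6
  have h8 := mul_le_mul_of_nonneg_right h5 (Real.exp_pos (arg h)).le
  linarith

theorem Aa_ge {h : ℂ} (ha : 0 < h.re) (hs : 0 < h.im) (hx : arg h ≤ h.im) :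
    183 / 250 * arg h * Real.exp (arg h) ≤ Aa h := by
  refine le_trans ?_ (Aa_ge_r3 ha hs hx)
  have h1 := arg_pos_r3 hs
  have h3 := sqrt3_r3
  refine mul_le_mul_of_nonneg_right (mul_le_mul_of_nonneg_right ?_ h1.le) (Real.exp_pos _).le
  linarith

theorem corner_height {h : ℂ} (ha : 0 < h.re) (hs : 0 < h.im) (hx2 : arg h ≤ 5 / 4) :
    4 * qp h * arg h ^ 2 ≤ ht h (2 * arg h * et) := by
  have h1 := arg_pos_r3 hs
  have h2 := slope_height (h := h) (t := 2 * arg h) (by linarith) (by linarith) ha.le (by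
    have := re_mul_arg_le ha hs
    linarith)
  have h3 : (((2 * arg h : ℝ) : ℂ)) * et = 2 * arg h * et := by push_cast; ring
  rw [h3] at h2
  linarith

theorem tail_height {h : ℂ} {u : ℝ} (hu : 0 ≤ u) (ha : 0 < h.re) (hs : 0 < h.im)
    (hx : arg h ≤ h.im) (hx2 : arg h ≤ 5 / 4) :
    4 * qp h * arg h ^ 2 + Aa h * (Real.exp u - 1 - u) ≤ ht h (2 * arg h * et + u) := by
  have h1 := arg_pos_r3 hs
  have h3 := sqrt3_r3
  obtain ⟨c, hc⟩ : ∃ c : ℂ, c = 2 * arg h * et := ⟨_, rfl⟩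
  have hcr : c = ((2 * arg h : ℝ) : ℂ) * et := by rw [hc]; push_cast; ring
  have hre : c.re = arg h := by
    rw [hcr, re_ofReal_mul, etq_re]
    ring
  have him : c.im = -(√3 * arg h) := by
    rw [hcr, im_ofReal_mul, etq_im]
    ring
  have hcor := corner_height ha hs hx2
  rw [← hc] at hcor ⊢
  -- the identity
  have hexp : (h * cexp c).im = -Aa h := by
    rw [mul_im, Complex.exp_re, Complex.exp_im, hre, him, ← norm_mul_cos_arg h, ← norm_mul_sin_arg h,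
      Real.sin_neg, Real.cos_neg]
    have h5 : Real.sin ((√3 - 1) * arg h) = Real.sin (√3 * arg h) * Real.cos (arg h) -
        Real.cos (√3 * arg h) * Real.sin (arg h) := by
      rw [← Real.sin_sub]
      congr 1
      ring
    unfold Aa
    rw [h5]
    ring
  have hid : ht h (c + u) = ht h c + u * (h.im - √3 * arg h) + Aa h * (Real.exp u - 1) := by
    unfold ht gg
    have e1 : (c + (u : ℂ)) ^ 2 / 2 - h * (cexp (c + u) - 1 - (c + u)) =
        (c ^ 2 / 2 - h * (cexp c - 1 - c)) + (u : ℂ) * c + ((u ^ 2 / 2 : ℝ) : ℂ) + (u : ℂ) * h -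
          ((Real.exp u - 1 : ℝ) : ℂ) * (h * cexp c) := by
      rw [Complex.exp_add]
      push_cast
      ring
    rw [e1, sub_im, add_im, add_im, add_im, im_ofReal_mul, ofReal_im, im_ofReal_mul, im_ofReal_mul,
      hexp, him]
    ring
  rw [hid]
  have hA := Aa_ge_r3 ha hs hx
  have hA2 : (√3 - 1) * arg h ≤ Aa h := by
    refine le_trans ?_ hA
    have h7 : 1 ≤ Real.exp (arg h) := Real.one_le_exp h1.le
    have h8 : 0 ≤ (√3 - 1) * arg h := mul_nonneg (by linarith) h1.le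
    nlinarith
  have h9 : 0 ≤ u * (h.im + Aa h - √3 * arg h) := mul_nonneg hu (by linarith)
  nlinarith

end SokalTI
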