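import Pool.Agent.Lib_MP_af4de1_ti.R2

/-!
# Right saddle, the integrals over the vertical leg [TI-RV]

`b = 9 s/(20 δ)`, `T = 3/2`, `b T² = 81 s/(80 δ)`.
`vert_J`: on `(0, 3/2]` `‖e^Ev - e^Ev2‖ ≤ (‖h‖/δ)(y³/6) e^{-b y²}` (`norm_exp_sub_exp_le`, `norm_Ev_sub_Ev2`, `vert_g3`, `vert_height`, `vert_quad`).  On `[3/2, ∞)`
`‖e^Ev‖ + ‖e^Ev2‖ ≤ e^{-81s/(80δ)} e^{-a(y-3/2)/(2δ)} + e^{-s y²/(2δ)}`, of integral `≤ e^{-81s/(80δ)}(2δ/a) + (2δ/(3s)) e^{-9s/(8δ)}`.
`∫_0^∞ y³ e^{-b y²} = 1/(2b²)` and `∫_{3/2}^∞ y³ e^{-b y²} = (1 + bT²) e^{-bT²}/(2b²)` (antiderivative `-(1 + b y²) e^{-b y²}/(2b²)`), so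
`∫_0^{3/2} = (1 - (1+bT²)e^{-bT²})/(2b²)` and the total is `≤ (‖h‖/(6δ))/(2b²) = ‖h‖ δ 100/(243 s²)` because
`(‖h‖/(6δ)) (bT²) e^{-bT²}/(2b²) = (5/12)(‖h‖/s) e^{-81s/(80δ)} ≥ e^{-81s/(80δ)} (2δ/a + 2δ/(3s))`: `5‖h‖/12 ≥ 2 δ s/a + 2δ/3` for `δ ≤ 2/25`, `a ≥ 97/100`, `s ≤ 3a`
(`‖h‖ ≥ a`, `‖h‖ ≥ s`: e.g. `‖h‖ ≥ (3a + 4s)/5`: `5/12*(3/5)a = a/4 ≥ 4/75`, `5/12*4/5 s = s/3 ≥ 4s/(25 a)`).
`vert_K`: the same with `y²/2`: `∫_0^∞ (y²/2) e^{-b y²} = (√π/8) b^{-3/2} ≤ .73397 (δ/s)^{3/2}`, slack `∫_{3/2}^∞ (y²/2) e^{-by²} ≥ (T/(4b)) e^{-bT²} = (5δ/(6s)) e^{-bT²}`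
against `∫_{3/2}^∞ (y²/2) e^{-f/δ} ≤ e^{-bT²} e^{-a/(5δ)} (2δ/a)(9/8 + (3/2)(2δ/a) + (2δ/a)²) ≤ e^{-bT²} (9/100) (14/5) δ/a`, `s ≤ 3a`.
-/

set_option autoImplicit false

namespace SokalTI

open Complex MeasureTheory Set

/-- splitting of the integral at `T` -/
private theorem rv_split {f : ℝ → ℂ} (hf : IntegrableOn f (Ioi 0)) {T : ℝ} (hT : 0 ≤ T)
    {φ Ψ ψ : ℝ → ℝ} {L A : ℝ} (hφ : Continuous φ) (hA : (∫ y in (0 : ℝ)..T, φ y) ≤ A)
    (h2 : ∀ y, HasDerivAt Ψ (ψ y) y) (hψ : ∀ y, T < y → 0 ≤ ψ y)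
    (hL : Filter.Tendsto Ψ Filter.atTop (nhds L)) (b1 : ∀ y, 0 < y → y ≤ T → ‖f y‖ ≤ φ y)
    (b2 : ∀ y, T < y → ‖f y‖ ≤ ψ y) : ‖∫ y in Ioi (0 : ℝ), f y‖ ≤ A + (L - Ψ T) := by
  have hfT : IntegrableOn f (Ioi T) := hf.mono_set (Ioi_subset_Ioi hT)
  rw [← intervalIntegral.integral_interval_add_Ioi hf hfT]
  refine (norm_add_le _ _).trans (add_le_add ?_ ?_)
  · refine le_trans (intervalIntegral.norm_integral_le_of_norm_le hT ?_ (hφ.intervalIntegrable _ _)) hA
    exact Filter.Eventually.of_forall fun y hy => b1 y hy.1 hy.2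
  · have h3 : IntegrableOn ψ (Ioi T) :=
      integrableOn_Ioi_deriv_of_nonneg' (fun y _ => h2 y) (fun y hy => hψ y hy) hL
    rw [← integral_Ioi_of_hasDerivAt_of_nonneg' (fun y _ => h2 y) (fun y hy => hψ y hy) hL]
    refine norm_integral_le_of_norm_le h3 ?_
    exact (ae_restrict_iff' measurableSet_Ioi).2 (Filter.Eventually.of_forall fun y hy => b2 y hy)

/-- `‖e^Ev‖` decays -/
private theorem rv_decay {h : ℂ} {δ : ℝ} (hδ : 0 < δ) (ha : 97 / 100 ≤ h.re) (hs : 0 < h.im)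
    (hs3 : h.im ≤ 78 / 25 * h.re) {y : ℝ} (hy : 0 < y) :
    ‖cexp (Ev δ h (I * y))‖ ≤ Real.exp (-(h.re / (2 * δ) * (y - 3 / 2))) := by
  rw [norm_exp_Ev hδ]
  refine Real.exp_le_exp.2 (neg_le_neg ?_)
  rw [div_mul_eq_mul_div, div_le_div_iff₀ (by positivity) hδ]
  have key : h.re / 2 * (y - 3 / 2) ≤ ht h (I * y) := by
    rcases le_total y (3 / 2) with h1 | h1
    · have h2 := vert_height hy.le h1 (by linarith) hs hs3
      have h3 : 0 ≤ 9 / 20 * h.im * y ^ 2 := by positivity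
      have h4 : h.re / 2 * (y - 3 / 2) ≤ 0 :=
        mul_nonpos_of_nonneg_of_nonpos (by linarith) (by linarith)
      linarith
    · have h2 := vert_far h1 (by linarith) hs hs3
      linarith
  nlinarith

theorem vert_integrable {h : ℂ} {δ : ℝ} (hδ : 0 < δ) (ha : 97 / 100 ≤ h.re) (hs : 0 < h.im)
    (hs3 : h.im ≤ 78 / 25 * h.re) {w : ℂ → ℂ} (hw : Continuous w) {C : ℝ} (hC : ∀ y : ℝ, ‖w (I * y)‖ ≤ C * (1 + y ^ 2)) :
    IntegrableOn (fun y : ℝ => w (I * y) * cexp (Ev δ h (I * y))) (Ioi 0) := by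
  have hC0 : 0 ≤ C := by
    have := (norm_nonneg _).trans (hC 0)
    simpa using this
  set c : ℝ := h.re / (2 * δ) with hc
  have hcp : 0 < c := by
    have : 0 < h.re := by linarith
    positivity
  have hint : IntegrableOn (fun y : ℝ => C * Real.exp (c * (3 / 2)) * (1 + 8 / c ^ 2) *
      Real.exp (-(c / 2) * y)) (Ioi 0) :=
    (exp_neg_integrableOn_Ioi 0 (by positivity : 0 < c / 2)).const_mul _
  refine Integrable.mono' hint ?_ ?_
  · have h1 : Continuous fun y : ℝ => w (I * y) * cexp (Ev δ h (I * y)) := by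
      have h2 := continuous_Ev δ h
      have h3 : Continuous fun y : ℝ => I * (y : ℂ) := by fun_prop
      exact (hw.comp h3).mul (Complex.continuous_exp.comp (h2.comp h3))
    exact h1.aestronglyMeasurable
  · refine (ae_restrict_iff' measurableSet_Ioi).2 (Filter.Eventually.of_forall fun y hy => ?_)
    have hy0 : 0 < y := hy
    rw [norm_mul]
    have h1 := rv_decay hδ ha hs hs3 hy0
    rw [← hc] at h1
    have h2 : y ^ 2 ≤ 8 / c ^ 2 * Real.exp (c / 2 * y) := by
      have h3 := Real.quadratic_le_exp_of_nonneg (x := c / 2 * y) (by positivity)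
      have h4 : (c / 2 * y) ^ 2 / 2 ≤ Real.exp (c / 2 * y) := by
        have : 0 ≤ c / 2 * y := by positivity
        linarith
      have h5 : y ^ 2 = 8 / c ^ 2 * ((c / 2 * y) ^ 2 / 2) := by
        field_simp
        ring
      rw [h5]
      exact mul_le_mul_of_nonneg_left h4 (by positivity)
    have h3 : 1 ≤ Real.exp (c / 2 * y) := Real.one_le_exp (by positivity)
    have h4 : 1 + y ^ 2 ≤ (1 + 8 / c ^ 2) * Real.exp (c / 2 * y) := by linarith
    calc ‖w (I * y)‖ * ‖cexp (Ev δ h (I * y))‖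
        ≤ (C * (1 + y ^ 2)) * Real.exp (-(c * (y - 3 / 2))) :=
          mul_le_mul (hC y) h1 (norm_nonneg _) (by positivity)
      _ ≤ (C * ((1 + 8 / c ^ 2) * Real.exp (c / 2 * y))) * Real.exp (-(c * (y - 3 / 2))) := by
          gcongr
      _ = C * Real.exp (c * (3 / 2)) * (1 + 8 / c ^ 2) * Real.exp (-(c / 2) * y) := by
          have h5 : Real.exp (c / 2 * y) * Real.exp (-(c * (y - 3 / 2))) =
              Real.exp (c * (3 / 2)) * Real.exp (-(c / 2) * y) := by
            rw [← Real.exp_add, ← Real.exp_add]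
            congr 1
            ring
          linear_combination C * (1 + 8 / c ^ 2) * h5

private theorem rv_int2 {h : ℂ} {δ : ℝ} (hδ : 0 < δ) (hs : 0 < h.im) :
    IntegrableOn (fun y : ℝ => cexp (Ev2 δ h (I * y))) (Ioi 0) := by
  have hint : IntegrableOn (fun y : ℝ => Real.exp (-(h.im / (2 * δ)) * y ^ 2)) (Ioi 0) :=
    (integrable_exp_neg_mul_sq (by positivity)).integrableOn
  refine Integrable.mono' hint ?_ ?_
  · have h2 := continuous_Ev2 δ h
    have h3 : Continuous fun y : ℝ => I * (y : ℂ) := by fun_prop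
    exact (Complex.continuous_exp.comp (h2.comp h3)).aestronglyMeasurable
  · refine Filter.Eventually.of_forall fun y => ?_
    rw [norm_exp_Ev2 hδ, vert_quad]
    refine Real.exp_le_exp.2 (le_of_eq ?_)
    field_simp

private theorem rv_norm (h : ℂ) : (3 * h.re + 4 * h.im) / 5 ≤ ‖h‖ := by
  have h1 : ‖h‖ ^ 2 = h.re ^ 2 + h.im ^ 2 := by
    rw [← Complex.normSq_eq_norm_sq, Complex.normSq_apply]
    ring
  refine le_of_sq_le_sq ?_ (norm_nonneg _)
  rw [h1]
  nlinarith [sq_nonneg (4 * h.re - 3 * h.im)]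

theorem vert_J {h : ℂ} {δ : ℝ} (hδ : 0 < δ) (hδ2 : δ ≤ 2 / 25) (ha : 97 / 100 ≤ h.re) (hs : 0 < h.im)
    (hs3 : h.im ≤ 78 / 25 * h.re) :
    ‖(∫ y in Ioi (0 : ℝ), cexp (Ev δ h (I * y))) - ∫ y in Ioi (0 : ℝ), cexp (Ev2 δ h (I * y))‖ ≤
      ‖h‖ * δ * (100 / (243 * h.im ^ 2)) := by
  have hi1 : IntegrableOn (fun y : ℝ => cexp (Ev δ h (I * y))) (Ioi 0) := by
    have := vert_integrable hδ ha hs hs3 (w := fun _ => 1) continuous_const (C := 1) (fun y => by
      rw [norm_one]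
      nlinarith [sq_nonneg y])
    simpa using this
  have hi2 := rv_int2 hδ hs (h := h)
  rw [← integral_sub hi1 hi2]
  have ha0 : 0 < h.re := by linarith
  set a := h.re with hadef
  set s := h.im with hsdef
  set b : ℝ := 9 * s / (20 * δ) with hb
  have hbp : 0 < b := by positivity
  set c : ℝ := a / (2 * δ) with hc
  have hcp : 0 < c := by positivity
  set E0 : ℝ := Real.exp (-(81 * s / (80 * δ))) with hE0
  have hE0p : 0 < E0 := Real.exp_pos _
  have h1 : ∀ y, HasDerivAt (fun y : ℝ => -(‖h‖ / (6 * δ)) * ((1 + b * y ^ 2) * Real.exp (-b * y ^ 2)) / (2 * b ^ 2))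
      (‖h‖ / δ * (y ^ 3 / 6) * Real.exp (-b * y ^ 2)) y := by
    intro y
    have e1 : HasDerivAt (fun y : ℝ => y ^ 2) (2 * y) y := by
      simpa using hasDerivAt_pow 2 y
    have e2 := (e1.const_mul (-b)).exp
    have e3 := (e1.const_mul b).const_add 1
    have e4 := ((e3.mul e2).const_mul (-(‖h‖ / (6 * δ)))).div_const (2 * b ^ 2)
    refine e4.congr_deriv ?_
    field_simp
    ring
  have h2 : ∀ y, HasDerivAt (fun y : ℝ => -(E0 / c) * Real.exp (-(c * (y - 3 / 2))) -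
      2 / 3 * (δ / s) * Real.exp (-(s / (2 * δ)) * y ^ 2))
      (E0 * Real.exp (-(c * (y - 3 / 2))) + 2 / 3 * y * Real.exp (-(s / (2 * δ)) * y ^ 2)) y := by
    intro y
    have e1 : HasDerivAt (fun y : ℝ => y ^ 2) (2 * y) y := by
      simpa using hasDerivAt_pow 2 y
    have e2 := ((e1.const_mul (-(s / (2 * δ)))).exp).const_mul (2 / 3 * (δ / s))
    have e3 : HasDerivAt (fun y : ℝ => -(c * (y - 3 / 2))) (-(c * 1)) y :=
      (((hasDerivAt_id y).sub_const (3 / 2)).const_mul c).neg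
    have e4 := (e3.exp).const_mul (-(E0 / c))
    refine (e4.sub e2).congr_deriv ?_
    field_simp
    ring
  have hlim : Filter.Tendsto (fun y : ℝ => -(E0 / c) * Real.exp (-(c * (y - 3 / 2))) -
      2 / 3 * (δ / s) * Real.exp (-(s / (2 * δ)) * y ^ 2)) Filter.atTop (nhds 0) := by
    have e1 : Filter.Tendsto (fun y : ℝ => -(c * (y - 3 / 2))) Filter.atTop Filter.atBot := by
      have : (fun y : ℝ => -(c * (y - 3 / 2))) = fun y => (-c) * y + c * (3 / 2) := by
        funext y; ring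
      rw [this]
      exact Filter.tendsto_atBot_add_const_right _ _
        (Filter.tendsto_id.const_mul_atTop_of_neg (by linarith))
    have e2 : Filter.Tendsto (fun y : ℝ => -(s / (2 * δ)) * y ^ 2) Filter.atTop Filter.atBot :=
      (Filter.tendsto_pow_atTop two_ne_zero).const_mul_atTop_of_neg (by
        have : 0 < s / (2 * δ) := by positivity
        linarith)
    have e3 := (Real.tendsto_exp_atBot.comp e1).const_mul (-(E0 / c))
    have e4 := (Real.tendsto_exp_atBot.comp e2).const_mul (2 / 3 * (δ / s))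
    have e5 := e3.sub e4
    simpa using e5
  have hA : (∫ y in (0 : ℝ)..(3 / 2), ‖h‖ / δ * (y ^ 3 / 6) * Real.exp (-b * y ^ 2)) ≤
      ‖h‖ / (12 * δ * b ^ 2) * (1 - (1 + b * (3 / 2) ^ 2) * Real.exp (-b * (3 / 2) ^ 2)) := by
    rw [intervalIntegral.integral_eq_sub_of_hasDerivAt (fun y _ => h1 y)
      (Continuous.intervalIntegrable (by fun_prop) _ _)]
    refine le_of_eq ?_
    simp only [zero_pow two_ne_zero, mul_zero, Real.exp_zero]
    field_simp
    ring
  have key := rv_split (hi1.sub hi2) (T := 3 / 2) (by norm_num)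
    (φ := fun y => ‖h‖ / δ * (y ^ 3 / 6) * Real.exp (-b * y ^ 2))
    (by fun_prop) hA h2 (fun y hy => by
      have : 0 < y := by linarith
      positivity) hlim
    (fun y hy0 hy1 => by
      have m1 : ‖cexp (Ev δ h (I * y))‖ ≤ Real.exp (-b * y ^ 2) := by
        rw [norm_exp_Ev hδ]
        refine Real.exp_le_exp.2 ?_
        have e1 := vert_height hy0.le hy1 ha0 hs hs3
        rw [neg_mul, neg_le_neg_iff, hb, div_mul_eq_mul_div, div_le_div_iff₀ (by positivity) hδ]
        have e2 := mul_le_mul_of_nonneg_right e1 hδ.le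
        linarith
      have m2 : ‖cexp (Ev2 δ h (I * y))‖ ≤ Real.exp (-b * y ^ 2) := by
        rw [norm_exp_Ev2 hδ, vert_quad]
        refine Real.exp_le_exp.2 ?_
        rw [neg_mul, neg_le_neg_iff, hb, div_mul_eq_mul_div, div_le_div_iff₀ (by positivity) hδ]
        have e2 : 0 ≤ s * y ^ 2 * δ := by positivity
        linarith
      have m3 := norm_exp_sub_exp_le _ _ m1 m2
      refine m3.trans ?_
      rw [norm_Ev_sub_Ev2 hδ]
      have m4 := vert_g3 hy0.le
      gcongr)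
    (fun y hy => by
      have hy0 : 0 < y := by linarith
      refine (norm_sub_le _ _).trans (add_le_add ?_ ?_)
      · rw [norm_exp_Ev hδ, hE0, ← Real.exp_add]
        refine Real.exp_le_exp.2 ?_
        have e1 := vert_far hy.le ha0 hs hs3
        have e2 : 81 * s / (80 * δ) + c * (y - 3 / 2) ≤ ht h (I * y) / δ := by
          rw [hc, le_div_iff₀ hδ]
          have e3 : (81 * s / (80 * δ) + a / (2 * δ) * (y - 3 / 2)) * δ =
              81 / 80 * s + a / 2 * (y - 3 / 2) := by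
            field_simp
          rw [e3]
          linarith
        linarith
      · rw [norm_exp_Ev2 hδ, vert_quad]
        have e1 : Real.exp (-(s * y ^ 2 / 2 / δ)) = Real.exp (-(s / (2 * δ)) * y ^ 2) := by
          congr 1
          field_simp
        rw [e1]
        have e2 : 1 ≤ 2 / 3 * y := by linarith
        have e3 := Real.exp_pos (-(s / (2 * δ)) * y ^ 2)
        nlinarith)
  refine key.trans ?_
  have hT1 : b * (3 / 2) ^ 2 = 81 * s / (80 * δ) := by
    rw [hb]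
    field_simp
    ring
  have hE1 : Real.exp (-b * (3 / 2) ^ 2) = E0 := by
    rw [hE0, neg_mul, hT1]
  have hE2 : Real.exp (-(s / (2 * δ)) * (3 / 2) ^ 2) ≤ E0 := by
    rw [hE0]
    refine Real.exp_le_exp.2 ?_
    have e1 : -(s / (2 * δ)) * (3 / 2) ^ 2 = -(90 * s / (80 * δ)) := by
      field_simp
      ring
    rw [e1]
    have e2 : 81 * s / (80 * δ) ≤ 90 * s / (80 * δ) := by
      gcongr
      norm_num
    linarith
  have hE3 : Real.exp (-(c * (3 / 2 - 3 / 2))) = 1 := by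
    rw [sub_self, mul_zero, neg_zero, Real.exp_zero]
  rw [hE1, hE3, hT1]
  have hn := rv_norm h
  have f1 : ‖h‖ / (12 * δ * b ^ 2) = ‖h‖ * δ * (100 / (243 * s ^ 2)) := by
    rw [hb]
    field_simp
    ring
  have f2 : ‖h‖ / (12 * δ * b ^ 2) * (81 * s / (80 * δ)) = 5 / 12 * ‖h‖ / s := by
    rw [hb]
    field_simp
    ring
  have f3 : E0 / c + 2 / 3 * (δ / s) * E0 ≤ 5 / 12 * ‖h‖ / s * E0 := by
    have g1 : 1 / c + 2 / 3 * (δ / s) ≤ 5 / 12 * ‖h‖ / s := by
      rw [hc, le_div_iff₀ hs]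
      have g2 : (1 / (a / (2 * δ)) + 2 / 3 * (δ / s)) * s = 2 * δ * (s / a) + 2 / 3 * δ := by
        field_simp
      rw [g2]
      have g3 : 2 * δ * (s / a) ≤ 4 / 25 * (s / a) := by
        have : 0 ≤ s / a := by positivity
        nlinarith
      have g4 : s / a ≤ s * (100 / 97) := by
        rw [div_le_iff₀ ha0]
        nlinarith
      nlinarith
    have g5 := mul_le_mul_of_nonneg_right g1 hE0p.le
    calc E0 / c + 2 / 3 * (δ / s) * E0 = (1 / c + 2 / 3 * (δ / s)) * E0 := by ring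
      _ ≤ _ := g5
  have f4 : 2 / 3 * (δ / s) * Real.exp (-(s / (2 * δ)) * (3 / 2) ^ 2) ≤ 2 / 3 * (δ / s) * E0 := by
    gcongr
  have f5 : 0 ≤ ‖h‖ / (12 * δ * b ^ 2) * E0 := by positivity
  have f6 : ‖h‖ / (12 * δ * b ^ 2) * (1 - (1 + 81 * s / (80 * δ)) * E0) =
      ‖h‖ * δ * (100 / (243 * s ^ 2)) - ‖h‖ / (12 * δ * b ^ 2) * E0 - 5 / 12 * ‖h‖ / s * E0 := by
    rw [← f1, ← f2]
    ring
  rw [f6]
  linarith

theorem vert_K {h : ℂ} {δ : ℝ} (hδ : 0 < δ) (hδ2 : δ ≤ 2 / 25) (ha : 97 / 100 ≤ h.re) (hs : 0 < h.im)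
    (hs3 : h.im ≤ 78 / 25 * h.re) :
    ‖∫ y in Ioi (0 : ℝ), gg (I * y) * cexp (Ev δ h (I * y))‖ ≤
      7394 / 10000 * (δ / h.im * √(δ / h.im)) := by
  have hi1 : IntegrableOn (fun y : ℝ => gg (I * y) * cexp (Ev δ h (I * y))) (Ioi 0) := by
    refine vert_integrable hδ ha hs hs3 continuous_gg (C := 3) (fun y => ?_)
    unfold gg
    refine (norm_sub_le _ _).trans ?_
    have e1 : ‖cexp (I * y) - 1‖ ≤ 2 := by
      refine (norm_sub_le _ _).trans ?_
      rw [norm_one, mul_comm I (y : ℂ), Complex.norm_exp_ofReal_mul_I]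
      norm_num
    have e2 : ‖I * (y : ℂ)‖ ≤ 1 + y ^ 2 := by
      rw [norm_mul, Complex.norm_I, one_mul, Complex.norm_real, Real.norm_eq_abs, abs_le]
      constructor <;> nlinarith [sq_nonneg (y + 1 / 2), sq_nonneg (y - 1 / 2)]
    nlinarith [sq_nonneg y]
  have ha0 : 0 < h.re := by linarith
  set a := h.re with hadef
  set s := h.im with hsdef
  set b : ℝ := 9 * s / (20 * δ) with hb
  have hbp : 0 < b := by positivity
  set c : ℝ := a / (2 * δ) with hc
  have hcp : 97 / 16 ≤ c := by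
    rw [hc, le_div_iff₀ (by positivity)]
    nlinarith
  set E0 : ℝ := Real.exp (-(81 * s / (80 * δ))) with hE0
  have hE0p : 0 < E0 := Real.exp_pos _
  set E1 : ℝ := Real.exp (-(a / (5 * δ))) with hE1
  have hE1p : 0 < E1 := Real.exp_pos _
  -- the first part
  have hA : (∫ y in (0 : ℝ)..(3 / 2), y ^ 2 / 2 * Real.exp (-b * y ^ 2)) ≤
      1 / (4 * b) * (√(Real.pi / b) / 2 - 3 / 2 * Real.exp (-b * (3 / 2) ^ 2)) := by
    have d1 : ∀ y, HasDerivAt (fun y : ℝ => y * Real.exp (-b * y ^ 2))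
        (Real.exp (-b * y ^ 2) - 2 * b * y ^ 2 * Real.exp (-b * y ^ 2)) y := by
      intro y
      have e1 : HasDerivAt (fun y : ℝ => y ^ 2) (2 * y) y := by
        simpa using hasDerivAt_pow 2 y
      have e2 := (hasDerivAt_id y).mul ((e1.const_mul (-b)).exp)
      refine e2.congr_deriv ?_
      simp only [id]
      ring
    have c1 : Continuous fun y : ℝ => Real.exp (-b * y ^ 2) := by fun_prop
    have c2 : Continuous fun y : ℝ => Real.exp (-b * y ^ 2) - 2 * b * y ^ 2 * Real.exp (-b * y ^ 2) := by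
      fun_prop
    have e1 : (∫ y in (0 : ℝ)..(3 / 2), (Real.exp (-b * y ^ 2) - 2 * b * y ^ 2 * Real.exp (-b * y ^ 2))) =
        3 / 2 * Real.exp (-b * (3 / 2) ^ 2) := by
      rw [intervalIntegral.integral_eq_sub_of_hasDerivAt (fun y _ => d1 y) (c2.intervalIntegrable _ _)]
      simp
    have e2 : (∫ y in (0 : ℝ)..(3 / 2), y ^ 2 / 2 * Real.exp (-b * y ^ 2)) =
        1 / (4 * b) * ((∫ y in (0 : ℝ)..(3 / 2), Real.exp (-b * y ^ 2)) -
          3 / 2 * Real.exp (-b * (3 / 2) ^ 2)) := by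
      rw [← e1, ← intervalIntegral.integral_sub (c1.intervalIntegrable _ _) (c2.intervalIntegrable _ _),
        ← intervalIntegral.integral_const_mul]
      refine intervalIntegral.integral_congr fun y _ => ?_
      field_simp
      ring
    rw [e2]
    have e3 : (∫ y in (0 : ℝ)..(3 / 2), Real.exp (-b * y ^ 2)) ≤ √(Real.pi / b) / 2 := by
      rw [← integral_gaussian_Ioi, intervalIntegral.integral_of_le (by norm_num)]
      refine setIntegral_mono_set (integrable_exp_neg_mul_sq hbp).integrableOn ?_ ?_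
      · exact Filter.Eventually.of_forall fun y => (Real.exp_pos _).le
      · exact (Ioc_subset_Ioi_self).eventuallyLE
    gcongr
  obtain ⟨d, hd⟩ : ∃ d, d = c - 4 / 3 := ⟨_, rfl⟩
  have hc43 : 0 < d := by linarith
  have h2 : ∀ y, HasDerivAt (fun y : ℝ => -(9 / 8 * (E0 * E1) / d) * Real.exp (-(d * (y - 3 / 2))))
      (9 / 8 * (E0 * E1) * Real.exp (-(d * (y - 3 / 2)))) y := by
    intro y
    have e3 : HasDerivAt (fun y : ℝ => -(d * (y - 3 / 2))) (-(d * 1)) y :=
      (((hasDerivAt_id y).sub_const (3 / 2)).const_mul d).neg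
    have e4 := (e3.exp).const_mul (-(9 / 8 * (E0 * E1) / d))
    refine e4.congr_deriv ?_
    field_simp
  have hlim : Filter.Tendsto (fun y : ℝ => -(9 / 8 * (E0 * E1) / d) *
      Real.exp (-(d * (y - 3 / 2)))) Filter.atTop (nhds 0) := by
    have e1 : Filter.Tendsto (fun y : ℝ => -(d * (y - 3 / 2))) Filter.atTop Filter.atBot := by
      have : (fun y : ℝ => -(d * (y - 3 / 2))) =
          fun y => (-d) * y + d * (3 / 2) := by
        funext y; ring
      rw [this]
      exact Filter.tendsto_atBot_add_const_right _ _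
        (Filter.tendsto_id.const_mul_atTop_of_neg (by linarith))
    have e3 := (Real.tendsto_exp_atBot.comp e1).const_mul (-(9 / 8 * (E0 * E1) / d))
    simpa using e3
  have key := rv_split hi1 (T := 3 / 2) (by norm_num)
    (φ := fun y => y ^ 2 / 2 * Real.exp (-b * y ^ 2)) (by fun_prop) hA h2
    (fun y _ => by positivity) hlim
    (fun y hy0 hy1 => by
      rw [norm_mul]
      refine mul_le_mul (vert_gg hy0.le) ?_ (norm_nonneg _) (by positivity)
      rw [norm_exp_Ev hδ]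
      refine Real.exp_le_exp.2 ?_
      have e1 := vert_height hy0.le hy1 ha0 hs hs3
      rw [neg_mul, neg_le_neg_iff, hb, div_mul_eq_mul_div, div_le_div_iff₀ (by positivity) hδ]
      have e2 := mul_le_mul_of_nonneg_right e1 hδ.le
      linarith)
    (fun y hy => by
      have hy0 : 0 < y := by linarith
      rw [norm_mul]
      have e1 : y ^ 2 / 2 ≤ 9 / 8 * Real.exp (4 / 3 * (y - 3 / 2)) := by
        have g1 : 2 / 3 * y ≤ Real.exp (2 / 3 * (y - 3 / 2)) := by
          have := Real.add_one_le_exp (2 / 3 * (y - 3 / 2))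
          linarith
        have g2 : Real.exp (4 / 3 * (y - 3 / 2)) = Real.exp (2 / 3 * (y - 3 / 2)) ^ 2 := by
          rw [← Real.exp_nat_mul]
          congr 1
          push_cast
          ring
        rw [g2]
        have g3 := pow_le_pow_left₀ (by positivity) g1 2
        nlinarith
      have e2 : ‖cexp (Ev δ h (I * y))‖ ≤ E0 * E1 * Real.exp (-(c * (y - 3 / 2))) := by
        rw [norm_exp_Ev hδ, hE0, hE1, ← Real.exp_add, ← Real.exp_add]
        refine Real.exp_le_exp.2 ?_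
        have g1 := vert_far hy.le ha0 hs hs3
        have g2 : 81 * s / (80 * δ) + a / (5 * δ) + c * (y - 3 / 2) ≤ ht h (I * y) / δ := by
          rw [hc, le_div_iff₀ hδ]
          have g3 : (81 * s / (80 * δ) + a / (5 * δ) + a / (2 * δ) * (y - 3 / 2)) * δ =
              81 / 80 * s + a / 5 + a / 2 * (y - 3 / 2) := by
            field_simp
          rw [g3]
          exact g1
        linarith
      calc ‖gg (I * y)‖ * ‖cexp (Ev δ h (I * y))‖
          ≤ (y ^ 2 / 2) * (E0 * E1 * Real.exp (-(c * (y - 3 / 2)))) :=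
            mul_le_mul (vert_gg hy0.le) e2 (norm_nonneg _) (by positivity)
        _ ≤ (9 / 8 * Real.exp (4 / 3 * (y - 3 / 2))) * (E0 * E1 * Real.exp (-(c * (y - 3 / 2)))) := by
            gcongr
        _ = 9 / 8 * (E0 * E1) * Real.exp (-(d * (y - 3 / 2))) := by
            have g4 : Real.exp (4 / 3 * (y - 3 / 2)) * Real.exp (-(c * (y - 3 / 2))) =
                Real.exp (-(d * (y - 3 / 2))) := by
              rw [← Real.exp_add, hd]
              congr 1
              ring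
            linear_combination 9 / 8 * (E0 * E1) * g4)
  refine key.trans ?_
  have hT1 : b * (3 / 2) ^ 2 = 81 * s / (80 * δ) := by
    rw [hb]
    field_simp
    ring
  have hE2 : Real.exp (-b * (3 / 2) ^ 2) = E0 := by
    rw [hE0, neg_mul, hT1]
  have hE3 : Real.exp (-(d * (3 / 2 - 3 / 2))) = 1 := by
    rw [sub_self, mul_zero, neg_zero, Real.exp_zero]
  rw [hE2, hE3]
  -- `e^{-a/(5δ)} ≤ 9/100`
  have hE4 : E1 ≤ 9 / 100 := by
    have g1 : (97 : ℝ) / 40 ≤ a / (5 * δ) := by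
      rw [le_div_iff₀ (by positivity)]
      nlinarith
    have g2 : E1 ≤ Real.exp (-(97 / 40)) := by
      rw [hE1]
      exact Real.exp_le_exp.2 (by linarith)
    refine g2.trans ?_
    rw [Real.exp_neg, inv_le_comm₀ (Real.exp_pos _) (by norm_num)]
    have g3 : Real.exp (97 / 40) = Real.exp (97 / 640) ^ 16 := by
      rw [← Real.exp_nat_mul]
      congr 1
      norm_num
    rw [g3]
    have g4 : 1 + 97 / 640 + (97 / 640) ^ 2 / 2 ≤ Real.exp (97 / 640) :=
      Real.quadratic_le_exp_of_nonneg (by norm_num)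
    have g5 := pow_le_pow_left₀ (by norm_num) g4 16
    refine le_trans ?_ g5
    norm_num
  -- the tail is absorbed
  have f1 : 9 / 8 * (E0 * E1) / d ≤ 1 / (4 * b) * (3 / 2 * E0) := by
    rw [div_le_iff₀ hc43]
    have g1 : 9 / 8 * E1 ≤ 1 / (4 * b) * (3 / 2) * d := by
      have g2 : 9 / 8 * E1 ≤ 81 / 800 := by linarith
      refine g2.trans ?_
      have g3 : 1 / (4 * b) * (3 / 2) = 5 / 6 * (δ / s) := by
        rw [hb]
        field_simp
        norm_num
      rw [g3]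
      have g4 : 7800 / 10000 * c ≤ d := by
        linarith
      have g5 : 5 / 6 * (δ / s) * (7800 / 10000 * c) ≤ 5 / 6 * (δ / s) * d := by
        gcongr
      refine le_trans ?_ g5
      have g6 : 5 / 6 * (δ / s) * (7800 / 10000 * c) = 39000 / 120000 * (a / s) := by
        rw [hc]
        field_simp
        ring
      rw [g6]
      have g7 : 25 / 78 ≤ a / s := by
        rw [le_div_iff₀ hs]
        linarith
      linarith
    have g8 := mul_le_mul_of_nonneg_right g1 hE0p.le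
    calc 9 / 8 * (E0 * E1) = 9 / 8 * E1 * E0 := by ring
      _ ≤ _ := g8
      _ = _ := by ring
  have f2 : 1 / (4 * b) * (√(Real.pi / b) / 2) ≤ 7394 / 10000 * (δ / s * √(δ / s)) := by
    have g1 : √(Real.pi / b) ≤ 266184 / 100000 * √(δ / s) := by
      have g2 : Real.pi / b = 20 * Real.pi / 9 * (δ / s) := by
        rw [hb]
        field_simp
      rw [g2, Real.sqrt_mul (by positivity)]
      refine mul_le_mul_of_nonneg_right ?_ (Real.sqrt_nonneg _)
      rw [Real.sqrt_le_left (by norm_num)]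
      have := Real.pi_lt_d4
      norm_num
      linarith
    have g3 : 1 / (4 * b) * (√(Real.pi / b) / 2) = 5 / 18 * (δ / s) * √(Real.pi / b) := by
      rw [hb]
      field_simp
      ring
    rw [g3]
    calc 5 / 18 * (δ / s) * √(Real.pi / b) ≤ 5 / 18 * (δ / s) * (266184 / 100000 * √(δ / s)) := by
          gcongr
      _ ≤ 7394 / 10000 * (δ / s * √(δ / s)) := by
          have : 0 ≤ δ / s * √(δ / s) := by positivity
          nlinarith
  have f3 : 1 / (4 * b) * (√(Real.pi / b) / 2 - 3 / 2 * E0) =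
      1 / (4 * b) * (√(Real.pi / b) / 2) - 1 / (4 * b) * (3 / 2 * E0) := by ring
  rw [f3]
  linarith

end SokalTI
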