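import Pool.Agent.Lib_MP_af4de1_ti.Geo

/-!
# The tip, `v ≤ 1/5`: expansion of `hL`, `hR`, `Bp`
-/

set_option autoImplicit false

open Complex

namespace SokalTI

open SokalFU

/-- `p / (e^p - 1) = 1 - p/2 + p²/12 + O(p⁴)` -/
theorem hL_expand {p : ℂ} (hp0 : p ≠ 0) (hp : ‖p‖ ≤ 13 / 50) :
    ‖hL p - (1 - p / 2 + p ^ 2 / 12)‖ ≤ ‖p‖ ^ 4 / 400 := by
  have hr0 : 0 < ‖p‖ := norm_pos_iff.2 hp0
  set r : ℝ := ‖p‖ with hr
  have hp1 : ‖p‖ ≤ 1 := by rw [← hr]; linarith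
  -- exponential
  have h6 := Complex.exp_bound hp1 (n := 6) (by norm_num)
  set R : ℂ := cexp p - ∑ m ∈ Finset.range 6, p ^ m / (m.factorial : ℂ) with hR
  have hRb : ‖R‖ ≤ r ^ 6 / 617 := by
    refine h6.trans ?_
    rw [← hr]
    have : (((6 : ℕ).succ : ℝ) * (((6 : ℕ).factorial : ℝ) * ((6 : ℕ) : ℝ))⁻¹) ≤ 1 / 617 := by
      norm_num [Nat.factorial]
    calc r ^ 6 * (((6 : ℕ).succ : ℝ) * (((6 : ℕ).factorial : ℝ) * ((6 : ℕ) : ℝ))⁻¹)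
        ≤ r ^ 6 * (1 / 617) := by gcongr
      _ = r ^ 6 / 617 := by ring
  have hexp : cexp p - 1 = p + p ^ 2 / 2 + p ^ 3 / 6 + p ^ 4 / 24 + p ^ 5 / 120 + R := by
    rw [hR]
    simp only [Finset.sum_range_succ, Finset.sum_range_zero, Nat.factorial]
    push_cast
    ring
  -- lower bound for `e^p - 1`
  have hlow : 17 / 20 * r ≤ ‖cexp p - 1‖ := by
    have h1 : ‖p ^ 2 / 2 + p ^ 3 / 6 + p ^ 4 / 24 + p ^ 5 / 120 + R‖ ≤
        r ^ 2 / 2 + r ^ 3 / 6 + r ^ 4 / 24 + r ^ 5 / 120 + r ^ 6 / 617 := by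
      refine (norm_add_le _ _).trans (add_le_add ?_ hRb)
      refine (norm_add_le _ _).trans (add_le_add ?_ ?_)
      · refine (norm_add_le _ _).trans (add_le_add ?_ ?_)
        · refine (norm_add_le _ _).trans (add_le_add ?_ ?_) <;>
            simp [norm_pow, ← hr]
        · simp [norm_pow, ← hr]
      · simp [norm_pow, ← hr]
    have h2 : cexp p - 1 = p + (p ^ 2 / 2 + p ^ 3 / 6 + p ^ 4 / 24 + p ^ 5 / 120 + R) := by
      rw [hexp]; ring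
    have h3 := norm_sub_le_norm_add p (p ^ 2 / 2 + p ^ 3 / 6 + p ^ 4 / 24 + p ^ 5 / 120 + R)
    rw [← h2] at h3
    have h4 : r ^ 2 / 2 + r ^ 3 / 6 + r ^ 4 / 24 + r ^ 5 / 120 + r ^ 6 / 617 ≤ 3 / 20 * r := by
      have h5 : r / 2 + r ^ 2 / 6 + r ^ 3 / 24 + r ^ 4 / 120 + r ^ 5 / 617 ≤ 3 / 20 := by
        have e2 : r ^ 2 ≤ (13 / 50) ^ 2 := by gcongr
        have e3 : r ^ 3 ≤ (13 / 50) ^ 3 := by gcongr
        have e4 : r ^ 4 ≤ (13 / 50) ^ 4 := by gcongr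
        have e5 : r ^ 5 ≤ (13 / 50) ^ 5 := by gcongr
        norm_num at e2 e3 e4 e5 ⊢
        linarith
      have h6 : r ^ 2 / 2 + r ^ 3 / 6 + r ^ 4 / 24 + r ^ 5 / 120 + r ^ 6 / 617 =
          r * (r / 2 + r ^ 2 / 6 + r ^ 3 / 24 + r ^ 4 / 120 + r ^ 5 / 617) := by ring
      rw [h6, mul_comm (3 / 20 : ℝ)]
      exact mul_le_mul_of_nonneg_left h5 hr0.le
    rw [← hr] at h3
    linarith
  have hne : cexp p - 1 ≠ 0 := by
    intro h0
    rw [h0, norm_zero] at hlow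
    linarith
  have hE : (cexp p - 1) * (1 - p / 2 + p ^ 2 / 12) - p =
      p ^ 5 / 720 - p ^ 6 / 1440 + p ^ 7 / 1440 + R * (1 - p / 2 + p ^ 2 / 12) := by
    rw [hexp]; ring
  have hEb : ‖(cexp p - 1) * (1 - p / 2 + p ^ 2 / 12) - p‖ ≤ 17 / 8000 * r ^ 5 := by
    rw [hE]
    have hT : ‖1 - p / 2 + p ^ 2 / 12‖ ≤ 1 + r / 2 + r ^ 2 / 12 := by
      refine (norm_add_le _ _).trans (add_le_add ((norm_sub_le _ _).trans ?_) ?_) <;>
        simp [norm_pow, ← hr]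
    have h1 : ‖p ^ 5 / 720 - p ^ 6 / 1440 + p ^ 7 / 1440 + R * (1 - p / 2 + p ^ 2 / 12)‖ ≤
        r ^ 5 / 720 + r ^ 6 / 1440 + r ^ 7 / 1440 + r ^ 6 / 617 * (1 + r / 2 + r ^ 2 / 12) := by
      refine (norm_add_le _ _).trans (add_le_add ?_ ?_)
      · refine (norm_add_le _ _).trans (add_le_add ((norm_sub_le _ _).trans ?_) ?_) <;>
          simp [norm_pow, ← hr]
      · rw [norm_mul]
        exact mul_le_mul hRb hT (norm_nonneg _) (by positivity)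
    refine h1.trans ?_
    have h2 : 1 / 720 + r / 1440 + r ^ 2 / 1440 + r / 617 * (1 + r / 2 + r ^ 2 / 12) ≤ 17 / 8000 := by
      have e2 : r ^ 2 ≤ (13 / 50) ^ 2 := by gcongr
      have e3 : r ^ 3 ≤ (13 / 50) ^ 3 := by gcongr
      norm_num at e2 e3
      nlinarith
    have h3 : r ^ 5 / 720 + r ^ 6 / 1440 + r ^ 7 / 1440 + r ^ 6 / 617 * (1 + r / 2 + r ^ 2 / 12) =
        r ^ 5 * (1 / 720 + r / 1440 + r ^ 2 / 1440 + r / 617 * (1 + r / 2 + r ^ 2 / 12)) := by ring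
    rw [h3, mul_comm (17 / 8000 : ℝ)]
    exact mul_le_mul_of_nonneg_left h2 (by positivity)
  have hfin : hL p - (1 - p / 2 + p ^ 2 / 12) =
      -(((cexp p - 1) * (1 - p / 2 + p ^ 2 / 12) - p) / (cexp p - 1)) := by
    unfold hL
    field_simp
    ring
  rw [hfin, norm_neg, norm_div, div_le_iff₀ (by linarith [mul_pos (by norm_num : (0:ℝ) < 17/20) hr0])]
  refine hEb.trans ?_
  calc 17 / 8000 * r ^ 5 = r ^ 4 / 400 * (17 / 20 * r) := by ring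
    _ ≤ r ^ 4 / 400 * ‖cexp p - 1‖ := by gcongr

end SokalTI
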