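import Pool.Agent.Lib_MP_af4de1_ti.Encl
import Pool.Agent.Lib_MP_af4de1_ti.CEx
import Pool.Agent.Lib_MP_af4de1_fu.UReg

/-!
# (W4) The discs covered by `wmap`

`WNum`: numerical data of a ball `|p - p_c| ≤ r`, with `H ≈ h_L(p_c)`, such that the ball lies in the window
`P_(2/25)` up to `|w| ≤ 1`, and its image contains all `w = w(z)`, `|z - z_c| ≤ ep`.
-/

set_option autoImplicit false

namespace SokalTI

open Complex SokalFU Metric Set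

theorem norm_mul_sub_one {x y : ℂ} {a b : ℝ} (hx : ‖x - 1‖ ≤ a) (hy : ‖y - 1‖ ≤ b) :
    ‖x * y - 1‖ ≤ (1 + a) * (1 + b) - 1 := by
  have h : x * y - 1 = (x - 1) * (y - 1) + (x - 1) + (y - 1) := by ring
  have ha : 0 ≤ a := (norm_nonneg _).trans hx
  rw [h]
  refine (norm_add₃_le).trans ?_
  rw [norm_mul]
  have := mul_le_mul hx hy (norm_nonneg _) ha
  linarith

/-- A function with derivative close to `D` on a ball covers a ball. -/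
theorem cover_of_deriv {f f' : ℂ → ℂ} {D pc : ℂ} {r θ : ℝ} (hr : 0 ≤ r) (hθ : 0 ≤ θ) (hD : D ≠ 0)
    (hf : ∀ p ∈ closedBall pc r, HasDerivAt f (f' p) p)
    (hf' : ∀ p ∈ closedBall pc r, ‖f' p - D‖ ≤ θ * ‖D‖) :
    SurjOn f (closedBall pc r) (closedBall (f pc) ((1 - θ) * ‖D‖ * r)) := by
  have hDn : 0 < ‖D‖ := norm_pos_iff.mpr hD
  set T : ℂ →L[ℂ] ℂ := D • ContinuousLinearMap.id ℂ ℂ with hT
  have hT' : ∀ x, T x = D * x := fun x => by simp [hT]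
  let c : NNReal := ⟨θ * ‖D‖, by positivity⟩
  have hc : (c : ℝ) = θ * ‖D‖ := rfl
  have happ : ApproximatesLinearOn f T (closedBall pc r) c := by
    intro x hx y hy
    have h1 : ∀ z ∈ closedBall pc r, HasDerivWithinAt (fun z => f z - D * z) (f' z - D) (closedBall pc r) z := by
      intro z hz
      have h2 := (hf z hz).sub ((hasDerivAt_id z).const_mul D)
      rw [mul_one] at h2
      exact h2.hasDerivWithinAt
    have h3 := (convex_closedBall pc r).norm_image_sub_le_of_norm_hasDerivWithin_le h1 hf' hy hx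
    have h4 : f x - f y - T (x - y) = (fun z => f z - D * z) x - (fun z => f z - D * z) y := by
      rw [hT']
      ring
    rw [h4, hc]
    exact h3
  let S : T.NonlinearRightInverse :=
    { toFun := fun y => D⁻¹ * y
      nnnorm := ‖D‖₊⁻¹
      bound' := fun y => by
        rw [norm_mul, norm_inv]
        push_cast
        rfl
      right_inv' := fun y => by
        rw [hT']
        field_simp }
  have h := happ.surjOn_closedBall_of_nonlinearRightInverse S hr (subset_rfl : closedBall pc r ⊆ closedBall pc r)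
  have h5 : (((S.nnnorm : NNReal) : ℝ)⁻¹ - c) * r = (1 - θ) * ‖D‖ * r := by
    rw [hc]
    show (((‖D‖₊⁻¹ : NNReal) : ℝ)⁻¹ - θ * ‖D‖) * r = _
    push_cast
    rw [inv_inv]
    ring
  rw [h5] at h
  exact h

theorem norm_le_of {z : ℂ} {c : ℝ} (hc : 0 ≤ c) (h : z.re ^ 2 + z.im ^ 2 ≤ c ^ 2) : ‖z‖ ≤ c := by
  refine le_of_sq_le_sq ?_ hc
  rw [Complex.sq_norm, Complex.normSq_apply]
  linarith

theorem le_norm_of {z : ℂ} {c : ℝ} (h : c ^ 2 ≤ z.re ^ 2 + z.im ^ 2) : c ≤ ‖z‖ := by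
  refine le_of_sq_le_sq ?_ (norm_nonneg _)
  rw [Complex.sq_norm, Complex.normSq_apply]
  linarith

/-- numerical data of a disc -/
structure WNum (pc H E E2 zc : ℂ)
    (r ρ₀ ρ₁ ρ₂ g g2 g3 lH uH l1 u1 lR uR lp up mE nE nF uz θ ep : ℝ) : Prop where
  hE : ‖cexp pc - E‖ ≤ 1 / 2 ^ 26
  hE2 : ‖cexp (H - I / 25) - E2‖ ≤ 1 / 2 ^ 26
  r0 : 0 ≤ r
  r1 : r ≤ 1
  rr : r < pc.re
  hg : ‖pc - H * (E - 1)‖ ≤ g
  hg2 : ‖1 - H * E‖ ≤ g2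
  hg3 : ‖zc * (I * (2 / 25)) * E2 - H‖ ≤ g3
  hlH : lH ≤ ‖H‖
  huH : ‖H‖ ≤ uH
  hl1 : l1 ≤ ‖1 - H‖
  hu1 : ‖1 - H‖ ≤ u1
  hlR : lR ≤ ‖1 - (H + pc)‖
  huR : ‖1 - (H + pc)‖ ≤ uR
  hlp : lp ≤ ‖pc‖
  hup : ‖pc‖ ≤ up
  hmE : mE ≤ ‖E - 1‖
  hnE : ‖E‖ ≤ nE
  hnF : ‖E2‖ ≤ nF
  huz : ‖zc‖ ≤ uz
  lH0 : 0 < lH
  l10 : 0 < l1
  lR0 : 0 < lR
  lp0 : r < lp
  ρ00 : 0 ≤ ρ₀
  ρ10 : 0 ≤ ρ₁
  ρ20 : 0 ≤ ρ₂
  ρ01 : ρ₀ ≤ 1
  ρ11 : ρ₁ ≤ 1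
  ep0 : 0 ≤ ep
  q0 : 0 < mE - 1 / 2 ^ 26 - (nE + 1 / 2 ^ 26) * (r + r ^ 2)
  f1 : g + uH * (1 / 2 ^ 26) + r * (g2 + uH * (1 / 2 ^ 26)) + uH * ((nE + 1 / 2 ^ 26) * r ^ 2) ≤
    ρ₁ * (mE - 1 / 2 ^ 26 - (nE + 1 / 2 ^ 26) * (r + r ^ 2))
  f2 : g + uH * (1 / 2 ^ 26) + (nE + 1 / 2 ^ 26) * (r * u1 + r ^ 2 + r ^ 2 * (r + uH)) ≤
    ρ₂ * (mE - 1 / 2 ^ 26 - (nE + 1 / 2 ^ 26) * (r + r ^ 2))
  f0 : g + uH * (1 / 2 ^ 26) ≤ ρ₀ * (mE - 1 / 2 ^ 26)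
  θ0 : 0 ≤ θ
  θ2 : θ ≤ 1
  θ1 : (1 + ρ₁ / lH) * (1 + (ρ₁ + ρ₁ ^ 2)) * (1 + ρ₁ / l1) * (1 + ρ₂ / lR) * (1 + r / (lp - r)) - 1 ≤ θ
  mt : g3 + 2 / 25 * ep * (nF + 1 / 2 ^ 26) + 2 / 25 * uz * (1 / 2 ^ 26) + (ρ₀ + (uH + ρ₀) * (ρ₀ + ρ₀ ^ 2)) ≤
    (1 - θ) * (lH * l1 * lR / up) * r
  fB : (pc * (H + pc / 2 - 1)).re + up * ρ₀ + (u1 + ρ₁) * (uR + ρ₂) * r ≤ -(2514 / 10000)
  b1 : r < pc.im
  b2 : pc.im + r ≤ 19 / 5
  b3 : 2 / 5 * pc.im + 7 / 5 * r ≤ pc.re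
  b4 : pc.re + 9 / 5 * r ≤ 4 / 5 * pc.im
  b5 : pc.re + 61 / 50 * r ≤ 32 / 25 + 11 / 50 * (pc.im - 8 / 5)

section
variable {pc H E E2 zc : ℂ}
  {r ρ₀ ρ₁ ρ₂ g g2 g3 lH uH l1 u1 lR uR lp up mE nE nF uz θ ep : ℝ}

theorem WNum.re_ne (h : WNum pc H E E2 zc r ρ₀ ρ₁ ρ₂ g g2 g3 lH uH l1 u1 lR uR lp up mE nE nF uz θ ep)
    {p : ℂ} (hp : p ∈ closedBall pc r) : p.re ≠ 0 := by
  have h1 : |(p - pc).re| ≤ r := (Complex.abs_re_le_norm _).trans (mem_closedBall_iff_norm.1 hp)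
  have h2 := (abs_le.1 h1).1
  rw [Complex.sub_re] at h2
  have := h.rr
  intro h3
  linarith

theorem WNum.encl1 (h : WNum pc H E E2 zc r ρ₀ ρ₁ ρ₂ g g2 g3 lH uH l1 u1 lR uR lp up mE nE nF uz θ ep)
    {p : ℂ} (hp : p ∈ closedBall pc r) : ‖hL p - H‖ ≤ ρ₁ := by
  have hz : ‖p - pc‖ ≤ r := mem_closedBall_iff_norm.1 hp
  have hpz : pc + (p - pc) = p := by ring
  have h1 := encl_L (H := H) (pc := pc) (z := p - pc) (by rw [hpz]; exact h.re_ne hp) h.hE hz h.r1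
  rw [hpz] at h1
  have hr := h.r0
  have hnE := h.hnE
  have hmE := h.hmE
  have huH := h.huH
  have e1 : mE - 1 / 2 ^ 26 - (nE + 1 / 2 ^ 26) * (r + r ^ 2) ≤
      ‖E - 1‖ - 1 / 2 ^ 26 - (‖E‖ + 1 / 2 ^ 26) * (r + r ^ 2) := by
    have := mul_le_mul_of_nonneg_right (add_le_add_left hnE (1 / 2 ^ 26)) (show 0 ≤ r + r ^ 2 by positivity)
    linarith
  have e2 : ‖pc - H * (E - 1)‖ + ‖H‖ * (1 / 2 ^ 26) + r * (‖1 - H * E‖ + ‖H‖ * (1 / 2 ^ 26)) +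
      ‖H‖ * ((‖E‖ + 1 / 2 ^ 26) * r ^ 2) ≤
      g + uH * (1 / 2 ^ 26) + r * (g2 + uH * (1 / 2 ^ 26)) + uH * ((nE + 1 / 2 ^ 26) * r ^ 2) := by
    have := h.hg
    have := h.hg2
    have hu0 : 0 ≤ uH := (norm_nonneg _).trans huH
    gcongr
  have e3 : ‖hL p - H‖ * (mE - 1 / 2 ^ 26 - (nE + 1 / 2 ^ 26) * (r + r ^ 2)) ≤
      ρ₁ * (mE - 1 / 2 ^ 26 - (nE + 1 / 2 ^ 26) * (r + r ^ 2)) :=
    ((mul_le_mul_of_nonneg_left e1 (norm_nonneg _)).trans h1).trans (e2.trans h.f1)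
  exact le_of_mul_le_mul_right e3 h.q0

theorem WNum.encl2 (h : WNum pc H E E2 zc r ρ₀ ρ₁ ρ₂ g g2 g3 lH uH l1 u1 lR uR lp up mE nE nF uz θ ep)
    {p : ℂ} (hp : p ∈ closedBall pc r) : ‖hR p - (H + pc)‖ ≤ ρ₂ := by
  have hz : ‖p - pc‖ ≤ r := mem_closedBall_iff_norm.1 hp
  have hpz : pc + (p - pc) = p := by ring
  have h1 := encl_R (H := H) (pc := pc) (z := p - pc) (by rw [hpz]; exact h.re_ne hp) h.hE hz h.r1
  rw [hpz] at h1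
  have hr := h.r0
  have hnE := h.hnE
  have hmE := h.hmE
  have huH := h.huH
  have hu1 := h.hu1
  have hn0 : 0 ≤ nE := (norm_nonneg _).trans hnE
  have e1 : mE - 1 / 2 ^ 26 - (nE + 1 / 2 ^ 26) * (r + r ^ 2) ≤
      ‖E - 1‖ - 1 / 2 ^ 26 - (‖E‖ + 1 / 2 ^ 26) * (r + r ^ 2) := by
    have := mul_le_mul_of_nonneg_right (add_le_add_left hnE (1 / 2 ^ 26)) (show 0 ≤ r + r ^ 2 by positivity)
    linarith
  have e2 : ‖pc - H * (E - 1)‖ + ‖H‖ * (1 / 2 ^ 26) +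
      (‖E‖ + 1 / 2 ^ 26) * (r * ‖1 - H‖ + r ^ 2 + r ^ 2 * (r + ‖H‖)) ≤
      g + uH * (1 / 2 ^ 26) + (nE + 1 / 2 ^ 26) * (r * u1 + r ^ 2 + r ^ 2 * (r + uH)) := by
    have := h.hg
    gcongr
  have e3 : ‖hR p - (H + pc)‖ * (mE - 1 / 2 ^ 26 - (nE + 1 / 2 ^ 26) * (r + r ^ 2)) ≤
      ρ₂ * (mE - 1 / 2 ^ 26 - (nE + 1 / 2 ^ 26) * (r + r ^ 2)) :=
    ((mul_le_mul_of_nonneg_left e1 (norm_nonneg _)).trans h1).trans (e2.trans h.f2)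
  exact le_of_mul_le_mul_right e3 h.q0

theorem WNum.encl0 (h : WNum pc H E E2 zc r ρ₀ ρ₁ ρ₂ g g2 g3 lH uH l1 u1 lR uR lp up mE nE nF uz θ ep) :
    ‖hL pc - H‖ ≤ ρ₀ := by
  have h1 := encl_L (H := H) (pc := pc) (z := 0) (r := 0)
    (by rw [add_zero]; exact h.re_ne (mem_closedBall_self h.r0)) h.hE (by simp) zero_le_one
  rw [add_zero] at h1
  have hmE := h.hmE
  have huH := h.huH
  have hg := h.hg
  have hr := h.r0
  have hn0 : 0 ≤ nE := (norm_nonneg _).trans h.hnE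
  have e1 : mE - 1 / 2 ^ 26 ≤ ‖E - 1‖ - 1 / 2 ^ 26 - (‖E‖ + 1 / 2 ^ 26) * (0 + 0 ^ 2) := by
    rw [show ((0 : ℝ) + 0 ^ 2) = 0 by norm_num, mul_zero, sub_zero]
    linarith
  have e2 : ‖pc - H * (E - 1)‖ + ‖H‖ * (1 / 2 ^ 26) + 0 * (‖1 - H * E‖ + ‖H‖ * (1 / 2 ^ 26)) +
      ‖H‖ * ((‖E‖ + 1 / 2 ^ 26) * 0 ^ 2) ≤ g + uH * (1 / 2 ^ 26) := by
    rw [show ((0 : ℝ) ^ 2) = 0 by norm_num, zero_mul, mul_zero, mul_zero, add_zero, add_zero]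
    gcongr
  have e3 : ‖hL pc - H‖ * (mE - 1 / 2 ^ 26) ≤ ρ₀ * (mE - 1 / 2 ^ 26) :=
    ((mul_le_mul_of_nonneg_left e1 (norm_nonneg _)).trans h1).trans (e2.trans h.f0)
  refine le_of_mul_le_mul_right e3 ?_
  have := h.q0
  have : 0 ≤ (nE + 1 / 2 ^ 26) * (r + r ^ 2) := by positivity
  linarith

theorem WNum.H_ne (h : WNum pc H E E2 zc r ρ₀ ρ₁ ρ₂ g g2 g3 lH uH l1 u1 lR uR lp up mE nE nF uz θ ep) : H ≠ 0 :=
  norm_pos_iff.1 (h.lH0.trans_le h.hlH)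

theorem WNum.H1_ne (h : WNum pc H E E2 zc r ρ₀ ρ₁ ρ₂ g g2 g3 lH uH l1 u1 lR uR lp up mE nE nF uz θ ep) :
    1 - H ≠ 0 := norm_pos_iff.1 (h.l10.trans_le h.hl1)

theorem WNum.HR_ne (h : WNum pc H E E2 zc r ρ₀ ρ₁ ρ₂ g g2 g3 lH uH l1 u1 lR uR lp up mE nE nF uz θ ep) :
    1 - (H + pc) ≠ 0 := norm_pos_iff.1 (h.lR0.trans_le h.hlR)

theorem WNum.pc_ne (h : WNum pc H E E2 zc r ρ₀ ρ₁ ρ₂ g g2 g3 lH uH l1 u1 lR uR lp up mE nE nF uz θ ep) :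
    pc ≠ 0 := norm_pos_iff.1 ((h.r0.trans_lt h.lp0).trans_le h.hlp)

/-- the derivative at the centre -/
noncomputable def D0 (pc H : ℂ) : ℂ := H * cexp (-H) * ((1 - H) * (1 - (H + pc))) / pc

theorem div_sub_one_le {x y : ℂ} {a l : ℝ} (hl : 0 < l) (hy : l ≤ ‖y‖) (h : ‖x - y‖ ≤ a) : ‖x / y - 1‖ ≤ a / l := by
  have hy0 : y ≠ 0 := norm_pos_iff.1 (hl.trans_le hy)
  have h1 : x / y - 1 = (x - y) / y := by field_simp
  rw [h1, norm_div]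
  have ha : 0 ≤ a := (norm_nonneg _).trans h
  exact div_le_div₀ ha h hl hy

theorem WNum.deriv_close (h : WNum pc H E E2 zc r ρ₀ ρ₁ ρ₂ g g2 g3 lH uH l1 u1 lR uR lp up mE nE nF uz θ ep)
    {p : ℂ} (hp : p ∈ closedBall pc r) :
    ‖wmap p * ((1 - hL p) * (1 - hR p)) / p - D0 pc H‖ ≤ θ * ‖D0 pc H‖ := by
  have hr := h.r0
  have hre := h.re_ne hp
  have hp0 : p ≠ 0 := ne_zero_of_re hre
  have hD : D0 pc H ≠ 0 := div_ne_zero (mul_ne_zero (mul_ne_zero h.H_ne (exp_ne_zero _))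
    (mul_ne_zero h.H1_ne h.HR_ne)) h.pc_ne
  have hz : ‖p - pc‖ ≤ r := mem_closedBall_iff_norm.1 hp
  have x1 : ‖hL p / H - 1‖ ≤ ρ₁ / lH := div_sub_one_le h.lH0 h.hlH (h.encl1 hp)
  have x2 : ‖cexp (H - hL p) - 1‖ ≤ ρ₁ + ρ₁ ^ 2 := by
    have e1 : ‖H - hL p‖ ≤ ρ₁ := by rw [norm_sub_rev]; exact h.encl1 hp
    have e2 := norm_exp_sub_one_sub_id_le (e1.trans h.ρ11)
    have e3 : cexp (H - hL p) - 1 = (cexp (H - hL p) - 1 - (H - hL p)) + (H - hL p) := by ring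
    rw [e3]
    refine (norm_add_le _ _).trans ?_
    have e4 : ‖H - hL p‖ ^ 2 ≤ ρ₁ ^ 2 := pow_le_pow_left₀ (norm_nonneg _) e1 2
    linarith
  have x3 : ‖(1 - hL p) / (1 - H) - 1‖ ≤ ρ₁ / l1 := by
    refine div_sub_one_le h.l10 h.hl1 ?_
    have : 1 - hL p - (1 - H) = -(hL p - H) := by ring
    rw [this, norm_neg]
    exact h.encl1 hp
  have x4 : ‖(1 - hR p) / (1 - (H + pc)) - 1‖ ≤ ρ₂ / lR := by
    refine div_sub_one_le h.lR0 h.hlR ?_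
    have : 1 - hR p - (1 - (H + pc)) = -(hR p - (H + pc)) := by ring
    rw [this, norm_neg]
    exact h.encl2 hp
  have x5 : ‖pc / p - 1‖ ≤ r / (lp - r) := by
    refine div_sub_one_le (by linarith [h.lp0]) ?_ (by rw [norm_sub_rev]; exact hz)
    have e1 : ‖pc‖ ≤ ‖p‖ + ‖p - pc‖ := by
      calc ‖pc‖ = ‖p - (p - pc)‖ := by congr 1; ring
        _ ≤ _ := norm_sub_le _ _
    linarith [h.hlp]
  have x := norm_mul_sub_one (norm_mul_sub_one (norm_mul_sub_one (norm_mul_sub_one x1 x2) x3) x4) x5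
  have e1 : wmap p * ((1 - hL p) * (1 - hR p)) / p = D0 pc H *
      (hL p / H * cexp (H - hL p) * ((1 - hL p) / (1 - H)) * ((1 - hR p) / (1 - (H + pc))) * (pc / p)) := by
    unfold D0 wmap
    have h1 := h.H_ne
    have h2 := h.H1_ne
    have h3 := h.HR_ne
    have h4 := h.pc_ne
    rw [exp_sub, exp_neg, exp_neg]
    have h5 := exp_ne_zero H
    have h6 := exp_ne_zero (hL p)
    field_simp
  have e2 : wmap p * ((1 - hL p) * (1 - hR p)) / p - D0 pc H = D0 pc H *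
      (hL p / H * cexp (H - hL p) * ((1 - hL p) / (1 - H)) * ((1 - hR p) / (1 - (H + pc))) * (pc / p) - 1) := by
    rw [e1]; ring
  rw [e2, norm_mul, mul_comm θ]
  refine mul_le_mul_of_nonneg_left (x.trans ?_) (norm_nonneg _)
  have := h.θ1
  linarith

theorem WNum.cover (h : WNum pc H E E2 zc r ρ₀ ρ₁ ρ₂ g g2 g3 lH uH l1 u1 lR uR lp up mE nE nF uz θ ep)
    {z : ℂ} (hz : ‖z - zc‖ ≤ ep) : ∃ p ∈ closedBall pc r, wmap p = wz (2 / 25) z := by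
  have hr := h.r0
  have hD : D0 pc H ≠ 0 := div_ne_zero (mul_ne_zero (mul_ne_zero h.H_ne (exp_ne_zero _))
    (mul_ne_zero h.H1_ne h.HR_ne)) h.pc_ne
  have h1 := cover_of_deriv (f := wmap) (f' := fun p => wmap p * ((1 - hL p) * (1 - hR p)) / p) (D := D0 pc H) hr h.θ0
    hD (fun p hp => hasDerivAt_wmap (h.re_ne hp)) (fun p hp => h.deriv_close hp)
  have h0 := h.encl0
  set a := hL pc with ha
  -- the main estimate
  have key : ‖wz (2 / 25) z - wmap pc‖ ≤ (1 - θ) * ‖D0 pc H‖ * r := by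
    have hexp : 0 < ‖cexp H‖ := norm_pos_iff.2 (exp_ne_zero _)
    have e1 : ‖cexp H‖ * ‖D0 pc H‖ = ‖H‖ * ‖1 - H‖ * ‖1 - (H + pc)‖ / ‖pc‖ := by
      rw [← norm_mul]
      have : cexp H * D0 pc H = H * (1 - H) * (1 - (H + pc)) / pc := by
        unfold D0
        rw [exp_neg]
        have := exp_ne_zero H
        have := h.pc_ne
        field_simp
      rw [this, norm_div, norm_mul, norm_mul]
    have e2 : lH * l1 * lR / up ≤ ‖cexp H‖ * ‖D0 pc H‖ := by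
      rw [e1]
      have q1 := h.hlH
      have q2 := h.hl1
      have q3 := h.hlR
      have q4 := h.hup
      have q5 := h.lH0
      have q6 := h.l10
      have q7 := h.lR0
      have q8 : 0 < ‖pc‖ := norm_pos_iff.2 h.pc_ne
      gcongr
    have e3 : cexp H * (wz (2 / 25) z - wmap pc) = (zc * (I * (2 / 25)) * E2 - H) +
        (z - zc) * (I * (2 / 25)) * cexp (H - I / 25) + zc * (I * (2 / 25)) * (cexp (H - I / 25) - E2) +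
        ((H - a) - a * (cexp (H - a) - 1)) := by
      have e4 : cexp (H - I / 25) = cexp H * cexp (-(I * ((2 / 25 : ℝ) : ℂ) / 2)) := by
        rw [← exp_add]
        congr 1
        push_cast
        ring
      have e5 : cexp (H - a) = cexp H * cexp (-a) := by
        rw [← exp_add]
        congr 1
      rw [e4, e5]
      unfold wz wmap
      rw [← ha]
      push_cast
      ring
    have hI : ‖(I * (2 / 25) : ℂ)‖ = 2 / 25 := by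
      rw [norm_mul, norm_I, one_mul]
      norm_num
    have e6 : ‖cexp H * (wz (2 / 25) z - wmap pc)‖ ≤ g3 + 2 / 25 * ep * (nF + 1 / 2 ^ 26) +
        2 / 25 * uz * (1 / 2 ^ 26) + (ρ₀ + (uH + ρ₀) * (ρ₀ + ρ₀ ^ 2)) := by
      rw [e3]
      refine (norm_add_le _ _).trans (add_le_add ((norm_add_le _ _).trans (add_le_add
        ((norm_add_le _ _).trans (add_le_add h.hg3 ?_)) ?_)) ?_)
      · rw [norm_mul, norm_mul, hI, mul_comm ‖z - zc‖]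
        have q1 : ‖cexp (H - I / 25)‖ ≤ nF + 1 / 2 ^ 26 := by
          calc ‖cexp (H - I / 25)‖ = ‖E2 + (cexp (H - I / 25) - E2)‖ := by congr 1; ring
            _ ≤ _ := norm_add_le _ _
            _ ≤ _ := add_le_add h.hnF h.hE2
        have := h.ep0
        gcongr
      · rw [norm_mul, norm_mul, hI, mul_comm ‖zc‖]
        have q1 := h.huz
        have q2 := h.hE2
        have q3 : 0 ≤ uz := (norm_nonneg _).trans q1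
        gcongr
      · refine (norm_sub_le _ _).trans ?_
        have q1 : ‖H - a‖ ≤ ρ₀ := by rw [norm_sub_rev]; exact h0
        have q2 : ‖cexp (H - a) - 1‖ ≤ ρ₀ + ρ₀ ^ 2 := by
          have q3 := norm_exp_sub_one_sub_id_le (q1.trans h.ρ01)
          have q4 : cexp (H - a) - 1 = (cexp (H - a) - 1 - (H - a)) + (H - a) := by ring
          rw [q4]
          refine (norm_add_le _ _).trans ?_
          have q5 : ‖H - a‖ ^ 2 ≤ ρ₀ ^ 2 := pow_le_pow_left₀ (norm_nonneg _) q1 2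
          linarith
        have q6 : ‖a‖ ≤ uH + ρ₀ := by
          calc ‖a‖ = ‖H + (a - H)‖ := by congr 1; ring
            _ ≤ _ := norm_add_le _ _
            _ ≤ _ := add_le_add h.huH h0
        rw [norm_mul]
        have := h.ρ00
        have q7 : 0 ≤ uH + ρ₀ := (norm_nonneg _).trans q6
        exact add_le_add q1 (mul_le_mul q6 q2 (norm_nonneg _) q7)
    have hθ : 0 ≤ 1 - θ := by linarith [h.θ2]
    have e7 : ‖cexp H‖ * ‖wz (2 / 25) z - wmap pc‖ ≤ ‖cexp H‖ * ((1 - θ) * ‖D0 pc H‖ * r) := by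
      rw [← norm_mul]
      refine (e6.trans h.mt).trans ?_
      have q1 := mul_le_mul_of_nonneg_right (mul_le_mul_of_nonneg_left e2 hθ) hr
      calc (1 - θ) * (lH * l1 * lR / up) * r ≤ (1 - θ) * (‖cexp H‖ * ‖D0 pc H‖) * r := q1
        _ = _ := by ring
    exact le_of_mul_le_mul_left e7 hexp
  obtain ⟨p, hp, hpe⟩ := h1 (mem_closedBall_iff_norm.2 key)
  exact ⟨p, hp, hpe⟩

theorem WNum.Bp_le (h : WNum pc H E E2 zc r ρ₀ ρ₁ ρ₂ g g2 g3 lH uH l1 u1 lR uR lp up mE nE nF uz θ ep)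
    {p : ℂ} (hp : p ∈ closedBall pc r) : (Bp p).re ≤ -(Real.pi * (2 / 25)) := by
  have hr := h.r0
  have hcm : pc ∈ closedBall pc r := mem_closedBall_self hr
  have h1 : ∀ q ∈ closedBall pc r, HasDerivWithinAt Bp (-((1 - hL q) * (1 - hR q))) (closedBall pc r) q :=
    fun q hq => (hasDerivAt_Bp (h.re_ne hq)).hasDerivWithinAt
  have h2 : ∀ q ∈ closedBall pc r, ‖-((1 - hL q) * (1 - hR q))‖ ≤ (u1 + ρ₁) * (uR + ρ₂) := by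
    intro q hq
    rw [norm_neg, norm_mul]
    have e1 : ‖1 - hL q‖ ≤ u1 + ρ₁ := by
      calc ‖1 - hL q‖ = ‖(1 - H) - (hL q - H)‖ := by congr 1; ring
        _ ≤ _ := norm_sub_le _ _
        _ ≤ _ := add_le_add h.hu1 (h.encl1 hq)
    have e2 : ‖1 - hR q‖ ≤ uR + ρ₂ := by
      calc ‖1 - hR q‖ = ‖(1 - (H + pc)) - (hR q - (H + pc))‖ := by congr 1; ring
        _ ≤ _ := norm_sub_le _ _
        _ ≤ _ := add_le_add h.huR (h.encl2 hq)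
    exact mul_le_mul e1 e2 (norm_nonneg _) ((norm_nonneg _).trans e1)
  have h3 := (convex_closedBall pc r).norm_image_sub_le_of_norm_hasDerivWithin_le h1 h2 hcm hp
  have h4 : (Bp p - Bp pc).re ≤ (u1 + ρ₁) * (uR + ρ₂) * r := by
    refine (Complex.re_le_norm _).trans (h3.trans ?_)
    refine mul_le_mul_of_nonneg_left (mem_closedBall_iff_norm.1 hp) ?_
    exact (norm_nonneg _).trans (h2 pc hcm)
  have h5 : Bp pc = pc * (H + pc / 2 - 1) + pc * (hL pc - H) := by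
    have e1 : hR pc = hL pc + pc := by linear_combination hR_sub_hL (h.re_ne hcm)
    unfold Bp
    rw [e1]
    ring
  have h6 : (pc * (hL pc - H)).re ≤ up * ρ₀ := by
    refine (Complex.re_le_norm _).trans ?_
    rw [norm_mul]
    exact mul_le_mul h.hup h.encl0 (norm_nonneg _) ((norm_nonneg _).trans h.hup)
  have h7 := h.fB
  have h8 := Real.pi_lt_d4
  rw [Complex.sub_re, h5, Complex.add_re] at h4
  linarith

theorem WNum.mem_Dtip (h : WNum pc H E E2 zc r ρ₀ ρ₁ ρ₂ g g2 g3 lH uH l1 u1 lR uR lp up mE nE nF uz θ ep)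
    {p : ℂ} (hp : p ∈ closedBall pc r) : p ∈ Dtip := by
  have hz := mem_closedBall_iff_norm.1 hp
  have h1 := abs_le.1 ((Complex.abs_re_le_norm (p - pc)).trans hz)
  have h2 := abs_le.1 ((Complex.abs_im_le_norm (p - pc)).trans hz)
  rw [Complex.sub_re] at h1
  rw [Complex.sub_im] at h2
  have b1 := h.b1
  have b2 := h.b2
  have b3 := h.b3
  have b4 := h.b4
  have b5 := h.b5
  refine ⟨by linarith, by linarith, by linarith, ?_⟩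
  unfold Uf
  exact le_min (by linarith) (by linarith)

/-- every `w = w(z)` with `z` in the disc and `|w| ≤ 1` is in the image of the window -/
theorem WNum.mem (h : WNum pc H E E2 zc r ρ₀ ρ₁ ρ₂ g g2 g3 lH uH l1 u1 lR uR lp up mE nE nF uz θ ep)
    {z : ℂ} (hz : ‖z - zc‖ ≤ ep) (hw : ‖wz (2 / 25) z‖ ≤ 1) : wz (2 / 25) z ∈ wmap '' Ptip (2 / 25) := by
  obtain ⟨p, hp, he⟩ := h.cover hz
  exact ⟨p, ⟨h.mem_Dtip hp, h.Bp_le hp, by rw [he]; exact hw⟩, he⟩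

end

/-- the data in components -/
structure WR (a b c d e f m n x y
    r ρ₀ ρ₁ ρ₂ g g2 g3 lH uH l1 u1 lR uR lp up mE nE nF uz θ ep : ℝ) : Prop where
  r0 : 0 ≤ r
  r1 : r ≤ 1
  rr : r < a
  g0 : 0 ≤ g
  g20 : 0 ≤ g2
  g30 : 0 ≤ g3
  uH0 : 0 ≤ uH
  u10 : 0 ≤ u1
  uR0 : 0 ≤ uR
  up0 : 0 ≤ up
  nE0 : 0 ≤ nE
  nF0 : 0 ≤ nF
  uz0 : 0 ≤ uz
  hg : (a - (c * (e - 1) - d * f)) ^ 2 + (b - (c * f + d * (e - 1))) ^ 2 ≤ g ^ 2
  hg2 : (1 - (c * e - d * f)) ^ 2 + (c * f + d * e) ^ 2 ≤ g2 ^ 2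
  hg3 : (-(2 / 25) * (x * n + y * m) - c) ^ 2 + (2 / 25 * (x * m - y * n) - d) ^ 2 ≤ g3 ^ 2
  hlH : lH ^ 2 ≤ c ^ 2 + d ^ 2
  huH : c ^ 2 + d ^ 2 ≤ uH ^ 2
  hl1 : l1 ^ 2 ≤ (1 - c) ^ 2 + d ^ 2
  hu1 : (1 - c) ^ 2 + d ^ 2 ≤ u1 ^ 2
  hlR : lR ^ 2 ≤ (1 - (c + a)) ^ 2 + (d + b) ^ 2
  huR : (1 - (c + a)) ^ 2 + (d + b) ^ 2 ≤ uR ^ 2
  hlp : lp ^ 2 ≤ a ^ 2 + b ^ 2
  hup : a ^ 2 + b ^ 2 ≤ up ^ 2
  hmE : mE ^ 2 ≤ (e - 1) ^ 2 + f ^ 2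
  hnE : e ^ 2 + f ^ 2 ≤ nE ^ 2
  hnF : m ^ 2 + n ^ 2 ≤ nF ^ 2
  huz : x ^ 2 + y ^ 2 ≤ uz ^ 2
  lH0 : 0 < lH
  l10 : 0 < l1
  lR0 : 0 < lR
  lp0 : r < lp
  ρ00 : 0 ≤ ρ₀
  ρ10 : 0 ≤ ρ₁
  ρ20 : 0 ≤ ρ₂
  ρ01 : ρ₀ ≤ 1
  ρ11 : ρ₁ ≤ 1
  ep0 : 0 ≤ ep
  q0 : 0 < mE - 1 / 2 ^ 26 - (nE + 1 / 2 ^ 26) * (r + r ^ 2)
  f1 : g + uH * (1 / 2 ^ 26) + r * (g2 + uH * (1 / 2 ^ 26)) + uH * ((nE + 1 / 2 ^ 26) * r ^ 2) ≤
    ρ₁ * (mE - 1 / 2 ^ 26 - (nE + 1 / 2 ^ 26) * (r + r ^ 2))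
  f2 : g + uH * (1 / 2 ^ 26) + (nE + 1 / 2 ^ 26) * (r * u1 + r ^ 2 + r ^ 2 * (r + uH)) ≤
    ρ₂ * (mE - 1 / 2 ^ 26 - (nE + 1 / 2 ^ 26) * (r + r ^ 2))
  f0 : g + uH * (1 / 2 ^ 26) ≤ ρ₀ * (mE - 1 / 2 ^ 26)
  θ0 : 0 ≤ θ
  θ2 : θ ≤ 1
  θ1 : (1 + ρ₁ / lH) * (1 + (ρ₁ + ρ₁ ^ 2)) * (1 + ρ₁ / l1) * (1 + ρ₂ / lR) * (1 + r / (lp - r)) - 1 ≤ θ
  mt : g3 + 2 / 25 * ep * (nF + 1 / 2 ^ 26) + 2 / 25 * uz * (1 / 2 ^ 26) + (ρ₀ + (uH + ρ₀) * (ρ₀ + ρ₀ ^ 2)) ≤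
    (1 - θ) * (lH * l1 * lR / up) * r
  fB : a * (c + a / 2 - 1) - b * (d + b / 2) + up * ρ₀ + (u1 + ρ₁) * (uR + ρ₂) * r ≤ -(2514 / 10000)
  b1 : r < b
  b2 : b + r ≤ 19 / 5
  b3 : 2 / 5 * b + 7 / 5 * r ≤ a
  b4 : a + 9 / 5 * r ≤ 4 / 5 * b
  b5 : a + 61 / 50 * r ≤ 32 / 25 + 11 / 50 * (b - 8 / 5)

theorem mk_eq (a b : ℝ) : ((a : ℂ) + (b : ℂ) * I) = ⟨a, b⟩ := by
  apply Complex.ext <;> simp

/-- the values of the exponential -/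
theorem exp_of {px py Ex Ey : ℤ} (hb : px ^ 2 + py ^ 2 ≤ (9 * 2 ^ 19) ^ 2) (h : cEf px py = (Ex, Ey)) :
    ‖cexp ⟨(px : ℝ) / 2 ^ 20, (py : ℝ) / 2 ^ 20⟩ - ⟨(Ex : ℝ) / 2 ^ 40, (Ey : ℝ) / 2 ^ 40⟩‖ ≤ 1 / 2 ^ 26 := by
  have h1 := cE_err px py hb
  rw [← cEf_eq, h] at h1
  have e1 : (((px : ℂ) + (py : ℂ) * I) / 2 ^ 20) = ⟨(px : ℝ) / 2 ^ 20, (py : ℝ) / 2 ^ 20⟩ := by
    rw [← mk_eq]; push_cast; ring
  have e2 : (((Ex : ℂ) + (Ey : ℂ) * I) / 2 ^ 40) = ⟨(Ex : ℝ) / 2 ^ 40, (Ey : ℝ) / 2 ^ 40⟩ := by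
    rw [← mk_eq]; push_cast; ring
  rw [e1, e2] at h1
  rw [norm_sub_rev]
  exact h1

theorem WR.num {a b c d e f m n x y
    r ρ₀ ρ₁ ρ₂ g g2 g3 lH uH l1 u1 lR uR lp up mE nE nF uz θ ep : ℝ}
    (h : WR a b c d e f m n x y r ρ₀ ρ₁ ρ₂ g g2 g3 lH uH l1 u1 lR uR lp up mE nE nF uz θ ep)
    (hE : ‖cexp ⟨a, b⟩ - ⟨e, f⟩‖ ≤ 1 / 2 ^ 26) (hE2 : ‖cexp ⟨c, d - 1 / 25⟩ - ⟨m, n⟩‖ ≤ 1 / 2 ^ 26) :
    WNum ⟨a, b⟩ ⟨c, d⟩ ⟨e, f⟩ ⟨m, n⟩ ⟨x, y⟩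
      r ρ₀ ρ₁ ρ₂ g g2 g3 lH uH l1 u1 lR uR lp up mE nE nF uz θ ep where
  hE := hE
  hE2 := by
    have : (⟨c, d⟩ - I / 25 : ℂ) = ⟨c, d - 1 / 25⟩ := by
      have e1 : (I / 25 : ℂ) = ⟨0, 1 / 25⟩ := by
        have : (I / 25 : ℂ) = (((1 / 25 : ℝ)) : ℂ) * I := by push_cast; ring
        rw [this]
        apply Complex.ext <;> simp
      rw [e1]
      apply Complex.ext <;> simp
    rw [this]
    exact hE2
  r0 := h.r0
  r1 := h.r1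
  rr := h.rr
  hg := norm_le_of h.g0 (by have := h.hg; simpa using this)
  hg2 := norm_le_of h.g20 (by
    have := h.hg2
    simp only [Complex.sub_re, Complex.sub_im, Complex.mul_re, Complex.mul_im, Complex.one_re, Complex.one_im]
    nlinarith)
  hg3 := norm_le_of h.g30 (by
    have h3 := h.hg3
    have e1 : (I * (2 / 25) : ℂ) = ⟨0, 2 / 25⟩ := by
      have : (I * (2 / 25) : ℂ) = (((2 / 25 : ℝ)) : ℂ) * I := by push_cast; ring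
      rw [this]
      apply Complex.ext <;> simp
    rw [e1]
    simp only [Complex.sub_re, Complex.sub_im, Complex.mul_re, Complex.mul_im]
    nlinarith)
  hlH := le_norm_of h.hlH
  huH := norm_le_of h.uH0 h.huH
  hl1 := le_norm_of (by have := h.hl1; simpa using this)
  hu1 := norm_le_of h.u10 (by have := h.hu1; simpa using this)
  hlR := le_norm_of (by
    have := h.hlR
    simp only [Complex.sub_re, Complex.sub_im, Complex.add_re, Complex.add_im, Complex.one_re, Complex.one_im]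
    nlinarith)
  huR := norm_le_of h.uR0 (by
    have := h.huR
    simp only [Complex.sub_re, Complex.sub_im, Complex.add_re, Complex.add_im, Complex.one_re, Complex.one_im]
    nlinarith)
  hlp := le_norm_of h.hlp
  hup := norm_le_of h.up0 h.hup
  hmE := le_norm_of (by have := h.hmE; simpa using this)
  hnE := norm_le_of h.nE0 h.hnE
  hnF := norm_le_of h.nF0 h.hnF
  huz := norm_le_of h.uz0 h.huz
  lH0 := h.lH0
  l10 := h.l10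
  lR0 := h.lR0
  lp0 := h.lp0
  ρ00 := h.ρ00
  ρ10 := h.ρ10
  ρ20 := h.ρ20
  ρ01 := h.ρ01
  ρ11 := h.ρ11
  ep0 := h.ep0
  q0 := h.q0
  f1 := h.f1
  f2 := h.f2
  f0 := h.f0
  θ0 := h.θ0
  θ2 := h.θ2
  θ1 := h.θ1
  mt := h.mt
  fB := by
    have h3 := h.fB
    have e1 : ((⟨a, b⟩ : ℂ) * (⟨c, d⟩ + ⟨a, b⟩ / 2 - 1)).re = a * (c + a / 2 - 1) - b * (d + b / 2) := by
      have e2 : ((⟨a, b⟩ : ℂ) / 2) = ⟨a / 2, b / 2⟩ := by
        apply Complex.ext <;> simp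
      rw [e2]
      simp
    rw [e1]
    exact h3
  b1 := h.b1
  b2 := h.b2
  b3 := h.b3
  b4 := h.b4
  b5 := h.b5

end SokalTI
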