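import Pool.Agent.Lib_MP_af4de1_fu.Tbl

/-!
# The tip, W4: location of the zeros at `α = 2/25`, `|z| ≤ 25/2`

`H50_of`: from the lists of tubes of F3, the zeros of `F(·; e^(2i/25))` of modulus at most `25/2` are in eleven small
discs.  `nearB`, `farB`: the checks of the pieces over `α = 2/25`, in integers.
-/

set_option autoImplicit false

namespace SokalTI

open SokalFU SokalF Set

theorem tp_near {c lam z0 h : ℂ} {s m e d C ε : ℝ} (hh : ‖h‖ ≤ e) (hm : ‖lam‖ * |s| ≤ m) (hme : m + e ≤ 1)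
    (hC : ‖c‖ ≤ C) (hd : ‖c * (1 + lam * s) - z0‖ ≤ d) (hε : d + C * ((m + e) ^ 2 + e) ≤ ε) :
    ‖tp c lam s h - z0‖ ≤ ε := by
  have hx : ‖lam * s + h‖ ≤ m + e := by
    refine (norm_add_le _ _).trans (add_le_add ?_ hh)
    rw [norm_mul, Complex.norm_real, Real.norm_eq_abs]
    exact hm
  have h1 : ‖Complex.exp (lam * s + h) - 1 - (lam * s + h)‖ ≤ ‖lam * s + h‖ ^ 2 :=
    Complex.norm_exp_sub_one_sub_id_le (hx.trans hme)
  have e1 : tp c lam s h - z0 = (c * (1 + lam * s) - z0) +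
      c * ((Complex.exp (lam * s + h) - 1 - (lam * s + h)) + h) := by
    unfold tp
    ring
  rw [e1]
  refine (norm_add_le _ _).trans ?_
  rw [norm_mul]
  have h2 : ‖(Complex.exp (lam * s + h) - 1 - (lam * s + h)) + h‖ ≤ (m + e) ^ 2 + e :=
    (norm_add_le _ _).trans (add_le_add (h1.trans (pow_le_pow_left₀ (norm_nonneg _) hx 2)) hh)
  have h3 := mul_le_mul hC h2 (norm_nonneg _) ((norm_nonneg _).trans hC)
  linarith

theorem tp_far {c lam h : ℂ} {s e c0 B : ℝ} (hh : ‖h‖ ≤ e) (hc0 : 0 ≤ c0) (hc : c0 ≤ ‖c‖)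
    (hB : B < c0 * (1 + lam.re * s - e)) : B < ‖tp c lam s h‖ := by
  unfold tp
  rw [norm_mul, Complex.norm_exp]
  have h1 : (lam * s + h).re = lam.re * s + h.re := by
    rw [Complex.add_re, Complex.re_mul_ofReal]
  have h2 : -e ≤ h.re := by
    have := (abs_le.1 ((Complex.abs_re_le_norm h).trans hh)).1
    exact this
  have h3 : 1 + lam.re * s - e ≤ Real.exp (lam * s + h).re := by
    rw [h1]
    have := Real.add_one_le_exp (lam.re * s + h.re)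
    linarith
  calc B < c0 * (1 + lam.re * s - e) := hB
    _ ≤ c0 * Real.exp (lam * s + h).re := mul_le_mul_of_nonneg_left h3 hc0
    _ ≤ _ := mul_le_mul_of_nonneg_right hc (Real.exp_pos _).le

/-- What is needed of the pieces over `α = 2/25`. -/
structure W4Data (L : ℕ → List ℕ) (zc : ℕ → ℂ) (ep : ℕ → ℝ) : Prop where
  near : ∀ k < 11, ∃ x ∈ L k, (2 / 25 : ℝ) ∈ Icc (rv (Pc.dec x).lo) (rv (Pc.dec x).hi) ∧
    ∀ h : ℂ, ‖h‖ ≤ rv (Pc.dec x).e' →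
      ‖tp (Pc.dec x).c (Pc.dec x).lam (2 / 25 - rv (Pc.dec x).a) h - zc k‖ ≤ ep k
  far : ∃ x ∈ L 11, (2 / 25 : ℝ) ∈ Icc (rv (Pc.dec x).lo) (rv (Pc.dec x).hi) ∧
    ∀ h : ℂ, ‖h‖ ≤ rv (Pc.dec x).e' →
      25 / 2 < ‖tp (Pc.dec x).c (Pc.dec x).lam (2 / 25 - rv (Pc.dec x).a) h‖

/-- The zeros of modulus at most `25/2` at `α = 2/25`. -/
theorem H50_of {R0 U lo hi hi' : ℤ} {n fuel : ℕ} {L : ℕ → List ℕ} (S : ListsOK R0 U lo hi hi' n fuel L)
    (hn : 12 ≤ n) (hR0 : 25 / 2 < rv R0) (hlo : rv lo ≤ 2 / 25)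
    (H : ∀ α r : ℝ, 2 / 25 ≤ α → α ≤ Real.pi → rv R0 ≤ r → Dist α r)
    {zc : ℕ → ℂ} {ep : ℕ → ℝ} (W : W4Data L zc ep) :
    ∀ z : ℂ, F (qa (2 / 25)) z = 0 → ‖z‖ ≤ 25 / 2 → ∃ k < 11, ‖z - zc k‖ ≤ ep k := by
  intro z hz hz2
  have hpi : (2 / 25 : ℝ) ≤ Real.pi := by linarith [Real.pi_gt_three]
  obtain ⟨ZZ, h5, h6, h4⟩ := S.sys' hlo hpi H
  have hα : (2 / 25 : ℝ) ∈ Icc (2 / 25 : ℝ) Real.pi := ⟨le_rfl, hpi⟩
  have hval : ∀ k < n, ∀ x ∈ L k, (2 / 25 : ℝ) ∈ Icc (rv (Pc.dec x).lo) (rv (Pc.dec x).hi) →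
      ∃ h : ℂ, ‖h‖ ≤ rv (Pc.dec x).e' ∧
        ZZ k (2 / 25) = tp (Pc.dec x).c (Pc.dec x).lam (2 / 25 - rv (Pc.dec x).a) h := by
    intro k hk x hx hxα
    obtain ⟨h, e1, -, e3⟩ := IsTube.spec (S.hT k hk x hx) (Pc.abs_le hxα)
    refine ⟨h, e1, ?_⟩
    rw [h4 k hk x hx _ hxα]
    exact e3
  obtain ⟨k, hk, hwk⟩ := h6 (2 / 25) hα z hz (lt_of_lt_of_le (lt_of_le_of_lt hz2 hR0) (h5.top _ hα))
  by_cases hk11 : k < 11
  · obtain ⟨x, hx, hxα, hnear⟩ := W.near k hk11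
    obtain ⟨h, e1, e2⟩ := hval k (by omega) x hx hxα
    refine ⟨k, hk11, ?_⟩
    rw [hwk, e2]
    exact hnear h e1
  · exfalso
    obtain ⟨x, hx, hxα, hfar⟩ := W.far
    obtain ⟨h, e1, e2⟩ := hval 11 (by omega) x hx hxα
    have h7 : (25 / 2 : ℝ) < ‖ZZ 11 (2 / 25)‖ := by
      rw [e2]
      exact hfar h e1
    have h8 : ‖ZZ 11 (2 / 25)‖ ≤ ‖ZZ k (2 / 25)‖ := by
      rcases (not_lt.1 hk11).eq_or_lt with h9 | h9
      · rw [h9]
      · exact (h5.lt' hα h9 (by omega)).le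
    rw [← hwk] at h8
    linarith

/-! ### The checks in integers, scale `2^40`; `zc = (X + iY)/10^4`, `ep = E/10^4` -/

/-- `25 · 2^40 · (2/25 - a/2^40)` -/
def sn (p : Pc) : ℤ := 2199023255552 - 25 * p.a

/-- the difference `c (1 + lam s) - zc`, real part, times `250000 · 2^120`; `sn = 25 · 2^40 s` -/
def dRe (p : Pc) (X : ℤ) : ℤ :=
  10000 * (p.cx * (25 * 2 ^ 80 + p.lx * sn p) - p.cy * (p.ly * sn p)) - 25 * 2 ^ 120 * X

/-- the same, imaginary part -/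
def dIm (p : Pc) (Y : ℤ) : ℤ :=
  10000 * (p.cx * (p.ly * sn p) + p.cy * (25 * 2 ^ 80 + p.lx * sn p)) - 25 * 2 ^ 120 * Y

/-- the check for a near piece: `C` bounds `‖c‖`, `m` bounds `‖lam‖ |s|`, `d` the distance, all in units `1/10^4` -/
def nearB (p : Pc) (X Y E C m d : ℤ) : Bool :=
  decide (25 * p.lo ≤ 2199023255552) && decide (2199023255552 ≤ 25 * p.hi) &&
    decide (0 ≤ C) && decide (0 ≤ m) && decide (0 ≤ d) &&
    decide ((p.cx ^ 2 + p.cy ^ 2) * 10 ^ 8 ≤ C ^ 2 * 2 ^ 80) &&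
    decide ((p.lx ^ 2 + p.ly ^ 2) * sn p ^ 2 * 10 ^ 8 ≤ m ^ 2 * 625 * 2 ^ 160) &&
    decide (dRe p X ^ 2 + dIm p Y ^ 2 ≤ d ^ 2 * 625 * 2 ^ 240) &&
    decide (m * 2 ^ 40 + p.e' * 10000 ≤ 10000 * 2 ^ 40) &&
    decide ((d * 10 ^ 8) * 2 ^ 80 + C * ((m * 2 ^ 40 + p.e' * 10000) ^ 2 + p.e' * 10 ^ 8 * 2 ^ 40) ≤ E * 10 ^ 8 * 2 ^ 80)

/-- the check for the far piece, `c0 ≤ ‖c‖` in units `1/10^4` -/
def farB (p : Pc) (c0 : ℤ) : Bool :=
  decide (25 * p.lo ≤ 2199023255552) && decide (2199023255552 ≤ 25 * p.hi) && decide (0 ≤ c0) &&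
    decide (c0 ^ 2 * 2 ^ 80 ≤ (p.cx ^ 2 + p.cy ^ 2) * 10 ^ 8) &&
    decide (125000 * (25 * 2 ^ 80) < c0 * (25 * 2 ^ 80 + p.lx * sn p - 25 * 2 ^ 40 * p.e'))

theorem s_eq (p : Pc) : (2 / 25 : ℝ) - rv p.a = (sn p : ℝ) / (25 * 2 ^ 40) := by
  unfold rv sn
  push_cast
  field_simp
  ring

theorem icc_of {p : Pc} (h1 : 25 * p.lo ≤ 2199023255552) (h2 : 2199023255552 ≤ 25 * p.hi) :
    (2 / 25 : ℝ) ∈ Icc (rv p.lo) (rv p.hi) := by
  have h1' : (25 : ℝ) * p.lo ≤ 2199023255552 := by exact_mod_cast h1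
  have h2' : (2199023255552 : ℝ) ≤ 25 * p.hi := by exact_mod_cast h2
  unfold rv
  constructor
  · rw [div_le_iff₀ (by positivity)]
    linarith
  · rw [le_div_iff₀ (by positivity)]
    linarith

theorem norm_cv_sq (x y : ℤ) : ‖cv x y‖ ^ 2 = ((x : ℝ) ^ 2 + (y : ℝ) ^ 2) / 2 ^ 80 := by
  rw [cv_normSq]
  push_cast
  ring

/-- a near piece -/
theorem near_of_nearB {p : Pc} {X Y E C m d : ℤ} (h : nearB p X Y E C m d = true) :
    (2 / 25 : ℝ) ∈ Icc (rv p.lo) (rv p.hi) ∧ ∀ h : ℂ, ‖h‖ ≤ rv p.e' →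
      ‖tp p.c p.lam (2 / 25 - rv p.a) h - (⟨(X : ℝ) / 10 ^ 4, (Y : ℝ) / 10 ^ 4⟩ : ℂ)‖ ≤ (E : ℝ) / 10 ^ 4 := by
  simp only [nearB, Bool.and_eq_true, decide_eq_true_eq] at h
  obtain ⟨⟨⟨⟨⟨⟨⟨⟨⟨g1, g2⟩, g3⟩, g4⟩, g5⟩, g6⟩, g7⟩, g8⟩, g9⟩, g10⟩ := h
  refine ⟨icc_of g1 g2, fun h hh => ?_⟩
  have c3 : (0 : ℝ) ≤ C := by exact_mod_cast g3
  have c4 : (0 : ℝ) ≤ m := by exact_mod_cast g4
  have c5 : (0 : ℝ) ≤ d := by exact_mod_cast g5
  have c6 : ((p.cx : ℝ) ^ 2 + (p.cy : ℝ) ^ 2) * 10 ^ 8 ≤ (C : ℝ) ^ 2 * 2 ^ 80 := by exact_mod_cast g6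
  have c7 : ((p.lx : ℝ) ^ 2 + (p.ly : ℝ) ^ 2) * (sn p : ℝ) ^ 2 * 10 ^ 8 ≤ (m : ℝ) ^ 2 * 625 * 2 ^ 160 := by
    exact_mod_cast g7
  have c8 : (dRe p X : ℝ) ^ 2 + (dIm p Y : ℝ) ^ 2 ≤ (d : ℝ) ^ 2 * 625 * 2 ^ 240 := by exact_mod_cast g8
  have c9 : (m : ℝ) * 2 ^ 40 + (p.e' : ℝ) * 10000 ≤ 10000 * 2 ^ 40 := by exact_mod_cast g9
  have c10 : ((d : ℝ) * 10 ^ 8) * 2 ^ 80 + (C : ℝ) * (((m : ℝ) * 2 ^ 40 + (p.e' : ℝ) * 10000) ^ 2 +
      (p.e' : ℝ) * 10 ^ 8 * 2 ^ 40) ≤ (E : ℝ) * 10 ^ 8 * 2 ^ 80 := by exact_mod_cast g10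
  refine tp_near (m := (m : ℝ) / 10 ^ 4) (d := (d : ℝ) / 10 ^ 4) (C := (C : ℝ) / 10 ^ 4) hh ?_ ?_ ?_ ?_ ?_
  · refine le_of_sq_le_sq ?_ (by positivity)
    rw [mul_pow, sq_abs, s_eq, Pc.lam, norm_cv_sq, div_pow, div_pow, div_mul_div_comm, div_le_div_iff₀ (by positivity)
      (by positivity)]
    nlinarith [c7]
  · unfold rv
    have : (m : ℝ) / 10 ^ 4 + (p.e' : ℝ) / 2 ^ 40 = ((m : ℝ) * 2 ^ 40 + (p.e' : ℝ) * 10000) / (10000 * 2 ^ 40) := by
      field_simp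
      ring
    rw [this, div_le_one (by positivity)]
    exact c9
  · refine le_of_sq_le_sq ?_ (by positivity)
    rw [Pc.c, norm_cv_sq, div_pow, div_le_div_iff₀ (by positivity) (by positivity)]
    nlinarith [c6]
  · refine le_of_sq_le_sq ?_ (by positivity)
    have e1 : p.c * (1 + p.lam * (((2 / 25 : ℝ) - rv p.a : ℝ) : ℂ)) - (⟨(X : ℝ) / 10 ^ 4, (Y : ℝ) / 10 ^ 4⟩ : ℂ) =
        ⟨(dRe p X : ℝ) / (250000 * 2 ^ 120), (dIm p Y : ℝ) / (250000 * 2 ^ 120)⟩ := by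
      rw [s_eq]
      apply Complex.ext
      · simp only [Pc.c, Pc.lam, cv, rv, dRe, Complex.sub_re, Complex.mul_re, Complex.add_re, Complex.one_re,
          Complex.ofReal_re, Complex.ofReal_im, Complex.add_im, Complex.one_im, Complex.mul_im]
        push_cast
        field_simp
        ring
      · simp only [Pc.c, Pc.lam, cv, rv, dIm, Complex.sub_im, Complex.mul_re, Complex.add_re, Complex.one_re,
          Complex.ofReal_re, Complex.ofReal_im, Complex.add_im, Complex.one_im, Complex.mul_im]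
        push_cast
        field_simp
        ring
    push_cast at e1 ⊢
    rw [e1, ← Complex.normSq_eq_norm_sq, Complex.normSq_mk]
    have e2 : (dRe p X : ℝ) / (250000 * 2 ^ 120) * ((dRe p X : ℝ) / (250000 * 2 ^ 120)) +
        (dIm p Y : ℝ) / (250000 * 2 ^ 120) * ((dIm p Y : ℝ) / (250000 * 2 ^ 120)) =
        ((dRe p X : ℝ) ^ 2 + (dIm p Y : ℝ) ^ 2) / (62500000000 * 2 ^ 240) := by
      field_simp
      ring
    rw [e2, div_pow, div_le_div_iff₀ (by positivity) (by positivity)]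
    nlinarith [c8]
  · unfold rv
    have e3 : (d : ℝ) / 10 ^ 4 + (C : ℝ) / 10 ^ 4 * (((m : ℝ) / 10 ^ 4 + (p.e' : ℝ) / 2 ^ 40) ^ 2 + (p.e' : ℝ) / 2 ^ 40) =
        (((d : ℝ) * 10 ^ 8) * 2 ^ 80 + (C : ℝ) * (((m : ℝ) * 2 ^ 40 + (p.e' : ℝ) * 10000) ^ 2 +
      (p.e' : ℝ) * 10 ^ 8 * 2 ^ 40)) / (10 ^ 12 * 2 ^ 80) := by
      field_simp
      ring
    rw [e3, div_le_div_iff₀ (by positivity) (by positivity)]
    nlinarith [c10]

/-- the far piece -/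
theorem far_of_farB {p : Pc} {c0 : ℤ} (h : farB p c0 = true) :
    (2 / 25 : ℝ) ∈ Icc (rv p.lo) (rv p.hi) ∧ ∀ h : ℂ, ‖h‖ ≤ rv p.e' →
      25 / 2 < ‖tp p.c p.lam (2 / 25 - rv p.a) h‖ := by
  simp only [farB, Bool.and_eq_true, decide_eq_true_eq] at h
  obtain ⟨⟨⟨⟨g1, g2⟩, g3⟩, g4⟩, g5⟩ := h
  refine ⟨icc_of g1 g2, fun h hh => ?_⟩
  have c3 : (0 : ℝ) ≤ c0 := by exact_mod_cast g3
  have c4 : (c0 : ℝ) ^ 2 * 2 ^ 80 ≤ ((p.cx : ℝ) ^ 2 + (p.cy : ℝ) ^ 2) * 10 ^ 8 := by exact_mod_cast g4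
  have c5 : (125000 : ℝ) * (25 * 2 ^ 80) < (c0 : ℝ) * (25 * 2 ^ 80 + (p.lx : ℝ) * (sn p : ℝ) - 25 * 2 ^ 40 * (p.e' : ℝ)) := by
    exact_mod_cast g5
  refine tp_far (c0 := (c0 : ℝ) / 10 ^ 4) hh (by positivity) ?_ ?_
  · refine le_of_sq_le_sq ?_ (norm_nonneg _)
    rw [Pc.c, norm_cv_sq, div_pow, div_le_div_iff₀ (by positivity) (by positivity)]
    nlinarith [c4]
  · have e1 : p.lam.re = (p.lx : ℝ) / 2 ^ 40 := rfl
    rw [s_eq, e1]
    unfold rv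
    have e3 : (c0 : ℝ) / 10 ^ 4 * (1 + (p.lx : ℝ) / 2 ^ 40 * ((sn p : ℝ) / (25 * 2 ^ 40)) - (p.e' : ℝ) / 2 ^ 40) =
        ((c0 : ℝ) * (25 * 2 ^ 80 + (p.lx : ℝ) * (sn p : ℝ) - 25 * 2 ^ 40 * (p.e' : ℝ))) / (10 ^ 4 * (25 * 2 ^ 80)) := by
      field_simp
    rw [e3, lt_div_iff₀ (by positivity)]
    nlinarith [c5]

/-! ### The data: `(x, X, Y, E, C, m, d)` for the eleven pieces over `α = 2/25`, and the twelfth piece -/

/-- the table -/
def w4tab : List (ℕ × ℤ × ℤ × ℤ × ℤ × ℤ × ℤ) :=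
  [(2262884109104968867121154064841464073902688613036660002002447463323496835868909558318164019281365088942596090460, -13352, -52910, 410, 54325, 46, 2),
   (2855202345372199688489580657908822957956107083016145364247495333913509611948727859893337305729956257690865894343, -28321, -55054, 465, 61758, 27, 1),
   (2637570865640006967150934474599181643655834399456685931747071809741755151734204587923504254791804046195744637545, -42235, -54015, 515, 68354, 37, 1),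
   (2680335259834386466598232306695736950701658002185489082779985863520975452075541179227373307479287393417317049212, -55405, -50504, 563, 74756, 37, 1),
   (3057768849680050939775876710985577685432735860312663273987402396840954226532056634263546487268070831228598940076, -67789, -44839, 610, 81182, 18, 1),
   (2704553369440079810135024297421298092742155852377606657639496174976085169037090293264842275899011642520381795934, -79257, -37230, 657, 87442, 24, 1),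
   (2379041309274128136758895364207153797371027704778202765912056793147070293064535546073967274910835202997654563989, -89653, -27853, 705, 93503, 76, 3),
   (2352539509594590892421459681405407458607690148056566952600649335207073042576800844119489786201525967593373341328, -98820, -16877, 752, 99859, 85, 4),
   (2378609917498715402321924300903714730186819260943393545591097962839181763688449063001441642814337956163540416889, -106602, -4472, 801, 106314, 89, 5),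
   (2675763423434565929298607596375346909590777702521611567504743293450476988124265904303509672494122612191194332682, -112857, 9187, 850, 113171, 15, 1),
   (2146755913910189632016575309016489503405322968667417473715801383536471836644965274342722960844453120344477602175, -117445, 23918, 899, 119409, 122, 9)]

/-- the twelfth piece -/
def w4far : ℕ := 2551103797644510639792788540065957818801336016140614079439944679734108216587942158747021859753435167377063183187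

/-- the packed piece `k` over `α = 2/25` -/
def w4x (k : ℕ) : ℕ := if k < 11 then (w4tab.getD k (0, 0, 0, 0, 0, 0, 0)).1 else w4far

/-- the centre of the disc `k` -/
noncomputable def w4z (k : ℕ) : ℂ :=
  ⟨((w4tab.getD k (0, 0, 0, 0, 0, 0, 0)).2.1 : ℝ) / 10 ^ 4, ((w4tab.getD k (0, 0, 0, 0, 0, 0, 0)).2.2.1 : ℝ) / 10 ^ 4⟩

/-- the radius of the disc `k` -/
noncomputable def w4e (k : ℕ) : ℝ := ((w4tab.getD k (0, 0, 0, 0, 0, 0, 0)).2.2.2.1 : ℝ) / 10 ^ 4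

/-- the check of a line of the table -/
def w4chk (t : ℕ × ℤ × ℤ × ℤ × ℤ × ℤ × ℤ) : Bool :=
  nearB (Pc.dec t.1) t.2.1 t.2.2.1 t.2.2.2.1 t.2.2.2.2.1 t.2.2.2.2.2.1 t.2.2.2.2.2.2

theorem w4tab_ok : w4tab.all w4chk = true := by decide +kernel

theorem w4far_ok : farB (Pc.dec w4far) 126434 = true := by decide +kernel

theorem w4data {L : ℕ → List ℕ} (hx : ∀ k < 12, w4x k ∈ L k) : W4Data L w4z w4e := by
  refine ⟨fun k hk => ?_, ?_⟩
  · have hlen : k < w4tab.length := hk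
    have h1 : w4chk (w4tab.getD k (0, 0, 0, 0, 0, 0, 0)) = true := by
      have h2 := List.all_eq_true.1 w4tab_ok
      rw [List.getD_eq_getElem _ _ hlen]
      exact h2 _ (List.getElem_mem _)
    have hxk := hx k (by omega)
    have e1 : w4x k = (w4tab.getD k (0, 0, 0, 0, 0, 0, 0)).1 := if_pos hk
    rw [e1] at hxk
    exact ⟨_, hxk, near_of_nearB h1⟩
  · have hxk := hx 11 (by norm_num)
    exact ⟨_, hxk, far_of_farB w4far_ok⟩

/-- **W4, the location of the zeros**: `F(z; e^(2i/25)) = 0`, `|z| ≤ 25/2`. -/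
theorem w4zeros {R0 U lo hi hi' : ℤ} {n fuel : ℕ} {L : ℕ → List ℕ} (S : ListsOK R0 U lo hi hi' n fuel L)
    (hn : 12 ≤ n) (hR0 : 25 / 2 < rv R0) (hlo : rv lo ≤ 2 / 25)
    (H : ∀ α r : ℝ, 2 / 25 ≤ α → α ≤ Real.pi → rv R0 ≤ r → Dist α r) (hx : ∀ k < 12, w4x k ∈ L k) :
    ∀ z : ℂ, F (qa (2 / 25)) z = 0 → ‖z‖ ≤ 25 / 2 → ∃ k < 11, ‖z - w4z k‖ ≤ w4e k :=
  H50_of S hn hR0 hlo H (w4data hx)

end SokalTI
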